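import Pool.Agent.W_448rot_h96.Count

/-!
# Comparison of the exponents; the unnatural pendant does not exist
-/

namespace Pool.Agent.GaussRot

set_option linter.unusedSectionVars false

open Finset Pool.Agent.GaussPoset

universe u

variable {P : Type u} [Fintype P] [PartialOrder P] [DecidableEq P]
variable {k : Bool} {m L : ℕ} {e : ℕ → ℕ → P} {ch y : ℕ → P} {wf : P}

/-- number of cells of level `jj + 1`: the cells `(i, jj + 1 - i)`, `1 ≤ i ≤ m`, and `(0, jj+1)` if
`jj + 2 ≤ L` -/
theorem ref_count (hL : jj k m + 1 ≤ L) (hm : 3 ≤ m) :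
    ((Rs k m L).filter (fun p => p.i + p.c + 1 = jj k m + 2)).card =
      m + if jj k m + 2 ≤ L then 1 else 0 := by
  have hcard : ((Rs k m L).filter (fun p => p.i + p.c + 1 = jj k m + 2)).card =
      (if jj k m + 2 ≤ L then range (m + 1) else Icc 1 m).card := by
    refine Finset.card_nbij' (fun p : Cell => p.i) (fun i => (⟨i, jj k m + 1 - i⟩ : Cell))
      ?_ ?_ ?_ ?_
    · intro p hp
      rw [mem_coe, mem_filter, mem_Rs] at hp
      rw [mem_coe]
      obtain ⟨⟨h1, h2⟩, h3⟩ := hp
      have h4 : p.i ≤ m := by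
        cases k
        · rwa [reg_false] at h1
        · rw [reg_true] at h1
          rw [jj_true] at h3
          omega
      simp only
      split_ifs with h5
      · rw [mem_range]
        omega
      · rw [mem_Icc]
        omega
    · intro i hi
      rw [mem_coe] at hi
      rw [mem_coe, mem_filter, mem_Rs]
      have h1 : i ≤ m ∧ (jj k m + 1 - i < L) ∧ i ≤ jj k m + 1 := by
        have h0 : m ≤ jj k m := by
          cases k
          · rw [jj_false]
          · rw [jj_true]; omega
        split_ifs at hi with h5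
        · rw [mem_range] at hi
          omega
        · rw [mem_Icc] at hi
          omega
      refine ⟨⟨?_, h1.2.1⟩, ?_⟩
      · cases k
        · rw [reg_false]
          exact h1.1
        · rw [reg_true, jj_true]
          simp only
          omega
      · simp only
        omega
    · intro p hp
      rw [mem_coe, mem_filter] at hp
      refine Cell.ext rfl ?_
      simp only
      omega
    · intro i hi
      rfl
  rw [hcard]
  split_ifs with h
  · rw [card_range]
  · rw [Nat.card_Icc]
    omega

/-- an element of type `{0}` exists if and only if `jj + 2 ≤ L`: it is `ch (jj+1)` -/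
theorem Data.typ_zero (h : Data k m e L ch y wf) :
    (∃ w, Typ k m e w {0}) ↔ jj k m + 2 ≤ L := by
  constructor
  · rintro ⟨w, hw⟩
    have hst : St k m e w := by
      refine ⟨by rw [hw.1]; omega, fun i h1 h2 h3 => ?_⟩
      have hlt : w < e i (jj k m - i) := by
        refine lt_of_le_of_ne h3 fun heq => ?_
        have h4 := h.hT.lev_e i (jj k m - i) (reg_x h2).1 (reg_x h2).2.le
        rw [← heq, hw.1, (reg_x h2).2] at h4
        omega
      have h5 := (hw.2 i h2).1 hlt
      rw [mem_singleton] at h5
      omega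
    by_cases hL : L ≤ lev w
    · exact h.hC.br w hst hL
    · rw [hw.1] at hL
      omega
  · intro hL
    refine ⟨ch (jj k m + 1), h.hC.lev_ch _ (by omega), fun i hi => ?_⟩
    rw [mem_singleton]
    constructor
    · intro h1
      by_contra h0
      exact (h.hC.st_ch (jj k m + 1) (by omega) (by omega)).2 i (by omega) hi h1.le
    · rintro rfl
      have h1 : ch (jj k m) = e 0 (jj k m) := h.hC.ch_eq _ le_rfl
      rw [Nat.sub_zero, ← h1]
      refine lt_of_le_of_ne ((h.hC.above _ (by omega) _).2 ⟨jj k m, by omega, rfl⟩) fun heq => ?_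
      have h2 := h.hC.lev_ch (jj k m + 1) (by omega)
      have h3 := h.hC.lev_ch (jj k m) (by omega)
      rw [heq, h3] at h2
      omega

/-- There is no element of type `{1}`.  The elements of level `jj + 1` are: `y i`, `2 ≤ i ≤ m`, `wf`,
at most one of type `{0}` (exists iff `jj + 2 ≤ L`, `Data.typ_zero`), and at most one of type `{1}`;
these are different (`Typ.inter`), so their number is `m + [jj + 2 ≤ L] + [type {1} exists]`.  By
`Data.exps` with `l = jj + 2` and `ref_count` it is `m + [jj + 2 ≤ L]`. -/
theorem Data.no_one (h : Data k m e L ch y wf) : ∀ w, ¬ Typ k m e w {1} := by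
  intro w1 h1
  have hm := h.hm
  have hcount := h.exps (jj k m + 2) (by omega)
  rw [ref_count h.hC.hL hm] at hcount
  obtain ⟨w0, hw0⟩ : ∃ w0 : P, jj k m + 2 ≤ L → Typ k m e w0 {0} := by
    by_cases hL : jj k m + 2 ≤ L
    · obtain ⟨w, hw⟩ := h.typ_zero.mpr hL
      exact ⟨w, fun _ => hw⟩
    · exact ⟨wf, fun h' => absurd h' hL⟩
  obtain ⟨S, hSc, hSi⟩ : ∃ S : Finset ℕ, S.card = m + 1 + (if jj k m + 2 ≤ L then 1 else 0) ∧
      ∀ i ∈ S, i ≤ m + 1 ∧ (i = 0 → jj k m + 2 ≤ L) := by
    by_cases hL : jj k m + 2 ≤ L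
    · refine ⟨range (m + 2), ?_, fun i hi => ⟨?_, fun _ => hL⟩⟩
      · rw [card_range, if_pos hL]
      · rw [mem_range] at hi
        omega
    · refine ⟨Icc 1 (m + 1), ?_, fun i hi => ?_⟩
      · rw [Nat.card_Icc, if_neg hL]
        omega
      · rw [mem_Icc] at hi
        exact ⟨hi.2, fun h0 => by omega⟩
  let W : ℕ → P := fun i =>
    if i = 0 then w0 else if i = 1 then w1 else if i = m + 1 then wf else y i
  have hW : ∀ i ∈ S, lev (W i) = jj k m + 1 ∧ ∀ a ≤ m, (W i < e a (jj k m - a) ↔
      ((i = 0 ∧ a = 0) ∨ (i = 1 ∧ a = 1) ∨ (2 ≤ i ∧ i ≤ m ∧ (a + 1 = i ∨ a = i)) ∨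
        (i = m + 1 ∧ (a = 0 ∨ a = m)))) := by
    intro i hi
    obtain ⟨hi1, hi2⟩ := hSi i hi
    by_cases e0 : i = 0
    · have hWi : W i = w0 := if_pos e0
      have ht := hw0 (hi2 e0)
      rw [hWi]
      refine ⟨ht.1, fun a ha => ?_⟩
      rw [ht.2 a ha, mem_singleton]
      omega
    · by_cases e1 : i = 1
      · have hWi : W i = w1 := by
          change (if i = 0 then w0 else if i = 1 then w1 else if i = m + 1 then wf else y i) = w1
          rw [if_neg e0, if_pos e1]
        rw [hWi]
        refine ⟨h1.1, fun a ha => ?_⟩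
        rw [h1.2 a ha, mem_singleton]
        omega
      · by_cases e2 : i = m + 1
        · have hWi : W i = wf := by
            change (if i = 0 then w0 else if i = 1 then w1 else if i = m + 1 then wf else y i)
              = wf
            rw [if_neg e0, if_neg e1, if_pos e2]
          rw [hWi]
          refine ⟨h.hw.1, fun a ha => ?_⟩
          rw [h.hw.2 a ha, mem_insert, mem_singleton]
          omega
        · have hWi : W i = y i := by
            change (if i = 0 then w0 else if i = 1 then w1 else if i = m + 1 then wf else y i)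
              = y i
            rw [if_neg e0, if_neg e1, if_neg e2]
          have ht := h.hy i (by omega) (by omega)
          rw [hWi]
          refine ⟨ht.1, fun a ha => ?_⟩
          rw [ht.2 a ha, mem_insert, mem_singleton]
          omega
  have hinj : Set.InjOn W (S : Set ℕ) := by
    intro i hi i' hi' hii
    rw [mem_coe] at hi hi'
    obtain ⟨-, hA⟩ := hW i hi
    obtain ⟨-, hB⟩ := hW i' hi'
    rw [← hii] at hB
    have key : ∀ a ≤ m, (((i = 0 ∧ a = 0) ∨ (i = 1 ∧ a = 1) ∨
        (2 ≤ i ∧ i ≤ m ∧ (a + 1 = i ∨ a = i)) ∨ (i = m + 1 ∧ (a = 0 ∨ a = m))) ↔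
        ((i' = 0 ∧ a = 0) ∨ (i' = 1 ∧ a = 1) ∨ (2 ≤ i' ∧ i' ≤ m ∧ (a + 1 = i' ∨ a = i')) ∨
        (i' = m + 1 ∧ (a = 0 ∨ a = m)))) := fun a ha => (hA a ha).symm.trans (hB a ha)
    have b1 := (hSi i hi).1
    have b2 := (hSi i' hi').1
    have k0 := key 0 (by omega)
    have k1 := key 1 (by omega)
    have k2 := key m le_rfl
    by_cases c1 : i ≤ m
    · have k3 := key i c1
      by_cases c2 : i' ≤ m
      · have k4 := key i' c2
        omega
      · omega
    · by_cases c2 : i' ≤ m
      · have k4 := key i' c2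
        omega
      · omega
  have hsub : S.image W ⊆ (univ : Finset P).filter (fun x => lev x + 1 = jj k m + 2) := by
    intro z hz
    obtain ⟨i, hi, rfl⟩ := mem_image.mp hz
    rw [mem_filter]
    refine ⟨mem_univ _, ?_⟩
    rw [(hW i hi).1]
  have hle := card_le_card hsub
  rw [card_image_of_injOn hinj, hSc, hcount] at hle
  omega

end Pool.Agent.GaussRot
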