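import Pool.Agent.W_448rot_h96.SmallP
import Pool.Agent.W_448rot_h96.CountB

/-!
# Straight rotations are impossible
-/

namespace Pool.Agent.GaussRot

set_option linter.unusedSectionVars false

open Finset Pool.Agent.GaussPoset

universe u

variable {P : Type u} [Fintype P] [PartialOrder P] [DecidableEq P]
variable {m L : ℕ} {e : ℕ → ℕ → P} {ch y : ℕ → P} {wf : P}

lemma CoeffP_wf (h : Data false m e L ch y wf) :
    wf ∉ (CC false m L).image (eps false m e ch y) ∪ TT false m e L := by
  have hm := h.hm
  have h0 := (h.hw.2 0 (Nat.zero_le _)).2 (by simp)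
  have hmm := (h.hw.2 m le_rfl).2 (by simp)
  have hlw := h.hw.1
  have hst : ¬ St false m e wf := fun hs => hs.2 m (by omega) le_rfl hmm.le
  rw [mem_union, not_or]
  refine ⟨fun hi => ?_, fun ht => hst (mem_TT.1 ht).1⟩
  obtain ⟨p, hp, hpw⟩ := mem_image.1 hi
  have hlev := h.lev_eps hp
  rw [hpw, hlw, jj_false] at hlev
  rw [mem_CC, jj_false] at hp
  obtain ⟨⟨hr, hL⟩, hp⟩ := hp
  have hr' := reg_false.1 hr
  unfold eps at hpw
  rw [jj_false, if_neg (by omega)] at hpw
  split_ifs at hpw with h1
  · refine hst ?_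
    rw [← hpw]
    exact h.hC.st_ch _ hL (by rw [jj_false]; omega)
  · have h3 := h.hy p.i (by omega) hr'
    rw [hpw] at h3
    have h4 := (h3.2 0 (Nat.zero_le _)).1 h0
    rw [mem_insert, mem_singleton] at h4
    omega

/-- values of the terms -/
lemma CoeffP_term (h : Data false m e L ch y wf) {G : Finset P} (hG : G ∈ J (univ : Finset P))
    (hn : ¬ G ⊆ (CC false m L).image (eps false m e ch y) ∪ TT false m e L) :
    (G = upF (univ : Finset P) wf ∧ PowerSeries.coeff (2 * m + 5) (PowerSeries.X ^ G.card *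
        EE (AF (Rs false m L)) (U1 (Rs false m L)) G) = 2) ∨
    (G.card = 2 * m + 3 ∧ PowerSeries.coeff (2 * m + 5) (PowerSeries.X ^ G.card *
        EE (AF (Rs false m L)) (U1 (Rs false m L)) G) = 1) ∨
    (2 * m + 4 ≤ G.card ∧ PowerSeries.coeff (2 * m + 5) (PowerSeries.X ^ G.card *
        EE (AF (Rs false m L)) (U1 (Rs false m L)) G) = 0) := by
  have hEE := h.EE_false hG hn
  have hwf := h.EE_wf
  obtain ⟨z, hzG, hz⟩ := not_subset.1 hn
  have hszG := sz_le_card hG hzG
  by_cases h1 : 2 * m + 4 ≤ G.card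
  · refine Or.inr (Or.inr ⟨h1, ?_⟩)
    rw [PowerSeries.coeff_X_pow_mul']
    split_ifs with h2
    · rw [cg_iff_coeff.1 hEE _ (by omega), PowerSeries.coeff_X_pow, if_neg (by omega)]
    · rfl
  · by_cases h2 : G.card = 2 * m + 3
    · refine Or.inr (Or.inl ⟨h2, ?_⟩)
      rw [PowerSeries.coeff_X_pow_mul', if_pos (by omega), h2,
        show 2 * m + 5 - (2 * m + 3) = 2 by omega, cg_iff_coeff.1 hEE 2 (by norm_num),
        PowerSeries.coeff_X_pow, if_pos rfl]
    · rcases h.sz_out_false h.no_one hz with h3 | h3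
      · have h4 := h.sz_wf_false
        rw [h3] at hszG hzG
        have h5 := upF_subset hG hzG
        have h6 : upF (univ : Finset P) wf = G := by
          refine eq_of_subset_of_card_le h5 ?_
          unfold sz at h4
          omega
        refine Or.inl ⟨h6.symm, ?_⟩
        have h7 : G.card = 2 * m + 2 := by
          rw [← h6]; exact h4
        rw [h6] at hwf
        rw [PowerSeries.coeff_X_pow_mul', if_pos (by omega), h7,
          show 2 * m + 5 - (2 * m + 2) = 3 by omega, cg_iff_coeff.1 hwf 3 (by norm_num),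
          two_mul, map_add, map_add, PowerSeries.coeff_X_pow, PowerSeries.coeff_X_pow,
          if_neg (by norm_num), if_pos rfl]
        norm_num
      · omega

lemma CoeffP_wf_mem : wf ∈ upF (univ : Finset P) wf := mem_upF.2 ⟨mem_univ _, le_rfl⟩

/-- adding an element to the filter generated by the new element -/
lemma CoeffP_insert (h : Data false m e L ch y wf) {v : P} (hv : v ∉ upF (univ : Finset P) wf)
    (hup : ∀ z, v ≤ z → z = v ∨ z ∈ upF (univ : Finset P) wf) :
    insert v (upF (univ : Finset P) wf) ∈ J (univ : Finset P) ∧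
      ¬ insert v (upF (univ : Finset P) wf) ⊆
        (CC false m L).image (eps false m e ch y) ∪ TT false m e L ∧
      (insert v (upF (univ : Finset P) wf)).card = 2 * m + 3 := by
  have h4 := h.sz_wf_false
  unfold sz at h4
  refine ⟨?_, fun hs => CoeffP_wf h (hs (mem_insert_of_mem CoeffP_wf_mem)), ?_⟩
  · rw [mem_J]
    refine ⟨subset_univ _, fun x hx z _ hxz => ?_⟩
    rw [mem_insert] at hx ⊢
    rcases hx with rfl | hx
    · exact hup z hxz
    · exact Or.inr (mem_upF.2 ⟨mem_univ _, (mem_upF.1 hx).2.trans hxz⟩)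
  · rw [card_insert_of_notMem hv, h4]

/-- Rectangle, poset side: all sets `G` have `|G| ≥ 2m + 2` with equality only for the filter
generated by `wf` (`Data.sz_out_false`, `Data.no_one`, `Data.sz_wf_false`), coefficient `2` of
`X^3` in `EE` (`Data.EE_wf`); the sets with `|G| = 2m + 3` contribute `1` each (`Data.EE_false`),
among them the filter generated by `wf` plus `e 1 1` and, if `m + 2 ≤ L`, plus `ch (m+1)`; the
larger ones contribute nothing. -/
theorem Data.coeff_false (h : Data false m e L ch y wf) :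
    3 + (if m + 2 ≤ L then 1 else 0) ≤
    PowerSeries.coeff (2 * m + 5)
      (Phi (AF (Rs false m L)) (U1 (Rs false m L)) (univ : Finset P) -
        Phi (AF (Rs false m L)) (U1 (Rs false m L))
          ((CC false m L).image (eps false m e ch y) ∪ TT false m e L)) := by
  classical
  have hm := h.hm
  have hT := h.hT
  rw [Phi_diff _ _ h.union_mem_J, map_sum]
  have hnn : ∀ G ∈ (J (univ : Finset P)).filter (fun G => ¬ G ⊆
      (CC false m L).image (eps false m e ch y) ∪ TT false m e L),
      0 ≤ PowerSeries.coeff (2 * m + 5) (PowerSeries.X ^ G.card *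
        EE (AF (Rs false m L)) (U1 (Rs false m L)) G) := by
    intro G hG
    rw [mem_filter] at hG
    rcases CoeffP_term h hG.1 hG.2 with h1 | h1 | h1
    · rw [h1.2]; norm_num
    · rw [h1.2]; norm_num
    · rw [h1.2]
  -- the three sets
  have hc0 := h.sz_wf_false
  unfold sz at hc0
  have hF0 : upF (univ : Finset P) wf ∈ (J (univ : Finset P)).filter (fun G => ¬ G ⊆
      (CC false m L).image (eps false m e ch y) ∪ TT false m e L) :=
    mem_filter.2 ⟨upF_mem_J _ _, fun hs => CoeffP_wf h (hs CoeffP_wf_mem)⟩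
  have ht0 : PowerSeries.coeff (2 * m + 5) (PowerSeries.X ^ (upF (univ : Finset P) wf).card *
        EE (AF (Rs false m L)) (U1 (Rs false m L)) (upF (univ : Finset P) wf)) = 2 := by
    rw [mem_filter] at hF0
    rcases CoeffP_term h hF0.1 hF0.2 with h1 | h1 | h1
    · exact h1.2
    · omega
    · omega
  have hl11 : lev (e 1 1) = 2 := hT.lev_e 1 1 (reg_false.2 (by omega)) (by rw [jj_false]; omega)
  have hv1 : e 1 1 ∉ upF (univ : Finset P) wf := by
    intro hv
    rcases (h.up_wf_false _).1 (mem_upF.1 hv).2 with h1 | ⟨c, hc, h1⟩ | ⟨i, hi, h1⟩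
    · have h2 := h.hw.1
      rw [← h1, hl11, jj_false] at h2
      omega
    · have h2 := SizesP_inj hT (reg_false.2 (by omega)) (by rw [jj_false]; omega)
        (reg_false.2 (by omega)) (by rw [jj_false]; omega) h1
      omega
    · have h2 := SizesP_inj hT (reg_false.2 (by omega)) (by rw [jj_false]; omega)
        (reg_false.2 (by omega)) (by rw [jj_false]; omega) h1
      omega
  have hup1 : ∀ z, e 1 1 ≤ z → z = e 1 1 ∨ z ∈ upF (univ : Finset P) wf := by
    intro z hz
    have hlz : lev z ≤ 2 := by
      rcases eq_or_lt_of_le hz with h1 | h1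
      · rw [← h1, hl11]
      · have h2 := lev_strictAnti h1
        omega
    obtain ⟨i, c, hr, hic, rfl⟩ := hT.surj z (by rw [jj_false]; omega)
    have h2 := (hT.le_iff 1 1 i c (reg_false.2 (by omega)) (by rw [jj_false]; omega) hr hic).1 hz
    obtain ⟨h3, h4⟩ := h2
    by_cases hi : i = 0
    · refine Or.inr (mem_upF.2 ⟨mem_univ _, (h.up_wf_false _).2 (Or.inr (Or.inl
        ⟨c, by omega, by rw [hi]⟩))⟩)
    · by_cases hc : c = 0
      · refine Or.inr (mem_upF.2 ⟨mem_univ _, (h.up_wf_false _).2 (Or.inr (Or.inr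
          ⟨i, by omega, by rw [hc]⟩))⟩)
      · left
        rw [show i = 1 by omega, show c = 1 by omega]
  obtain ⟨hJ1, hn1, hc1⟩ := CoeffP_insert h hv1 hup1
  have ht1 : PowerSeries.coeff (2 * m + 5)
      (PowerSeries.X ^ (insert (e 1 1) (upF (univ : Finset P) wf)).card *
        EE (AF (Rs false m L)) (U1 (Rs false m L)) (insert (e 1 1) (upF (univ : Finset P) wf)))
        = 1 := by
    rcases CoeffP_term h hJ1 hn1 with h1 | h1 | h1
    · exact absurd (h1.1 ▸ mem_insert_self _ _) hv1
    · exact h1.2
    · omega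
  have h01 : upF (univ : Finset P) wf ≠ insert (e 1 1) (upF (univ : Finset P) wf) := by
    intro h1
    rw [← h1, hc0] at hc1
    omega
  by_cases hL2 : m + 2 ≤ L
  · rw [if_pos hL2]
    have hlc : lev (ch (m + 1)) = m + 1 := h.hC.lev_ch _ (by omega)
    have hv2 : ch (m + 1) ∉ upF (univ : Finset P) wf := by
      intro hv
      rcases (h.up_wf_false _).1 (mem_upF.1 hv).2 with h1 | ⟨c, hc, h1⟩ | ⟨i, hi, h1⟩
      · refine CoeffP_wf h ?_
        rw [← h1, mem_union]
        left
        refine mem_image.2 ⟨⟨0, m + 1⟩, ?_, ?_⟩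
        · rw [mem_CC]
          refine ⟨⟨reg_zero _, ?_⟩, Or.inr (Or.inl rfl)⟩
          change m + 1 < L
          omega
        · unfold eps
          rw [if_neg (by rw [jj_false]; change ¬ (0 + (m + 1) ≤ m); omega), if_pos rfl]
      · have h2 := hT.lev_e 0 c (reg_zero _) (by rw [jj_false]; omega)
        rw [← h1, hlc] at h2
        omega
      · have h2 := hT.lev_e i 0 (reg_false.2 hi) (by rw [jj_false]; omega)
        rw [← h1, hlc] at h2
        omega
    have hup2 : ∀ z, ch (m + 1) ≤ z → z = ch (m + 1) ∨ z ∈ upF (univ : Finset P) wf := by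
      intro z hz
      obtain ⟨c, hc, rfl⟩ := (h.hC.above (m + 1) (by omega) z).1 hz
      by_cases hcm : c = m + 1
      · left; rw [hcm]
      · right
        rw [h.hC.ch_eq c (by rw [jj_false]; omega)]
        exact mem_upF.2 ⟨mem_univ _, (h.up_wf_false _).2 (Or.inr (Or.inl ⟨c, by omega, rfl⟩))⟩
    obtain ⟨hJ2, hn2, hc2⟩ := CoeffP_insert h hv2 hup2
    have ht2 : PowerSeries.coeff (2 * m + 5)
        (PowerSeries.X ^ (insert (ch (m + 1)) (upF (univ : Finset P) wf)).card *
          EE (AF (Rs false m L)) (U1 (Rs false m L))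
            (insert (ch (m + 1)) (upF (univ : Finset P) wf))) = 1 := by
      rcases CoeffP_term h hJ2 hn2 with h1 | h1 | h1
      · exact absurd (h1.1 ▸ mem_insert_self _ _) hv2
      · exact h1.2
      · omega
    have h02 : upF (univ : Finset P) wf ≠ insert (ch (m + 1)) (upF (univ : Finset P) wf) := by
      intro h1
      rw [← h1, hc0] at hc2
      omega
    have h12 : insert (e 1 1) (upF (univ : Finset P) wf) ≠
        insert (ch (m + 1)) (upF (univ : Finset P) wf) := by
      intro h1
      have h2 : e 1 1 ∈ insert (ch (m + 1)) (upF (univ : Finset P) wf) :=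
        h1 ▸ mem_insert_self _ _
      rcases mem_insert.1 h2 with h3 | h3
      · rw [h3, hlc] at hl11
        omega
      · exact hv1 h3
    have hsub : ({upF (univ : Finset P) wf, insert (e 1 1) (upF (univ : Finset P) wf),
        insert (ch (m + 1)) (upF (univ : Finset P) wf)} : Finset (Finset P)) ⊆
        (J (univ : Finset P)).filter (fun G => ¬ G ⊆
          (CC false m L).image (eps false m e ch y) ∪ TT false m e L) := by
      intro G hG
      rw [mem_insert, mem_insert, mem_singleton] at hG
      rcases hG with rfl | rfl | rfl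
      · exact hF0
      · exact mem_filter.2 ⟨hJ1, hn1⟩
      · exact mem_filter.2 ⟨hJ2, hn2⟩
    refine le_trans (le_of_eq ?_) (sum_le_sum_of_subset_of_nonneg hsub fun G hG _ => hnn G hG)
    rw [sum_insert, sum_insert, sum_singleton, ht0, ht1, ht2]
    · norm_num
    · rw [mem_singleton]; exact h12
    · rw [mem_insert, mem_singleton, not_or]; exact ⟨h01, h02⟩
  · rw [if_neg hL2]
    have hsub : ({upF (univ : Finset P) wf, insert (e 1 1) (upF (univ : Finset P) wf)} :
        Finset (Finset P)) ⊆ (J (univ : Finset P)).filter (fun G => ¬ G ⊆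
          (CC false m L).image (eps false m e ch y) ∪ TT false m e L) := by
      intro G hG
      rw [mem_insert, mem_singleton] at hG
      rcases hG with rfl | rfl
      · exact hF0
      · exact mem_filter.2 ⟨hJ1, hn1⟩
    refine le_trans (le_of_eq ?_) (sum_le_sum_of_subset_of_nonneg hsub fun G hG _ => hnn G hG)
    rw [sum_insert, sum_singleton, ht0, ht1]
    · norm_num
    · rw [mem_singleton]; exact h01

/-- Shifted case, poset side: all sets `G` have `|G| ≥ 4m + 2` (`Data.sz_out_true`,
`Data.no_one`) and `EE G = O(X^3)` (`Data.EE_true`). -/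
theorem Data.coeff_true (h : Data true m e L ch y wf) :
    PowerSeries.coeff (4 * m + 4)
      (Phi (AF (Rs true m L)) (U1 (Rs true m L)) (univ : Finset P) -
        Phi (AF (Rs true m L)) (U1 (Rs true m L))
          ((CC true m L).image (eps true m e ch y) ∪ TT true m e L)) = 0 := by
  classical
  rw [Phi_diff _ _ h.union_mem_J, map_sum]
  refine sum_eq_zero fun G hG => ?_
  rw [mem_filter] at hG
  obtain ⟨hG, hn⟩ := hG
  have hEE := h.EE_true hG hn
  obtain ⟨z, hzG, hz⟩ := not_subset.1 hn
  have h1 := h.sz_out_true h.no_one hz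
  have h2 := sz_le_card hG hzG
  rw [PowerSeries.coeff_X_pow_mul']
  split_ifs with h3
  · rw [cg_iff_coeff.1 hEE _ (by omega), map_zero]
  · rfl

end Pool.Agent.GaussRot
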