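import Pool.Agent.W_448rot_h96.FirstOrder

/-!
# The first order relation between `A` and `U_1`, and uniqueness of the exponents
-/

namespace Pool.Agent.GaussRot

set_option linter.unusedSectionVars false

open Finset

variable {ι κ : Type*} [DecidableEq ι] [DecidableEq κ]

theorem FirstOrderB_cc {α : Type*} (r : Finset α) (g : α → ℕ) (hg : ∀ i ∈ r, 0 < g i) :
    PowerSeries.constantCoeff (∏ i ∈ r, (1 - (PowerSeries.X : PowerSeries ℤ) ^ (g i))) = 1 := by
  rw [map_prod]
  apply Finset.prod_eq_one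
  intro i hi
  have := hg i hi
  simp [map_sub, map_pow, this.ne']

theorem FirstOrderB_small {α : Type*} (K : ℕ) (r : Finset α) (g : α → ℕ) (hg : ∀ i ∈ r, K ≤ g i) :
    Cg K (∑ i ∈ r, (PowerSeries.X : PowerSeries ℤ) ^ (g i)) 0 := by
  have := Cg.sum (n := K) r (f := fun i => (PowerSeries.X : PowerSeries ℤ) ^ (g i))
    (g := fun _ => 0) (fun i hi => by
      have := cg_X_pow (hg i hi) (1 : PowerSeries ℤ)
      rwa [mul_one] at this)
  rwa [Finset.sum_const_zero] at this

/-- First order relation.  Put `D = ∏_s (1-X^h)`, `N = ∏_s (1-X^(h+1))`, `D'`, `N'` likewise.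
Multiplying by `D * D' * D'` (constant coefficient `1`, `Cg.cancel`) the claim becomes
`(1-X) N' D' - N D' + X N' D = 0` modulo `X^(2K)`.  By `prod_low` we have `D = D0 * D1`,
`D' = D0 * D1'`, `N = N0 * N1`, `N' = N0 * N1'` with `D1, D1', N1, N1'` the products over the
indices with value `≥ K`, and by `prod_high` `D1 = 1 - a`, `D1' = 1 - a'`, `N1 = 1 - X a`,
`N1' = 1 - X a'` modulo `X^(2K)` with `a = ∑ X^(h i)`, `a'` divisible by `X^K`, so that `a a'`,
`a' a'` vanish.  Then `(1-X)(1-Xa')(1-a') - (1-Xa)(1-a') + X(1-Xa')(1-a) = 0` up to products of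
two of the small terms. -/
theorem first_order (s : Finset ι) (t : Finset κ) (h : ι → ℕ) (h' : κ → ℕ)
    (hp : ∀ i ∈ s, 0 < h i) (hp' : ∀ i ∈ t, 0 < h' i) (K : ℕ)
    (hb : ∀ k < K, (s.filter (fun i => h i = k)).card = (t.filter (fun i => h' i = k)).card)
    {A U A' U' : PowerSeries ℤ}
    (hA : A * ∏ i ∈ s, (1 - PowerSeries.X ^ (h i)) = 1)
    (hU : U * ∏ i ∈ s, (1 - PowerSeries.X ^ (h i)) = ∏ i ∈ s, (1 - PowerSeries.X ^ (h i + 1)))
    (hA' : A' * ∏ i ∈ t, (1 - PowerSeries.X ^ (h' i)) = 1)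
    (hU' : U' * ∏ i ∈ t, (1 - PowerSeries.X ^ (h' i)) = ∏ i ∈ t, (1 - PowerSeries.X ^ (h' i + 1))) :
    Cg (2 * K) ((1 - PowerSeries.X) * U' * A - A' * U) (-(PowerSeries.X * A' * U')) := by
  classical
  have hcD := FirstOrderB_cc s h hp
  have hcD' := FirstOrderB_cc t h' hp'
  -- splitting
  have e1 := (Finset.prod_filter_mul_prod_filter_not s (fun i => h i < K)
    (fun i => 1 - (PowerSeries.X : PowerSeries ℤ) ^ (h i)))
  have e2 := (Finset.prod_filter_mul_prod_filter_not t (fun i => h' i < K)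
    (fun i => 1 - (PowerSeries.X : PowerSeries ℤ) ^ (h' i)))
  have e3 := (Finset.prod_filter_mul_prod_filter_not s (fun i => h i < K)
    (fun i => 1 - (PowerSeries.X : PowerSeries ℤ) ^ (h i + 1)))
  have e4 := (Finset.prod_filter_mul_prod_filter_not t (fun i => h' i < K)
    (fun i => 1 - (PowerSeries.X : PowerSeries ℤ) ^ (h' i + 1)))
  have l1 := prod_low s t h h' K hb (fun k => 1 - (PowerSeries.X : PowerSeries ℤ) ^ k)
  have l2 := prod_low s t h h' K hb (fun k => 1 - (PowerSeries.X : PowerSeries ℤ) ^ (k + 1))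
  have g1 := prod_high (s.filter (fun i => ¬ h i < K)) h K
    (fun i hi => not_lt.mp (Finset.mem_filter.mp hi).2)
  have g2 := prod_high (t.filter (fun i => ¬ h' i < K)) h' K
    (fun i hi => not_lt.mp (Finset.mem_filter.mp hi).2)
  have g3 := prod_high (s.filter (fun i => ¬ h i < K)) (fun i => h i + 1) K
    (fun i hi => (not_lt.mp (Finset.mem_filter.mp hi).2).trans (Nat.le_succ _))
  have g4 := prod_high (t.filter (fun i => ¬ h' i < K)) (fun i => h' i + 1) K
    (fun i hi => (not_lt.mp (Finset.mem_filter.mp hi).2).trans (Nat.le_succ _))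
  have s3 : ∑ i ∈ s.filter (fun i => ¬ h i < K), (PowerSeries.X : PowerSeries ℤ) ^ (h i + 1) =
      PowerSeries.X * ∑ i ∈ s.filter (fun i => ¬ h i < K), (PowerSeries.X : PowerSeries ℤ) ^ (h i) := by
    rw [Finset.mul_sum]
    exact Finset.sum_congr rfl fun i _ => by rw [pow_succ']
  have s4 : ∑ i ∈ t.filter (fun i => ¬ h' i < K), (PowerSeries.X : PowerSeries ℤ) ^ (h' i + 1) =
      PowerSeries.X * ∑ i ∈ t.filter (fun i => ¬ h' i < K), (PowerSeries.X : PowerSeries ℤ) ^ (h' i) := by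
    rw [Finset.mul_sum]
    exact Finset.sum_congr rfl fun i _ => by rw [pow_succ']
  rw [s3] at g3
  rw [s4] at g4
  have z1 
    := FirstOrderB_small K (s.filter (fun i => ¬ h i < K)) h
    (fun i hi => not_lt.mp (Finset.mem_filter.mp hi).2)
  have z2 
    := FirstOrderB_small K (t.filter (fun i => ¬ h' i < K)) h'
    (fun i hi => not_lt.mp (Finset.mem_filter.mp hi).2)
  rw [l1] at e1
  rw [l2] at e3
  generalize (∏ i ∈ s, (1 - (PowerSeries.X : PowerSeries ℤ) ^ (h i))) = D at *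
  generalize (∏ i ∈ t, (1 - (PowerSeries.X : PowerSeries ℤ) ^ (h' i))) = D' at *
  generalize (∏ i ∈ s, (1 - (PowerSeries.X : PowerSeries ℤ) ^ (h i + 1))) = N at *
  generalize (∏ i ∈ t, (1 - (PowerSeries.X : PowerSeries ℤ) ^ (h' i + 1))) = N' at *
  generalize (∑ i ∈ s.filter (fun i => ¬ h i < K), (PowerSeries.X : PowerSeries ℤ) ^ (h i)) = a at *
  generalize (∑ i ∈ t.filter (fun i => ¬ h' i < K), (PowerSeries.X : PowerSeries ℤ) ^ (h' i)) = a' at *
  generalize (∏ i ∈ s.filter (fun i => ¬ h i < K), (1 - (PowerSeries.X : PowerSeries ℤ) ^ (h i))) = D1 at *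
  generalize (∏ i ∈ t.filter (fun i => ¬ h' i < K), (1 - (PowerSeries.X : PowerSeries ℤ) ^ (h' i))) = D1' at *
  generalize (∏ i ∈ s.filter (fun i => ¬ h i < K), (1 - (PowerSeries.X : PowerSeries ℤ) ^ (h i + 1))) = N1 at *
  generalize (∏ i ∈ t.filter (fun i => ¬ h' i < K), (1 - (PowerSeries.X : PowerSeries ℤ) ^ (h' i + 1))) = N1' at *
  generalize (∏ i ∈ t.filter (fun i => h' i < K), (1 - (PowerSeries.X : PowerSeries ℤ) ^ (h' i))) = D0 at *
  generalize (∏ i ∈ t.filter (fun i => h' i < K), (1 - (PowerSeries.X : PowerSeries ℤ) ^ (h' i + 1))) = N0 at *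
  apply Cg.cancel (u := D * D' * D')
  · rw [map_mul, map_mul, hcD, hcD']; norm_num
  have t1 : D * D' * D' * ((1 - PowerSeries.X) * U' * A - A' * U) =
      N0 * D0 * ((1 - PowerSeries.X) * N1' * D1' - N1 * D1') := by
    calc D * D' * D' * ((1 - PowerSeries.X) * U' * A - A' * U)
        = (1 - PowerSeries.X) * (U' * D') * (A * D) * D' - (A' * D') * (U * D) * D' := by ring
      _ = _ := by rw [hU', hA, hA', hU, ← e2, ← e3, ← e4]; ring
  have t2 : D * D' * D' * (-(PowerSeries.X * A' * U')) =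
      N0 * D0 * (-(PowerSeries.X * N1' * D1)) := by
    calc D * D' * D' * (-(PowerSeries.X * A' * U'))
        = -(PowerSeries.X * (A' * D') * (U' * D') * D) := by ring
      _ = _ := by rw [hU', hA', ← e1, ← e4]; ring
  rw [t1, t2]
  refine (Cg.refl _ _).mul ?_
  have u1 : Cg (2 * K) ((1 - PowerSeries.X) * N1' * D1' - N1 * D1')
      ((1 - PowerSeries.X) * (1 - PowerSeries.X * a') * (1 - a') - (1 - PowerSeries.X * a) * (1 - a')) :=
    (((Cg.refl _ _).mul g4).mul g2).sub (g3.mul g2)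
  have u2 : Cg (2 * K) (-(PowerSeries.X * N1' * D1))
      (-(PowerSeries.X * (1 - PowerSeries.X * a') * (1 - a))) :=
    (((Cg.refl _ _).mul g4).mul g1).neg
  refine u1.trans (Cg.trans ?_ u2.symm)
  have z3 : Cg K (a' - a) 0 := by
    have := z2.sub z1
    rwa [sub_zero] at this
  have z4 : Cg (2 * K) (a' * (a' - a)) 0 := by
    rw [two_mul]; exact z2.mul_zero' z3
  have z5 := (Cg.refl (2 * K) (PowerSeries.X * (1 - PowerSeries.X))).mul z4
  rw [mul_zero] at z5
  have z6 := z5.add (Cg.refl (2 * K) (-(PowerSeries.X * (1 - PowerSeries.X * a') * (1 - a))))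
  rw [zero_add] at z6
  refine Cg.trans (Cg.of_eq ?_) z6
  ring

end Pool.Agent.GaussRot
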