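import Pool.Agent.W_448rot_h96.FirstOrder

/-!
# The first order relation between `A` and `U_1`, and uniqueness of the exponents
-/

namespace Pool.Agent.GaussRot

set_option linter.unusedSectionVars false

open Finset

variable {ι κ : Type*} [DecidableEq ι] [DecidableEq κ]

theorem FirstOrderC_cc {α : Type*} (r : Finset α) (g : α → ℕ) (hg : ∀ i ∈ r, 0 < g i) :
    PowerSeries.constantCoeff (∏ i ∈ r, (1 - (PowerSeries.X : PowerSeries ℤ) ^ (g i))) = 1 := by
  rw [map_prod]
  apply Finset.prod_eq_one
  intro i hi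
  have := hg i hi
  simp [map_sub, map_pow, this.ne']

theorem FirstOrderC_coeff {α : Type*} [DecidableEq α] (r : Finset α) (g : α → ℕ) (k : ℕ) :
    PowerSeries.coeff k (∑ i ∈ r.filter (fun i => ¬ g i < k), (PowerSeries.X : PowerSeries ℤ) ^ (g i))
      = ((r.filter (fun i => g i = k)).card : ℤ) := by
  rw [map_sum, Finset.card_filter, Finset.sum_filter, Nat.cast_sum]
  refine Finset.sum_congr rfl fun i _ => ?_
  rw [PowerSeries.coeff_X_pow]
  by_cases h1 : g i = k
  · simp [h1]
  · have h2 : ¬ k = g i := fun h => h1 h.symm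
    simp [h1, h2]

/-- Uniqueness of the exponents: if `A` and `A'` agree modulo `X^K` then the values `< K` are
taken equally often.  Then `D = ∏_s (1-X^h)` and `D' = ∏_t (1-X^h')` agree modulo `X^K` (multiply
by `D D'`).  Strong induction on `k < K`: cancel the common product over the values `< k`
(`prod_low`, `Cg.cancel`); modulo `X^(k+1)` the remaining products are `1 - (number of values
equal to k) X^k` (`prod_high` with `K` replaced by `k`, note `k + 1 ≤ 2k` for `k ≥ 1`; `k = 0` is
impossible as the values are positive, both numbers are `0`). -/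
theorem exps_unique (s : Finset ι) (t : Finset κ) (h : ι → ℕ) (h' : κ → ℕ)
    (hp : ∀ i ∈ s, 0 < h i) (hp' : ∀ i ∈ t, 0 < h' i) (K : ℕ) {A A' : PowerSeries ℤ}
    (hA : A * ∏ i ∈ s, (1 - PowerSeries.X ^ (h i)) = 1)
    (hA' : A' * ∏ i ∈ t, (1 - PowerSeries.X ^ (h' i)) = 1) (hc : Cg K A A') :
    ∀ k < K, (s.filter (fun i => h i = k)).card = (t.filter (fun i => h' i = k)).card := by
  classical
  have hDD : Cg K (∏ i ∈ s, (1 - (PowerSeries.X : PowerSeries ℤ) ^ (h i)))
      (∏ i ∈ t, (1 - (PowerSeries.X : PowerSeries ℤ) ^ (h' i))) := by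
    have h1 := hc.mul (Cg.refl K ((∏ i ∈ s, (1 - (PowerSeries.X : PowerSeries ℤ) ^ (h i))) *
      (∏ i ∈ t, (1 - (PowerSeries.X : PowerSeries ℤ) ^ (h' i)))))
    have e1 : A * ((∏ i ∈ s, (1 - (PowerSeries.X : PowerSeries ℤ) ^ (h i))) *
      (∏ i ∈ t, (1 - (PowerSeries.X : PowerSeries ℤ) ^ (h' i)))) =
      (∏ i ∈ t, (1 - (PowerSeries.X : PowerSeries ℤ) ^ (h' i))) := by
      rw [← mul_assoc, hA, one_mul]
    have e2 : A' * ((∏ i ∈ s, (1 - (PowerSeries.X : PowerSeries ℤ) ^ (h i))) *
      (∏ i ∈ t, (1 - (PowerSeries.X : PowerSeries ℤ) ^ (h' i)))) =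
      (∏ i ∈ s, (1 - (PowerSeries.X : PowerSeries ℤ) ^ (h i))) := by
      rw [mul_comm (∏ i ∈ s, (1 - (PowerSeries.X : PowerSeries ℤ) ^ (h i))), ← mul_assoc, hA',
        one_mul]
    rw [e1, e2] at h1
    exact h1.symm
  intro k
  induction k using Nat.strong_induction_on with
  | _ k ih =>
    intro hk
    rcases Nat.eq_zero_or_pos k with rfl | hk0
    · have a1 : s.filter (fun i => h i = 0) = ∅ := by
        apply Finset.filter_eq_empty_iff.mpr
        intro i hi
        exact (hp i hi).ne'
      have a2 : t.filter (fun i => h' i = 0) = ∅ := by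
        apply Finset.filter_eq_empty_iff.mpr
        intro i hi
        exact (hp' i hi).ne'
      rw [a1, a2, Finset.card_empty, Finset.card_empty]
    have l1 := prod_low s t h h' k (fun j hj => ih j hj (hj.trans hk))
      (fun k => 1 - (PowerSeries.X : PowerSeries ℤ) ^ k)
    have e1 := (Finset.prod_filter_mul_prod_filter_not s (fun i => h i < k)
      (fun i => 1 - (PowerSeries.X : PowerSeries ℤ) ^ (h i)))
    have e2 := (Finset.prod_filter_mul_prod_filter_not t (fun i => h' i < k)
      (fun i => 1 - (PowerSeries.X : PowerSeries ℤ) ^ (h' i)))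
    rw [l1] at e1
    have g1 := (prod_high (s.filter (fun i => ¬ h i < k)) h k
      (fun i hi => not_lt.mp (Finset.mem_filter.mp hi).2)).mono (m := k + 1) (by omega)
    have g2 := (prod_high (t.filter (fun i => ¬ h' i < k)) h' k
      (fun i hi => not_lt.mp (Finset.mem_filter.mp hi).2)).mono (m := k + 1) (by omega)
    have hc0 := FirstOrderC_cc (t.filter (fun i => h' i < k)) h'
      (fun i hi => hp' i (Finset.mem_filter.mp hi).1)
    have q := hDD.mono (m := k + 1) hk
    rw [← e1, ← e2] at q
    have q2 := q.cancel hc0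
    have q3 := (g1.symm.trans q2).trans g2
    have q4 := (Cg.refl (k + 1) (1 : PowerSeries ℤ)).sub q3
    rw [sub_sub_cancel, sub_sub_cancel] at q4
    have q5 := (cg_iff_coeff.mp q4) k (Nat.lt_succ_self k)
    rw [FirstOrderC_coeff, FirstOrderC_coeff] at q5
    exact_mod_cast q5

end Pool.Agent.GaussRot
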