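import Pool.Agent.W_448rot_h96.Defs
import Pool.Agent.W_MP_448cb3_h96.Graded

/-!
# Product formulas for a Gaussian poset

`lev x` (file `Excess`) is the level counted from the top, `lv P j` the level sets.
-/

namespace Pool.Agent.GaussRot

set_option linter.unusedSectionVars false

open Finset Pool.Agent.GaussPoset

universe u

variable {P : Type u} [Fintype P] [PartialOrder P] [DecidableEq P]

/-- A product over the exponents `h i` of a Gaussian poset is the product over the elements `x`
with `lev x + 1` in place of `h i`: by `window_main` the number of `i` with `h i - 1 = j` is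
`(lv P j).card`; group both products by the value (`Finset.prod_fiberwise_of_maps_to` or
`Finset.prod_comp`). -/
theorem prod_levels {h : Fin (Fintype.card P) → ℕ} (hpos : ∀ i, 0 < h i)
    (hU : ∀ m : ℕ, U P m * ∏ i, (1 - (Polynomial.X : Polynomial ℤ) ^ (h i)) =
      ∏ i, (1 - (Polynomial.X : Polynomial ℤ) ^ (m + h i)))
    {M : Type*} [CommMonoid M] (f : ℕ → M) : ∏ i, f (h i) = ∏ x : P, f (lev x + 1) := by
  obtain ⟨N, hN⟩ : ∃ N, (∀ i, h i - 1 < N) ∧ ∀ x : P, lev x < N := by
    refine ⟨(∑ i, h i) + (∑ x : P, lev x) + 1, fun i => ?_, fun x => ?_⟩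
    · have h1 := Finset.single_le_sum (f := h) (fun i _ => Nat.zero_le _) (Finset.mem_univ i)
      omega
    · have h1 := Finset.single_le_sum (f := fun x : P => lev x) (fun i _ => Nat.zero_le _)
        (Finset.mem_univ x)
      have h2 : lev x ≤ ∑ x : P, lev x := h1
      omega
  have e1 : ∏ i, f (h i) = ∏ j ∈ range N, ∏ i ∈ univ.filter (fun i => h i - 1 = j), f (h i) :=
    (Finset.prod_fiberwise_of_maps_to (g := fun i => h i - 1)
      (fun i _ => Finset.mem_range.2 (hN.1 i)) _).symm
  have e2 : ∏ x : P, f (lev x + 1) =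
      ∏ j ∈ range N, ∏ x ∈ univ.filter (fun x : P => lev x = j), f (lev x + 1) :=
    (Finset.prod_fiberwise_of_maps_to (g := fun x : P => lev x)
      (fun x _ => Finset.mem_range.2 (hN.2 x)) _).symm
  rw [e1, e2]
  refine Finset.prod_congr rfl fun j _ => ?_
  have h1 := (window_main (P := P) j hpos hU).2.1
  have e3 : ∏ i ∈ univ.filter (fun i => h i - 1 = j), f (h i) =
      f (j + 1) ^ (univ.filter (fun i => h i - 1 = j)).card := by
    rw [← Finset.prod_const]
    refine Finset.prod_congr rfl fun i hi => ?_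
    rw [Finset.mem_filter] at hi
    have h2 := hpos i
    have h3 : h i = j + 1 := by omega
    rw [h3]
  have e4 : ∏ x ∈ univ.filter (fun x : P => lev x = j), f (lev x + 1) =
      f (j + 1) ^ (lv P j).card := by
    rw [← Finset.prod_const]
    refine Finset.prod_congr rfl fun x hx => ?_
    rw [mem_lv] at hx
    rw [hx]
  rw [e3, e4, h1]

/-- `AF univ` is the series `G ∅` of the file `Series` (`conf_empty`). -/
theorem AF_univ_eq : AF (univ : Finset P) = G (∅ : Finset P) := by
  classical
  unfold AF G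
  congr 1
  funext n
  congr 2
  ext s
  simp only [Finset.mem_filter, conf_empty]
  constructor
  · rintro ⟨h1, h⟩
    exact ⟨h1, fun x y hxy => h x (mem_univ x) y (mem_univ y) hxy⟩
  · rintro ⟨h1, h⟩
    exact ⟨h1, fun x _ y _ hxy => h hxy⟩

/-- from `G_empty`, `AF_univ_eq`, `prod_levels` -/
theorem gauss_A (hG : IsGaussian P) :
    AF (univ : Finset P) * ∏ x : P, (1 - PowerSeries.X ^ (lev x + 1)) = 1 := by
  obtain ⟨h, hpos, hU⟩ := hG
  have h1 := G_empty hpos hU
  rw [AF_univ_eq]
  have h2 := prod_levels hpos hU (fun n => (1 - PowerSeries.X ^ n : PowerSeries ℤ))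
  rw [← h2]
  exact h1

/-- `U_1` counts the upper sets: the monotone maps `σ : P → Fin 2` correspond to the upper sets
`{x | σ x = 1}`. -/
theorem U1_univ_eq : U1 (univ : Finset P) = ((U P 1 : Polynomial ℤ) : PowerSeries ℤ) := by
  classical
  have h0 : ((U P 1 : Polynomial ℤ) : PowerSeries ℤ) =
      ∑ σ ∈ Finset.univ.filter (fun σ : P → Fin (1 + 1) => Monotone σ),
        (PowerSeries.X : PowerSeries ℤ) ^ (∑ x, (σ x : ℕ)) := by
    unfold U
    rw [← Polynomial.coeToPowerSeries.ringHom_apply, map_sum]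
    refine Finset.sum_congr ?_ ?_
    · ext σ
      simp
    · intro σ _
      rw [Polynomial.coeToPowerSeries.ringHom_apply, Polynomial.coe_pow, Polynomial.coe_X]
  rw [h0]
  unfold U1
  refine Finset.sum_bij (fun G _ => fun x => if x ∈ G then (1 : Fin (1 + 1)) else 0) ?_ ?_ ?_ ?_
  · intro G hG
    rw [mem_J] at hG
    rw [Finset.mem_filter]
    refine ⟨mem_univ _, fun x y hxy => ?_⟩
    by_cases hx : x ∈ G
    · have hy : y ∈ G := hG.2 x hx y (mem_univ y) hxy
      simp only [hx, hy, if_true, le_refl]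
    · simp only [hx, if_false]
      exact Fin.zero_le _
  · intro G _ G' _ h
    ext x
    have h1 := congrFun h x
    by_cases hx : x ∈ G <;> by_cases hx' : x ∈ G' <;> simp_all
  · intro σ hσ
    rw [Finset.mem_filter] at hσ
    refine ⟨univ.filter (fun x => σ x = 1), ?_, ?_⟩
    · rw [mem_J]
      refine ⟨Finset.filter_subset _ _, fun x hx y _ hxy => ?_⟩
      rw [Finset.mem_filter] at hx ⊢
      refine ⟨mem_univ _, ?_⟩
      have h1 := hσ.2 hxy
      rw [hx.2] at h1
      have h2 := Fin.le_def.1 h1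
      have h3 := (σ y).2
      refine Fin.ext ?_
      change (σ y : ℕ) = 1
      have h4 : ((1 : Fin (1 + 1)) : ℕ) = 1 := rfl
      omega
    · funext x
      by_cases hx : σ x = 1
      · simp [hx]
      · have h3 : σ x = 0 := by
          have h4 := (σ x).2
          refine Fin.ext ?_
          by_contra h5
          refine hx (Fin.ext ?_)
          have h6 : ((0 : Fin (1 + 1)) : ℕ) = 0 := rfl
          have h7 : ((1 : Fin (1 + 1)) : ℕ) = 1 := rfl
          omega
        simp [h3]
  · intro G _
    congr 1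
    rw [Finset.card_eq_sum_ones, ← Finset.sum_filter_add_sum_filter_not univ (fun x => x ∈ G)]
    have h1 : univ.filter (fun x => x ∈ G) = G := by
      ext x
      simp
    rw [h1]
    have h2 : ∑ x ∈ G, (((if x ∈ G then (1 : Fin (1 + 1)) else 0) : Fin (1 + 1)) : ℕ) =
        ∑ x ∈ G, 1 := Finset.sum_congr rfl fun x hx => by rw [if_pos hx]; rfl
    have h3 : ∑ x ∈ univ.filter (fun x => ¬ x ∈ G),
        (((if x ∈ G then (1 : Fin (1 + 1)) else 0) : Fin (1 + 1)) : ℕ) = 0 :=
      Finset.sum_eq_zero fun x hx => by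
        rw [Finset.mem_filter] at hx
        rw [if_neg hx.2]
        rfl
    rw [h2, h3, add_zero]

/-- from the definition of `IsGaussian` with `m = 1`, `U1_univ_eq`, `prod_levels` and
`coe_prod_one_sub` -/
theorem gauss_U (hG : IsGaussian P) :
    U1 (univ : Finset P) * ∏ x : P, (1 - PowerSeries.X ^ (lev x + 1)) =
      ∏ x : P, (1 - PowerSeries.X ^ (lev x + 2)) := by
  obtain ⟨h, hpos, hU⟩ := hG
  have h1 := congrArg (fun p : Polynomial ℤ => (p : PowerSeries ℤ)) (hU 1)
  simp only [Polynomial.coe_mul, coe_prod_one_sub] at h1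
  have h2 := prod_levels hpos hU (fun n => (1 - PowerSeries.X ^ n : PowerSeries ℤ))
  have h3 := prod_levels hpos hU (fun n => (1 - PowerSeries.X ^ (1 + n) : PowerSeries ℤ))
  rw [U1_univ_eq]
  have h4 : ∏ x : P, (1 - PowerSeries.X ^ (lev x + 2) : PowerSeries ℤ) =
      ∏ x : P, (1 - PowerSeries.X ^ (1 + (lev x + 1)) : PowerSeries ℤ) :=
    Finset.prod_congr rfl fun x _ => by
      rw [show lev x + 2 = 1 + (lev x + 1) by omega]
  rw [h4, ← h3, ← h2]
  exact h1

end Pool.Agent.GaussRot
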