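import Mathlib

/-!
# Counting arrays with weights
-/

namespace Pool.Agent.GaussRot

open Finset

variable {α : Type*} [DecidableEq α]

/-- number of arrays on `S` with weighted total `n` -/
noncomputable def cnt (S : Finset α) (h : α → ℕ) (n : ℕ) : ℕ :=
  Nat.card {g : α → ℕ // (∀ p, p ∉ S → g p = 0) ∧ ∑ p ∈ S, h p * g p = n}

/-- the set of arrays counted by `cnt` -/
def CountArr_A (S : Finset α) (h : α → ℕ) (n : ℕ) : Set (α → ℕ) :=
  {g | (∀ p, p ∉ S → g p = 0) ∧ ∑ p ∈ S, h p * g p = n}

theorem CountArr_mem {S : Finset α} {h : α → ℕ} {n : ℕ} {g : α → ℕ} :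
    g ∈ CountArr_A S h n ↔ (∀ p, p ∉ S → g p = 0) ∧ ∑ p ∈ S, h p * g p = n := Iff.rfl

theorem CountArr_ncard (S : Finset α) (h : α → ℕ) (n : ℕ) :
    cnt S h n = (CountArr_A S h n).ncard := by
  unfold cnt
  exact Nat.card_coe_set_eq (CountArr_A S h n)

/-- the arrays counted by `cnt` form a finite set (the entries are `≤ n` as `h > 0` on `S`) -/
theorem cnt_finite (S : Finset α) (h : α → ℕ) (hp : ∀ p ∈ S, 0 < h p) (n : ℕ) :
    Finite {g : α → ℕ // (∀ p, p ∉ S → g p = 0) ∧ ∑ p ∈ S, h p * g p = n} := by
  have hle : ∀ g : {g : α → ℕ // (∀ p, p ∉ S → g p = 0) ∧ ∑ p ∈ S, h p * g p = n},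
      ∀ p : S, (g : α → ℕ) p < n + 1 := by
    rintro ⟨g, hg1, hg2⟩ ⟨p, hpS⟩
    have h1 : h p * g p ≤ ∑ p ∈ S, h p * g p :=
      Finset.single_le_sum (f := fun p => h p * g p) (fun _ _ => Nat.zero_le _) hpS
    have h2 : 1 * g p ≤ h p * g p := Nat.mul_le_mul_right _ (hp p hpS)
    show g p < n + 1
    omega
  refine Finite.of_injective (β := S → Fin (n + 1))
    (fun g p => ⟨(g : α → ℕ) p, hle g p⟩) ?_
  intro g g' hgg
  apply Subtype.ext
  funext p
  by_cases hpS : p ∈ S
  · have h1 := congrFun hgg ⟨p, hpS⟩
    exact congrArg Fin.val h1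
  · rw [g.2.1 p hpS, g'.2.1 p hpS]

theorem CountArr_finite (S : Finset α) (h : α → ℕ) (hp : ∀ p ∈ S, 0 < h p) (n : ℕ) :
    (CountArr_A S h n).Finite := by
  have h1 := cnt_finite S h hp n
  exact Set.finite_coe_iff.1 h1

theorem CountArr_sum_update {S : Finset α} (h : α → ℕ) {c : α} (hc : c ∉ S) (g : α → ℕ) (v : ℕ) :
    ∑ p ∈ S, h p * Function.update g c v p = ∑ p ∈ S, h p * g p := by
  refine Finset.sum_congr rfl fun p hpS => ?_
  rw [Function.update_of_ne]
  rintro rfl
  exact hc hpS

theorem CountArr_zero {S : Finset α} {h : α → ℕ} {c : α} (hc : c ∉ S) {n : ℕ} {g : α → ℕ} :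
    g ∈ CountArr_A S h n ↔ g ∈ CountArr_A (insert c S) h n ∧ g c = 0 := by
  rw [CountArr_mem, CountArr_mem, Finset.sum_insert hc]
  constructor
  · rintro ⟨h1, h2⟩
    have h3 := h1 c hc
    refine ⟨⟨fun p hpS => h1 p fun h4 => hpS (Finset.mem_insert_of_mem h4), ?_⟩, h3⟩
    rw [h3, mul_zero, zero_add, h2]
  · rintro ⟨⟨h1, h2⟩, h3⟩
    refine ⟨fun p hpS => ?_, ?_⟩
    · by_cases hpc : p = c
      · rw [hpc, h3]
      · exact h1 p fun h4 => (Finset.mem_insert.1 h4).elim hpc hpS
    · rw [h3, mul_zero, zero_add] at h2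
      exact h2

theorem CountArr_shift {S : Finset α} {h : α → ℕ} {c : α} (hc : c ∉ S) {n : ℕ} {g : α → ℕ}
    (hg : g ∈ CountArr_A (insert c S) h n) :
    Function.update g c (g c + 1) ∈ CountArr_A (insert c S) h (n + h c) := by
  rw [CountArr_mem, Finset.sum_insert hc] at hg ⊢
  refine ⟨fun p hpS => ?_, ?_⟩
  · rw [Function.update_of_ne]
    · exact hg.1 p hpS
    · rintro rfl
      exact hpS (Finset.mem_insert_self _ _)
  · rw [CountArr_sum_update h hc, Function.update_self, ← hg.2]
    ring

theorem CountArr_unshift {S : Finset α} {h : α → ℕ} {c : α} (hc : c ∉ S) {n : ℕ} {g : α → ℕ}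
    (hg : g ∈ CountArr_A (insert c S) h n) (hgc : g c ≠ 0) :
    h c ≤ n ∧ Function.update g c (g c - 1) ∈ CountArr_A (insert c S) h (n - h c) := by
  rw [CountArr_mem, Finset.sum_insert hc] at hg
  obtain ⟨t, ht⟩ := Nat.exists_eq_succ_of_ne_zero hgc
  have h1 : h c * g c = h c * t + h c := by rw [ht, Nat.mul_succ]
  refine ⟨by omega, ?_⟩
  rw [CountArr_mem, Finset.sum_insert hc]
  refine ⟨fun p hpS => ?_, ?_⟩
  · rw [Function.update_of_ne]
    · exact hg.1 p hpS
    · rintro rfl
      exact hpS (Finset.mem_insert_self _ _)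
  · rw [CountArr_sum_update h hc, Function.update_self]
    have h2 : g c - 1 = t := by omega
    rw [h2]
    omega

theorem CountArr_rec (S : Finset α) (h : α → ℕ) {c : α} (hc : c ∉ S)
    (hp : ∀ p ∈ insert c S, 0 < h p) (n : ℕ) :
    cnt (insert c S) h n = cnt S h n + (if h c ≤ n then cnt (insert c S) h (n - h c) else 0) := by
  have hfin := CountArr_finite (insert c S) h hp
  split_ifs with hn
  · rw [CountArr_ncard, CountArr_ncard, CountArr_ncard]
    have hinj : Function.Injective (fun g : α → ℕ => Function.update g c (g c + 1)) := by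
      intro g g' hgg
      funext p
      have h1 := congrFun hgg p
      by_cases hpc : p = c
      · subst hpc
        simp only [Function.update_self] at h1
        omega
      · simp only [Function.update_of_ne hpc] at h1
        exact h1
    have hci := Set.ncard_image_of_injective (CountArr_A (insert c S) h (n - h c)) hinj
    have hun : CountArr_A (insert c S) h n = CountArr_A S h n ∪
        (fun g : α → ℕ => Function.update g c (g c + 1)) ''
          CountArr_A (insert c S) h (n - h c) := by
      ext g
      constructor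
      · intro hg
        by_cases hgc : g c = 0
        · exact Or.inl ((CountArr_zero hc).2 ⟨hg, hgc⟩)
        · refine Or.inr ⟨Function.update g c (g c - 1), (CountArr_unshift hc hg hgc).2, ?_⟩
          funext p
          by_cases hpc : p = c
          · subst hpc
            simp only [Function.update_self]
            omega
          · simp only [Function.update_of_ne hpc]
      · rintro (hg | ⟨g, hg, rfl⟩)
        · exact ((CountArr_zero hc).1 hg).1
        · have h1 := CountArr_shift hc hg
          rw [Nat.sub_add_cancel hn] at h1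
          exact h1
    rw [hun, ← hci]
    apply Set.ncard_union_eq
    · rw [Set.disjoint_left]
      rintro _ hg ⟨g, _, rfl⟩
      have h1 := ((CountArr_zero hc).1 hg).2
      simp only [Function.update_self] at h1
      omega
    · exact (hfin n).subset fun g hg => ((CountArr_zero hc).1 hg).1
    · exact (hfin _).image _
  · rw [CountArr_ncard, CountArr_ncard, add_zero]
    congr 1
    ext g
    rw [CountArr_zero (c := c) hc]
    constructor
    · intro hg
      refine ⟨hg, ?_⟩
      by_contra hgc
      exact hn (CountArr_unshift hc hg hgc).1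
    · exact fun hg => hg.1

/-- The generating function of `cnt` is the product of the geometric series.  Induction on `S`:
for `insert c S`, splitting off the entry `t = g c` gives
`cnt (insert c S) n = ∑_{t, h c * t ≤ n} cnt S (n - h c * t)`, equivalently (for `c ∉ S`)
`cnt (insert c S) n - cnt (insert c S) (n - h c) = cnt S n` (second term only for `n ≥ h c`: the
arrays with `g c ≥ 1`), which is the coefficient form of
`F_(insert c S) * (1 - X^(h c)) = F_S`. -/
theorem cnt_gen (S : Finset α) (h : α → ℕ) (hp : ∀ p ∈ S, 0 < h p) :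
    (PowerSeries.mk fun n => (cnt S h n : ℤ)) * ∏ p ∈ S, (1 - PowerSeries.X ^ (h p)) = 1 := by
  induction S using Finset.induction_on with
  | empty =>
    rw [Finset.prod_empty, mul_one]
    ext n
    rw [PowerSeries.coeff_mk, PowerSeries.coeff_one]
    split_ifs with hn
    · subst hn
      have h1 : CountArr_A (∅ : Finset α) h 0 = {0} := by
        ext g
        rw [CountArr_mem, Set.mem_singleton_iff]
        constructor
        · rintro ⟨h2, _⟩
          funext p
          exact h2 p (Finset.notMem_empty p)
        · rintro rfl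
          exact ⟨fun _ _ => rfl, rfl⟩
      rw [CountArr_ncard, h1, Set.ncard_singleton]
      rfl
    · have h1 : CountArr_A (∅ : Finset α) h n = ∅ := by
        ext g
        rw [CountArr_mem, Finset.sum_empty]
        constructor
        · rintro ⟨_, h2⟩
          exact absurd h2.symm hn
        · intro h2
          exact absurd h2 (Set.notMem_empty g)
      rw [CountArr_ncard, h1, Set.ncard_empty]
      rfl
  | insert c S hc ih =>
    have ih' := ih (fun p hpS => hp p (Finset.mem_insert_of_mem hpS))
    rw [Finset.prod_insert hc, ← mul_assoc]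
    have h1 : (PowerSeries.mk fun n => (cnt (insert c S) h n : ℤ)) *
        (1 - PowerSeries.X ^ (h c)) = PowerSeries.mk fun n => (cnt S h n : ℤ) := by
      ext n
      rw [mul_sub, mul_one, map_sub, PowerSeries.coeff_mul_X_pow', PowerSeries.coeff_mk,
        PowerSeries.coeff_mk, CountArr_rec S h hc hp n]
      split_ifs with hn
      · rw [PowerSeries.coeff_mk]
        push_cast
        ring
      · simp
    rw [h1]
    exact ih'

end Pool.Agent.GaussRot
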