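import Pool.Agent.W_448rot_h96.Defs

/-!
# Reference posets

Cells `(i,c)` with the reversed coordinate order (the origin is the greatest element); the level
of a cell is `i + c`.  `Rs false m L` is the rectangle `i ≤ m`, `c < L`; `Rs true m L` is the
shifted staircase `i ≤ c < L` (the number `m` plays no role in it).
-/

namespace Pool.Agent.GaussRot

set_option linter.unusedSectionVars false

open Finset

/-- a cell -/
@[ext]
structure Cell where
  /-- row -/
  i : ℕ
  /-- column -/
  c : ℕ
deriving DecidableEq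

instance : PartialOrder Cell where
  le p q := q.i ≤ p.i ∧ q.c ≤ p.c
  le_refl p := ⟨le_rfl, le_rfl⟩
  le_trans p q r h1 h2 := ⟨h2.1.trans h1.1, h2.2.trans h1.2⟩
  le_antisymm p q h1 h2 := Cell.ext (le_antisymm h2.1 h1.1) (le_antisymm h2.2 h1.2)

lemma cell_le {p q : Cell} : p ≤ q ↔ q.i ≤ p.i ∧ q.c ≤ p.c := Iff.rfl

/-- the region: shifted for `k = true`, rows `≤ m` for `k = false` -/
def reg (k : Bool) (m i c : ℕ) : Prop := (k = true ∧ i ≤ c) ∨ (k = false ∧ i ≤ m)

instance (k : Bool) (m i c : ℕ) : Decidable (reg k m i c) :=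
  inferInstanceAs (Decidable ((k = true ∧ i ≤ c) ∨ (k = false ∧ i ≤ m)))

@[simp] lemma reg_true {m i c : ℕ} : reg true m i c ↔ i ≤ c := by simp [reg]

@[simp] lemma reg_false {m i c : ℕ} : reg false m i c ↔ i ≤ m := by simp [reg]

/-- the last level of the known top part -/
def jj (k : Bool) (m : ℕ) : ℕ := if k = true then 2 * m else m

@[simp] lemma jj_true {m : ℕ} : jj true m = 2 * m := by simp [jj]

@[simp] lemma jj_false {m : ℕ} : jj false m = m := by simp [jj]

/-- the reference poset -/
def Rs (k : Bool) (m L : ℕ) : Finset Cell :=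
  ((range (L + m + 1) ×ˢ range L).filter (fun p => reg k m p.1 p.2)).image
    (fun p => ⟨p.1, p.2⟩)

lemma mem_Rs {k : Bool} {m L : ℕ} {p : Cell} : p ∈ Rs k m L ↔ reg k m p.i p.c ∧ p.c < L := by
  rcases p with ⟨i, c⟩
  unfold Rs
  simp only [mem_image, mem_filter, mem_product, mem_range, Cell.mk.injEq, Prod.exists,
    exists_eq_right_right, exists_eq_right]
  constructor
  · rintro ⟨⟨_, h2⟩, h3⟩
    exact ⟨h3, h2⟩
  · rintro ⟨h1, h2⟩
    refine ⟨⟨?_, h2⟩, h1⟩
    cases k
    · rw [reg_false] at h1; omega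
    · rw [reg_true] at h1; omega

end Pool.Agent.GaussRot
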