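import Pool.Agent.W_448rot_h96.StairFill
import Pool.Agent.W_448rot_h96.Cells

/-!
# `A` of the reference posets
-/

namespace Pool.Agent.GaussRot

open Finset

/-- fillings are monotone along a path first down the column, then along the row -/
lemma refCo_mono {S : Finset (ℤ × ℤ)} (f : Fil (↑S : Set (ℤ × ℤ)))
    (hc1 : ∀ q' ∈ S, ∀ q ∈ S, q'.1 ≤ q.1 → q'.2 ≤ q.2 → ∀ u, q'.1 ≤ u → u ≤ q.1 → (u, q.2) ∈ S)
    (hc2 : ∀ q' ∈ S, ∀ q ∈ S, q'.1 ≤ q.1 → q'.2 ≤ q.2 → ∀ v, q'.2 ≤ v → v ≤ q.2 → (q'.1, v) ∈ S)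
    {q' q : ℤ × ℤ} (hq' : q' ∈ S) (hq : q ∈ S) (h1 : q'.1 ≤ q.1) (h2 : q'.2 ≤ q.2) :
    f.1 q' ≤ f.1 q := by
  have hS : ∀ p, p ∈ S → f.1 (p.1 - 1, p.2) ≤ f.1 p ∧ f.1 (p.1, p.2 - 1) ≤ f.1 p := by
    intro p hp
    exact f.2.2 p (by exact_mod_cast hp)
  -- rows
  have step1 : ∀ n : ℕ, ∀ u : ℤ, q'.1 ≤ u → u + n = q.1 → f.1 (u, q.2) ≤ f.1 q := by
    intro n
    induction n with
    | zero =>
      intro u _ hu2
      have : u = q.1 := by simpa using hu2
      rw [this]
    | succ n ih =>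
      intro u hu1 hu2
      have h3 := ih (u + 1) (by omega) (by push_cast at hu2 ⊢; omega)
      have h4 := (hS (u + 1, q.2) (hc1 q' hq' q hq h1 h2 (u + 1) (by omega)
        (by push_cast at hu2; omega))).1
      simp only [add_sub_cancel_right] at h4
      exact h4.trans h3
  have step2 : ∀ n : ℕ, ∀ v : ℤ, q'.2 ≤ v → v + n = q.2 → f.1 (q'.1, v) ≤ f.1 (q'.1, q.2) := by
    intro n
    induction n with
    | zero =>
      intro v _ hv2
      have : v = q.2 := by simpa using hv2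
      rw [this]
    | succ n ih =>
      intro v hv1 hv2
      have h3 := ih (v + 1) (by omega) (by push_cast at hv2 ⊢; omega)
      have h4 := (hS (q'.1, v + 1) (hc2 q' hq' q hq h1 h2 (v + 1) (by omega)
        (by push_cast at hv2; omega))).2
      simp only [add_sub_cancel_right] at h4
      exact h4.trans h3
  have h5 := step1 (q.1 - q'.1).toNat q'.1 le_rfl (by
    rw [Int.toNat_of_nonneg (by omega)]; ring)
  have h6 := step2 (q.2 - q'.2).toNat q'.2 le_rfl (by
    rw [Int.toNat_of_nonneg (by omega)]; ring)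
  exact h6.trans h5

/-- general form -/
theorem refCo_gen (R : Finset Cell) (S : Finset (ℤ × ℤ)) (al : Cell → ℤ × ℤ) (be : ℤ × ℤ → Cell)
    (h1 : ∀ p ∈ R, al p ∈ S) (h2 : ∀ q ∈ S, be q ∈ R) (h3 : ∀ p ∈ R, be (al p) = p)
    (h4 : ∀ q ∈ S, al (be q) = q)
    (hle : ∀ p ∈ R, ∀ p' ∈ R, (p ≤ p' ↔ (al p).1 ≤ (al p').1 ∧ (al p).2 ≤ (al p').2))
    (hc1 : ∀ q' ∈ S, ∀ q ∈ S, q'.1 ≤ q.1 → q'.2 ≤ q.2 → ∀ u, q'.1 ≤ u → u ≤ q.1 → (u, q.2) ∈ S)
    (hc2 : ∀ q' ∈ S, ∀ q ∈ S, q'.1 ≤ q.1 → q'.2 ≤ q.2 → ∀ v, q'.2 ≤ v → v ≤ q.2 → (q'.1, v) ∈ S)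
    (n : ℕ) :
    PowerSeries.coeff n (AF R) =
      (Nat.card {f : Fil (↑S : Set (ℤ × ℤ)) // ∑ p ∈ S, f.1 p = n} : ℤ) := by
  classical
  unfold AF
  rw [PowerSeries.coeff_mk]
  rw [← Fintype.card_coe, ← Nat.card_eq_fintype_card]
  congr 1
  refine Nat.card_congr ?_
  have hsumR : ∀ g : ℤ × ℤ → ℕ, ∑ p ∈ R, g (al p) = ∑ q ∈ S, g q := by
    intro g
    refine Finset.sum_nbij' al be h1 h2 h3 h4 (fun _ _ => rfl)
  refine
    { toFun := fun s => ⟨⟨fun q => if q ∈ S then s.1 (be q) else 0, ?_, ?_⟩, ?_⟩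
      invFun := fun f => ⟨fun p => if p ∈ R then f.1.1 (al p) else 0, ?_⟩
      left_inv := ?_
      right_inv := ?_ }
  · intro p hp
    have hp2 : p ∉ S := fun h => hp (by exact_mod_cast h)
    exact if_neg hp2
  · intro p hp
    have hp' : p ∈ S := by exact_mod_cast hp
    have hs := s.2
    rw [mem_filter] at hs
    have gpos : ∀ q : ℤ × ℤ, q ∈ S → (if q ∈ S then s.1 (be q) else 0) = s.1 (be q) :=
      fun q hq => if_pos hq
    constructor
    · by_cases hq : ((p.1 - 1, p.2) : ℤ × ℤ) ∈ S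
      · refine (gpos _ hq).le.trans (le_trans ?_ (gpos _ hp').ge)
        refine hs.2 _ (h2 _ hq) _ (h2 _ hp') ?_
        rw [hle _ (h2 _ hq) _ (h2 _ hp'), h4 _ hq, h4 _ hp']
        exact ⟨by simp, le_rfl⟩
      · exact (if_neg hq).le.trans (Nat.zero_le _)
    · by_cases hq : ((p.1, p.2 - 1) : ℤ × ℤ) ∈ S
      · refine (gpos _ hq).le.trans (le_trans ?_ (gpos _ hp').ge)
        refine hs.2 _ (h2 _ hq) _ (h2 _ hp') ?_
        rw [hle _ (h2 _ hq) _ (h2 _ hp'), h4 _ hq, h4 _ hp']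
        exact ⟨le_rfl, by simp⟩
      · exact (if_neg hq).le.trans (Nat.zero_le _)
  · have hs := s.2
    rw [mem_filter, mem_piAntidiag] at hs
    have e1 := hsumR (fun q => if q ∈ S then s.1 (be q) else 0)
    have e2 : ∀ p ∈ R, (if al p ∈ S then s.1 (be (al p)) else 0) = s.1 p := by
      intro p hp
      rw [if_pos (h1 p hp), h3 p hp]
    exact e1.symm.trans ((Finset.sum_congr rfl e2).trans hs.1.1)
  · rw [mem_filter, mem_piAntidiag]
    refine ⟨⟨?_, ?_⟩, ?_⟩
    · have e1 : ∀ p ∈ R, (if p ∈ R then f.1.1 (al p) else 0) = f.1.1 (al p) :=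
        fun p hp => if_pos hp
      exact (Finset.sum_congr rfl e1).trans ((hsumR f.1.1).trans f.2)
    · intro p hp
      by_contra hpR
      rw [if_neg hpR] at hp
      exact hp rfl
    · intro x hx y hy hxy
      have h5 := (hle x hx y hy).mp hxy
      have h6 := refCo_mono f.1 hc1 hc2 (h1 x hx) (h1 y hy) h5.1 h5.2
      have e1 : (if x ∈ R then f.1.1 (al x) else 0) = f.1.1 (al x) := if_pos hx
      have e2 : (if y ∈ R then f.1.1 (al y) else 0) = f.1.1 (al y) := if_pos hy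
      exact e1.le.trans (h6.trans e2.ge)
  · intro s
    apply Subtype.ext
    funext p
    have hs := s.2
    rw [mem_filter, mem_piAntidiag] at hs
    by_cases hp : p ∈ R
    · simp only [hp, if_true, h1 p hp, h3 p hp]
    · simp only [hp, if_false]
      by_contra hne
      exact hp (hs.1.2 p (fun h => hne h.symm))
  · intro f
    apply Subtype.ext
    apply Subtype.ext
    funext q
    by_cases hq : q ∈ S
    · simp only [hq, if_true, h2 q hq, h4 q hq]
    · simp only [hq, if_false]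
      exact (f.1.2.1 q (by exact_mod_cast hq)).symm

/-- The monotone fillings of `Rs false m L` (monotone for the cell order: decreasing in the
coordinates) correspond to the fillings of `SR L (m+1) L` via `(u,v) = (m+1-i, L-c)`,
`i = m + 1 - u`, `c = L - v`; same total.  Hence the coefficient of `X^n` in `AF` is the number
of fillings with total `n`. -/
theorem coeff_AF_rect (m L n : ℕ) :
    PowerSeries.coeff n (AF (Rs false m L)) =
      (Nat.card {f : Fil (↑(SR L (m + 1) L) : Set (ℤ × ℤ)) //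
        ∑ p ∈ SR L (m + 1) L, f.1 p = n} : ℤ) := by
  refine refCo_gen (Rs false m L) (SR L (m + 1) L)
    (fun p => ((m : ℤ) + 1 - p.i, (L : ℤ) - p.c))
    (fun q => ⟨((m : ℤ) + 1 - q.1).toNat, ((L : ℤ) - q.2).toNat⟩) ?_ ?_ ?_ ?_ ?_ ?_ ?_ n
  · intro p hp
    rw [mem_Rs, reg_false] at hp
    rw [mem_SR]
    simp only
    omega
  · intro q hq
    rw [mem_SR] at hq
    rw [mem_Rs, reg_false]
    simp only
    omega
  · intro p hp
    rw [mem_Rs, reg_false] at hp
    ext
    · simp only; omega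
    · simp only; omega
  · intro q hq
    rw [mem_SR] at hq
    ext
    · simp only; omega
    · simp only; omega
  · intro p hp p' hp'
    rw [mem_Rs, reg_false] at hp hp'
    rw [cell_le]
    simp only
    omega
  · intro q' hq' q hq h1 h2 u hu1 hu2
    rw [mem_SR] at *
    simp only
    omega
  · intro q' hq' q hq h1 h2 u hu1 hu2
    rw [mem_SR] at *
    simp only
    omega

/-- The monotone fillings of `Rs true m L` correspond to the fillings of `ST L L` via
`(u,v) = (L-c, L-i)`; same total. -/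
theorem coeff_AF_stair (m L n : ℕ) :
    PowerSeries.coeff n (AF (Rs true m L)) =
      (Nat.card {f : Fil (↑(ST L L) : Set (ℤ × ℤ)) // ∑ p ∈ ST L L, f.1 p = n} : ℤ) := by
  refine refCo_gen (Rs true m L) (ST L L)
    (fun p => ((L : ℤ) - p.c, (L : ℤ) - p.i))
    (fun q => ⟨((L : ℤ) - q.2).toNat, ((L : ℤ) - q.1).toNat⟩) ?_ ?_ ?_ ?_ ?_ ?_ ?_ n
  · intro p hp
    rw [mem_Rs, reg_true] at hp
    rw [mem_ST]
    simp only
    omega
  · intro q hq
    rw [mem_ST] at hq
    rw [mem_Rs, reg_true]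
    simp only
    omega
  · intro p hp
    rw [mem_Rs, reg_true] at hp
    ext
    · simp only; omega
    · simp only; omega
  · intro q hq
    rw [mem_ST] at hq
    ext
    · simp only; omega
    · simp only; omega
  · intro p hp p' hp'
    rw [mem_Rs, reg_true] at hp hp'
    rw [cell_le]
    simp only
    omega
  · intro q' hq' q hq h1 h2 u hu1 hu2
    rw [mem_ST] at *
    simp only
    omega
  · intro q' hq' q hq h1 h2 u hu1 hu2
    rw [mem_ST] at *
    simp only
    omega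

end Pool.Agent.GaussRot
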