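import Pool.Agent.W_448rot_h96.RefU

/-!
# `U_1` of the reference posets
-/

namespace Pool.Agent.GaussRot

set_option linter.unusedSectionVars false

open Finset

/-- product formula for the staircase, by induction from `U1_stair_rec` -/
theorem U1_stair (m L : ℕ) :
    U1 (Rs true m L) = ∏ c ∈ range L, (1 + PowerSeries.X ^ (c + 1)) := by
  induction L with
  | zero => rw [U1_zero, range_zero, prod_empty]
  | succ L ih => rw [U1_stair_rec, ih, prod_range_succ, mul_comm]

/-- Product formula for the rectangle with `m + 1` rows and `L` columns.  Induction on `m` and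
`L` from `U1_rect_rec`, `U1_row`, `U1_zero` (`q`-Pascal recursion):
with `R(m,L) = ∏_{b ≤ m} (1 - X^(L+b+1))`, `D(m) = ∏_{b ≤ m} (1 - X^(b+1))` one has
`R(m+1, L+1) = R(m+1, L) + X^(L+1) (1 - X^(m+2)) R(m, L+1)`. -/
theorem U1_rect (m L : ℕ) :
    U1 (Rs false m L) * ∏ b ∈ range (m + 1), (1 - PowerSeries.X ^ (b + 1)) =
      ∏ b ∈ range (m + 1), (1 - PowerSeries.X ^ (L + b + 1)) := by
  induction m generalizing L with
  | zero =>
    induction L with
    | zero => rw [U1_zero]; simp
    | succ L ih =>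
      rw [U1_row, add_mul, ih]
      simp only [zero_add, range_one, prod_singleton]
      ring
  | succ m ihm =>
    induction L with
    | zero => rw [U1_zero]; simp
    | succ L ih =>
      have h1 := ihm (L + 1)
      have h2 : ∏ b ∈ range (m + 1 + 1), (1 - PowerSeries.X ^ (L + b + 1) : PowerSeries ℤ) =
          (∏ b ∈ range (m + 1), (1 - PowerSeries.X ^ (L + 1 + b + 1))) *
            (1 - PowerSeries.X ^ (L + 1)) := by
        rw [prod_range_succ']
        congr 1
        refine prod_congr rfl fun b _ => ?_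
        rw [show L + (b + 1) + 1 = L + 1 + b + 1 by ring]
      rw [h2] at ih
      rw [U1_rect_rec, add_mul, ih, ← h1, prod_range_succ (fun b => (1 - PowerSeries.X ^ (b + 1) :
        PowerSeries ℤ)) (m + 1), prod_range_succ (fun b => (1 - PowerSeries.X ^ (L + 1 + b + 1) :
        PowerSeries ℤ)) (m + 1), ← h1]
      ring

/-- a product over the rectangle is a double product -/
theorem prod_rect {M : Type*} [CommMonoid M] (m L : ℕ) (f : ℕ → ℕ → M) :
    ∏ p ∈ Rs false m L, f p.i p.c = ∏ b ∈ range (m + 1), ∏ c ∈ range L, f b c := by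
  rw [← prod_product']
  refine prod_nbij' (fun p => (p.i, p.c)) (fun x => ⟨x.1, x.2⟩) ?_ ?_ ?_ ?_ ?_
  · intro p hp
    rw [mem_Rs, reg_false] at hp
    rw [mem_product, mem_range, mem_range]
    exact ⟨Nat.lt_succ_of_le hp.1, hp.2⟩
  · rintro ⟨b, c⟩ hx
    rw [mem_product, mem_range, mem_range] at hx
    rw [mem_Rs, reg_false]
    exact ⟨Nat.lt_succ_iff.1 hx.1, hx.2⟩
  · exact fun _ _ => rfl
  · exact fun _ _ => rfl
  · exact fun _ _ => rfl

/-- a product over the staircase is a double product -/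
theorem prod_stair {M : Type*} [CommMonoid M] (m L : ℕ) (f : ℕ → ℕ → M) :
    ∏ p ∈ Rs true m L, f p.i p.c = ∏ c ∈ range L, ∏ i ∈ range (c + 1), f i c := by
  rw [prod_sigma']
  refine prod_nbij' (fun p => (⟨p.c, p.i⟩ : Sigma fun _ : ℕ => ℕ)) (fun x => ⟨x.2, x.1⟩)
    ?_ ?_ ?_ ?_ ?_
  · intro p hp
    rw [mem_Rs, reg_true] at hp
    rw [mem_sigma, mem_range, mem_range]
    exact ⟨hp.2, Nat.lt_succ_of_le hp.1⟩
  · rintro ⟨c, i⟩ hx
    rw [mem_sigma, mem_range, mem_range] at hx
    rw [mem_Rs, reg_true]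
    exact ⟨Nat.lt_succ_iff.1 hx.2, hx.1⟩
  · exact fun _ _ => rfl
  · exact fun _ _ => rfl
  · exact fun _ _ => rfl

lemma RefUB_ne_zero (n : ℕ) : (1 - PowerSeries.X ^ (n + 1) : PowerSeries ℤ) ≠ 0 := by
  intro h
  have h1 := congrArg PowerSeries.constantCoeff h
  simp at h1

lemma RefUB_tele (b L : ℕ) :
    (1 - PowerSeries.X ^ (b + 1)) * ∏ c ∈ range L, (1 - PowerSeries.X ^ (b + c + 2)) =
      (1 - PowerSeries.X ^ (L + b + 1) : PowerSeries ℤ) *
        ∏ c ∈ range L, (1 - PowerSeries.X ^ (b + c + 1)) := by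
  induction L with
  | zero => simp
  | succ L ih =>
    rw [prod_range_succ, ← mul_assoc, ih, prod_range_succ,
      show L + 1 + b + 1 = b + L + 2 by ring, show L + b + 1 = b + L + 1 by ring]
    ring

/-- The exponent form for both kinds.  Rectangle: for fixed `b` the product over `c < L` of
`(1 - X^(b+c+2))` over that of `(1 - X^(b+c+1))` telescopes: `(1 - X^(b+1)) ∏_c (1 - X^(b+c+2)) =
(1 - X^(L+b+1)) ∏_c (1 - X^(b+c+1))`; use `U1_rect`, `prod_rect` and cancel
`∏_b (1 - X^(b+1))`.  Staircase: for fixed `c` the product over `i ≤ c` telescopes to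
`(1 - X^(2c+2)) / (1 - X^(c+1)) = 1 + X^(c+1)`; use `U1_stair`, `prod_stair`. -/
theorem ref_U (k : Bool) (m L : ℕ) :
    U1 (Rs k m L) * ∏ p ∈ Rs k m L, (1 - PowerSeries.X ^ (p.i + p.c + 1)) =
      ∏ p ∈ Rs k m L, (1 - PowerSeries.X ^ (p.i + p.c + 2)) := by
  cases k with
  | false =>
    rw [prod_rect m L (fun i c => (1 - PowerSeries.X ^ (i + c + 1) : PowerSeries ℤ)),
      prod_rect m L (fun i c => (1 - PowerSeries.X ^ (i + c + 2) : PowerSeries ℤ))]
    have hD : ∏ b ∈ range (m + 1), (1 - PowerSeries.X ^ (b + 1) : PowerSeries ℤ) ≠ 0 :=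
      prod_ne_zero_iff.2 fun b _ => RefUB_ne_zero b
    apply mul_left_cancel₀ hD
    rw [← prod_mul_distrib, prod_congr rfl fun b _ => RefUB_tele b L, prod_mul_distrib, ← U1_rect]
    ring
  | true =>
    rw [prod_stair m L (fun i c => (1 - PowerSeries.X ^ (i + c + 1) : PowerSeries ℤ)),
      prod_stair m L (fun i c => (1 - PowerSeries.X ^ (i + c + 2) : PowerSeries ℤ)), U1_stair,
      ← prod_mul_distrib]
    refine prod_congr rfl fun c _ => ?_
    apply mul_left_cancel₀ (RefUB_ne_zero c)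
    have h := RefUB_tele c (c + 1)
    simp only [add_comm c] at h
    simp only [add_comm _ c] at h ⊢
    rw [show c + (c + 1) + 1 = (c + 1) + (c + 1) by ring] at h
    rw [h]
    ring

end Pool.Agent.GaussRot
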