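import Pool.Agent.W_448rot_h96.RefTot
import Pool.Agent.W_448rot_h96.RefCo
import Pool.Agent.W_448rot_h96.CountArr
import Pool.Agent.W_448rot_h96.RefUB

/-!
# `A` of the reference posets
-/

namespace Pool.Agent.GaussRot

open Finset

theorem RefA_card (S : Finset (ℤ × ℤ)) (h : ℤ × ℤ → ℕ)
    (ψ : Fil (↑S : Set (ℤ × ℤ)) ≃ Arr S)
    (hψ : ∀ f, ∑ p ∈ S, f.1 p = ∑ p ∈ S, h p * (ψ f).1 p) (n : ℕ) :
    Nat.card {f : Fil (↑S : Set (ℤ × ℤ)) // ∑ p ∈ S, f.1 p = n} = cnt S h n := by
  unfold cnt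
  apply Nat.card_congr
  refine (Equiv.subtypeEquiv ψ (q := fun g : Arr S => ∑ p ∈ S, h p * g.1 p = n) ?_).trans ?_
  · intro f
    rw [hψ f]
  · exact Equiv.subtypeSubtypeEquivSubtypeInter
      (fun g : ℤ × ℤ → ℕ => ∀ p, p ∉ S → g p = 0) (fun g => ∑ p ∈ S, h p * g p = n)

theorem RefA_main (F : Finset Cell) (S : Finset (ℤ × ℤ)) (h : ℤ × ℤ → ℕ)
    (hp : ∀ p ∈ S, 0 < h p)
    (hcoeff : ∀ n, PowerSeries.coeff n (AF F) =
      (Nat.card {f : Fil (↑S : Set (ℤ × ℤ)) // ∑ p ∈ S, f.1 p = n} : ℤ))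
    (hψ : ∃ ψ : Fil (↑S : Set (ℤ × ℤ)) ≃ Arr S, ∀ f,
      ∑ p ∈ S, f.1 p = ∑ p ∈ S, h p * (ψ f).1 p) :
    AF F * ∏ p ∈ S, (1 - PowerSeries.X ^ (h p)) = 1 := by
  obtain ⟨ψ, hψ⟩ := hψ
  have e : AF F = PowerSeries.mk fun n => (cnt S h n : ℤ) := by
    ext n
    rw [hcoeff n, PowerSeries.coeff_mk, RefA_card S h ψ hψ n]
  rw [e]
  exact cnt_gen S h hp

theorem RefA_empty : AF (∅ : Finset Cell) = 1 := by
  ext n
  unfold AF
  rw [PowerSeries.coeff_mk, PowerSeries.coeff_one, Finset.piAntidiag_empty]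
  by_cases hn : n = 0
  · simp [hn]
  · simp [hn]

/-- Rectangle: `coeff_AF_rect`, `rect_total` (with `n = m + 1`, `w = L`), `cnt_gen`; the hook
length of `(u,v)` is `(L - u) + (m + 1 - v) + 1`: careful, in `rect_total` the first coordinate
`u ≤ m + 1` is the row.  The product over the cells of `1 - X^(hook)` is that over `Rs false m L`
of `1 - X^(i+c+1)`: the sum of the exponents runs over `(m + 1 - v', ...)`; use
`i = m + 1 - u`, `c = L - v` and `(L - u) + (m + 1 - v) = i + c`. -/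
theorem ref_A_rect (m L : ℕ) :
    AF (Rs false m L) * ∏ p ∈ Rs false m L, (1 - PowerSeries.X ^ (p.i + p.c + 1)) = 1 := by
  have hcast : ((m + 1 : ℕ) : ℤ) = (m : ℤ) + 1 := by push_cast; rfl
  have h2 := rect_total (m + 1) L (by omega)
  rw [hcast] at h2
  have h1 := RefA_main (Rs false m L) (SR L (m + 1) L)
    (fun p => (((L : ℤ) - p.1) + (((m : ℤ) + 1) - p.2) + 1).toNat) (fun p hp => by
      rw [mem_SR] at hp
      omega) (fun n => coeff_AF_rect m L n) h2
  refine Eq.trans ?_ h1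
  congr 1
  refine Finset.prod_bij' (fun p _ => ((m : ℤ) + 1 - p.i, (L : ℤ) - p.c))
    (fun p _ => (⟨((m : ℤ) + 1 - p.1).toNat, ((L : ℤ) - p.2).toNat⟩ : Cell)) ?_ ?_ ?_ ?_ ?_
  · intro p hp
    rw [mem_Rs, reg_false] at hp
    rw [mem_SR]
    simp only
    omega
  · intro p hp
    rw [mem_SR] at hp
    rw [mem_Rs, reg_false]
    simp only
    omega
  · intro p hp
    rw [mem_Rs, reg_false] at hp
    refine Cell.ext ?_ ?_
    · simp only
      omega
    · simp only
      omega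
  · intro p hp
    rw [mem_SR] at hp
    refine Prod.ext ?_ ?_
    · simp only
      omega
    · simp only
      omega
  · intro p hp
    rw [mem_Rs, reg_false] at hp
    have e : p.i + p.c + 1 =
        (((L : ℤ) - ((m : ℤ) + 1 - p.i)) + (((m : ℤ) + 1) - ((L : ℤ) - p.c)) + 1).toNat := by
      omega
    rw [e]

/-- The two products over the staircase agree: by induction on `L`, the new factors on both sides
are `∏_{a=0}^{L} (1 - X^(a+L+1))`. -/
theorem stair_prod (m L : ℕ) :
    (∏ p ∈ ST L L, (1 - (PowerSeries.X : PowerSeries ℤ) ^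
      (((L : ℤ) - p.1 + 1) + if p.1 = p.2 then 0 else (L : ℤ) - p.2 + 1).toNat)) =
      ∏ p ∈ Rs true m L, (1 - PowerSeries.X ^ (p.i + p.c + 1)) := by
  refine Finset.prod_bij'
    (fun p _ => (⟨if p.1 = p.2 then 0 else ((L : ℤ) - p.2 + 1).toNat, ((L : ℤ) - p.1).toNat⟩ : Cell))
    (fun p _ => ((L : ℤ) - p.c, if p.i = 0 then (L : ℤ) - p.c else (L : ℤ) + 1 - p.i))
    ?_ ?_ ?_ ?_ ?_
  · intro p hp
    rw [mem_ST] at hp
    rw [mem_Rs, reg_true]
    simp only
    split_ifs with h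
    · omega
    · omega
  · intro p hp
    rw [mem_Rs, reg_true] at hp
    rw [mem_ST]
    simp only
    split_ifs with h
    · omega
    · omega
  · intro p hp
    rw [mem_ST] at hp
    refine Prod.ext ?_ ?_
    · simp only
      omega
    · simp only
      split_ifs with h1 h2 h3
      · omega
      · omega
      · omega
      · omega
  · intro p hp
    rw [mem_Rs, reg_true] at hp
    refine Cell.ext ?_ ?_
    · simp only
      split_ifs with h1 h2 h3
      · omega
      · omega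
      · omega
      · omega
    · simp only
      omega
  · intro p hp
    rw [mem_ST] at hp
    simp only
    congr 2
    split_ifs with h
    · omega
    · omega

/-- Staircase: `coeff_AF_stair`, `stair_total`, `cnt_gen`, `stair_prod`. -/
theorem ref_A_stair (m L : ℕ) :
    AF (Rs true m L) * ∏ p ∈ Rs true m L, (1 - PowerSeries.X ^ (p.i + p.c + 1)) = 1 := by
  rcases Nat.eq_zero_or_pos L with hL | hL
  · subst hL
    have h0 : Rs true m 0 = ∅ := by
      refine Finset.eq_empty_of_forall_notMem fun p hp => ?_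
      rw [mem_Rs] at hp
      omega
    rw [h0, RefA_empty, Finset.prod_empty, mul_one]
  · rw [← stair_prod m L]
    refine RefA_main (Rs true m L) (ST L L)
      (fun p => (((L : ℤ) - p.1 + 1) + if p.1 = p.2 then 0 else (L : ℤ) - p.2 + 1).toNat)
      (fun p hp => ?_) (fun n => coeff_AF_stair m L n) (stair_total L hL)
    rw [mem_ST] at hp
    split_ifs with h
    · omega
    · omega

theorem ref_A (k : Bool) (m L : ℕ) :
    AF (Rs k m L) * ∏ p ∈ Rs k m L, (1 - PowerSeries.X ^ (p.i + p.c + 1)) = 1 := by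
  cases k
  · exact ref_A_rect m L
  · exact ref_A_stair m L

end Pool.Agent.GaussRot
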