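import Pool.Agent.W_448rot_h96.Defs

/-!
# Invariance under order isomorphisms
-/

namespace Pool.Agent.GaussRot

set_option linter.unusedSectionVars false

open Finset

variable {Q Q' : Type*} [PartialOrder Q] [DecidableEq Q] [PartialOrder Q'] [DecidableEq Q']

/-- the map is injective on `F` -/
lemma iso_inj {F : Finset Q} {f : Q → Q'} (hf : ∀ x ∈ F, ∀ y ∈ F, (f x ≤ f y ↔ x ≤ y))
    {x y : Q} (hx : x ∈ F) (hy : y ∈ F) (h : f x = f y) : x = y :=
  le_antisymm ((hf x hx y hy).mp h.le) ((hf y hy x hx).mp h.ge)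

open Classical in
/-- transport of a function on `F` to the image -/
noncomputable def Iso_j (F : Finset Q) (f : Q → Q') (t : Q → ℕ) : Q' → ℕ := fun y =>
  if h : ∃ x ∈ F, f x = y then t h.choose else 0

lemma Iso_j_apply {F : Finset Q} {f : Q → Q'} (hf : ∀ x ∈ F, ∀ y ∈ F, (f x ≤ f y ↔ x ≤ y))
    (t : Q → ℕ) {x : Q} (hx : x ∈ F) : Iso_j F f t (f x) = t x := by
  have h : ∃ z ∈ F, f z = f x := ⟨x, hx, rfl⟩
  unfold Iso_j
  rw [dif_pos h]
  congr 1
  exact iso_inj hf h.choose_spec.1 hx h.choose_spec.2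

lemma Iso_j_zero {F : Finset Q} {f : Q → Q'} (t : Q → ℕ) {y : Q'} (hy : y ∉ F.image f) :
    Iso_j F f t y = 0 := by
  unfold Iso_j
  rw [dif_neg]
  rintro ⟨x, hx, rfl⟩
  exact hy (Finset.mem_image_of_mem f hx)

lemma Iso_injOn {F : Finset Q} {f : Q → Q'} (hf : ∀ x ∈ F, ∀ y ∈ F, (f x ≤ f y ↔ x ≤ y))
    {G : Finset Q} (hG : G ⊆ F) : Set.InjOn f (G : Set Q) :=
  fun _ hx _ hy h => iso_inj hf (hG hx) (hG hy) h

/-- `AF` is invariant: a filling `s` of `F.image f` corresponds to the filling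
`x ↦ if x ∈ F then s (f x) else 0` of `F`; the inverse sends `s` to the function which at
`f x`, `x ∈ F`, is `s x` and which is zero off the image. -/
theorem AF_image {F : Finset Q} {f : Q → Q'} (hf : ∀ x ∈ F, ∀ y ∈ F, (f x ≤ f y ↔ x ≤ y)) :
    AF (F.image f) = AF F := by
  classical
  ext n
  unfold AF
  rw [PowerSeries.coeff_mk, PowerSeries.coeff_mk, Nat.cast_inj]
  refine Finset.card_nbij' (fun s x => if x ∈ F then s (f x) else 0) (Iso_j F f) ?_ ?_ ?_ ?_
  · intro s hs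
    rw [Finset.coe_filter, Set.mem_ofPred_eq, Finset.mem_piAntidiag] at hs
    obtain ⟨⟨hs1, hs2⟩, hs3⟩ := hs
    rw [Finset.coe_filter, Set.mem_ofPred_eq, Finset.mem_piAntidiag]
    refine ⟨⟨?_, ?_⟩, ?_⟩
    · rw [Finset.sum_image (Iso_injOn hf (Finset.Subset.refl F))] at hs1
      rw [← hs1]
      exact Finset.sum_congr rfl fun x hx => if_pos hx
    · intro x hx
      by_contra hxF
      exact hx (if_neg hxF)
    · intro x hx y hy hxy
      simp only [if_pos hx, if_pos hy]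
      exact hs3 _ (Finset.mem_image_of_mem f hx) _ (Finset.mem_image_of_mem f hy)
        ((hf x hx y hy).2 hxy)
  · intro t ht
    rw [Finset.coe_filter, Set.mem_ofPred_eq, Finset.mem_piAntidiag] at ht
    obtain ⟨⟨ht1, ht2⟩, ht3⟩ := ht
    rw [Finset.coe_filter, Set.mem_ofPred_eq, Finset.mem_piAntidiag]
    refine ⟨⟨?_, ?_⟩, ?_⟩
    · rw [Finset.sum_image (Iso_injOn hf (Finset.Subset.refl F)), ← ht1]
      exact Finset.sum_congr rfl fun x hx => Iso_j_apply hf t hx
    · intro y hy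
      by_contra hyF
      exact hy (Iso_j_zero t hyF)
    · intro y hy y' hy' hyy
      obtain ⟨x, hx, rfl⟩ := Finset.mem_image.1 hy
      obtain ⟨x', hx', rfl⟩ := Finset.mem_image.1 hy'
      rw [Iso_j_apply hf t hx, Iso_j_apply hf t hx']
      exact ht3 x hx x' hx' ((hf x hx x' hx').1 hyy)
  · intro s hs
    rw [Finset.coe_filter, Set.mem_ofPred_eq, Finset.mem_piAntidiag] at hs
    obtain ⟨⟨hs1, hs2⟩, hs3⟩ := hs
    funext y
    by_cases hy : y ∈ F.image f
    · obtain ⟨x, hx, rfl⟩ := Finset.mem_image.1 hy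
      rw [Iso_j_apply hf _ hx]
      exact if_pos hx
    · rw [Iso_j_zero _ hy]
      by_contra hne
      exact hy (hs2 y (Ne.symm hne))
  · intro t ht
    rw [Finset.coe_filter, Set.mem_ofPred_eq, Finset.mem_piAntidiag] at ht
    obtain ⟨⟨ht1, ht2⟩, ht3⟩ := ht
    funext x
    by_cases hx : x ∈ F
    · simp only [if_pos hx]
      exact Iso_j_apply hf t hx
    · simp only [if_neg hx]
      by_contra hne
      exact hx (ht2 x (Ne.symm hne))

/-- `U1` is invariant: `G ↦ G.image f` is a bijection `J F → J (F.image f)`. -/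
theorem U1_image {F : Finset Q} {f : Q → Q'} (hf : ∀ x ∈ F, ∀ y ∈ F, (f x ≤ f y ↔ x ≤ y)) :
    U1 (F.image f) = U1 F := by
  unfold U1
  symm
  refine Finset.sum_bij (fun G _ => G.image f) ?_ ?_ ?_ ?_
  · intro G hG
    rw [mem_J] at hG ⊢
    refine ⟨Finset.image_subset_image hG.1, ?_⟩
    intro a ha b hb hab
    obtain ⟨x, hx, rfl⟩ := Finset.mem_image.1 ha
    obtain ⟨y, hy, rfl⟩ := Finset.mem_image.1 hb
    exact Finset.mem_image_of_mem f (hG.2 x hx y hy ((hf x (hG.1 hx) y hy).1 hab))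
  · intro G hG G' hG' h
    rw [mem_J] at hG hG'
    have key : ∀ {G G' : Finset Q}, G ⊆ F → G' ⊆ F → G.image f = G'.image f → G ⊆ G' := by
      intro G G' h1 h2 h3 x hx
      have h4 : f x ∈ G'.image f := h3 ▸ Finset.mem_image_of_mem f hx
      obtain ⟨y, hy, hyx⟩ := Finset.mem_image.1 h4
      rw [← iso_inj hf (h2 hy) (h1 hx) hyx]
      exact hy
    exact Finset.Subset.antisymm (key hG.1 hG'.1 h) (key hG'.1 hG.1 h.symm)
  · intro H hH
    rw [mem_J] at hH
    refine ⟨F.filter (fun x => f x ∈ H), ?_, ?_⟩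
    · rw [mem_J]
      refine ⟨Finset.filter_subset _ _, ?_⟩
      intro x hx y hy hxy
      rw [Finset.mem_filter] at hx ⊢
      exact ⟨hy, hH.2 (f x) hx.2 (f y) (Finset.mem_image_of_mem f hy)
        ((hf x hx.1 y hy).2 hxy)⟩
    · ext y
      rw [Finset.mem_image]
      constructor
      · rintro ⟨x, hx, rfl⟩
        exact (Finset.mem_filter.1 hx).2
      · intro hy
        obtain ⟨x, hx, rfl⟩ := Finset.mem_image.1 (hH.1 hy)
        exact ⟨x, Finset.mem_filter.2 ⟨hx, hy⟩, rfl⟩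
  · intro G hG
    rw [mem_J] at hG
    rw [Finset.card_image_of_injOn (Iso_injOn hf hG.1)]

/-- sizes are invariant -/
theorem sz_image {F : Finset Q} {f : Q → Q'} (hf : ∀ x ∈ F, ∀ y ∈ F, (f x ≤ f y ↔ x ≤ y))
    {x : Q} (hx : x ∈ F) : sz (F.image f) (f x) = sz F x := by
  have h1 : upF (F.image f) (f x) = (upF F x).image f := by
    ext y
    rw [mem_upF]
    constructor
    · rintro ⟨hy, hxy⟩
      obtain ⟨z, hz, rfl⟩ := Finset.mem_image.1 hy
      exact Finset.mem_image_of_mem f (mem_upF.2 ⟨hz, (hf x hx z hz).1 hxy⟩)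
    · intro hy
      obtain ⟨z, hz, rfl⟩ := Finset.mem_image.1 hy
      rw [mem_upF] at hz
      exact ⟨Finset.mem_image_of_mem f hz.1, (hf x hx z hz.1).2 hz.2⟩
  unfold sz
  rw [h1, Finset.card_image_of_injOn]
  exact Iso_injOn hf (fun z hz => (mem_upF.1 hz).1)

end Pool.Agent.GaussRot
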