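import Pool.Agent.W_448rot_h96.LayersB

/-!
# Consequences of the layer decomposition
-/

namespace Pool.Agent.GaussRot

set_option linter.unusedSectionVars false

open Finset

variable {Q : Type*} [PartialOrder Q] [DecidableEq Q]

lemma LayersC_exists {F D G : Finset Q} (hG : G ∈ J F) (h : ¬ G ⊆ D) :
    ∃ y ∈ G, y ∈ F \ D := by
  rw [Finset.not_subset] at h
  obtain ⟨y, hy, hyD⟩ := h
  exact ⟨y, hy, Finset.mem_sdiff.2 ⟨(mem_J.1 hG).1 hy, hyD⟩⟩

lemma LayersC_self_mem {F : Finset Q} {y : Q} (hy : y ∈ F) : y ∈ upF F y :=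
  mem_upF.2 ⟨hy, le_rfl⟩

/-- If all elements of `F \ D` have size at least `s` (in `F`) then `AF F` and `AF D` agree
modulo `X^s`: in `AF_diff` every `G` contains some `y ∈ F \ D`, so `|G| ≥ sz F y ≥ s`
(`sz_le_card`). -/
theorem AF_first {F D : Finset Q} (hD : D ∈ J F) (s : ℕ) (h : ∀ y ∈ F \ D, s ≤ sz F y) :
    Cg s (AF F) (AF D) := by
  classical
  unfold Cg
  rw [AF_diff hD]
  refine Finset.dvd_sum fun G hG => ?_
  rw [Finset.mem_filter] at hG
  obtain ⟨y, hyG, hyF⟩ := LayersC_exists hG.1 hG.2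
  exact Dvd.dvd.mul_right (pow_dvd_pow _ ((h y hyF).trans (sz_le_card hG.1 hyG))) _

/-- Next order: in `AF_diff` the sets `G` with `|G| = s` are exactly the up-sets of the elements
`y ∈ F \ D` with `sz F y = s` (if `y ∈ G \ D` then `upF F y ⊆ G` and the cardinalities force
equality; `y ↦ upF F y` is injective on `F` by antisymmetry); use `constantCoeff_AF` for these
and `cg_X_pow` for the sets with `|G| ≥ s + 1`. -/
theorem AF_first' {F D : Finset Q} (hD : D ∈ J F) (s : ℕ) (h : ∀ y ∈ F \ D, s ≤ sz F y) :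
    Cg (s + 1) (AF F) (AF D +
      (((F \ D).filter (fun y => sz F y = s)).card : PowerSeries ℤ) * PowerSeries.X ^ s) := by
  classical
  have hge : ∀ G ∈ (J F).filter (fun G => ¬ G ⊆ D), s ≤ G.card := by
    intro G hG
    rw [Finset.mem_filter] at hG
    obtain ⟨y, hyG, hyF⟩ := LayersC_exists hG.1 hG.2
    exact (h y hyF).trans (sz_le_card hG.1 hyG)
  have hterm : ∀ G ∈ (J F).filter (fun G => ¬ G ⊆ D),
      Cg (s + 1) (PowerSeries.X ^ G.card * AF G)
        (if G.card = s then PowerSeries.X ^ s else 0) := by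
    intro G hG
    have h1 := hge G hG
    by_cases h2 : G.card = s
    · rw [if_pos h2, h2]
      have h3 : Cg 1 (AF G) 1 := by
        rw [cg_iff_coeff]
        intro k hk
        have hk0 : k = 0 := by omega
        subst hk0
        rw [PowerSeries.coeff_zero_eq_constantCoeff, constantCoeff_AF, map_one]
      have h4 := Cg.X_mul (k := s) h3
      rwa [mul_one] at h4
    · rw [if_neg h2]
      exact cg_X_pow (by omega) _
  have hsum := Cg.sum _ hterm
  rw [← AF_diff hD, ← Finset.sum_filter, Finset.sum_const] at hsum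
  have hcard : (((J F).filter (fun G => ¬ G ⊆ D)).filter (fun G => G.card = s)).card =
      ((F \ D).filter (fun y => sz F y = s)).card := by
    symm
    refine Finset.card_bij (fun y _ => upF F y) ?_ ?_ ?_
    · intro y hy
      rw [Finset.mem_filter, Finset.mem_sdiff] at hy
      rw [Finset.mem_filter, Finset.mem_filter]
      exact ⟨⟨upF_mem_J F y, fun h5 => hy.1.2 (h5 (LayersC_self_mem hy.1.1))⟩, hy.2⟩
    · intro y hy z hz hyz
      rw [Finset.mem_filter, Finset.mem_sdiff] at hy hz
      have h6 : z ∈ upF F y := by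
        rw [hyz]
        exact LayersC_self_mem hz.1.1
      have h7 : y ∈ upF F z := by
        rw [← hyz]
        exact LayersC_self_mem hy.1.1
      exact le_antisymm (mem_upF.1 h6).2 (mem_upF.1 h7).2
    · intro G hG
      rw [Finset.mem_filter, Finset.mem_filter] at hG
      obtain ⟨y, hyG, hyF⟩ := LayersC_exists hG.1.1 hG.1.2
      have h8 : upF F y = G := by
        refine Finset.eq_of_subset_of_card_le (upF_subset hG.1.1 hyG) ?_
        rw [hG.2]
        exact h y hyF
      refine ⟨y, ?_, h8⟩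
      rw [Finset.mem_filter]
      refine ⟨hyF, ?_⟩
      unfold sz
      rw [h8, hG.2]
  rw [hcard, nsmul_eq_mul] at hsum
  have h9 := Cg.add hsum (Cg.refl (s + 1) (AF D))
  rw [sub_add_cancel] at h9
  rw [add_comm (AF D)]
  exact h9

end Pool.Agent.GaussRot
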