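import Pool.Agent.W_448rot_h96.Chain
import Pool.Agent.W_448rot_h96.LayersC
import Pool.Agent.W_448rot_h96.Iso

/-!
# The common part of the poset and of the reference poset
-/

namespace Pool.Agent.GaussRot

set_option linter.unusedSectionVars false

open Finset Pool.Agent.GaussPoset

universe u

variable {P : Type u} [Fintype P] [PartialOrder P] [DecidableEq P]

/-- The common part as a set of cells: the top part, the row `0`, and the natural cells of level
`jj k m + 1` in the rows `2..m`. -/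
def CC (k : Bool) (m L : ℕ) : Finset Cell :=
  (Rs k m L).filter (fun p => p.i + p.c ≤ jj k m ∨ p.i = 0 ∨ (p.i + p.c = jj k m + 1 ∧ 2 ≤ p.i))

/-- the coordinates of the common part -/
def eps (k : Bool) (m : ℕ) (e : ℕ → ℕ → P) (ch y : ℕ → P) (p : Cell) : P :=
  if p.i + p.c ≤ jj k m then e p.i p.c else if p.i = 0 then ch p.c else y p.i

/-- all data of a straight rotation -/
structure Data (k : Bool) (m : ℕ) (e : ℕ → ℕ → P) (L : ℕ) (ch y : ℕ → P) (wf : P) : Prop where
  hG : IsGaussian P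
  hm : 3 ≤ m
  hT : Top k m e
  hS : Straight k m e
  hC : ChainOf k m e L ch
  hy : ∀ i, 2 ≤ i → i ≤ m → Typ k m e (y i) {i - 1, i}
  hw : Typ k m e wf {0, m}

/-- the data exist -/
theorem exists_data {k : Bool} {m : ℕ} {e : ℕ → ℕ → P} (hG : IsGaussian P) (hm : 3 ≤ m)
    (hT : Top k m e) (hS : Straight k m e) : ∃ L ch y wf, Data k m e L ch y wf := by
  classical
  obtain ⟨L, ch, hC⟩ := exists_chain hG hT (fun w w' h h' => hS.uniq w w' _ h h')
  obtain ⟨wf, hw⟩ := hS.new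
  have h : ∀ i, ∃ w : P, 2 ≤ i → i ≤ m → Typ k m e w {i - 1, i} := by
    intro i
    by_cases h2 : 2 ≤ i ∧ i ≤ m
    · obtain ⟨w, hw⟩ := hS.nat i h2.1 h2.2
      exact ⟨w, fun _ _ => hw⟩
    · exact ⟨wf, fun h3 h4 => absurd ⟨h3, h4⟩ h2⟩
  choose y hy using h
  exact ⟨L, ch, y, wf, hG, hm, hT, hS, hC, hy, hw⟩

variable {k : Bool} {m L : ℕ} {e : ℕ → ℕ → P} {ch y : ℕ → P} {wf : P}

lemma mem_CC {p : Cell} : p ∈ CC k m L ↔ (reg k m p.i p.c ∧ p.c < L) ∧
    (p.i + p.c ≤ jj k m ∨ p.i = 0 ∨ (p.i + p.c = jj k m + 1 ∧ 2 ≤ p.i)) := by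
  unfold CC
  rw [mem_filter, mem_Rs]

/-- `CC k m L` is relatively upper in `Rs k m L` (`jj k m + 1 ≤ L`): above a cell of the third kind
with `i + c = jj k m + 1` all other cells have smaller level. -/
theorem CC_mem_J : CC k m L ∈ J (Rs k m L) := by
  rw [mem_J]
  refine ⟨fun p hp => (mem_filter.1 hp).1, ?_⟩
  intro x hx y hy hxy
  rw [mem_CC] at hx ⊢
  rw [mem_Rs] at hy
  obtain ⟨h1, h2⟩ := cell_le.1 hxy
  refine ⟨hy, ?_⟩
  omega

/-- level of the image of a cell -/
theorem Data.lev_eps (h : Data k m e L ch y wf) {p : Cell} (hp : p ∈ CC k m L) :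
    lev (eps k m e ch y p) = p.i + p.c := by
  rw [mem_CC] at hp
  obtain ⟨⟨hr, hL⟩, hp⟩ := hp
  unfold eps
  split_ifs with h1 h2
  · exact h.hT.lev_e _ _ hr h1
  · rw [h.hC.lev_ch _ hL, h2, zero_add]
  · obtain ⟨h3, h4⟩ : p.i + p.c = jj k m + 1 ∧ 2 ≤ p.i := by omega
    have h5 : p.i ≤ m := by
      cases k
      · exact reg_false.1 hr
      · have h6 := reg_true.1 hr
        rw [jj_true] at h3
        omega
    rw [(h.hy p.i h4 h5).1, h3]

open Classical in
/-- straight elements beyond the chain -/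
noncomputable def TT (k : Bool) (m : ℕ) (e : ℕ → ℕ → P) (L : ℕ) : Finset P :=
  univ.filter (fun z => St k m e z ∧ L ≤ lev z)

lemma mem_TT {z : P} : z ∈ TT k m e L ↔ St k m e z ∧ L ≤ lev z := by
  unfold TT; simp

end Pool.Agent.GaussRot
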