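import Pool.Agent.W_448rot_h96.RefSz
import Pool.Agent.W_448rot_h96.EmbDefs

/-!
# Sizes of the cells outside the common part
-/

namespace Pool.Agent.GaussRot

set_option linter.unusedSectionVars false

open Finset

variable {k : Bool} {m L : ℕ}

/-- rectangle: a cell outside the common part is the lost cell `(1, m)`, of size `2m + 2`, or has
size at least `2m + 4`: it has `1 ≤ i ≤ m` and `i + c ≥ m + 2`, and
`(i+1)(c+1) ≥ (i+1)(m+3-i) ≥ 2m + 4` (concave in `i`, compare `i = 1` and `i = m`). -/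
theorem ref_out_false (hm : 3 ≤ m) {p : Cell} (hp : p ∈ Rs false m L) (hn : p ∉ CC false m L) :
    p = ⟨1, m⟩ ∨ 2 * m + 4 ≤ sz (Rs false m L) p := by
  rw [sz_rect m L hp]
  rw [mem_CC] at hn
  rw [mem_Rs] at hp
  obtain ⟨i, c⟩ := p
  simp only [reg_false, jj_false] at hp hn ⊢
  have h1 : i ≠ 0 := fun h => hn ⟨hp, Or.inr (Or.inl h)⟩
  have h2 : ¬ i + c ≤ m := fun h => hn ⟨hp, Or.inl h⟩
  have h3 : ¬ (i + c = m + 1 ∧ 2 ≤ i) := fun h => hn ⟨hp, Or.inr (Or.inr h)⟩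
  by_cases h4 : i + c = m + 1
  · left
    have h5 : i = 1 := by omega
    have h6 : c = m := by omega
    rw [h5, h6]
  · right
    obtain ⟨a, rfl⟩ : ∃ a, i = a + 1 := ⟨i - 1, by omega⟩
    obtain ⟨b, rfl⟩ : ∃ b, m = a + 1 + b := ⟨m - (a + 1), by omega⟩
    obtain ⟨d, rfl⟩ : ∃ d, c = b + 2 + d := ⟨c - (b + 2), by omega⟩
    nlinarith [Nat.zero_le (a * b), Nat.zero_le (a * d)]

/-- size of the lost cell -/
theorem ref_lost_false (hL : m + 1 ≤ L) (hm : 3 ≤ m) :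
    (⟨1, m⟩ : Cell) ∈ Rs false m L ∧ (⟨1, m⟩ : Cell) ∉ CC false m L ∧
      sz (Rs false m L) ⟨1, m⟩ = 2 * m + 2 := by
  have h1 : (⟨1, m⟩ : Cell) ∈ Rs false m L := by
    rw [mem_Rs]
    simp only [reg_false]
    omega
  refine ⟨h1, ?_, ?_⟩
  · rw [mem_CC]
    simp only [reg_false, jj_false]
    omega
  · rw [sz_rect m L h1]
    simp only
    ring

/-- staircase: a cell outside the common part is the lost cell `(1, 2m)`, of size `4m + 1`, or has
size at least `4m + 2`: it has `1 ≤ i ≤ c` and `i + c ≥ 2m + 2`, and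
`2 sz = (i+1)(2c+2-i)`; for `i ≤ m + 1` this is `≥ (i+1)(4m+6-3i) ≥ 8m + 4` (concave, compare
`i = 1` and `i = m+1`), for `i > m + 1` it is `≥ (i+1)(i+2)`. -/
theorem ref_out_true (hm : 3 ≤ m) {p : Cell} (hp : p ∈ Rs true m L) (hn : p ∉ CC true m L) :
    p = ⟨1, 2 * m⟩ ∨ 4 * m + 2 ≤ sz (Rs true m L) p := by
  have hs := sz_stair m L hp
  rw [mem_CC] at hn
  rw [mem_Rs] at hp
  obtain ⟨i, c⟩ := p
  simp only [reg_true, jj_true] at hp hn hs ⊢
  have h1 : i ≠ 0 := fun h => hn ⟨hp, Or.inr (Or.inl h)⟩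
  have h2 : ¬ i + c ≤ 2 * m := fun h => hn ⟨hp, Or.inl h⟩
  have h3 : ¬ (i + c = 2 * m + 1 ∧ 2 ≤ i) := fun h => hn ⟨hp, Or.inr (Or.inr h)⟩
  by_cases h4 : i + c = 2 * m + 1
  · left
    have h5 : i = 1 := by omega
    have h6 : c = 2 * m := by omega
    rw [h5, h6]
  · right
    suffices h7 : 2 * (4 * m + 2) ≤ 2 * sz (Rs true m L) ⟨i, c⟩ by omega
    rw [hs]
    by_cases h8 : i ≤ m + 1
    · obtain ⟨a, rfl⟩ : ∃ a, i = a + 1 := ⟨i - 1, by omega⟩
      obtain ⟨b, rfl⟩ : ∃ b, m = a + b := ⟨m - a, by omega⟩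
      have h9 : 4 * (a + b) + 3 - 3 * a ≤ 2 * c + 2 - (a + 1) := by omega
      have h10 : 4 * (a + b) + 3 - 3 * a = a + 4 * b + 3 := by omega
      rw [h10] at h9
      refine le_trans ?_ (Nat.mul_le_mul_left _ h9)
      rcases Nat.eq_zero_or_pos a with h11 | h11
      · subst h11
        omega
      · have h12 : 3 * a ≤ a * (a + b) := by
          rw [mul_comm]
          exact Nat.mul_le_mul_left _ hm
        nlinarith [Nat.zero_le (a * b)]
    · have h9 : i + 2 ≤ 2 * c + 2 - i := by omega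
      refine le_trans ?_ (Nat.mul_le_mul_left _ h9)
      obtain ⟨b, rfl⟩ : ∃ b, i = m + 2 + b := ⟨i - (m + 2), by omega⟩
      nlinarith [Nat.zero_le (m * b), Nat.zero_le (b * b), Nat.zero_le (m * m)]

/-- size of the lost cell -/
theorem ref_lost_true (hL : 2 * m + 1 ≤ L) (hm : 3 ≤ m) :
    (⟨1, 2 * m⟩ : Cell) ∈ Rs true m L ∧ (⟨1, 2 * m⟩ : Cell) ∉ CC true m L ∧
      sz (Rs true m L) ⟨1, 2 * m⟩ = 4 * m + 1 := by
  have h1 : (⟨1, 2 * m⟩ : Cell) ∈ Rs true m L := by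
    rw [mem_Rs]
    simp only [reg_true]
    omega
  refine ⟨h1, ?_, ?_⟩
  · rw [mem_CC]
    simp only [reg_true, jj_true]
    omega
  · have h2 := sz_stair m L h1
    simp only at h2
    omega

/-- all cells outside the common part have size at least `jj k m + 3` -/
theorem ref_out (hL : jj k m + 1 ≤ L) (hm : 3 ≤ m) {p : Cell} (hp : p ∈ Rs k m L)
    (hn : p ∉ CC k m L) : jj k m + 3 ≤ sz (Rs k m L) p := by
  cases k
  · rw [jj_false] at hL ⊢
    rcases ref_out_false hm hp hn with h | h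
    · rw [h, (ref_lost_false hL hm).2.2]
      omega
    · omega
  · rw [jj_true] at hL ⊢
    rcases ref_out_true hm hp hn with h | h
    · rw [h, (ref_lost_true hL hm).2.2]
      omega
    · omega

end Pool.Agent.GaussRot
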