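import Pool.Agent.W_448rot_h96.SizesPB
import Pool.Agent.W_448rot_h96.SizesR
import Pool.Agent.W_448rot_h96.RefA
import Pool.Agent.W_448rot_h96.FirstOrderB
import Pool.Agent.W_448rot_h96.FirstOrderC
import Pool.Agent.W_448rot_h96.GaussProd

/-!
# Comparison of the exponents; the unnatural pendant does not exist
-/

namespace Pool.Agent.GaussRot

set_option linter.unusedSectionVars false

open Finset Pool.Agent.GaussPoset

universe u

variable {P : Type u} [Fintype P] [PartialOrder P] [DecidableEq P]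
variable {k : Bool} {m L : ℕ} {e : ℕ → ℕ → P} {ch y : ℕ → P} {wf : P}

/-- `AF univ` and `AF (Rs k m L)` agree modulo `X^(jj+3)`: both agree with the series of the common
part (`AF_first` with `Data.sz_out`, `ref_out`; `AF_image`, `Data.upper`, `CC_mem_J`). -/
theorem Data.A_cg (h : Data k m e L ch y wf) :
    Cg (jj k m + 3) (AF (univ : Finset P)) (AF (Rs k m L)) := by
  have hD : (CC k m L).image (eps k m e ch y) ∈ J (univ : Finset P) := by
    rw [mem_J]
    exact ⟨subset_univ _, fun z hz z' _ hzz' => h.upper z hz z' hzz'⟩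
  have h1 : Cg (jj k m + 3) (AF (univ : Finset P)) (AF ((CC k m L).image (eps k m e ch y))) :=
    AF_first hD _ fun z hz => h.sz_out (mem_sdiff.1 hz).2
  have h2 : AF ((CC k m L).image (eps k m e ch y)) = AF (CC k m L) := AF_image h.eps_le
  have h3 : Cg (jj k m + 3) (AF (Rs k m L)) (AF (CC k m L)) :=
    AF_first CC_mem_J _ fun p hp => ref_out h.hC.hL h.hm (mem_sdiff.1 hp).1 (mem_sdiff.1 hp).2
  rw [h2] at h1
  exact h1.trans h3.symm

/-- the exponents `< jj + 3` agree: `exps_unique`, `gauss_A`, `ref_A` -/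
theorem Data.exps (h : Data k m e L ch y wf) : ∀ l < jj k m + 3,
    ((univ : Finset P).filter (fun x => lev x + 1 = l)).card =
      ((Rs k m L).filter (fun p => p.i + p.c + 1 = l)).card :=
  exps_unique (univ : Finset P) (Rs k m L) (fun x => lev x + 1) (fun p => p.i + p.c + 1)
    (fun _ _ => Nat.succ_pos _) (fun _ _ => Nat.succ_pos _) (jj k m + 3) (gauss_A h.hG)
    (ref_A k m L) h.A_cg

/-- `Phi` of the poset and of the reference poset agree modulo `X^(2 jj + 6)`: `first_order` with
`K = jj + 3`, `gauss_A`, `gauss_U`, `ref_A`, `ref_U`, `Data.exps`; for the reference poset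
`Phi = (1-X) U' A' - A' U' = -X A' U'`. -/
theorem Data.Phi_rel (h : Data k m e L ch y wf) :
    Cg (2 * jj k m + 6) (Phi (AF (Rs k m L)) (U1 (Rs k m L)) (univ : Finset P))
      (Phi (AF (Rs k m L)) (U1 (Rs k m L)) (Rs k m L)) := by
  have h1 := first_order (univ : Finset P) (Rs k m L) (fun x => lev x + 1)
    (fun p => p.i + p.c + 1) (fun _ _ => Nat.succ_pos _) (fun _ _ => Nat.succ_pos _)
    (jj k m + 3) h.exps (gauss_A h.hG) (gauss_U h.hG) (ref_A k m L) (ref_U k m L)
  have h2 : 2 * (jj k m + 3) = 2 * jj k m + 6 := by ring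
  rw [h2] at h1
  refine Cg.trans h1 (Cg.of_eq ?_)
  unfold Phi
  ring

end Pool.Agent.GaussRot
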