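import Pool.Agent.W_448rot_h96.Hang

/-!
# Hanging part: elements hanging below one element `x`

`C` and `T` are disjoint, no element of `C` is below an element of `T`, every element of `T` is
below `x ∈ C`, the elements of `C` above an element of `T` are above `x`, and `x` is minimal in
`C`.
-/

namespace Pool.Agent.GaussRot

set_option linter.unusedSectionVars false

open Finset

variable {Q : Type*} [PartialOrder Q] [DecidableEq Q]

variable {C T : Finset Q} {x : Q}

open Classical in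
/-- the nonempty relatively upper subsets sum to `U1 T - 1` -/
theorem HangB_sum_ne (T : Finset Q) :
    ∑ H ∈ (J T).filter (fun H => H ≠ ∅), (PowerSeries.X : PowerSeries ℤ) ^ H.card = U1 T - 1 := by
  have h1 := Finset.sum_filter_add_sum_filter_not (J T) (fun H => H ≠ ∅)
    (fun H => (PowerSeries.X : PowerSeries ℤ) ^ H.card)
  have h2 : (J T).filter (fun H => ¬ (H ≠ ∅)) = {∅} := by
    ext H
    rw [Finset.mem_filter, Finset.mem_singleton, not_not]
    exact ⟨fun h => h.2, fun h => ⟨h ▸ empty_mem_J T, h⟩⟩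
  rw [h2, Finset.sum_singleton, Finset.card_empty, pow_zero] at h1
  unfold U1
  rw [← h1, add_sub_cancel_right]

theorem HangB_mem_of_not {G : Finset Q} (hG : G ∈ J C) (h : ¬ G ⊆ C.erase x) : x ∈ G := by
  by_contra hx
  exact h fun y hy => Finset.mem_erase.2 ⟨fun h1 => hx (h1 ▸ hy), (mem_J.1 hG).1 hy⟩

theorem HangB_card (h : Hang C T x) {G H : Finset Q} (hG : G ∈ J C) (hH : H ∈ J T) :
    (G ∪ H).card = G.card + H.card :=
  Finset.card_union_of_disjoint
    (Finset.disjoint_of_subset_left (mem_J.1 hG).1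
      (Finset.disjoint_of_subset_right (mem_J.1 hH).1 h.disj))

/-- exact formula for `U1`, from `U1_diff`, `Hang.sum_eq` (with `|G ∪ H| = |G| + |H|`) -/
theorem Hang.U1_eq (h : Hang C T x) :
    U1 (C ∪ T) - U1 C = (U1 T - 1) * (U1 C - U1 (C.erase x)) := by
  classical
  rw [U1_diff h.mem_J, h.sum_eq, U1_diff h.erase_mem_J, ← HangB_sum_ne T, mul_comm,
    Finset.sum_mul_sum]
  refine Finset.sum_congr rfl fun G hG => Finset.sum_congr rfl fun H hH => ?_
  rw [Finset.mem_filter] at hG hH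
  rw [HangB_card h hG.1 hH.1, pow_add]

/-- For `G ∈ J C` with `x ∈ G` and `H ∈ J T` the series `AF (G ∪ H)` and `AF G` agree modulo
`X^(sz C x + 1)`: apply `AF_first` in `F = G ∪ H`, `D = G`; an element `t ∈ H` has in `G ∪ H`
all elements of `upF C x` (which is contained in `G`) and itself above. -/
theorem Hang.AF_cg (h : Hang C T x) {G H : Finset Q} (hG : G ∈ J C) (hx : x ∈ G) (hH : H ∈ J T) :
    Cg (sz C x + 1) (AF (G ∪ H)) (AF G) := by
  have hG' := Pool.Agent.GaussRot.mem_J.1 hG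
  have hH' := Pool.Agent.GaussRot.mem_J.1 hH
  refine AF_first (Pool.Agent.GaussRot.mem_J.2 ⟨Finset.subset_union_left, fun a ha y hy hay => ?_⟩) _ fun y hy => ?_
  · rcases Finset.mem_union.1 hy with h1 | h1
    · exact h1
    · exact absurd hay (h.nle a (hG'.1 ha) y (hH'.1 h1))
  · rw [Finset.mem_sdiff, Finset.mem_union] at hy
    have hyH : y ∈ H := hy.1.resolve_left hy.2
    have hyT : y ∈ T := hH'.1 hyH
    have hyC : y ∉ C := fun h1 => (Finset.disjoint_left.1 h.disj h1) hyT
    have hsub : insert y (upF C x) ⊆ upF (G ∪ H) y := by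
      intro z hz
      rw [mem_upF]
      rcases Finset.mem_insert.1 hz with h1 | h1
      · rw [h1]
        exact ⟨Finset.mem_union_right _ hyH, le_rfl⟩
      · rw [mem_upF] at h1
        exact ⟨Finset.mem_union_left _ (hG'.2 x hx z h1.1 h1.2), (h.below y hyT).trans h1.2⟩
    have hcard := Finset.card_le_card hsub
    rw [Finset.card_insert_of_notMem (fun h1 => hyC (mem_upF.1 h1).1)] at hcard
    exact hcard

/-- `AF_diff`, `Hang.sum_eq`, `Hang.AF_cg`: each term `X^(|G|+|H|) * AF (G ∪ H)` has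
`|G| + |H| ≥ sz C x + 1`, so it agrees with `X^(|G|+|H|) * AF G` modulo `X^(2 sz + 2)`. -/
theorem Hang.AF_diff (h : Hang C T x) :
    Cg (2 * sz C x + 2) (AF (C ∪ T) - AF C) ((U1 T - 1) * (AF C - AF (C.erase x))) := by
  classical
  rw [Pool.Agent.GaussRot.AF_diff h.mem_J, h.sum_eq,
    Pool.Agent.GaussRot.AF_diff h.erase_mem_J, ← HangB_sum_ne T,
    mul_comm (∑ H ∈ (J T).filter (fun H => H ≠ ∅), (PowerSeries.X : PowerSeries ℤ) ^ H.card),
    Finset.sum_mul_sum]
  refine Cg.sum _ fun G hG => Cg.sum _ fun H hH => ?_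
  rw [Finset.mem_filter] at hG hH
  have hxG := HangB_mem_of_not hG.1 hG.2
  have h1 := sz_le_card hG.1 hxG
  have h2 : 1 ≤ H.card := Finset.card_pos.2 (Finset.nonempty_iff_ne_empty.2 hH.2)
  rw [HangB_card h hG.1 hH.1]
  have h3 := Cg.X_mul (k := G.card + H.card) (h.AF_cg hG.1 hxG hH.1)
  refine (Cg.mono (by omega) h3).trans (Cg.of_eq ?_)
  rw [pow_add]
  ring

/-- the same for `Phi` -/
theorem Hang.Phi_diff (h : Hang C T x) (A' U' : PowerSeries ℤ) :
    Cg (2 * sz C x + 2) (Phi A' U' (C ∪ T) - Phi A' U' C)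
      ((U1 T - 1) * (Phi A' U' C - Phi A' U' (C.erase x))) := by
  have h1 := h.U1_eq
  have h2 := h.AF_diff
  unfold Phi
  have h3 := (Cg.refl (2 * sz C x + 2) ((1 - PowerSeries.X) * U')).mul h2
  have h4 := (Cg.refl (2 * sz C x + 2) A').mul (Cg.of_eq (n := 2 * sz C x + 2) h1)
  have h5 := h3.sub h4
  refine (Cg.of_eq ?_).trans (h5.trans (Cg.of_eq ?_)) <;> ring

/-- `U1 T - 1` has no constant term -/
theorem U1_sub_one (T : Finset Q) : Cg 1 (U1 T - 1) 0 := by
  classical
  rw [← HangB_sum_ne T]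
  have h1 : Cg 1 (∑ H ∈ (J T).filter (fun H => H ≠ ∅), (PowerSeries.X : PowerSeries ℤ) ^ H.card)
      (∑ H ∈ (J T).filter (fun H => H ≠ ∅), (0 : PowerSeries ℤ)) := by
    refine Cg.sum _ fun H hH => ?_
    rw [Finset.mem_filter] at hH
    have h2 : 1 ≤ H.card := Finset.card_pos.2 (Finset.nonempty_iff_ne_empty.2 hH.2)
    have h3 := cg_X_pow h2 (1 : PowerSeries ℤ)
    rwa [mul_one] at h3
  rwa [Finset.sum_const_zero] at h1

end Pool.Agent.GaussRot
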