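import Pool.Agent.W_448rot_h96.EmbB
import Pool.Agent.W_448rot_h96.HangB

/-!
# The common part of the poset and of the reference poset
-/

namespace Pool.Agent.GaussRot

set_option linter.unusedSectionVars false

open Finset Pool.Agent.GaussPoset

universe u

variable {P : Type u} [Fintype P] [PartialOrder P] [DecidableEq P]

variable {k : Bool} {m L : ℕ} {e : ℕ → ℕ → P} {ch y : ℕ → P} {wf : P}

/-- elements of the chain are in the common part -/
theorem EmbC_ch_mem (h : Data k m e L ch y wf) {c : ℕ} (hc : c < L) :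
    (⟨0, c⟩ : Cell) ∈ CC k m L ∧ eps k m e ch y ⟨0, c⟩ = ch c := by
  constructor
  · rw [mem_CC]
    exact ⟨⟨reg_zero _, hc⟩, Or.inr (Or.inl rfl)⟩
  · unfold eps
    simp only
    by_cases h1 : 0 + c ≤ jj k m
    · rw [if_pos h1, h.hC.ch_eq c (by omega)]
    · rw [if_neg h1, if_pos trivial]

theorem EmbC_low_mem (h : Data k m e L ch y wf) {z : P} (hz : lev z ≤ jj k m) :
    z ∈ (CC k m L).image (eps k m e ch y) := by
  have hL := h.hC.hL
  obtain ⟨i, c, hr, hic, rfl⟩ := h.hT.surj z hz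
  rw [Finset.mem_image]
  refine ⟨⟨i, c⟩, ?_, ?_⟩
  · rw [mem_CC]
    exact ⟨⟨hr, by simp only; omega⟩, Or.inl hic⟩
  · unfold eps
    simp only
    rw [if_pos hic]

/-- straight elements are in the union -/
theorem EmbC_st_mem (h : Data k m e L ch y wf) {z : P} (hz : St k m e z) :
    z ∈ (CC k m L).image (eps k m e ch y) ∪ TT k m e L := by
  rw [Finset.mem_union]
  rcases Nat.lt_or_ge (lev z) L with h1 | h1
  · left
    have h2 := h.hC.st_lt z hz h1
    obtain ⟨h3, h4⟩ := EmbC_ch_mem h h1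
    rw [Finset.mem_image]
    exact ⟨_, h3, by rw [h4, ← h2]⟩
  · right
    exact mem_TT.2 ⟨hz, h1⟩

/-- the straight elements of level `≥ jj k m` outside the common part are those of `TT`; the common
part and `TT` satisfy the hypotheses of `Hang` with `x = ch (L-1)` if `TT` is not empty (then
`L ≥ jj k m + 2`, so that `ch (L-1)` is the image of the cell `(0, L-1)`, which is minimal in the
image of the common part: a smaller cell `(i, L-1)`, `i ≥ 1`, of level `≥ jj k m + 2` is not in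
`CC`). -/
theorem Data.hang (h : Data k m e L ch y wf) (hne : (TT k m e L).Nonempty) :
    Hang ((CC k m L).image (eps k m e ch y)) (TT k m e L) (ch (L - 1)) ∧
      jj k m + 2 ≤ L ∧ sz ((CC k m L).image (eps k m e ch y)) (ch (L - 1)) = L ∧
      ((CC k m L).image (eps k m e ch y)).erase (ch (L - 1)) =
        ((CC k m L).erase ⟨0, L - 1⟩).image (eps k m e ch y) := by
  classical
  obtain ⟨t0, ht0⟩ := hne
  rw [mem_TT] at ht0
  have hjL := h.hC.br t0 ht0.1 ht0.2
  have hiso := h.eps_le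
  obtain ⟨hxm, hxe⟩ := EmbC_ch_mem h (c := L - 1) (by omega)
  have hstx : St k m e (ch (L - 1)) := h.hC.st_ch (L - 1) (by omega) (by omega)
  have hlt : ∀ p ∈ CC k m L, lev (eps k m e ch y p) < L := by
    intro p hp
    rw [h.lev_eps hp]
    rcases EmbB_kinds h hp with ⟨_, h1, _⟩ | ⟨h1, _, h2, _⟩ | ⟨_, _, h1, _⟩ <;> omega
  have hLev : ∀ t ∈ TT k m e L, L ≤ lev t := fun t ht => (mem_TT.1 ht).2
  refine ⟨⟨?_, ?_, ?_, ?_, ?_, ?_⟩, hjL, ?_, ?_⟩
  · rw [Finset.disjoint_left]
    intro z hz hz'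
    rw [Finset.mem_image] at hz
    obtain ⟨p, hp, rfl⟩ := hz
    have := hlt p hp
    have := hLev _ hz'
    omega
  · rw [← hxe]
    exact Finset.mem_image_of_mem _ hxm
  · intro z hz hzx
    rw [Finset.mem_image] at hz
    obtain ⟨p, hp, rfl⟩ := hz
    rw [← hxe] at hzx ⊢
    have h1 := (hiso p hp _ hxm).1 hzx
    rw [cell_le] at h1
    obtain ⟨h1, h2⟩ := h1
    simp only at h1 h2
    have h3 : p = ⟨0, L - 1⟩ := by
      rcases EmbB_kinds h hp with ⟨_, h3, _⟩ | ⟨h3, _, h4, _⟩ | ⟨_, _, h3, _⟩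
      · omega
      · exact Cell.ext h3 (by simp only; omega)
      · omega
    rw [h3]
  · intro t ht
    rw [mem_TT] at ht
    exact (h.hC.st_ge t ht.1 ht.2).le
  · intro z hz t ht hzt
    rw [Finset.mem_image] at hz
    obtain ⟨p, hp, rfl⟩ := hz
    have h1 := hlt p hp
    have h2 := hLev t ht
    have h3 := EmbB_lev hzt
    omega
  · intro t ht z hz htz
    rw [Finset.mem_image] at hz
    obtain ⟨p, hp, rfl⟩ := hz
    rw [mem_TT] at ht
    rcases EmbB_kinds h hp with ⟨hr, hpj, hpe⟩ | ⟨hpi, hpj, hpL, hpe⟩ | ⟨hp2, hpm, hpj, hpe⟩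
    · rw [hpe] at htz ⊢
      rw [St.above h.hG h.hT ht.1 hr hpj] at htz
      exact (St.above h.hG h.hT hstx hr hpj).2 htz
    · rw [hpe, h.hC.above (L - 1) (by omega)]
      exact ⟨p.c, by omega, rfl⟩
    · exfalso
      rw [hpe] at htz
      refine EmbB_y_not_st h hp2 hpm (St.mono ht.1 htz ?_)
      rw [(h.hy p.i hp2 hpm).1]
      omega
  · have h1 : upF ((CC k m L).image (eps k m e ch y)) (ch (L - 1)) = (range L).image ch := by
      ext z
      rw [mem_upF, Finset.mem_image, Finset.mem_image]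
      constructor
      · rintro ⟨_, hz⟩
        rw [h.hC.above (L - 1) (by omega)] at hz
        obtain ⟨c', hc', rfl⟩ := hz
        exact ⟨c', by rw [Finset.mem_range]; omega, rfl⟩
      · rintro ⟨c, hc, rfl⟩
        rw [Finset.mem_range] at hc
        obtain ⟨h3, h4⟩ := EmbC_ch_mem h hc
        exact ⟨⟨_, h3, h4⟩, (h.hC.above (L - 1) (by omega) _).2 ⟨c, by omega, rfl⟩⟩
    unfold sz
    rw [h1, Finset.card_image_of_injOn, Finset.card_range]
    intro c hc c' hc' he
    rw [Finset.coe_range, Set.mem_Iio] at hc hc'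
    have h2 := h.hC.lev_ch c hc
    rw [he, h.hC.lev_ch c' hc'] at h2
    exact h2.symm
  · ext z
    rw [Finset.mem_erase, Finset.mem_image, Finset.mem_image]
    constructor
    · rintro ⟨hz, p, hp, rfl⟩
      refine ⟨p, Finset.mem_erase.2 ⟨?_, hp⟩, rfl⟩
      rintro rfl
      exact hz hxe
    · rintro ⟨p, hp, rfl⟩
      rw [Finset.mem_erase] at hp
      refine ⟨?_, p, hp.2, rfl⟩
      intro he
      rw [← hxe] at he
      exact hp.1 (iso_inj hiso hp.2 hxm he)

/-- the union of the common part and `TT` is an upper set -/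
theorem Data.union_mem_J (h : Data k m e L ch y wf) :
    (CC k m L).image (eps k m e ch y) ∪ TT k m e L ∈ J (univ : Finset P) := by
  rw [mem_J]
  refine ⟨Finset.subset_univ _, ?_⟩
  intro x hx z _ hxz
  rw [Finset.mem_union] at hx
  rcases hx with hx | hx
  · exact Finset.mem_union_left _ (h.upper x hx z hxz)
  · rw [mem_TT] at hx
    rcases Nat.lt_or_ge (lev z) (jj k m) with h1 | h1
    · exact Finset.mem_union_left _ (EmbC_low_mem h h1.le)
    · exact EmbC_st_mem h (St.mono hx.1 hxz h1)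

/-- an element outside the common part and `TT` lies below an element `w` of level `jj k m + 1` of
type `{0, m}`, `{1}` or `{i-1, i}`, and if it has level `jj k m + 1` itself it is of type `{0,m}`
or `{1}` -/
theorem Data.outside (h : Data k m e L ch y wf) {z : P}
    (hz : z ∉ (CC k m L).image (eps k m e ch y) ∪ TT k m e L) :
    ∃ w, z ≤ w ∧ lev w = jj k m + 1 ∧
      ((z = w ∧ (Typ k m e w {0, m} ∨ Typ k m e w {1})) ∨
       (z < w ∧ (Typ k m e w {0, m} ∨ Typ k m e w {1} ∨ ∃ i, 2 ≤ i ∧ i ≤ m ∧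
          Typ k m e w {i - 1, i}))) := by
  have hzu := hz
  rw [Finset.mem_union, not_or] at hz
  have hlz : jj k m < lev z := by
    by_contra hcon
    exact hz.1 (EmbC_low_mem h (by omega))
  have hnst : ¬ St k m e z := fun hst => hzu (EmbC_st_mem h hst)
  have hex : ∃ i, 1 ≤ i ∧ i ≤ m ∧ z ≤ e i (jj k m - i) := by
    by_contra hcon
    apply hnst
    refine ⟨hlz.le, fun i h1 h2 h3 => hcon ⟨i, h1, h2, h3⟩⟩
  obtain ⟨i, hi1, him, hzi⟩ := hex
  obtain ⟨h1, h2⟩ := reg_x (k := k) him
  have h3 := h.hT.lev_e _ _ h1 h2.le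
  obtain ⟨w, hzw, hwi, hlw⟩ := between h.hG hzi (l := jj k m + 1) (by omega) hlz
  have hwi' : w < e i (jj k m - i) := by
    refine lt_of_le_of_ne hwi ?_
    rintro rfl
    omega
  have hno : ¬ Typ k m e w {0} := by
    intro ht
    have := (ht.2 i him).1 hwi'
    rw [Finset.mem_singleton] at this
    omega
  refine ⟨w, hzw, hlw, ?_⟩
  rcases h.hS.only w hlw with h4 | h4 | h4 | ⟨i', hi2, him', h4⟩
  · exact absurd h4 hno
  · rcases eq_or_lt_of_le hzw with h5 | h5
    · exact Or.inl ⟨h5, Or.inr h4⟩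
    · exact Or.inr ⟨h5, Or.inr (Or.inl h4)⟩
  · rcases eq_or_lt_of_le hzw with h5 | h5
    · exact Or.inl ⟨h5, Or.inl h4⟩
    · exact Or.inr ⟨h5, Or.inl h4⟩
  · rcases eq_or_lt_of_le hzw with h5 | h5
    · exfalso
      apply hz.1
      have h6 : w = y i' := h.hS.uniq w (y i') _ h4 (h.hy i' hi2 him')
      have hL := h.hC.hL
      have hmj := EmbB_jj h
      rw [Finset.mem_image]
      refine ⟨⟨i', jj k m + 1 - i'⟩, ?_, ?_⟩
      · rw [mem_CC]
        refine ⟨⟨?_, by simp only; omega⟩, Or.inr (Or.inr ⟨by simp only; omega, hi2⟩)⟩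
        cases k
        · exact reg_false.2 him'
        · rw [reg_true]
          simp only [jj_true]
          omega
      · unfold eps
        simp only
        rw [if_neg (by omega), if_neg (by omega), h5, h6]
    · exact Or.inr ⟨h5, Or.inr (Or.inr ⟨i', hi2, him', h4⟩)⟩

end Pool.Agent.GaussRot
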