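import Pool.Agent.W_448rot_h96.TPartA
import Pool.Agent.W_448rot_h96.EmbC
import Pool.Agent.W_448rot_h96.Count

/-!
# The straight elements beyond the chain do not contribute
-/

namespace Pool.Agent.GaussRot

set_option linter.unusedSectionVars false

open Finset Pool.Agent.GaussPoset

universe u

variable {P : Type u} [Fintype P] [PartialOrder P] [DecidableEq P]
variable {k : Bool} {m L : ℕ} {e : ℕ → ℕ → P} {ch y : ℕ → P} {wf : P}

/-- `Phi` of the image of a set of cells of the common part (`AF_image`, `U1_image`,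
`Data.eps_le`) -/
theorem Data.Phi_image (h : Data k m e L ch y wf) (A' U' : PowerSeries ℤ) {F : Finset Cell}
    (hF : F ⊆ CC k m L) : Phi A' U' (F.image (eps k m e ch y)) = Phi A' U' F := by
  have hf : ∀ p ∈ F, ∀ q ∈ F, (eps k m e ch y p ≤ eps k m e ch y q ↔ p ≤ q) :=
    fun p hp q hq => h.eps_le p (hF hp) q (hF hq)
  unfold Phi
  rw [AF_image hf, U1_image hf]

/-- The part `TT` does not contribute modulo `X^(2 jj + 6)`.  If `TT` is empty there is nothing to
prove.  Otherwise `Data.hang`, `Hang.Phi_diff` (`2 sz + 2 = 2L + 2 ≥ 2 jj + 6`): the difference is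
`(U1 T - 1) (Phi (CC) - Phi (CC.erase x'))` (`Data.Phi_image`), `O(X) * O(X^(2jj+5))`
(`U1_sub_one`, `ref_T`, `Cg.mul_zero'`). -/
theorem Data.T_part (h : Data k m e L ch y wf) :
    Cg (2 * jj k m + 6)
      (Phi (AF (Rs k m L)) (U1 (Rs k m L))
        ((CC k m L).image (eps k m e ch y) ∪ TT k m e L))
      (Phi (AF (Rs k m L)) (U1 (Rs k m L)) (CC k m L)) := by
  by_cases hne : (TT k m e L).Nonempty
  · obtain ⟨hH, hL, hsz, her⟩ := h.hang hne
    have h1 := hH.Phi_diff (AF (Rs k m L)) (U1 (Rs k m L))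
    rw [hsz, her, h.Phi_image _ _ (Finset.Subset.refl _),
      h.Phi_image _ _ (Finset.erase_subset _ _)] at h1
    have h2 := Cg.mul_zero' (U1_sub_one (TT k m e L)) (ref_T k m L h.hm hL)
    have h3 := (h1.mono (m := 2 * jj k m + 6) (by omega)).trans
      (h2.mono (m := 2 * jj k m + 6) (by omega))
    have h4 := h3.add (Cg.refl (2 * jj k m + 6)
      (Phi (AF (Rs k m L)) (U1 (Rs k m L)) (CC k m L)))
    rw [sub_add_cancel, zero_add] at h4
    exact h4
  · rw [Finset.not_nonempty_iff_eq_empty] at hne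
    rw [hne, Finset.union_empty, h.Phi_image _ _ (Finset.Subset.refl _)]
    exact Cg.refl _ _

/-- Comparison: the contributions of the filters outside the common part agree -/
theorem Data.cmp (h : Data k m e L ch y wf) :
    Cg (2 * jj k m + 6)
      (Phi (AF (Rs k m L)) (U1 (Rs k m L)) (univ : Finset P) -
        Phi (AF (Rs k m L)) (U1 (Rs k m L))
          ((CC k m L).image (eps k m e ch y) ∪ TT k m e L))
      (Phi (AF (Rs k m L)) (U1 (Rs k m L)) (Rs k m L) -
        Phi (AF (Rs k m L)) (U1 (Rs k m L)) (CC k m L)) :=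
  h.Phi_rel.sub h.T_part

end Pool.Agent.GaussRot
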