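import Pool.Agent.W_448rot_h96.CoeffR
import Pool.Agent.W_448rot_h96.CoeffP
import Pool.Agent.W_448rot_h96.TPart

/-!
# Straight rotations are impossible
-/

namespace Pool.Agent.GaussRot

set_option linter.unusedSectionVars false

open Finset Pool.Agent.GaussPoset

universe u

variable {P : Type u} [Fintype P] [PartialOrder P] [DecidableEq P]
variable {m L : ℕ} {e : ℕ → ℕ → P} {ch y : ℕ → P} {wf : P}

/-- Theorems R and S: there is no straight rotation. -/
theorem no_straight {k : Bool} (hG : IsGaussian P) (hm : 3 ≤ m) (hT : Top k m e)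
    (hS : Straight k m e) : False := by
  obtain ⟨L, ch, y, wf, h⟩ := exists_data hG hm hT hS
  have hL := h.hC.hL
  have hc := h.cmp
  cases k
  · rw [jj_false] at hc hL
    have h1 := (cg_iff_coeff.mp hc) (2 * m + 5) (by omega)
    have h2 := h.coeff_false
    have h3 := ref_coeff_false (L := L) hm hL
    rw [h1] at h2
    omega
  · rw [jj_true] at hc hL
    have h1 := (cg_iff_coeff.mp hc) (4 * m + 4) (by omega)
    rw [h.coeff_true, ref_coeff_true hm hL] at h1
    omega

end Pool.Agent.GaussRot
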