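import Pool.Agent.W_448rot_h96.FoldCnt

/-!
# Fold rotation, first part: the level sizes

`R = Rs true m (2m+1)`, the staircase with `2m + 1` columns.
-/

namespace Pool.Agent.GaussRot

set_option linter.unusedSectionVars false

open Finset Pool.Agent.GaussPoset

universe u

variable {P : Type u} [Fintype P] [PartialOrder P] [DecidableEq P]

variable {m : ℕ} {e : ℕ → ℕ → P} {y : ℕ → P} {wf : P}

lemma FoldAll_cells (m : ℕ) {j j' : ℕ} (hj : j + j' = 4 * m) :
    ((Rs true m (2 * m + 1)).filter (fun p => p.i + p.c + 1 = j + 1)).card =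
      ((Rs true m (2 * m + 1)).filter (fun p => p.i + p.c + 1 = j' + 1)).card := by
  refine Finset.card_bij' (fun p _ => (⟨2 * m - p.c, 2 * m - p.i⟩ : Cell))
    (fun p _ => (⟨2 * m - p.c, 2 * m - p.i⟩ : Cell)) ?_ ?_ ?_ ?_
  · rintro ⟨i, c⟩ hp
    rw [Finset.mem_filter, mem_Rs, reg_true] at hp ⊢
    dsimp only at hp ⊢
    omega
  · rintro ⟨i, c⟩ hp
    rw [Finset.mem_filter, mem_Rs, reg_true] at hp ⊢
    dsimp only at hp ⊢
    omega
  · rintro ⟨i, c⟩ hp
    rw [Finset.mem_filter, mem_Rs, reg_true] at hp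
    dsimp only at hp
    rw [Cell.mk.injEq]
    dsimp only
    omega
  · rintro ⟨i, c⟩ hp
    rw [Finset.mem_filter, mem_Rs, reg_true] at hp
    dsimp only at hp
    rw [Cell.mk.injEq]
    dsimp only
    omega

lemma FoldAll_lv (j : ℕ) : (univ : Finset P).filter (fun x => lev x + 1 = j + 1) = lv P j := by
  ext x
  rw [mem_lv, Finset.mem_filter]
  simp

lemma FoldAll_prod {α : Type*} {M : Type*} [CommMonoid M] (s : Finset α) (g : α → ℕ) {N : ℕ}
    (hN : ∀ a ∈ s, g a < N) (f : ℕ → M) :
    ∏ a ∈ s, f (g a) = ∏ l ∈ range N, f l ^ (s.filter (fun a => g a = l)).card := by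
  rw [← Finset.prod_fiberwise_of_maps_to (t := range N) (g := g)
    (fun a ha => Finset.mem_range.2 (hN a ha))]
  refine Finset.prod_congr rfl fun l _ => ?_
  rw [← Finset.prod_const]
  refine Finset.prod_congr rfl fun a ha => ?_
  rw [(Finset.mem_filter.1 ha).2]

/-- All level sizes agree with those of the reference poset: levels `≤ 2m` by the coordinates,
the others by symmetry (`lv_symm`; on the cells `(i,c) ↦ (2m - c, 2m - i)`). -/
theorem FData.exps_all (h : FData m e y wf) (H : Gr P (4 * m)) (l : ℕ) :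
    ((univ : Finset P).filter (fun x => lev x + 1 = l)).card =
      ((Rs true m (2 * m + 1)).filter (fun p => p.i + p.c + 1 = l)).card := by
  rcases Nat.lt_or_ge l (2 * m + 3) with h1 | h1
  · exact h.exps l h1
  obtain ⟨j, rfl⟩ : ∃ j, l = j + 1 := ⟨l - 1, by omega⟩
  rcases Nat.lt_or_ge (4 * m) j with h2 | h2
  · have h3 : ∀ x ∈ (univ : Finset P), ¬ lev x + 1 = j + 1 := by
      intro x _
      have h3 := H.hr x
      omega
    have h4 : ∀ p ∈ Rs true m (2 * m + 1), ¬ p.i + p.c + 1 = j + 1 := by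
      rintro ⟨i, c⟩ hp
      rw [mem_Rs, reg_true] at hp
      dsimp only at hp ⊢
      omega
    rw [Finset.filter_false_of_mem h3, Finset.filter_false_of_mem h4]
    rfl
  · obtain ⟨j', hj'⟩ : ∃ j', j + j' = 4 * m := ⟨4 * m - j, by omega⟩
    have h3 := h.exps (j' + 1) (by omega)
    have h4 := lv_symm H (l := j') (by omega)
    have h5 : 4 * m - j' = j := by omega
    rw [h5] at h4
    rw [FoldAll_cells m hj', ← h3, FoldAll_lv, FoldAll_lv, h4]

lemma FData.FoldAll_prods (h : FData m e y wf) (H : Gr P (4 * m)) {M : Type*} [CommMonoid M]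
    (f : ℕ → M) :
    ∏ x : P, f (lev x + 1) = ∏ p ∈ Rs true m (2 * m + 1), f (p.i + p.c + 1) := by
  rw [FoldAll_prod (univ : Finset P) (fun x => lev x + 1) (N := 4 * m + 2)
    (fun x _ => by have := H.hr x; omega) f,
    FoldAll_prod (Rs true m (2 * m + 1)) (fun p => p.i + p.c + 1) (N := 4 * m + 2) ?_ f]
  · refine Finset.prod_congr rfl fun l _ => ?_
    rw [h.exps_all H l]
  · rintro ⟨i, c⟩ hp
    rw [mem_Rs, reg_true] at hp
    dsimp only at hp ⊢
    omega

/-- Hence `AF univ` and `U1 univ` agree with the series of the reference poset (both are determined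
by the exponents: `gauss_A`, `gauss_U`, `ref_A`, `ref_U`; group the products by the value). -/
theorem FData.series_eq (h : FData m e y wf) (H : Gr P (4 * m)) :
    AF (univ : Finset P) = AF (Rs true m (2 * m + 1)) ∧
      U1 (univ : Finset P) = U1 (Rs true m (2 * m + 1)) := by
  have h1 := gauss_A h.hG
  have h2 := ref_A true m (2 * m + 1)
  have h3 := gauss_U h.hG
  have h4 := ref_U true m (2 * m + 1)
  have h5 := h.FoldAll_prods H (fun l => (1 : PowerSeries ℤ) - PowerSeries.X ^ l)
  have h6 := h.FoldAll_prods H (fun l => (1 : PowerSeries ℤ) - PowerSeries.X ^ (l + 1))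
  beta_reduce at h5 h6
  rw [← h5] at h2 h4
  have h7 : ∏ x : P, ((1 : PowerSeries ℤ) - PowerSeries.X ^ (lev x + 2)) =
      ∏ p ∈ Rs true m (2 * m + 1), ((1 : PowerSeries ℤ) - PowerSeries.X ^ (p.i + p.c + 2)) := h6
  rw [h7, ← h4] at h3
  have h8 : ∏ x : P, ((1 : PowerSeries ℤ) - PowerSeries.X ^ (lev x + 1)) ≠ 0 := by
    intro h9
    rw [h9, mul_zero] at h1
    exact zero_ne_one h1
  exact ⟨mul_right_cancel₀ h8 (h1.trans h2.symm), mul_right_cancel₀ h8 h3⟩

end Pool.Agent.GaussRot
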