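import Pool.Agent.W_448rot_h96.FoldCg
import Pool.Agent.W_448rot_h96.FoldAll

/-!
# Fold rotation, second part: the lower half

`f` are the coordinates of the top part of the dual poset (so they describe the lower half of the
poset).  All elements `f i c` are elements of `Pᵒᵈ`.
-/

namespace Pool.Agent.GaussRot

set_option linter.unusedSectionVars false

open Finset Pool.Agent.GaussPoset OrderDual

universe u

variable {P : Type u} [Fintype P] [PartialOrder P] [DecidableEq P]
variable {m : ℕ} {e : ℕ → ℕ → P} {y : ℕ → P} {wf : P} {f : ℕ → ℕ → Pᵒᵈ}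

section aux

variable {Q : Type*} [PartialOrder Q] [DecidableEq Q]

/-- if `sz F y = |G|` for some `y ∈ G ∈ J F` then `G` is the up-set of `y` -/
theorem FoldFin_eq_upF {F G : Finset Q} (hG : G ∈ J F) {y : Q} (hy : y ∈ G)
    (hc : G.card ≤ sz F y) : G = upF F y :=
  (Finset.eq_of_subset_of_card_le (upF_subset hG hy) hc).symm

/-- the general term -/
theorem FoldFin_term {F G : Finset Q} {A : PowerSeries ℤ} {y : Q} {K m : ℕ}
    (hG : G ∈ J F) (hy : y ∈ G) (hK : K ≤ sz F y)
    (h1 : Cg (m + 3) (AF G) A) (h2 : G = upF F y → Cg (m + 4) (AF G) A) :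
    Cg (K + m + 4) (PowerSeries.X ^ G.card * (AF G - A)) 0 := by
  have hz : ∀ n, Cg n (AF G) A → Cg n (AF G - A) 0 := by
    intro n h
    have := h.sub (Cg.refl n A)
    rwa [sub_self] at this
  have hle : K ≤ G.card := hK.trans (sz_le_card hG hy)
  rcases Nat.lt_or_ge (sz F y) G.card with h | h
  · have h3 := (hz _ h1).X_mul (k := G.card)
    rw [mul_zero] at h3
    exact h3.mono (by omega)
  · have h3 := (hz _ (h2 (FoldFin_eq_upF hG hy h))).X_mul (k := G.card)
    rw [mul_zero] at h3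
    exact h3.mono (by omega)

open Classical in
/-- the subtracted series -/
theorem FoldFin_sum {F D : Finset Q} (hD : D ∈ J F) (A : PowerSeries ℤ) :
    (AF F - AF D) - A * (U1 F - U1 D) =
      ∑ G ∈ (J F).filter (fun G => ¬ G ⊆ D), PowerSeries.X ^ G.card * (AF G - A) := by
  rw [AF_diff hD, U1_diff hD, Finset.mul_sum, ← Finset.sum_sub_distrib]
  exact Finset.sum_congr rfl fun G _ => by ring

end aux

theorem FoldFin_mem_R {m : ℕ} (hm : 3 ≤ m) : (⟨m, m + 1⟩ : Cell) ∈ Rs true m (2 * m + 1) := by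
  rw [mem_Rs, reg_true]
  exact ⟨by dsimp only; omega, by dsimp only; omega⟩

theorem FoldFin_R {m : ℕ} (hm : 3 ≤ m) {K : ℕ} (hK : 2 * K = (m + 1) * (m + 4)) :
    Cg (K + m + 4) ((AF (Rs true m (2 * m + 1)) - AF (CD m)) -
      AF (YY m) * (U1 (Rs true m (2 * m + 1)) - U1 (CD m))) 0 := by
  classical
  rw [FoldFin_sum (CD_mem_J m)]
  have h0 : (0 : PowerSeries ℤ) =
      ∑ G ∈ (J (Rs true m (2 * m + 1))).filter (fun G => ¬ G ⊆ CD m), 0 := by simp
  rw [h0]
  refine Cg.sum _ fun G hG => ?_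
  rw [mem_filter] at hG
  obtain ⟨hGJ, hGD⟩ := hG
  have hlost : (⟨m, m + 1⟩ : Cell) ∈ G := by
    rw [Finset.not_subset] at hGD
    obtain ⟨p, hp, hpD⟩ := hGD
    have hpR := (mem_J.1 hGJ).1 hp
    refine (mem_J.1 hGJ).2 p hp _ (FoldFin_mem_R hm) ?_
    rw [cell_le]
    unfold CD at hpD
    rw [mem_filter] at hpD
    constructor
    · dsimp only
      by_contra h
      exact hpD ⟨hpR, Or.inl (by omega)⟩
    · dsimp only
      by_contra h
      exact hpD ⟨hpR, Or.inr (by omega)⟩
  have hsz : K ≤ sz (Rs true m (2 * m + 1)) ⟨m, m + 1⟩ := by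
    have h := sz_stair m (2 * m + 1) (FoldFin_mem_R hm)
    have h2 : (2 * (m + 1) + 2 - m) = m + 4 := by omega
    dsimp only at h
    rw [h2, ← hK] at h
    omega
  have hY : YY m ⊆ G := by
    intro p hp
    unfold YY at hp
    rw [mem_filter] at hp
    refine (mem_J.1 hGJ).2 _ hlost p hp.1 ?_
    rw [cell_le]
    have h1 := (mem_Rs.1 hp.1).1
    rw [reg_true] at h1
    dsimp only
    omega
  refine FoldFin_term hGJ hlost hsz (refF_cg hm hGJ hY) fun h => ?_
  rw [h]
  exact refF_lost hm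

theorem FoldFin_P (h : FData m e y wf) (H : Gr P (4 * m)) (hf : Top true m f) {K : ℕ}
    (hK : sz (univ : Finset P) wf = K) {D : Finset P}
    (hD : ∀ z, z ∈ D ↔ ¬ z ≤ wf) :
    Cg (K + m + 4) ((AF (univ : Finset P) - AF D) - AF (YY m) * (U1 (univ : Finset P) - U1 D))
      (PowerSeries.X ^ (K + m + 3)) := by
  classical
  have hDJ : D ∈ J (univ : Finset P) := by
    rw [mem_J]
    refine ⟨Finset.subset_univ _, fun x hx z _ hxz => ?_⟩
    rw [hD] at hx ⊢
    exact fun h => hx (hxz.trans h)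
  rw [FoldFin_sum hDJ]
  have hmem : upF (univ : Finset P) wf ∈ (J (univ : Finset P)).filter (fun G => ¬ G ⊆ D) := by
    rw [mem_filter]
    refine ⟨upF_mem_J _ _, fun hs => ?_⟩
    have h1 : wf ∈ D := hs (mem_upF.2 ⟨mem_univ _, le_rfl⟩)
    exact (hD wf).1 h1 le_rfl
  rw [← Finset.add_sum_erase _ _ hmem]
  have h1 : Cg (K + m + 4) (PowerSeries.X ^ (upF (univ : Finset P) wf).card *
      (AF (upF (univ : Finset P) wf) - AF (YY m))) (PowerSeries.X ^ (K + m + 3)) := by
    have hc : (upF (univ : Finset P) wf).card = K := hK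
    rw [hc]
    have h2 := (h.AF_wf.sub (Cg.refl (m + 4) (AF (YY m)))).X_mul (k := K)
    have h3 : PowerSeries.X ^ K * (AF (YY m) + PowerSeries.X ^ (m + 3) - AF (YY m)) =
        (PowerSeries.X ^ (K + m + 3) : PowerSeries ℤ) := by ring
    rw [h3] at h2
    exact h2.mono (by omega)
  have h2 : Cg (K + m + 4) (∑ G ∈ ((J (univ : Finset P)).filter (fun G => ¬ G ⊆ D)).erase
      (upF (univ : Finset P) wf), PowerSeries.X ^ G.card * (AF G - AF (YY m))) 0 := by
    have h0 : (0 : PowerSeries ℤ) =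
      ∑ G ∈ ((J (univ : Finset P)).filter (fun G => ¬ G ⊆ D)).erase
        (upF (univ : Finset P) wf), 0 := by simp
    rw [h0]
    refine Cg.sum _ fun G hG => ?_
    rw [mem_erase, mem_filter] at hG
    obtain ⟨hne, hGJ, hGD⟩ := hG
    have hwf : wf ∈ G := by
      rw [Finset.not_subset] at hGD
      obtain ⟨z, hz, hzD⟩ := hGD
      rw [hD, not_not] at hzD
      exact (mem_J.1 hGJ).2 z hz wf (mem_univ _) hzD
    exact FoldFin_term hGJ hwf hK.ge (h.AF_cg H hf hGJ hwf) fun h => absurd h hne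
  have h3 := h1.add h2
  rwa [add_zero] at h3

/-- Theorem F: there is no fold rotation.  By `FData.series_eq`, `AF_diff`, `U1_diff`, `AF_image`,
`U1_image`, `FData.image_CD`: the sums of `X^|G| AF G` and of `X^|G|` over the upper sets `G`
containing `wf` are equal to those over the relatively upper sets of cells containing the lost
cell `(m, m+1)`.  Subtract `AF (YY m)` times the second from the first.  Let
`K = (m+1)(m+4)/2` (size of `wf` and of the lost cell).  Modulo `X^(K+m+4)`: on the left only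
`G = upF univ wf` contributes, `X^(K+m+3)` (`FData.AF_wf`; for `|G| > K` use `FData.AF_cg`); on
the right nothing (`refF_lost`, `refF_cg`).  Contradiction. -/
theorem FData.false (h : FData m e y wf) (H : Gr P (4 * m)) (hf : Top true m f) : False := by
  classical
  have hD : ∀ z, z ∈ (CD m).image (epsD m e f) ↔ ¬ z ≤ wf := by
    intro z
    rw [h.image_CD H hf, mem_filter]
    exact ⟨fun h => h.2, fun h => ⟨mem_univ _, h⟩⟩
  have h1 := FoldFin_P h H hf rfl hD
  rw [AF_image (h.epsD_le H hf), U1_image (h.epsD_le H hf), (h.series_eq H).1,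
    (h.series_eq H).2] at h1
  have h2 := FoldFin_R h.hm h.sz_wf
  have h3 := h1.symm.trans h2
  rw [cg_iff_coeff] at h3
  have h4 := h3 (sz (univ : Finset P) wf + m + 3) (by omega)
  rw [PowerSeries.coeff_X_pow_self, map_zero] at h4
  exact one_ne_zero h4

/-- Theorem F, final form: `4m ≤ r` expresses that the level `2m` is in the upper half. -/
theorem no_fold {r : ℕ} (H : Gr P r) (hm : 3 ≤ m) (hr : 4 * m ≤ r) (hT : Top true m e)
    (hF : Fold m e) (hf : Top true m f) : False := by
  classical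
  obtain ⟨wf, hw⟩ := hF.new
  have h : ∀ i, ∃ w : P, 1 ≤ i → i + 1 ≤ m → Typ true m e w {i - 1, i} := by
    intro i
    by_cases h2 : 1 ≤ i ∧ i + 1 ≤ m
    · obtain ⟨w, hw⟩ := hF.nat i h2.1 h2.2
      exact ⟨w, fun _ _ => hw⟩
    · exact ⟨wf, fun h3 h4 => absurd ⟨h3, h4⟩ h2⟩
  choose y hy using h
  have hD : FData m e y wf := ⟨H.1, hm, hT, hF, hy, hw⟩
  have hr' := hD.r_eq H hr
  subst hr'
  exact hD.false H hf

end Pool.Agent.GaussRot
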