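import Pool.Agent.W_448rot_h96.UnimodB

/-!
# Inequalities between the level sizes (T2)
-/

namespace Pool.Agent.GaussRot

set_option linter.unusedSectionVars false

open Finset Pool.Agent.GaussPoset

universe u

variable {P : Type u} [Fintype P] [PartialOrder P] [DecidableEq P] {r : ℕ}

lemma LevelsT2_dvd2 {d n : ℕ} (h1 : 0 < n) (h2 : n < 2 * d) (h : d ∣ n) : n = d := by
  obtain ⟨k, rfl⟩ := h
  have hd : 0 < d := Nat.pos_of_mul_pos_right h1
  have hk1 : k < 2 := by
    by_contra hk
    have := Nat.mul_le_mul_left d (not_lt.1 hk)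
    omega
  have hk0 : k ≠ 0 := by
    rintro rfl
    omega
  have hk : k = 1 := by omega
  rw [hk, mul_one]

lemma LevelsT2_dvd3 {d n : ℕ} (h1 : 0 < n) (h2 : n < 3 * d) (h : d ∣ n) : n = d ∨ n = 2 * d := by
  obtain ⟨k, rfl⟩ := h
  have hk1 : k < 3 := by
    by_contra hk
    have := Nat.mul_le_mul_left d (not_lt.1 hk)
    omega
  have hk0 : k ≠ 0 := by
    rintro rfl
    omega
  have hk : k = 1 ∨ k = 2 := by omega
  rcases hk with hk | hk
  · left
    rw [hk, mul_one]
  · right
    rw [hk, mul_comm]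

/-- the left side of the comparison of exponents -/
lemma LevelsT2_left (H : Gr P r) {l : ℕ} (h1 : 2 * l ≤ r) :
    (univ : Finset P).filter (fun x => (r + 1 - l) ∣ lev x + 1) = lv P (r - l) := by
  ext x
  rw [mem_filter, mem_lv]
  have h2 := H.lev_le x
  constructor
  · rintro ⟨_, h3⟩
    have h4 := LevelsT2_dvd2 (Nat.succ_pos _) (by omega) h3
    omega
  · intro h3
    refine ⟨mem_univ x, ?_⟩
    have h4 : lev x + 1 = r + 1 - l := by omega
    rw [h4]

/-- `b_l ≤ b_i` for `l ≤ i ≤ r - l`.  Apply `exps_dvd` with `d = r + 1 - l`, `M = r - l - i`.  The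
exponents are `≤ r + 1 < 2d`, so the left side counts `lev x + 1 = d`, it is `b_(r-l) = b_l`
(`lv_symm`); on the right `M + h = d` means `h = i + 1`, and `2d > M + r + 1`. -/
theorem lv_le (H : Gr P r) {l i : ℕ} (h1 : l ≤ i) (h2 : i + l ≤ r) :
    (lv P l).card ≤ (lv P i).card := by
  have h3 := exps_dvd H.gauss (r - l - i) (r + 1 - l) (by omega)
  rw [LevelsT2_left H (by omega), lv_symm H (by omega)] at h3
  refine h3.trans (Finset.card_le_card fun x hx => ?_)
  rw [mem_filter] at hx
  rw [mem_lv]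
  have h4 := H.lev_le x
  have h5 := LevelsT2_dvd2 (by omega) (by omega) hx.2
  omega

/-- `b_l ≤ b_i + b_(l-1-i)` for `i < l`, `2l ≤ r`.  Apply `exps_dvd` with `d = r + 1 - l`,
`M = r - l - i`: on the right `M + h = d` means level `i`, `M + h = 2d` means level
`r + 1 - l + i`, of size `b_(l-1-i)` by `lv_symm`, and `3d > M + r + 1`. -/
theorem lv_sub (H : Gr P r) {l i : ℕ} (h1 : i < l) (h2 : 2 * l ≤ r) :
    (lv P l).card ≤ (lv P i).card + (lv P (l - 1 - i)).card := by
  have h3 := exps_dvd H.gauss (r - l - i) (r + 1 - l) (by omega)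
  rw [LevelsT2_left H h2, lv_symm H (by omega)] at h3
  rw [← lv_symm H (show l - 1 - i ≤ r by omega)]
  refine h3.trans (le_trans (Finset.card_le_card (t := lv P i ∪ lv P (r - (l - 1 - i))) ?_)
    (Finset.card_union_le _ _))
  intro x hx
  rw [mem_filter] at hx
  rw [mem_union, mem_lv, mem_lv]
  have h4 := H.lev_le x
  rcases LevelsT2_dvd3 (by omega) (by omega) hx.2 with h5 | h5
  · left
    omega
  · right
    omega

end Pool.Agent.GaussRot
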