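import Pool.Agent.W_448rot_h96.Cells
import Pool.Agent.W_MP_448cb3_h96.Struct

/-!
# The top part of the poset, and the three types of rotations
-/

namespace Pool.Agent.GaussRot

set_option linter.unusedSectionVars false

open Finset Pool.Agent.GaussPoset

universe u

variable {P : Type u} [Fintype P] [PartialOrder P] [DecidableEq P]

/-- `e` gives coordinates for the elements of level at most `jj k m`: the quadrant `i + c ≤ m`
for `k = false`, the shifted quadrant `i ≤ c`, `i + c ≤ 2m` for `k = true`. -/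
structure Top (k : Bool) (m : ℕ) (e : ℕ → ℕ → P) : Prop where
  lev_e : ∀ i c, reg k m i c → i + c ≤ jj k m → lev (e i c) = i + c
  le_iff : ∀ i c i' c', reg k m i c → i + c ≤ jj k m → reg k m i' c' → i' + c' ≤ jj k m →
    (e i c ≤ e i' c' ↔ i' ≤ i ∧ c' ≤ c)
  surj : ∀ z : P, lev z ≤ jj k m → ∃ i c, reg k m i c ∧ i + c ≤ jj k m ∧ e i c = z

/-- `w` has level `jj k m + 1` and the elements of level `jj k m` above it are the
`x_i = e i (jj k m - i)`, `i ∈ T` -/
def Typ (k : Bool) (m : ℕ) (e : ℕ → ℕ → P) (w : P) (T : Finset ℕ) : Prop :=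
  lev w = jj k m + 1 ∧ ∀ i ≤ m, (w < e i (jj k m - i) ↔ i ∈ T)

/-- straight rotation: the natural element over `{x_0, x_1}` is lost, a new one over
`{x_0, x_m}` appears, elements with a single upper cover only under `x_0` and `x_1` -/
structure Straight (k : Bool) (m : ℕ) (e : ℕ → ℕ → P) : Prop where
  nat : ∀ i, 2 ≤ i → i ≤ m → ∃ w, Typ k m e w {i - 1, i}
  new : ∃ w, Typ k m e w {0, m}
  only : ∀ w, lev w = jj k m + 1 → Typ k m e w {0} ∨ Typ k m e w {1} ∨ Typ k m e w {0, m} ∨
    ∃ i, 2 ≤ i ∧ i ≤ m ∧ Typ k m e w {i - 1, i}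
  uniq : ∀ w w' T, Typ k m e w T → Typ k m e w' T → w = w'

/-- fold rotation (shifted case): the natural element over `{x_(m-1), x_m}` is lost, a new one
over `{x_0, x_m}` appears, elements with a single upper cover only under `x_m` and `x_(m-1)` -/
structure Fold (m : ℕ) (e : ℕ → ℕ → P) : Prop where
  nat : ∀ i, 1 ≤ i → i + 1 ≤ m → ∃ w, Typ true m e w {i - 1, i}
  new : ∃ w, Typ true m e w {0, m}
  only : ∀ w, lev w = 2 * m + 1 → Typ true m e w {m} ∨ Typ true m e w {m - 1} ∨
    Typ true m e w {0, m} ∨ ∃ i, 1 ≤ i ∧ i + 1 ≤ m ∧ Typ true m e w {i - 1, i}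
  uniq : ∀ w w' T, Typ true m e w T → Typ true m e w' T → w = w'

variable {k : Bool} {m : ℕ} {e : ℕ → ℕ → P}

lemma reg_x {i : ℕ} (hi : i ≤ m) : reg k m i (jj k m - i) ∧ i + (jj k m - i) = jj k m := by
  cases k
  · rw [reg_false, jj_false]; omega
  · rw [reg_true, jj_true]; omega

lemma reg_zero (c : ℕ) : reg k m 0 c := by
  cases k
  · rw [reg_false]; omega
  · rw [reg_true]; omega

lemma reg_le {i c : ℕ} (h : reg k m i c) (hic : i + c ≤ jj k m) : i ≤ m := by
  cases k
  · rw [reg_false] at h; exact h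
  · rw [reg_true] at h; rw [jj_true] at hic; omega

/-- `Typ` determines the set up to its part `≤ m` -/
theorem Typ.inter {w : P} {T T' : Finset ℕ} (h : Typ k m e w T) (h' : Typ k m e w T') :
    ∀ i ≤ m, (i ∈ T ↔ i ∈ T') := fun i hi => (h.2 i hi).symm.trans (h'.2 i hi)

/-- an element is straight: its level is at least `jj k m` and it is not below any `x_i`,
`1 ≤ i ≤ m` -/
def St (k : Bool) (m : ℕ) (e : ℕ → ℕ → P) (z : P) : Prop :=
  jj k m ≤ lev z ∧ ∀ i, 1 ≤ i → i ≤ m → ¬ z ≤ e i (jj k m - i)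

/-- elements above a straight element with level `≥ jj k m` are straight -/
theorem St.mono {z y : P} (h : St k m e z) (hzy : z ≤ y) (hy : jj k m ≤ lev y) : St k m e y :=
  ⟨hy, fun i h1 h2 h3 => h.2 i h1 h2 (hzy.trans h3)⟩

end Pool.Agent.GaussRot
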