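import Pool.Agent.W_448rot_h96.Top

/-!
# The unbranched initial part of the straight elements
-/

namespace Pool.Agent.GaussRot

set_option linter.unusedSectionVars false

open Finset Pool.Agent.GaussPoset

universe u

variable {P : Type u} [Fintype P] [PartialOrder P] [DecidableEq P]

/-- `ch 0 > ch 1 > … > ch (L-1)` is the straight chain up to its first branching -/
structure ChainOf (k : Bool) (m : ℕ) (e : ℕ → ℕ → P) (L : ℕ) (ch : ℕ → P) : Prop where
  hL : jj k m + 1 ≤ L
  lev_ch : ∀ c < L, lev (ch c) = c
  ch_eq : ∀ c ≤ jj k m, ch c = e 0 c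
  above : ∀ c < L, ∀ z, ch c ≤ z ↔ ∃ c' ≤ c, z = ch c'
  st_ch : ∀ c < L, jj k m ≤ c → St k m e (ch c)
  st_lt : ∀ z, St k m e z → lev z < L → z = ch (lev z)
  st_ge : ∀ z, St k m e z → L ≤ lev z → z < ch (L - 1)
  br : ∀ z, St k m e z → L ≤ lev z → jj k m + 2 ≤ L

variable {k : Bool} {m : ℕ} {e : ℕ → ℕ → P}

/-- Existence of the chain.  Let `j = jj k m`.  For a level `l ≥ j` let `S_l` be the set of the
straight elements of level `l`; `S_j = {e 0 j}` (`Top.surj`, `Top.le_iff`).  Let `L ≥ j + 1` be
the first level `≥ j + 1` such that `S_L` does not have exactly one element (it exists as the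
poset is finite, `S_l` is empty for large `l`).  Put `ch c = e 0 c` for `c ≤ j` and `ch c` = the
element of `S_c` for `j < c < L`.
`above`: for `c ≤ j` from `Top`; an element above `ch c`, `c > j`, of level `≥ j` is straight
(`St.mono`) of level `≤ c`, hence one of the `ch c'`; those of level `< j` are `e 0 c'` by
`St.above`; conversely `ch c ≤ ch c'` by `between` (there is an element of level `c'` above
`ch c`, which is straight, or by `St.above`).
`st_ge`: for a straight `z` with `lev z ≥ L` there is an element of level `L - 1` above `z`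
(`between` with the top, or `exists_above'`), it is straight, hence equal to `ch (L-1)`.
`br`: if `L = j + 1` then `S_(j+1)` has at most one element (`st_iff_typ`, `Straight.uniq`),
hence none; but above a straight `z` of level `≥ j + 1` there is a straight element of level
`j + 1`. -/
theorem exists_chain (hG : IsGaussian P) (hT : Top k m e)
    (huniq : ∀ w w', Typ k m e w {0} → Typ k m e w' {0} → w = w') :
    ∃ L ch, ChainOf k m e L ch := by
  classical
  set j := jj k m with hj
  -- the straight element of level `j`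
  have hst0 : St k m e (e 0 j) := by
    have h1 : lev (e 0 j) = 0 + j := hT.lev_e 0 j (reg_zero j) (by omega)
    refine ⟨by omega, fun i h2 h3 h4 => ?_⟩
    obtain ⟨h5, h6⟩ := reg_x (k := k) h3
    have h7 := (hT.le_iff 0 j i (jj k m - i) (reg_zero j) (by omega) h5 (by omega)).1 h4
    omega
  have hlev0 : lev (e 0 j) = j := by
    have := hT.lev_e 0 j (reg_zero j) (by omega)
    omega
  have huniq0 : ∀ z, St k m e z → lev z = j → z = e 0 j := by
    intro z hz hzl
    obtain ⟨i, c, hr, hic, rfl⟩ := hT.surj z (by omega)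
    have h1 := hT.lev_e i c hr hic
    have him : i ≤ m := reg_le hr hic
    rcases Nat.eq_zero_or_pos i with h0 | h0
    · subst h0
      have : c = j := by omega
      rw [this]
    · exfalso
      apply hz.2 i h0 him
      have : c = jj k m - i := by omega
      rw [this]
  -- the level of the first branching
  have hexL : ∃ l, j + 1 ≤ l ∧ ¬ ∃! z : P, St k m e z ∧ lev z = l := by
    refine ⟨j + 1 + ∑ z : P, lev z, by omega, ?_⟩
    rintro ⟨z, ⟨_, hz⟩, _⟩
    have : lev z ≤ ∑ z : P, lev z :=
      Finset.single_le_sum (f := fun z : P => lev z) (fun _ _ => Nat.zero_le _) (Finset.mem_univ z)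
    omega
  obtain ⟨L, ⟨hL1, hL2⟩, hLmin⟩ : ∃ L, (j + 1 ≤ L ∧ ¬ ∃! z : P, St k m e z ∧ lev z = L) ∧
      ∀ l < L, ¬ (j + 1 ≤ l ∧ ¬ ∃! z : P, St k m e z ∧ lev z = l) :=
    ⟨Nat.find hexL, Nat.find_spec hexL, fun l hl => Nat.find_min hexL hl⟩
  have hex : ∀ c, j ≤ c → c < L → ∃! z : P, St k m e z ∧ lev z = c := by
    intro c h1 h2
    rcases Nat.eq_or_lt_of_le h1 with h3 | h3
    · subst h3
      exact ⟨e 0 j, ⟨hst0, hlev0⟩, fun z hz => huniq0 z hz.1 hz.2⟩
    · by_contra h4
      exact hLmin c h2 ⟨h3, h4⟩
  set ch : ℕ → P := fun c => if h : j ≤ c ∧ c < L then (hex c h.1 h.2).choose else e 0 c with hch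
  have hch1 : ∀ c, j ≤ c → c < L → St k m e (ch c) ∧ lev (ch c) = c := by
    intro c h1 h2
    have : ch c = (hex c h1 h2).choose := by
      simp only [hch]
      rw [dif_pos ⟨h1, h2⟩]
    rw [this]
    exact (hex c h1 h2).choose_spec.1
  have st_lt : ∀ z, St k m e z → lev z < L → z = ch (lev z) := by
    intro z hz hzL
    exact (hex (lev z) hz.1 hzL).unique ⟨hz, rfl⟩ (hch1 (lev z) hz.1 hzL)
  have ch_eq : ∀ c ≤ j, ch c = e 0 c := by
    intro c hc
    rcases Nat.eq_or_lt_of_le hc with h | h
    · subst h
      have h1 := st_lt (e 0 j) hst0 (by omega)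
      rw [hlev0] at h1
      exact h1.symm
    · simp only [hch]
      rw [dif_neg (by omega)]
  have lev_ch : ∀ c < L, lev (ch c) = c := by
    intro c hc
    rcases le_or_gt j c with h | h
    · exact (hch1 c h hc).2
    · rw [ch_eq c h.le]
      have := hT.lev_e 0 c (reg_zero c) (by omega)
      omega
  refine ⟨L, ch, ⟨hL1, lev_ch, ch_eq, ?_, fun c h1 h2 => (hch1 c h2 h1).1, st_lt, ?_, ?_⟩⟩
  · intro c hc z
    constructor
    · intro hz
      have hlz : lev z ≤ c := by
        have := (lev_strictAnti (P := P)).antitone hz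
        rw [lev_ch c hc] at this
        exact this
      rcases le_or_gt j (lev z) with h | h
      · have h1 : St k m e z := St.mono (hch1 c (h.trans hlz) hc).1 hz h
        exact ⟨lev z, hlz, st_lt z h1 (by omega)⟩
      · obtain ⟨i, c', hr, hic, rfl⟩ := hT.surj z h.le
        have h1 := hT.lev_e i c' hr hic
        have hi : i = 0 := by
          rcases le_or_gt j c with h2 | h2
          · exact (St.above hG hT (hch1 c h2 hc).1 hr hic).1 hz
          · rw [ch_eq c h2.le] at hz
            have := (hT.le_iff 0 c i c' (reg_zero c) (by omega) hr hic).1 hz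
            omega
        subst hi
        exact ⟨c', by omega, (ch_eq c' (by omega)).symm⟩
    · rintro ⟨c', hc', rfl⟩
      rcases le_or_gt c' j with h | h
      · rw [ch_eq c' h]
        rcases le_or_gt j c with h2 | h2
        · exact (St.above hG hT (hch1 c h2 hc).1 (reg_zero c') (by omega)).2 rfl
        · rw [ch_eq c h2.le]
          exact (hT.le_iff 0 c 0 c' (reg_zero c) (by omega) (reg_zero c') (by omega)).2
            ⟨le_rfl, hc'⟩
      · obtain ⟨y, hy, hyl⟩ := exists_above' (x := ch c) (j := c') (by rw [lev_ch c hc]; exact hc')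
        have h1 : St k m e y := St.mono (hch1 c (by omega) hc).1 hy (by omega)
        have h2 := st_lt y h1 (by omega)
        rw [hyl] at h2
        rw [← h2]
        exact hy
  · intro z hz hzL
    obtain ⟨y, hy, hyl⟩ := exists_above' (x := z) (j := L - 1) (by omega)
    have h1 : St k m e y := St.mono hz hy (by omega)
    have h2 := st_lt y h1 (by omega)
    rw [hyl] at h2
    rw [← h2]
    refine lt_of_le_of_ne hy ?_
    rintro rfl
    omega
  · intro z hz hzL
    by_contra hcon
    have hLj : L = j + 1 := by omega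
    apply hL2
    obtain ⟨y, hy, hyl⟩ := exists_above' (x := z) (j := L) hzL
    have h1 : St k m e y := St.mono hz hy (by omega)
    refine ⟨y, ⟨h1, hyl⟩, ?_⟩
    rintro y' ⟨h2, h3⟩
    exact huniq y' y ((st_iff_typ hG hT (by omega)).1 h2) ((st_iff_typ hG hT (by omega)).1 h1)

end Pool.Agent.GaussRot
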