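import Pool.Agent.W_448rot_h96.SmallE
import Pool.Agent.W_448rot_h96.SizesR

/-!
# Straight rotations are impossible
-/

namespace Pool.Agent.GaussRot

set_option linter.unusedSectionVars false

open Finset Pool.Agent.GaussPoset

universe u

lemma CoeffR_mem {k : Bool} {m L : ℕ} {G : Finset Cell}
    (h : ¬ G ⊆ CC k m L) (hG : G ∈ J (Rs k m L)) :
    ∃ p ∈ G, p ∈ Rs k m L ∧ p ∉ CC k m L := by
  obtain ⟨p, hp, hp2⟩ := LayersC_exists hG h
  rw [Finset.mem_sdiff] at hp2
  exact ⟨p, hp, hp2.1, hp2.2⟩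

lemma CoeffR_up {k : Bool} {m L : ℕ} {G : Finset Cell} (hG : G ∈ J (Rs k m L)) {p : Cell}
    (hp : p ∈ G) {q : Cell} (hq : q ∈ Rs k m L) (h : q.i ≤ p.i ∧ q.c ≤ p.c) : q ∈ G :=
  (mem_J.1 hG).2 p hp q hq h

lemma CoeffR_eq_zero {n : ℕ} {f : PowerSeries ℤ} (h : Cg n f 0) {j : ℕ} (hj : j < n) :
    PowerSeries.coeff j f = 0 := by
  have := cg_iff_coeff.1 h j hj
  rw [this, map_zero]

/-- the value of the coefficient, rectangle -/
lemma CoeffR_false {m L : ℕ} (hm : 3 ≤ m) (hL : m + 1 ≤ L) {G : Finset Cell}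
    (hG : G ∈ J (Rs false m L)) (hn : ¬ G ⊆ CC false m L) :
    PowerSeries.coeff (2 * m + 5)
      (PowerSeries.X ^ G.card * EE (AF (Rs false m L)) (U1 (Rs false m L)) G) = 0 ∨
    (PowerSeries.coeff (2 * m + 5)
      (PowerSeries.X ^ G.card * EE (AF (Rs false m L)) (U1 (Rs false m L)) G) = 1 ∧
      (G = upF (Rs false m L) ⟨1, m⟩ ∨ G = insert ⟨2, 0⟩ (upF (Rs false m L) ⟨1, m⟩) ∨
        (m + 2 ≤ L ∧ G = insert ⟨0, m + 1⟩ (upF (Rs false m L) ⟨1, m⟩)))) := by
  classical
  obtain ⟨p, hpG, hpR, hpC⟩ := CoeffR_mem hn hG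
  have hsz := sz_le_card hG hpG
  have hlost := ref_lost_false hL hm
  have hne : G.Nonempty := ⟨p, hpG⟩
  rw [PowerSeries.coeff_X_pow_mul']
  by_cases h1 : G.card ≤ 2 * m + 5
  swap
  · left
    rw [if_neg h1]
  rw [if_pos h1]
  by_cases h2 : 2 * m + 4 ≤ G.card
  · left
    exact CoeffR_eq_zero (EE_false_two hm hL hG hne) (by omega)
  right
  have hp : p = ⟨1, m⟩ := by
    rcases ref_out_false hm hpR hpC with h | h
    · exact h
    · omega
  rw [hp] at hpG hsz
  rw [hlost.2.2] at hsz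
  have hUG : upF (Rs false m L) ⟨1, m⟩ ⊆ G := upF_subset hG hpG
  have hUc : (upF (Rs false m L) ⟨1, m⟩).card = 2 * m + 2 := hlost.2.2
  by_cases h3 : G.card = 2 * m + 2
  · have hGU : G = upF (Rs false m L) ⟨1, m⟩ :=
      (Finset.eq_of_subset_of_card_le hUG (by omega)).symm
    refine ⟨?_, Or.inl hGU⟩
    have h4 := cg_iff_coeff.1 (EE_false_lost hm hL) 3 (by norm_num)
    have h5 : 2 * m + 5 - G.card = 3 := by omega
    rw [h5, hGU, h4]
    simp [PowerSeries.coeff_X_pow]
  · have h3' : G.card = 2 * m + 3 := by omega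
    constructor
    · have h01 : (⟨0, 1⟩ : Cell) ∈ G := by
        refine CoeffR_up hG hpG (mem_Rs.2 ⟨reg_false.2 (Nat.zero_le _), ?_⟩) ⟨Nat.zero_le _, ?_⟩
        · change 1 < L; omega
        · change 1 ≤ m; omega
      have h10 : (⟨1, 0⟩ : Cell) ∈ G := by
        refine CoeffR_up hG hpG (mem_Rs.2 ⟨reg_false.2 ?_, ?_⟩) ⟨le_rfl, Nat.zero_le _⟩
        · change 1 ≤ m; omega
        · change 0 < L; omega
      have h4 := cg_iff_coeff.1 (EE_false_three hm hL hG h01 h10).2 2 (by norm_num)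
      have h5 : 2 * m + 5 - G.card = 2 := by omega
      rw [h5, h4]
      simp [PowerSeries.coeff_X_pow]
    · right
      have hcard : (G \ upF (Rs false m L) ⟨1, m⟩).card = 1 := by
        rw [Finset.card_sdiff_of_subset hUG]
        omega
      obtain ⟨z, hz⟩ := Finset.card_eq_one.1 hcard
      have hGz : G = insert z (upF (Rs false m L) ⟨1, m⟩) := by
        rw [Finset.insert_eq, ← hz, Finset.sdiff_union_of_subset hUG]
      have hzG : z ∈ G \ upF (Rs false m L) ⟨1, m⟩ := by rw [hz]; simp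
      rw [Finset.mem_sdiff] at hzG
      have hzR : z ∈ Rs false m L := (mem_J.1 hG).1 hzG.1
      have huniq : ∀ q : Cell, q ∈ Rs false m L → (q.i ≤ z.i ∧ q.c ≤ z.c) →
          ¬ (q.i ≤ 1 ∧ q.c ≤ m) → q = z := by
        intro q hq h4 h5
        have h6 : q ∈ G := CoeffR_up hG hzG.1 hq h4
        have h7 : q ∈ G \ upF (Rs false m L) ⟨1, m⟩ := by
          rw [Finset.mem_sdiff]
          refine ⟨h6, fun h8 => h5 (mem_upF.1 h8).2⟩
        rw [hz, Finset.mem_singleton] at h7
        exact h7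
      have hzn : ¬ (z.i ≤ 1 ∧ z.c ≤ m) := fun h4 => hzG.2 (mem_upF.2 ⟨hzR, h4⟩)
      have hzR' := mem_Rs.1 hzR
      have hzr : z.i ≤ m := reg_false.1 hzR'.1
      by_cases h4 : 2 ≤ z.i
      · left
        have h5 : (⟨2, 0⟩ : Cell) = z := by
          refine huniq ⟨2, 0⟩ (mem_Rs.2 ⟨reg_false.2 ?_, ?_⟩) ⟨h4, Nat.zero_le _⟩ ?_
          · change 2 ≤ m; omega
          · change 0 < L; omega
          · intro h6
            have h7 : 2 ≤ 1 := h6.1
            omega
        rw [h5]; exact hGz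
      · right
        have h5 : m + 1 ≤ z.c := by omega
        have h8 := hzR'.2
        refine ⟨by omega, ?_⟩
        have h5 : (⟨0, m + 1⟩ : Cell) = z := by
          refine huniq ⟨0, m + 1⟩ (mem_Rs.2 ⟨reg_false.2 (Nat.zero_le _), ?_⟩)
            ⟨Nat.zero_le _, h5⟩ ?_
          · change m + 1 < L; omega
          · intro h6
            have h7 : m + 1 ≤ m := h6.2
            omega
        rw [h5]; exact hGz

/-- Rectangle, reference side: `Phi_diff`; the sets `G` contain the lost cell or a cell of size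
`≥ 2m + 4`, so `|G| ≥ 2m + 2`; `|G| = 2m + 2` only for the filter generated by the lost cell
(coefficient `1` of `X^3` in `EE`, `EE_false_lost`); for `|G| = 2m + 3` the coefficient of `X^2`
in `EE` is `1` (`EE_false_three`) and `G` is the filter generated by the lost cell plus one of
`(2,0)`, `(0,m+1)`; the second one is possible only if `m + 2 ≤ L`; for larger `|G|` nothing
(`EE_false_two`). -/
theorem ref_coeff_false {m L : ℕ} (hm : 3 ≤ m) (hL : m + 1 ≤ L) :
    PowerSeries.coeff (2 * m + 5)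
      (Phi (AF (Rs false m L)) (U1 (Rs false m L)) (Rs false m L) -
        Phi (AF (Rs false m L)) (U1 (Rs false m L)) (CC false m L)) ≤
      2 + if m + 2 ≤ L then 1 else 0 := by
  classical
  rw [Phi_diff _ _ CC_mem_J, map_sum]
  obtain ⟨A, hA⟩ : ∃ A : Finset (Finset Cell), A = {upF (Rs false m L) ⟨1, m⟩,
      insert ⟨2, 0⟩ (upF (Rs false m L) ⟨1, m⟩)} ∪
      (if m + 2 ≤ L then {insert ⟨0, m + 1⟩ (upF (Rs false m L) ⟨1, m⟩)} else ∅) := ⟨_, rfl⟩
  have hAc : (A.card : ℤ) ≤ 2 + if m + 2 ≤ L then 1 else 0 := by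
    have h1 : A.card ≤ 2 + (if m + 2 ≤ L then 1 else 0) := by
      rw [hA]
      refine (Finset.card_union_le _ _).trans (Nat.add_le_add Finset.card_le_two ?_)
      split_ifs
      · simp
      · simp
    have h2 : ((2 + (if m + 2 ≤ L then 1 else 0) : ℕ) : ℤ) = 2 + if m + 2 ≤ L then 1 else 0 := by
      push_cast
      split_ifs <;> rfl
    rw [← h2]
    exact_mod_cast h1
  refine le_trans ?_ hAc
  have hterm : ∀ G ∈ (J (Rs false m L)).filter (fun G => ¬ G ⊆ CC false m L),
      PowerSeries.coeff (2 * m + 5)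
        (PowerSeries.X ^ G.card * EE (AF (Rs false m L)) (U1 (Rs false m L)) G) ≤
        if G ∈ A then 1 else 0 := by
    intro G hG
    rw [Finset.mem_filter] at hG
    rcases CoeffR_false hm hL hG.1 hG.2 with h | ⟨h, h2⟩
    · rw [h]; split_ifs <;> norm_num
    · rw [h, if_pos]
      rw [hA, Finset.mem_union, Finset.mem_insert, Finset.mem_singleton]
      rcases h2 with h2 | h2 | ⟨h3, h2⟩
      · exact Or.inl (Or.inl h2)
      · exact Or.inl (Or.inr h2)
      · right
        rw [if_pos h3, Finset.mem_singleton]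
        exact h2
  refine (Finset.sum_le_sum hterm).trans ?_
  rw [← Finset.sum_filter, Finset.sum_const, nsmul_eq_mul, mul_one]
  exact_mod_cast Finset.card_le_card (fun G hG => (Finset.mem_filter.1 hG).2)

/-- Staircase, reference side: the sets `G` have `|G| ≥ 4m + 1`, equality only for the filter
generated by the lost cell (coefficient `1` of `X^3`); for larger `|G|` nothing
(`EE_true_three`). -/
theorem ref_coeff_true {m L : ℕ} (hm : 3 ≤ m) (hL : 2 * m + 1 ≤ L) :
    PowerSeries.coeff (4 * m + 4)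
      (Phi (AF (Rs true m L)) (U1 (Rs true m L)) (Rs true m L) -
        Phi (AF (Rs true m L)) (U1 (Rs true m L)) (CC true m L)) = 1 := by
  classical
  have hlost := ref_lost_true hL hm
  rw [Phi_diff _ _ CC_mem_J, map_sum]
  have hUc : (upF (Rs true m L) ⟨1, 2 * m⟩).card = 4 * m + 1 := hlost.2.2
  rw [Finset.sum_eq_single (upF (Rs true m L) ⟨1, 2 * m⟩)]
  · rw [PowerSeries.coeff_X_pow_mul', hUc, if_pos (by omega)]
    have h4 := cg_iff_coeff.1 (EE_true_lost hm hL) 3 (by norm_num)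
    have h5 : 4 * m + 4 - (4 * m + 1) = 3 := by omega
    rw [h5, h4]
    simp [PowerSeries.coeff_X_pow]
  · intro G hG hGU
    rw [Finset.mem_filter] at hG
    obtain ⟨hG, hn⟩ := hG
    obtain ⟨p, hpG, hpR, hpC⟩ := CoeffR_mem hn hG
    have hsz := sz_le_card hG hpG
    rw [PowerSeries.coeff_X_pow_mul']
    by_cases h1 : G.card ≤ 4 * m + 4
    swap
    · rw [if_neg h1]
    rw [if_pos h1]
    have h01 : (⟨0, 1⟩ : Cell) ∈ G := by
      have hreg := reg_true.1 (mem_Rs.1 hpR).1
      have hi : p.i ≠ 0 := fun h => hpC (mem_CC.2 ⟨mem_Rs.1 hpR, Or.inr (Or.inl h)⟩)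
      refine CoeffR_up hG hpG (mem_Rs.2 ⟨reg_true.2 (Nat.zero_le _), ?_⟩) ⟨Nat.zero_le _, ?_⟩
      · change 1 < L; omega
      · change 1 ≤ p.c; omega
    have h2 : 4 * m + 2 ≤ G.card := by
      rcases ref_out_true hm hpR hpC with h | h
      · rw [h] at hpG
        have hUG : upF (Rs true m L) ⟨1, 2 * m⟩ ⊆ G := upF_subset hG hpG
        by_contra hcon
        exact hGU (Finset.eq_of_subset_of_card_le hUG (by omega)).symm
      · omega
    exact CoeffR_eq_zero (EE_true_three hm hL hG h01).2 (by omega)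
  · intro h
    exfalso
    apply h
    rw [Finset.mem_filter]
    refine ⟨upF_mem_J _ _, fun h2 => ?_⟩
    exact hlost.2.1 (h2 (LayersC_self_mem hlost.1))

variable {P : Type u} [Fintype P] [PartialOrder P] [DecidableEq P]
variable {m L : ℕ} {e : ℕ → ℕ → P} {ch y : ℕ → P} {wf : P}

end Pool.Agent.GaussRot
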