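import Pool.Agent.W_448rot_h96.FirstOrderC
import Pool.Agent.W_448rot_h96.LayersC
import Pool.Agent.W_448rot_h96.GaussProd
import Pool.Agent.W_448rot_h96.RefA

/-!
# Comparison lemma (T1)
-/

namespace Pool.Agent.GaussRot

set_option linter.unusedSectionVars false

open Finset Pool.Agent.GaussPoset

universe u

lemma CompareT1_coeff {ι : Type*} [DecidableEq ι] (s : Finset ι) (h : ι → ℕ) (K : ℕ)
    (hK : 1 ≤ K) :
    PowerSeries.coeff K (∏ i ∈ s.filter (fun i => ¬ h i < K),
      (1 - (PowerSeries.X : PowerSeries ℤ) ^ (h i))) =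
      -((s.filter (fun i => h i = K)).card : ℤ) := by
  have h1 := prod_high (s.filter (fun i => ¬ h i < K)) h K
    (fun i hi => not_lt.1 (Finset.mem_filter.1 hi).2)
  rw [cg_iff_coeff] at h1
  rw [h1 K (by omega), map_sub, map_sum, PowerSeries.coeff_one, if_neg (by omega), zero_sub]
  congr 1
  simp only [PowerSeries.coeff_X_pow]
  rw [Finset.sum_boole, Finset.filter_filter]
  congr 2
  ext i
  simp only [Finset.mem_filter]
  constructor
  · rintro ⟨a, b, c⟩
    exact ⟨a, c.symm⟩
  · rintro ⟨a, c⟩
    exact ⟨a, by omega, c.symm⟩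

lemma CompareT1_const {ι : Type*} [DecidableEq ι] (s : Finset ι) (h : ι → ℕ)
    (hp : ∀ i ∈ s, 0 < h i) :
    PowerSeries.constantCoeff (∏ i ∈ s, (1 - (PowerSeries.X : PowerSeries ℤ) ^ (h i))) = 1 := by
  rw [map_prod]
  refine Finset.prod_eq_one fun i hi => ?_
  have := hp i hi
  rw [map_sub, map_one, map_pow, PowerSeries.constantCoeff_X, zero_pow (by omega), sub_zero]

/-- The first exponent at which two products differ: if `A` and `A' + c X^K` agree modulo
`X^(K+1)`, `K ≥ 1`, then the value `K` is taken `c` times more often by `h` than by `h'`.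
By `exps_unique` (with `K`) the values `< K` are taken equally often; cancel the common product
(`prod_low`, `Cg.cancel`): the remaining products are `1 - N X^K`, `1 - N' X^K` modulo `X^(K+1)`
(`prod_high`, `2 * K ≥ K + 1`), `A (1 - N X^K) = A0` and `A' (1 - N' X^K) = A0` with the same `A0`
of constant coefficient `1`; compare the coefficients of `X^K`. -/
theorem exps_next {ι κ : Type*} [DecidableEq ι] [DecidableEq κ] (s : Finset ι) (t : Finset κ)
    (h : ι → ℕ) (h' : κ → ℕ) (hp : ∀ i ∈ s, 0 < h i) (hp' : ∀ i ∈ t, 0 < h' i) (K : ℕ)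
    (hK : 1 ≤ K) {A A' : PowerSeries ℤ} (c : ℤ)
    (hA : A * ∏ i ∈ s, (1 - PowerSeries.X ^ (h i)) = 1)
    (hA' : A' * ∏ i ∈ t, (1 - PowerSeries.X ^ (h' i)) = 1)
    (hc : Cg (K + 1) A (A' + PowerSeries.C c * PowerSeries.X ^ K)) :
    ((s.filter (fun i => h i = K)).card : ℤ) - ((t.filter (fun i => h' i = K)).card : ℤ) = c := by
  have h0 : Cg K A A' := by
    refine (hc.mono (Nat.le_succ K)).trans ?_
    have h1 := (Cg.refl K A').add (cg_X_pow (le_refl K) (PowerSeries.C c))
    rw [add_zero, mul_comm] at h1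
    exact h1
  have hu := exps_unique s t h h' hp hp' K hA hA' h0
  have hlow := prod_low s t h h' K hu (fun n => 1 - (PowerSeries.X : PowerSeries ℤ) ^ n)
  rw [← Finset.prod_filter_mul_prod_filter_not s (fun i => h i < K)] at hA
  rw [← Finset.prod_filter_mul_prod_filter_not t (fun i => h' i < K), ← hlow] at hA'
  have e1 := CompareT1_coeff s h K hK
  have e2 := CompareT1_coeff t h' K hK
  have c0 := CompareT1_const (s.filter (fun i => h i < K)) h
    (fun i hi => hp i (Finset.mem_filter.1 hi).1)
  have c1 := CompareT1_const (s.filter (fun i => ¬ h i < K)) h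
    (fun i hi => hp i (Finset.mem_filter.1 hi).1)
  have c2 := CompareT1_const (t.filter (fun i => ¬ h' i < K)) h'
    (fun i hi => hp' i (Finset.mem_filter.1 hi).1)
  generalize (∏ i ∈ s.filter (fun i => h i < K),
    (1 - (PowerSeries.X : PowerSeries ℤ) ^ (h i))) = D0 at *
  generalize (∏ i ∈ s.filter (fun i => ¬ h i < K),
    (1 - (PowerSeries.X : PowerSeries ℤ) ^ (h i))) = D1 at *
  generalize (∏ i ∈ t.filter (fun i => ¬ h' i < K),
    (1 - (PowerSeries.X : PowerSeries ℤ) ^ (h' i))) = D2 at *
  have h3 := hc.mul (Cg.refl (K + 1) (D0 * D1 * D2))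
  have h4 : A * (D0 * D1 * D2) = D2 := by
    calc A * (D0 * D1 * D2) = (A * (D0 * D1)) * D2 := by ring
      _ = D2 := by rw [hA, one_mul]
  have h5 : (A' + PowerSeries.C c * PowerSeries.X ^ K) * (D0 * D1 * D2) =
      D1 + PowerSeries.X ^ K * (PowerSeries.C c * (D0 * D1 * D2)) := by
    calc (A' + PowerSeries.C c * PowerSeries.X ^ K) * (D0 * D1 * D2) =
        (A' * (D0 * D2)) * D1 + PowerSeries.X ^ K * (PowerSeries.C c * (D0 * D1 * D2)) := by ring
      _ = _ := by rw [hA', one_mul]
  rw [h4, h5, cg_iff_coeff] at h3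
  have h6 := h3 K (Nat.lt_succ_self K)
  rw [map_add, PowerSeries.coeff_X_pow_mul', if_pos le_rfl, Nat.sub_self,
    PowerSeries.coeff_zero_eq_constantCoeff_apply, map_mul, map_mul, map_mul, c0, c1, c2,
    PowerSeries.constantCoeff_C, e1, e2] at h6
  linarith

variable {P : Type u} [Fintype P] [PartialOrder P] [DecidableEq P]

/-- Comparison lemma.  `C` is an upper set of the Gaussian poset `P`, `C'` a relatively upper
subset of the reference poset, both with the same series (e.g. isomorphic, `AF_image`), and all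
elements outside have size at least `s ≥ 1`.  By `AF_first'` on both sides
`AF univ - AF R = (N - N') X^s` modulo `X^(s+1)`; then `exps_unique`, `exps_next`, `gauss_A`,
`ref_A`. -/
theorem comparison (hG : IsGaussian P) (k : Bool) (m L : ℕ) (C : Finset P) (C' : Finset Cell)
    (hC : C ∈ J (univ : Finset P)) (hC' : C' ∈ J (Rs k m L)) (hA : AF C = AF C') (s : ℕ)
    (hs : 1 ≤ s) (h1 : ∀ z : P, z ∉ C → s ≤ sz (univ : Finset P) z)
    (h2 : ∀ p ∈ Rs k m L, p ∉ C' → s ≤ sz (Rs k m L) p) :
    (∀ l < s, ((univ : Finset P).filter (fun x => lev x + 1 = l)).card =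
      ((Rs k m L).filter (fun p => p.i + p.c + 1 = l)).card) ∧
    (((univ : Finset P).filter (fun x => lev x + 1 = s)).card : ℤ) -
        (((Rs k m L).filter (fun p => p.i + p.c + 1 = s)).card : ℤ) =
      (((univ \ C).filter (fun z => sz (univ : Finset P) z = s)).card : ℤ) -
        (((Rs k m L \ C').filter (fun p => sz (Rs k m L) p = s)).card : ℤ) := by
  have a1 := AF_first' hC s (fun y hy => h1 y (Finset.mem_sdiff.1 hy).2)
  have a2 := AF_first' hC' s (fun y hy => h2 y (Finset.mem_sdiff.1 hy).1 (Finset.mem_sdiff.1 hy).2)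
  have a3 : Cg (s + 1) (AF (univ : Finset P)) (AF (Rs k m L) +
      PowerSeries.C ((((univ \ C).filter (fun z => sz (univ : Finset P) z = s)).card : ℤ) -
        (((Rs k m L \ C').filter (fun p => sz (Rs k m L) p = s)).card : ℤ)) *
        PowerSeries.X ^ s) := by
    rw [hA] at a1
    have a4 := a2.symm.add (Cg.refl (s + 1)
      (PowerSeries.C ((((univ \ C).filter (fun z => sz (univ : Finset P) z = s)).card : ℤ) -
        (((Rs k m L \ C').filter (fun p => sz (Rs k m L) p = s)).card : ℤ)) *
        PowerSeries.X ^ s))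
    refine a1.trans ((Cg.of_eq ?_).trans a4)
    rw [map_sub, map_natCast, map_natCast]
    ring
  have g1 := gauss_A hG
  have g2 := ref_A k m L
  refine ⟨?_, ?_⟩
  · refine exps_unique (univ : Finset P) (Rs k m L) (fun x => lev x + 1)
      (fun p => p.i + p.c + 1) (fun _ _ => Nat.succ_pos _) (fun _ _ => Nat.succ_pos _) s g1 g2 ?_
    refine (a3.mono (Nat.le_succ s)).trans ?_
    have b1 := (Cg.refl s (AF (Rs k m L))).add (cg_X_pow (le_refl s)
      (PowerSeries.C ((((univ \ C).filter (fun z => sz (univ : Finset P) z = s)).card : ℤ) -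
        (((Rs k m L \ C').filter (fun p => sz (Rs k m L) p = s)).card : ℤ))))
    rw [add_zero, mul_comm] at b1
    exact b1
  · exact exps_next (univ : Finset P) (Rs k m L) (fun x => lev x + 1)
      (fun p => p.i + p.c + 1) (fun _ _ => Nat.succ_pos _) (fun _ _ => Nat.succ_pos _) s hs _ g1 g2 a3

/-- the level sets in the form of `comparison` -/
theorem card_lev_succ (l : ℕ) :
    ((univ : Finset P).filter (fun x => lev x + 1 = l + 1)).card = (lv P l).card := by
  unfold lv
  congr 1
  refine Finset.filter_congr fun i _ => ?_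
  omega

end Pool.Agent.GaussRot
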