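import Mathlib

/-!
# Size-order tool for Gaussian posets: definitions

`Cg n f g`: the power series `f`, `g` agree modulo `X^n`.
`AF F`: generating function of the monotone fillings of a finite subset `F` of a poset.
`J F`: the relatively upper subsets of `F`.  `U1 F`: their generating function by size.
-/

namespace Pool.Agent.GaussRot

set_option linter.unusedSectionVars false

open Finset

/-- congruence of power series modulo `X^n` -/
def Cg (n : ℕ) (f g : PowerSeries ℤ) : Prop := (PowerSeries.X : PowerSeries ℤ) ^ n ∣ f - g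

lemma Cg.refl (n : ℕ) (f : PowerSeries ℤ) : Cg n f f := by
  unfold Cg; simp

lemma Cg.of_eq {n : ℕ} {f g : PowerSeries ℤ} (h : f = g) : Cg n f g := by
  rw [h]; exact Cg.refl n g

lemma Cg.symm {n : ℕ} {f g : PowerSeries ℤ} (h : Cg n f g) : Cg n g f := by
  unfold Cg at *
  rw [← neg_sub]
  exact (dvd_neg).mpr h

lemma Cg.trans {n : ℕ} {f g k : PowerSeries ℤ} (h1 : Cg n f g) (h2 : Cg n g k) : Cg n f k := by
  unfold Cg at *
  have := dvd_add h1 h2
  simpa using this

lemma Cg.add {n : ℕ} {f g f' g' : PowerSeries ℤ} (h1 : Cg n f g) (h2 : Cg n f' g') :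
    Cg n (f + f') (g + g') := by
  unfold Cg at *
  have := dvd_add h1 h2
  have h : f + f' - (g + g') = f - g + (f' - g') := by ring
  rw [h]; exact this

lemma Cg.neg {n : ℕ} {f g : PowerSeries ℤ} (h1 : Cg n f g) : Cg n (-f) (-g) := by
  unfold Cg at *
  have h : -f - -g = -(f - g) := by ring
  rw [h]; exact (dvd_neg).mpr h1

lemma Cg.sub {n : ℕ} {f g f' g' : PowerSeries ℤ} (h1 : Cg n f g) (h2 : Cg n f' g') :
    Cg n (f - f') (g - g') := by
  rw [sub_eq_add_neg, sub_eq_add_neg]
  exact h1.add h2.neg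

lemma Cg.mul {n : ℕ} {f g f' g' : PowerSeries ℤ} (h1 : Cg n f g) (h2 : Cg n f' g') :
    Cg n (f * f') (g * g') := by
  unfold Cg at *
  have h : f * f' - g * g' = (f - g) * f' + g * (f' - g') := by ring
  rw [h]
  exact dvd_add (Dvd.dvd.mul_right h1 _) (Dvd.dvd.mul_left h2 _)

lemma Cg.mono {m n : ℕ} (hmn : m ≤ n) {f g : PowerSeries ℤ} (h : Cg n f g) : Cg m f g :=
  (pow_dvd_pow _ hmn).trans h

lemma Cg.sum {ι : Type*} {n : ℕ} (s : Finset ι) {f g : ι → PowerSeries ℤ}
    (h : ∀ i ∈ s, Cg n (f i) (g i)) : Cg n (∑ i ∈ s, f i) (∑ i ∈ s, g i) := by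
  classical
  induction s using Finset.induction_on with
  | empty => simpa using Cg.refl n 0
  | insert a s ha ih =>
    rw [Finset.sum_insert ha, Finset.sum_insert ha]
    exact (h a (Finset.mem_insert_self a s)).add (ih fun i hi => h i (Finset.mem_insert_of_mem hi))

lemma Cg.prod {ι : Type*} {n : ℕ} (s : Finset ι) {f g : ι → PowerSeries ℤ}
    (h : ∀ i ∈ s, Cg n (f i) (g i)) : Cg n (∏ i ∈ s, f i) (∏ i ∈ s, g i) := by
  classical
  induction s using Finset.induction_on with
  | empty => simpa using Cg.refl n 1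
  | insert a s ha ih =>
    rw [Finset.prod_insert ha, Finset.prod_insert ha]
    exact (h a (Finset.mem_insert_self a s)).mul (ih fun i hi => h i (Finset.mem_insert_of_mem hi))

/-- multiplying by `X^k` raises the order -/
lemma Cg.X_mul {n k : ℕ} {f g : PowerSeries ℤ} (h : Cg n f g) :
    Cg (k + n) (PowerSeries.X ^ k * f) (PowerSeries.X ^ k * g) := by
  unfold Cg at *
  rw [← mul_sub, pow_add]
  exact mul_dvd_mul_left _ h

/-- products of small series -/
lemma Cg.mul_zero' {a b : ℕ} {f g : PowerSeries ℤ} (h1 : Cg a f 0) (h2 : Cg b g 0) :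
    Cg (a + b) (f * g) 0 := by
  unfold Cg at *
  rw [sub_zero] at *
  rw [pow_add]
  exact mul_dvd_mul h1 h2

lemma cg_X_pow {n k : ℕ} (h : n ≤ k) (f : PowerSeries ℤ) : Cg n (PowerSeries.X ^ k * f) 0 := by
  unfold Cg
  rw [sub_zero]
  exact Dvd.dvd.mul_right (pow_dvd_pow _ h) _

lemma cg_iff_coeff {n : ℕ} {f g : PowerSeries ℤ} :
    Cg n f g ↔ ∀ k < n, PowerSeries.coeff k f = PowerSeries.coeff k g := by
  unfold Cg
  rw [PowerSeries.X_pow_dvd_iff]
  simp only [map_sub, sub_eq_zero]

/-- cancelling a factor with constant coefficient `1` -/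
lemma Cg.cancel {n : ℕ} {f g u : PowerSeries ℤ} (hu : PowerSeries.constantCoeff u = 1)
    (h : Cg n (u * f) (u * g)) : Cg n f g := by
  have hun : IsUnit u := by
    rw [PowerSeries.isUnit_iff_constantCoeff, hu]
    exact isUnit_one
  obtain ⟨v, hv⟩ := hun
  have h2 := (Cg.refl n ((v⁻¹ : (PowerSeries ℤ)ˣ) : PowerSeries ℤ)).mul h
  rw [← mul_assoc, ← mul_assoc, ← hv, Units.inv_mul, one_mul, one_mul] at h2
  exact h2

section Poset

variable {Q : Type*} [PartialOrder Q] [DecidableEq Q]

open Classical in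
/-- generating function of the monotone maps `F → ℕ` (extended by zero) -/
noncomputable def AF (F : Finset Q) : PowerSeries ℤ :=
  PowerSeries.mk fun n =>
    (((F.piAntidiag n).filter (fun s : Q → ℕ => ∀ x ∈ F, ∀ y ∈ F, x ≤ y → s x ≤ s y)).card : ℤ)

open Classical in
/-- relatively upper subsets of `F` -/
noncomputable def J (F : Finset Q) : Finset (Finset Q) :=
  F.powerset.filter (fun G => ∀ x ∈ G, ∀ y ∈ F, x ≤ y → y ∈ G)

lemma mem_J {F G : Finset Q} : G ∈ J F ↔ G ⊆ F ∧ ∀ x ∈ G, ∀ y ∈ F, x ≤ y → y ∈ G := by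
  unfold J; simp

/-- generating function of the relatively upper subsets by size -/
noncomputable def U1 (F : Finset Q) : PowerSeries ℤ := ∑ G ∈ J F, PowerSeries.X ^ G.card

open Classical in
/-- elements of `F` above `x` -/
noncomputable def upF (F : Finset Q) (x : Q) : Finset Q := F.filter (fun y => x ≤ y)

lemma mem_upF {F : Finset Q} {x y : Q} : y ∈ upF F x ↔ y ∈ F ∧ x ≤ y := by
  unfold upF; simp

/-- size of `x` in `F` -/
noncomputable def sz (F : Finset Q) (x : Q) : ℕ := (upF F x).card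

/-- the functional `Phi`; `A'`, `U'` are the series of the reference poset -/
noncomputable def Phi (A' U' : PowerSeries ℤ) (F : Finset Q) : PowerSeries ℤ :=
  (1 - PowerSeries.X) * U' * AF F - A' * U1 F

/-- the weight of a filter in `Phi` -/
noncomputable def EE (A' U' : PowerSeries ℤ) (G : Finset Q) : PowerSeries ℤ :=
  (1 - PowerSeries.X) * U' * AF G - A'

end Poset

end Pool.Agent.GaussRot
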