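import Pool.Agent.W_448rot_h96.EmbDefs

/-!
# The common part of the poset and of the reference poset
-/

namespace Pool.Agent.GaussRot

set_option linter.unusedSectionVars false

open Finset Pool.Agent.GaussPoset

universe u

variable {P : Type u} [Fintype P] [PartialOrder P] [DecidableEq P]

variable {k : Bool} {m L : ℕ} {e : ℕ → ℕ → P} {ch y : ℕ → P} {wf : P}

/-- the three kinds of cells -/
theorem EmbB_kinds (h : Data k m e L ch y wf) {p : Cell} (hp : p ∈ CC k m L) :
    (reg k m p.i p.c ∧ p.i + p.c ≤ jj k m ∧ eps k m e ch y p = e p.i p.c) ∨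
    (p.i = 0 ∧ jj k m < p.c ∧ p.c < L ∧ eps k m e ch y p = ch p.c) ∨
    (2 ≤ p.i ∧ p.i ≤ m ∧ p.i + p.c = jj k m + 1 ∧ eps k m e ch y p = y p.i) := by
  rw [mem_CC] at hp
  obtain ⟨⟨hr, hL⟩, hp⟩ := hp
  unfold eps
  by_cases h1 : p.i + p.c ≤ jj k m
  · left
    exact ⟨hr, h1, if_pos h1⟩
  · right
    by_cases h2 : p.i = 0
    · left
      refine ⟨h2, by omega, hL, ?_⟩
      rw [if_neg h1, if_pos h2]
    · right
      obtain ⟨h3, h4⟩ : p.i + p.c = jj k m + 1 ∧ 2 ≤ p.i := by omega
      have h5 : p.i ≤ m := by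
        cases k
        · exact reg_false.1 hr
        · have h6 := reg_true.1 hr
          rw [jj_true] at h3
          omega
      refine ⟨h4, h5, h3, ?_⟩
      rw [if_neg h1, if_neg h2]

theorem EmbB_lev {z z' : P} (h : z ≤ z') : lev z' ≤ lev z :=
  (lev_strictAnti (P := P)).antitone h

theorem EmbB_eq {z z' : P} (h : z ≤ z') (h1 : lev z ≤ lev z') : z = z' := by
  rcases lt_or_eq_of_le h with h2 | h2
  · have := (lev_strictAnti (P := P)) h2
    omega
  · exact h2

theorem EmbB_jj (h : Data k m e L ch y wf) : m ≤ jj k m := by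
  cases k
  · rw [jj_false]
  · rw [jj_true]; omega

theorem EmbB_y_le (h : Data k m e L ch y wf) {i l : ℕ} (hi2 : 2 ≤ i) (him : i ≤ m) (hl : l ≤ m) :
    y i ≤ e l (jj k m - l) ↔ l = i - 1 ∨ l = i := by
  have hy := h.hy i hi2 him
  obtain ⟨h1, h2⟩ := reg_x (k := k) hl
  have h3 := h.hT.lev_e _ _ h1 h2.le
  have h4 := hy.2 l hl
  rw [Finset.mem_insert, Finset.mem_singleton] at h4
  rw [← h4]
  constructor
  · intro h5
    rcases lt_or_eq_of_le h5 with h6 | h6
    · exact h6
    · exfalso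
      have h7 := hy.1
      rw [h6, h3] at h7
      omega
  · exact le_of_lt

theorem EmbB_y_not_st (h : Data k m e L ch y wf) {i : ℕ} (hi2 : 2 ≤ i) (him : i ≤ m) :
    ¬ St k m e (y i) := by
  intro hst
  exact hst.2 i (by omega) him ((EmbB_y_le h hi2 him him).2 (Or.inr rfl))

/-- `eps` is an order isomorphism from `CC k m L` onto its image.  Cases: both cells in the top
part: `Top.le_iff`.  A cell `(0,c)`, `c > j`: elements above it are the `ch c'` (`ChainOf.above`).
A cell `(i, j+1-i)`, `2 ≤ i`: the elements of level `≤ j` above `y i` are those above `x_(i-1)` or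
`x_i` (`Top.le_e_iff` and `Typ`), i.e. the `e i' c'` with `i' ≤ i - 1, c' ≤ j + 1 - i` or
`i' ≤ i, c' ≤ j - i`; nothing else of level `j + 1` is above it, and `ch c`, `c > j`, is not above
it (levels, or types).  If `eps p ≤ eps q` the level of `p` is at least that of `q`. -/
theorem Data.eps_le (h : Data k m e L ch y wf) :
    ∀ p ∈ CC k m L, ∀ q ∈ CC k m L,
      (eps k m e ch y p ≤ eps k m e ch y q ↔ p ≤ q) := by
  intro p hp q hq
  have hlp := h.lev_eps hp
  have hlq := h.lev_eps hq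
  have hmj := EmbB_jj h
  rw [cell_le]
  rcases EmbB_kinds h hp with ⟨hr, hpj, hpe⟩ | ⟨hpi, hpj, hpL, hpe⟩ | ⟨hp2, hpm, hpj, hpe⟩
  · rcases EmbB_kinds h hq with ⟨hr', hqj, hqe⟩ | hq'
    · rw [hpe, hqe]
      exact h.hT.le_iff _ _ _ _ hr hpj hr' hqj
    · have hqj : jj k m < q.i + q.c := by
        rcases hq' with ⟨_, h1, _⟩ | ⟨_, _, h1, _⟩ <;> omega
      constructor
      · intro hle
        have := EmbB_lev hle
        omega
      · rintro ⟨h1, h2⟩
        omega
  · have hstp : St k m e (ch p.c) := h.hC.st_ch p.c hpL hpj.le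
    rw [hpe]
    rcases EmbB_kinds h hq with ⟨hr', hqj, hqe⟩ | ⟨hqi, hqj, hqL, hqe⟩ | ⟨hq2, hqm, hqj, hqe⟩
    · rw [hqe, St.above h.hG h.hT hstp hr' hqj]
      omega
    · rw [hqe, h.hC.above p.c hpL]
      constructor
      · rintro ⟨c', hc', he⟩
        have h1 := h.hC.lev_ch q.c hqL
        rw [he, h.hC.lev_ch c' (by omega)] at h1
        omega
      · rintro ⟨_, h2⟩
        exact ⟨q.c, h2, rfl⟩
    · rw [hqe]
      constructor
      · intro hle
        exfalso
        refine EmbB_y_not_st h hq2 hqm (St.mono hstp hle ?_)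
        rw [(h.hy q.i hq2 hqm).1]
        omega
      · rintro ⟨h1, h2⟩
        omega
  · rw [hpe]
    have hly := (h.hy p.i hp2 hpm).1
    rcases EmbB_kinds h hq with ⟨hr', hqj, hqe⟩ | ⟨hqi, hqj, hqL, hqe⟩ | ⟨hq2, hqm, hqj, hqe⟩
    · rw [hqe, h.hT.le_e_iff h.hG (by omega) hr' hqj]
      constructor
      · rintro ⟨l, hl, h1, h2, h3⟩
        rw [EmbB_y_le h hp2 hpm hl] at h3
        omega
      · rintro ⟨h1, h2⟩
        rcases Nat.lt_or_ge q.i p.i with h3 | h3
        · exact ⟨p.i - 1, by omega, by omega, by omega,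
            (EmbB_y_le h hp2 hpm (by omega)).2 (Or.inl rfl)⟩
        · exact ⟨p.i, by omega, by omega, by omega,
            (EmbB_y_le h hp2 hpm (by omega)).2 (Or.inr rfl)⟩
    · rw [hqe]
      constructor
      · intro hle
        exfalso
        have h1 := EmbB_lev hle
        have h2 := h.hC.lev_ch q.c hqL
        have h3 := EmbB_eq hle (by omega)
        apply EmbB_y_not_st h hp2 hpm
        rw [h3]
        exact h.hC.st_ch q.c hqL hqj.le
      · rintro ⟨h1, h2⟩
        omega
    · rw [hqe]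
      have hlq' := (h.hy q.i hq2 hqm).1
      constructor
      · intro hle
        have h3 := EmbB_eq hle (by omega)
        have h4 := (EmbB_y_le h hp2 hpm hqm).1 (h3 ▸ (EmbB_y_le h hq2 hqm hqm).2 (Or.inr rfl))
        have h5 := (EmbB_y_le h hq2 hqm hpm).1 (h3 ▸ (EmbB_y_le h hp2 hpm hpm).2 (Or.inr rfl))
        omega
      · rintro ⟨h1, h2⟩
        have : p.i = q.i := by omega
        rw [this]

/-- the image of the common part is an upper set -/
theorem Data.upper (h : Data k m e L ch y wf) :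
    ∀ z ∈ (CC k m L).image (eps k m e ch y), ∀ z', z ≤ z' →
      z' ∈ (CC k m L).image (eps k m e ch y) := by
  intro z hz z' hzz
  rw [Finset.mem_image] at hz
  obtain ⟨p, hp, rfl⟩ := hz
  have hL := h.hC.hL
  rcases Nat.lt_or_ge (jj k m) (lev z') with hj | hj
  · have hlev := EmbB_lev hzz
    rcases EmbB_kinds h hp with ⟨hr, hpj, hpe⟩ | ⟨hpi, hpj, hpL, hpe⟩ | ⟨hp2, hpm, hpj, hpe⟩
    · rw [h.lev_eps hp] at hlev
      omega
    · rw [hpe, h.hC.above p.c hpL] at hzz
      obtain ⟨c', hc', rfl⟩ := hzz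
      have h1 := h.hC.lev_ch c' (by omega)
      rw [Finset.mem_image]
      refine ⟨⟨0, c'⟩, ?_, ?_⟩
      · rw [mem_CC]
        exact ⟨⟨reg_zero _, by simp only; omega⟩, Or.inr (Or.inl rfl)⟩
      · unfold eps
        simp only
        rw [if_neg (by omega), if_pos trivial]
    · have h1 := h.lev_eps hp
      have h2 := EmbB_eq hzz (by omega)
      rw [← h2]
      exact Finset.mem_image_of_mem _ hp
  · obtain ⟨i, c, hr, hic, rfl⟩ := h.hT.surj z' hj
    rw [Finset.mem_image]
    refine ⟨⟨i, c⟩, ?_, ?_⟩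
    · rw [mem_CC]
      exact ⟨⟨hr, by simp only; omega⟩, Or.inl hic⟩
    · unfold eps
      simp only
      rw [if_pos hic]

end Pool.Agent.GaussRot
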