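import Mathlib

/-!
# Reverse plane partitions and toggles: definitions

Fillings of a set `S` of cells `(u,v)` with `u, v ≥ 1` by natural numbers, weakly increasing in
both coordinates (value zero off `S`).
-/

namespace Pool.Agent.GaussRot

open Finset

/-- fillings of `S` -/
def Fil (S : Set (ℤ × ℤ)) : Type :=
  {f : ℤ × ℤ → ℕ // (∀ p, p ∉ S → f p = 0) ∧
    ∀ p, p ∈ S → f (p.1 - 1, p.2) ≤ f p ∧ f (p.1, p.2 - 1) ≤ f p}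

/-- sum over the diagonal `v - u = d` (rows `1..N`) -/
noncomputable def Dg (N : ℕ) (f : ℤ × ℤ → ℕ) (d : ℤ) : ℕ := ∑ u ∈ Finset.Icc (1 : ℤ) N, f (u, u + d)

/-- `(a,b)` is an addable corner of `S` on the diagonal `b - a` (rows of `S` are `≤ N`) -/
structure Corner (S : Set (ℤ × ℤ)) (N : ℕ) (a b : ℤ) : Prop where
  pos : ∀ p, p ∈ S → 1 ≤ p.1 ∧ 1 ≤ p.2
  ha : 1 ≤ a
  haN : a ≤ N
  hb : 1 ≤ b
  diag : ∀ u, 1 ≤ u → u < a → 1 ≤ u + (b - a) →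
    (u, u + (b - a)) ∈ S ∧ (u + 1, u + (b - a)) ∈ S ∧ (u, u + (b - a) + 1) ∈ S
  off : ∀ u, a ≤ u → (u, u + (b - a)) ∉ S ∧ (u, u + (b - a) + 1) ∉ S ∧ (u + 1, u + (b - a)) ∉ S

/-- shifted shapes: `(a,a)` is an addable corner on the main diagonal -/
structure DCorner (S : Set (ℤ × ℤ)) (N : ℕ) (a : ℤ) : Prop where
  pos : ∀ p, p ∈ S → 1 ≤ p.1 ∧ p.1 ≤ p.2
  ha : 1 ≤ a
  haN : a ≤ N
  diag : ∀ u, 1 ≤ u → u < a → (u, u) ∈ S ∧ (u, u + 1) ∈ S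
  off : ∀ u, a ≤ u → (u, u) ∉ S ∧ (u, u + 1) ∉ S

end Pool.Agent.GaussRot
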