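import Pool.Agent.W_448rot_h96.Defs

/-!
# The first order relation between `A` and `U_1`, and uniqueness of the exponents
-/

namespace Pool.Agent.GaussRot

set_option linter.unusedSectionVars false

open Finset

variable {ι κ : Type*} [DecidableEq ι] [DecidableEq κ]

lemma FirstOrder_zero (s : Finset ι) (h : ι → ℕ) (K : ℕ) (hK : ∀ i ∈ s, K ≤ h i) :
    Cg K (∑ i ∈ s, (PowerSeries.X : PowerSeries ℤ) ^ (h i)) 0 := by
  have h1 : Cg K (∑ i ∈ s, (PowerSeries.X : PowerSeries ℤ) ^ (h i))
      (∑ _i ∈ s, (0 : PowerSeries ℤ)) := by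
    apply Cg.sum
    intro i hi
    have h2 := cg_X_pow (hK i hi) (1 : PowerSeries ℤ)
    rwa [mul_one] at h2
  rwa [Finset.sum_const_zero] at h1

/-- If all `h i ≥ K` then `∏ (1 - X^(h i))` is `1 - ∑ X^(h i)` modulo `X^(2K)` (induction on the
set; products of two of the small terms are divisible by `X^(2K)`). -/
theorem prod_high (s : Finset ι) (h : ι → ℕ) (K : ℕ) (hK : ∀ i ∈ s, K ≤ h i) :
    Cg (2 * K) (∏ i ∈ s, (1 - (PowerSeries.X : PowerSeries ℤ) ^ (h i)))
      (1 - ∑ i ∈ s, (PowerSeries.X : PowerSeries ℤ) ^ (h i)) := by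
  induction s using Finset.induction_on with
  | empty => simpa using Cg.refl (2 * K) 1
  | insert a s ha ih =>
    have ih' := ih fun i hi => hK i (Finset.mem_insert_of_mem hi)
    rw [Finset.prod_insert ha, Finset.sum_insert ha]
    have h1 := (Cg.refl (2 * K) (1 - (PowerSeries.X : PowerSeries ℤ) ^ (h a))).mul ih'
    have h2 : Cg K ((PowerSeries.X : PowerSeries ℤ) ^ (h a)) 0 := by
      have h3 := cg_X_pow (hK a (Finset.mem_insert_self a s)) (1 : PowerSeries ℤ)
      rwa [mul_one] at h3
    have h3 := h2.mul_zero' (FirstOrder_zero s h K fun i hi => hK i (Finset.mem_insert_of_mem hi))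
    rw [← two_mul] at h3
    have h4 := (Cg.refl (2 * K) (1 - ((PowerSeries.X : PowerSeries ℤ) ^ (h a) +
      ∑ i ∈ s, (PowerSeries.X : PowerSeries ℤ) ^ (h i)))).add h3
    rw [add_zero] at h4
    refine h1.trans ((Cg.of_eq ?_).trans h4)
    ring

lemma FirstOrder_key {M : Type*} [CommMonoid M] (u : Finset ι) (g : ι → ℕ) (K : ℕ) (f : ℕ → M) :
    ∏ i ∈ u.filter (fun i => g i < K), f (g i) =
      ∏ k ∈ Finset.range K, f k ^ (u.filter (fun i => g i = k)).card := by
  rw [← Finset.prod_fiberwise_of_maps_to (s := u.filter (fun i => g i < K))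
    (t := Finset.range K) (g := g)
    (fun i hi => Finset.mem_range.2 (Finset.mem_filter.1 hi).2)]
  apply Finset.prod_congr rfl
  intro k hk
  have hk' := Finset.mem_range.1 hk
  have h1 : (u.filter (fun i => g i < K)).filter (fun i => g i = k) =
      u.filter (fun i => g i = k) := by
    ext i
    simp only [Finset.mem_filter]
    constructor
    · rintro ⟨⟨a, _⟩, c⟩
      exact ⟨a, c⟩
    · rintro ⟨a, c⟩
      exact ⟨⟨a, by omega⟩, c⟩
  rw [h1, ← Finset.prod_const]
  apply Finset.prod_congr rfl
  intro i hi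
  rw [(Finset.mem_filter.1 hi).2]

/-- If the value `k` is taken equally often by `h` on `s` and by `h'` on `t`, for every `k < K`,
then the products of any function of the values over the indices with value `< K` agree. -/
theorem prod_low {M : Type*} [CommMonoid M] (s : Finset ι) (t : Finset κ) (h : ι → ℕ) (h' : κ → ℕ)
    (K : ℕ) (hb : ∀ k < K, (s.filter (fun i => h i = k)).card = (t.filter (fun i => h' i = k)).card)
    (f : ℕ → M) :
    ∏ i ∈ s.filter (fun i => h i < K), f (h i) = ∏ i ∈ t.filter (fun i => h' i < K), f (h' i) := by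
  rw [FirstOrder_key s h, FirstOrder_key t h']
  exact Finset.prod_congr rfl fun k hk => by rw [hb k (Finset.mem_range.1 hk)]

end Pool.Agent.GaussRot
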