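import Pool.Agent.W_448rot_h96.Cells

/-!
# The reference posets: last column, small coefficients, sizes
-/

namespace Pool.Agent.GaussRot

set_option linter.unusedSectionVars false

open Finset

/-- size of a cell of the rectangle: the cells above `p` are all `(i', c')`, `i' ≤ p.i`,
`c' ≤ p.c` -/
theorem sz_rect (m L : ℕ) {p : Cell} (hp : p ∈ Rs false m L) :
    sz (Rs false m L) p = (p.i + 1) * (p.c + 1) := by
  have h1 : upF (Rs false m L) p = (range (p.i + 1) ×ˢ range (p.c + 1)).image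
      (fun q : ℕ × ℕ => (⟨q.1, q.2⟩ : Cell)) := by
    ext ⟨i, c⟩
    rw [mem_Rs, reg_false] at hp
    simp only [mem_upF, mem_Rs, reg_false, cell_le, mem_image, mem_product, mem_range,
      Prod.exists, Cell.mk.injEq]
    constructor
    · rintro ⟨⟨h1, h2⟩, h3, h4⟩
      exact ⟨i, c, ⟨by omega, by omega⟩, rfl, rfl⟩
    · rintro ⟨i', c', ⟨h1, h2⟩, rfl, rfl⟩
      exact ⟨⟨by omega, by omega⟩, by omega, by omega⟩
  have hinj : Function.Injective (fun q : ℕ × ℕ => (⟨q.1, q.2⟩ : Cell)) := by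
    rintro ⟨a, b⟩ ⟨a', b'⟩ h
    simpa using h
  unfold sz
  rw [h1, card_image_of_injective _ hinj, card_product, card_range, card_range]

theorem RefSz_sum (c n : ℕ) (hn : n ≤ c + 1) :
    2 * ∑ i ∈ range n, (c + 1 - i) = n * (2 * c + 3 - n) := by
  induction n with
  | zero => simp
  | succ n ih =>
    rw [sum_range_succ, mul_add, ih (by omega)]
    obtain ⟨d, rfl⟩ : ∃ d, c = n + d := ⟨c - n, by omega⟩
    have h1 : 2 * (n + d) + 3 - n = n + 2 * d + 3 := by omega
    have h2 : n + d + 1 - n = d + 1 := by omega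
    have h3 : 2 * (n + d) + 3 - (n + 1) = n + 2 * d + 2 := by omega
    rw [h1, h2, h3]
    ring

/-- size of a cell of the staircase: the cells above `p` are the `(i', c')` with
`i' ≤ p.i`, `i' ≤ c' ≤ p.c`; `∑_{i' ≤ p.i} (p.c + 1 - i') = (p.i + 1)(2 p.c + 2 - p.i) / 2`. -/
theorem sz_stair (m L : ℕ) {p : Cell} (hp : p ∈ Rs true m L) :
    2 * sz (Rs true m L) p = (p.i + 1) * (2 * p.c + 2 - p.i) := by
  have h1 : upF (Rs true m L) p = ((range (p.i + 1)).sigma (fun i => Ico i (p.c + 1))).image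
      (fun q : (_ : ℕ) × ℕ => (⟨q.1, q.2⟩ : Cell)) := by
    ext ⟨i, c⟩
    rw [mem_Rs, reg_true] at hp
    simp only [mem_upF, mem_Rs, reg_true, cell_le, mem_image, mem_sigma, mem_range, mem_Ico,
      Sigma.exists, Cell.mk.injEq]
    constructor
    · rintro ⟨⟨h1, h2⟩, h3, h4⟩
      exact ⟨i, c, ⟨by omega, by omega, by omega⟩, rfl, rfl⟩
    · rintro ⟨i', c', ⟨h1, h2, h3⟩, rfl, rfl⟩
      exact ⟨⟨by omega, by omega⟩, by omega, by omega⟩
  have hinj : Function.Injective (fun q : (_ : ℕ) × ℕ => (⟨q.1, q.2⟩ : Cell)) := by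
    rintro ⟨a, b⟩ ⟨a', b'⟩ h
    simp only [Cell.mk.injEq] at h
    obtain ⟨rfl, rfl⟩ := h
    rfl
  unfold sz
  rw [h1, card_image_of_injective _ hinj, card_sigma]
  simp only [Nat.card_Ico]
  rw [mem_Rs, reg_true] at hp
  rw [RefSz_sum p.c (p.i + 1) (by omega)]
  congr 1
  omega

end Pool.Agent.GaussRot
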