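import Pool.Agent.W_448rot_h96.FoldDefs
import Pool.Agent.W_448rot_h96.RefSz

/-!
# Fold rotation, second part: the lower half

`f` are the coordinates of the top part of the dual poset (so they describe the lower half of the
poset).  All elements `f i c` are elements of `Pᵒᵈ`.
-/

namespace Pool.Agent.GaussRot

set_option linter.unusedSectionVars false

open Finset Pool.Agent.GaussPoset OrderDual

universe u

variable {P : Type u} [Fintype P] [PartialOrder P] [DecidableEq P]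
variable {m : ℕ} {e : ℕ → ℕ → P} {y : ℕ → P} {wf : P} {f : ℕ → ℕ → Pᵒᵈ}

/-- cells of the top part -/
def FoldY_T (m : ℕ) : Finset Cell := (Rs true m (2 * m + 1)).filter (fun p => p.i + p.c ≤ 2 * m)

/-- the map of the top part -/
def FoldY_e (e : ℕ → ℕ → P) (p : Cell) : P := e p.i p.c

lemma FoldY_mem_T {p : Cell} : p ∈ FoldY_T m ↔ p.i ≤ p.c ∧ p.i + p.c ≤ 2 * m := by
  unfold FoldY_T
  rw [Finset.mem_filter, mem_Rs, reg_true]
  omega

lemma FoldY_T_mem_J (m : ℕ) : FoldY_T m ∈ J (Rs true m (2 * m + 1)) := by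
  rw [mem_J]
  refine ⟨Finset.filter_subset _ _, ?_⟩
  intro x hx y hy hxy
  rw [FoldY_mem_T] at hx ⊢
  rw [mem_Rs, reg_true] at hy
  rw [cell_le] at hxy
  omega

lemma FoldY_le (hT : Top true m e) : ∀ p ∈ FoldY_T m, ∀ q ∈ FoldY_T m,
    (FoldY_e e p ≤ FoldY_e e q ↔ p ≤ q) := by
  intro p hp q hq
  rw [FoldY_mem_T] at hp hq
  exact hT.le_iff p.i p.c q.i q.c (reg_true.2 hp.1) (by rw [jj_true]; exact hp.2)
    (reg_true.2 hq.1) (by rw [jj_true]; exact hq.2)

lemma FoldY_lev (hT : Top true m e) {p : Cell} (hp : p ∈ FoldY_T m) :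
    lev (FoldY_e e p) = p.i + p.c := by
  rw [FoldY_mem_T] at hp
  exact hT.lev_e p.i p.c (reg_true.2 hp.1) (by rw [jj_true]; exact hp.2)

lemma FoldY_surj (hT : Top true m e) {z : P} (hz : lev z ≤ 2 * m) :
    ∃ p ∈ FoldY_T m, FoldY_e e p = z := by
  obtain ⟨i, c, h1, h2, h3⟩ := hT.surj z (by rw [jj_true]; exact hz)
  rw [reg_true] at h1
  rw [jj_true] at h2
  exact ⟨⟨i, c⟩, FoldY_mem_T.2 ⟨h1, h2⟩, h3⟩

lemma FoldY_lev_mono {a b : P} (h : a ≤ b) : lev b ≤ lev a := by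
  rcases eq_or_lt_of_le h with h1 | h1
  · rw [h1]
  · exact (lev_strictAnti h1).le

lemma FoldY_image_J (hT : Top true m e) :
    (FoldY_T m).image (FoldY_e e) ∈ J (univ : Finset P) := by
  rw [mem_J]
  refine ⟨Finset.subset_univ _, ?_⟩
  intro x hx y _ hxy
  obtain ⟨p, hp, rfl⟩ := Finset.mem_image.1 hx
  have h1 := FoldY_lev_mono hxy
  rw [FoldY_lev hT hp] at h1
  obtain ⟨q, hq, hqy⟩ := FoldY_surj hT (h1.trans (FoldY_mem_T.1 hp).2)
  rw [← hqy]
  exact Finset.mem_image_of_mem _ hq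

/-- size of an element of the top part -/
lemma FoldY_sz (hT : Top true m e) {p : Cell} (hp : p ∈ FoldY_T m) :
    sz (univ : Finset P) (FoldY_e e p) = sz (Rs true m (2 * m + 1)) p := by
  rw [← sz_of_mem_J (FoldY_image_J hT) (Finset.mem_image_of_mem _ hp),
    sz_image (FoldY_le hT) hp, sz_of_mem_J (FoldY_T_mem_J m) hp]

lemma FoldY_R {L : ℕ} {p : Cell} (hp : p ∈ Rs true m L) : p.i ≤ p.c ∧ p.c < L := by
  rw [mem_Rs, reg_true] at hp
  exact hp

lemma FoldY_sz0 {L : ℕ} {p : Cell} (hp : p ∈ Rs true m L) (h0 : p.i = 0) :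
    sz (Rs true m L) p = p.c + 1 := by
  have h := sz_stair m L hp
  rw [h0] at h
  omega

lemma FoldY_sz1 {L : ℕ} {p : Cell} (hp : p ∈ Rs true m L) (h0 : 1 ≤ p.i) :
    2 * p.c + 1 ≤ sz (Rs true m L) p := by
  have h := sz_stair m L hp
  have h1 := FoldY_R hp
  obtain ⟨a, ha⟩ : ∃ a, p.i = a + 1 := ⟨p.i - 1, by omega⟩
  obtain ⟨b, hb⟩ : ∃ b, p.c = a + 1 + b := ⟨p.c - (a + 1), by omega⟩
  have h2 : 2 * p.c + 2 - p.i = a + 2 * b + 3 := by omega
  rw [h2, ha] at h
  rw [hb]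
  nlinarith [Nat.zero_le (a * a), Nat.zero_le (a * b)]

/-- the cells whose element is above `wf` -/
def FoldY_W (m : ℕ) : Finset Cell :=
  (Rs true m (2 * m + 1)).filter (fun p => p.c ≤ m ∨ p.i = 0)

lemma FoldY_mem_W {p : Cell} :
    p ∈ FoldY_W m ↔ p.i ≤ p.c ∧ p.c ≤ 2 * m ∧ (p.c ≤ m ∨ p.i = 0) := by
  unfold FoldY_W
  rw [Finset.mem_filter, mem_Rs, reg_true]
  omega

lemma FoldY_W_sub (m : ℕ) : FoldY_W m ⊆ FoldY_T m := by
  intro p hp
  rw [FoldY_mem_W] at hp
  rw [FoldY_mem_T]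
  omega

lemma FoldY_W_card (m : ℕ) : 2 * (FoldY_W m).card = (m + 1) * (m + 2) + 2 * m := by
  have h1 : FoldY_W m = upF (Rs true m (2 * m + 1)) ⟨m, m⟩ ∪
      upF (Rs true m (2 * m + 1)) ⟨0, 2 * m⟩ := by
    ext p
    rw [FoldY_mem_W, Finset.mem_union, mem_upF, mem_upF, mem_Rs, reg_true, cell_le, cell_le]
    simp only
    omega
  have h2 : upF (Rs true m (2 * m + 1)) ⟨m, m⟩ ∩ upF (Rs true m (2 * m + 1)) ⟨0, 2 * m⟩ =
      upF (Rs true m (2 * m + 1)) ⟨0, m⟩ := by
    ext p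
    rw [Finset.mem_inter, mem_upF, mem_upF, mem_upF, mem_Rs, reg_true, cell_le, cell_le, cell_le]
    simp only
    omega
  have h3 := Finset.card_union_add_card_inter (upF (Rs true m (2 * m + 1)) ⟨m, m⟩)
    (upF (Rs true m (2 * m + 1)) ⟨0, 2 * m⟩)
  rw [← h1, h2] at h3
  have h4 := sz_stair m (2 * m + 1) (p := ⟨m, m⟩)
    (mem_Rs.2 ⟨reg_true.2 le_rfl, by simp only; omega⟩)
  have h5 := FoldY_sz0 (m := m) (L := 2 * m + 1) (p := ⟨0, 2 * m⟩)
    (mem_Rs.2 ⟨reg_true.2 (Nat.zero_le _), by simp only; omega⟩) rfl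
  have h6 := FoldY_sz0 (m := m) (L := 2 * m + 1) (p := ⟨0, m⟩)
    (mem_Rs.2 ⟨reg_true.2 (Nat.zero_le _), by simp only; omega⟩) rfl
  simp only at h4 h5 h6
  have h7 : 2 * m + 2 - m = m + 2 := by omega
  rw [h7] at h4
  unfold sz at h4 h5 h6
  omega

/-- which elements of the top part are above `wf` -/
lemma FoldY_above (h : FData m e y wf) {p : Cell} (hp : p ∈ FoldY_T m) :
    wf ≤ FoldY_e e p ↔ p ∈ FoldY_W m := by
  have hp' := FoldY_mem_T.1 hp
  have hw1 := h.hw.1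
  rw [jj_true] at hw1
  have hiff : ∀ l ≤ m, (wf ≤ e l (jj true m - l) ↔ l = 0 ∨ l = m) := by
    intro l hl
    have h1 := h.hw.2 l hl
    rw [Finset.mem_insert, Finset.mem_singleton] at h1
    rw [← h1]
    refine ⟨fun h2 => lt_of_le_of_ne h2 ?_, le_of_lt⟩
    intro h3
    obtain ⟨h4, h5⟩ := reg_x (k := true) hl
    have h6 := h.hT.lev_e l (jj true m - l) h4 h5.le
    rw [← h3, h5, jj_true] at h6
    omega
  have h1 := h.hT.le_e_iff h.hG (z := wf) (by rw [jj_true]; omega) (i := p.i) (c := p.c)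
    (reg_true.2 hp'.1) (by rw [jj_true]; exact hp'.2)
  have h2 : wf ≤ FoldY_e e p ↔ wf ≤ e p.i p.c := Iff.rfl
  rw [h2, h1, FoldY_mem_W]
  constructor
  · rintro ⟨l, hl, hil, hcl, hwl⟩
    rw [hiff l hl] at hwl
    rw [jj_true] at hcl
    omega
  · rintro ⟨h3, h4, h5⟩
    rcases h5 with h5 | h5
    · refine ⟨m, le_rfl, by omega, by rw [jj_true]; omega, (hiff m le_rfl).2 (Or.inr rfl)⟩
    · refine ⟨0, Nat.zero_le _, by omega, by rw [jj_true]; omega,
        (hiff 0 (Nat.zero_le _)).2 (Or.inl rfl)⟩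

lemma FoldY_wf_notMem (h : FData m e y wf) : wf ∉ (FoldY_T m).image (FoldY_e e) := by
  intro hw
  obtain ⟨p, hp, hpw⟩ := Finset.mem_image.1 hw
  have h1 := FoldY_lev h.hT hp
  have h2 := h.hw.1
  rw [jj_true] at h2
  rw [hpw, h2] at h1
  have h3 := (FoldY_mem_T.1 hp).2
  omega

lemma FoldY_upF (h : FData m e y wf) :
    upF (univ : Finset P) wf = insert wf ((FoldY_W m).image (FoldY_e e)) := by
  ext z
  rw [mem_upF, Finset.mem_insert, Finset.mem_image]
  constructor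
  · rintro ⟨-, hz⟩
    rcases eq_or_lt_of_le hz with h1 | h1
    · exact Or.inl h1.symm
    · right
      have h2 := lev_strictAnti h1
      have h3 := h.hw.1
      rw [jj_true] at h3
      obtain ⟨p, hp, hpz⟩ := FoldY_surj h.hT (z := z) (by omega)
      refine ⟨p, ?_, hpz⟩
      rw [← FoldY_above h hp, hpz]
      exact hz
  · rintro (rfl | ⟨p, hp, rfl⟩)
    · exact ⟨Finset.mem_univ _, le_rfl⟩
    · exact ⟨Finset.mem_univ _, (FoldY_above h (FoldY_W_sub m hp)).2 hp⟩

/-- sizes: `sz wf = sz (m, m+1) = (m+1)(m+4)/2`, in the form of an equality with the reference -/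
theorem FData.sz_wf (h : FData m e y wf) :
    2 * sz (univ : Finset P) wf = (m + 1) * (m + 4) := by
  unfold sz
  rw [FoldY_upF h, Finset.card_insert_of_notMem, Finset.card_image_of_injOn]
  · have h1 := FoldY_W_card m
    have h2 : (m + 1) * (m + 4) = (m + 1) * (m + 2) + 2 * m + 2 := by ring
    omega
  · exact Iso_injOn (FoldY_le h.hT) (FoldY_W_sub m)
  · intro hw
    exact FoldY_wf_notMem h (Finset.image_subset_image (FoldY_W_sub m) hw)

/-- cells of the part common to the two filters generated by the new element and by the lost cell -/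
def YY (m : ℕ) : Finset Cell :=
  (Rs true m (2 * m + 1)).filter (fun p => p.c ≤ m ∨ (p.i = 0 ∧ p.c = m + 1))

lemma FoldY_mem_YY {p : Cell} :
    p ∈ YY m ↔ p.i ≤ p.c ∧ p.c ≤ 2 * m ∧ (p.c ≤ m ∨ (p.i = 0 ∧ p.c = m + 1)) := by
  unfold YY
  rw [Finset.mem_filter, mem_Rs, reg_true]
  omega

/-- the filter generated by the lost cell: `AF = AF (YY m)` modulo `X^(m+4)`: the other cells are
the `(i, m+1)`, `1 ≤ i ≤ m`, of size `≥ 2m + 3` -/
theorem refF_lost (hm : 3 ≤ m) :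
    Cg (m + 4) (AF (upF (Rs true m (2 * m + 1)) ⟨m, m + 1⟩)) (AF (YY m)) := by
  refine AF_first ?_ _ ?_
  · rw [mem_J]
    constructor
    · intro p hp
      rw [FoldY_mem_YY] at hp
      rw [mem_upF, mem_Rs, reg_true, cell_le]
      simp only
      omega
    · intro x hx z hz hxz
      rw [FoldY_mem_YY] at hx ⊢
      rw [mem_upF, mem_Rs, reg_true, cell_le] at hz
      rw [cell_le] at hxz
      simp only at hz
      omega
  · intro z hz
    rw [Finset.mem_sdiff] at hz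
    obtain ⟨hz1, hz2⟩ := hz
    rw [sz_of_mem_J (upF_mem_J _ _) hz1]
    rw [mem_upF] at hz1
    obtain ⟨hz3, hz4⟩ := hz1
    have h1 := FoldY_R hz3
    rw [FoldY_mem_YY] at hz2
    rw [cell_le] at hz4
    simp only at hz4
    have h2 : 1 ≤ z.i := by omega
    have h3 := FoldY_sz1 hz3 h2
    omega

/-- every relatively upper set of cells containing `YY m` has the same `AF` modulo `X^(m+3)`: a cell
outside `YY m` has size at least `m + 3` -/
theorem refF_cg (hm : 3 ≤ m) {G : Finset Cell} (hG : G ∈ J (Rs true m (2 * m + 1)))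
    (hY : YY m ⊆ G) : Cg (m + 3) (AF G) (AF (YY m)) := by
  refine AF_first ?_ _ ?_
  · rw [mem_J]
    refine ⟨hY, ?_⟩
    intro x hx z hz hxz
    have hz' := FoldY_R ((mem_J.1 hG).1 hz)
    rw [FoldY_mem_YY] at hx ⊢
    rw [cell_le] at hxz
    omega
  · intro z hz
    rw [Finset.mem_sdiff] at hz
    obtain ⟨hz1, hz2⟩ := hz
    rw [sz_of_mem_J hG hz1]
    have hz3 := (mem_J.1 hG).1 hz1
    have h1 := FoldY_R hz3
    rw [FoldY_mem_YY] at hz2
    rcases Nat.eq_zero_or_pos z.i with h0 | h0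
    · rw [FoldY_sz0 hz3 h0]
      omega
    · have h3 := FoldY_sz1 hz3 h0
      omega

/-- the filter generated by `wf`: exactly one element of size `m + 3` more (`e 0 (m+2)`), all others
larger: `AF = AF (YY m) + X^(m+3)` modulo `X^(m+4)` (`AF_first'`) -/
theorem FData.AF_wf (h : FData m e y wf) :
    Cg (m + 4) (AF (upF (univ : Finset P) wf)) (AF (YY m) + PowerSeries.X ^ (m + 3)) := by
  classical
  have hm := h.hm
  have hYW : YY m ⊆ FoldY_W m := by
    intro p hp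
    rw [FoldY_mem_YY] at hp
    rw [FoldY_mem_W]
    omega
  have hYT : YY m ⊆ FoldY_T m := hYW.trans (FoldY_W_sub m)
  have hle : ∀ p ∈ YY m, ∀ q ∈ YY m, (FoldY_e e p ≤ FoldY_e e q ↔ p ≤ q) :=
    fun p hp q hq => FoldY_le h.hT p (hYT hp) q (hYT hq)
  have hUJ : upF (univ : Finset P) wf ∈ J (univ : Finset P) := upF_mem_J _ _
  have hD : (YY m).image (FoldY_e e) ∈ J (upF (univ : Finset P) wf) := by
    rw [mem_J, FoldY_upF h]
    refine ⟨(Finset.image_subset_image hYW).trans (Finset.subset_insert _ _), ?_⟩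
    intro x hx z hz hxz
    obtain ⟨p, hp, rfl⟩ := Finset.mem_image.1 hx
    rw [Finset.mem_insert] at hz
    rcases hz with rfl | hz
    · exfalso
      have h1 := FoldY_lev_mono hxz
      rw [FoldY_lev h.hT (hYT hp), h.hw.1, jj_true] at h1
      have h2 := (FoldY_mem_T.1 (hYT hp)).2
      omega
    · obtain ⟨q, hq, rfl⟩ := Finset.mem_image.1 hz
      refine Finset.mem_image_of_mem _ ?_
      rw [FoldY_le h.hT p (hYT hp) q (FoldY_W_sub m hq), cell_le] at hxz
      rw [FoldY_mem_YY] at hp ⊢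
      rw [FoldY_mem_W] at hq
      omega
  -- the elements outside
  have hout : ∀ z ∈ upF (univ : Finset P) wf \ (YY m).image (FoldY_e e),
      (z = wf ∧ m + 4 ≤ sz (upF (univ : Finset P) wf) z) ∨
      ∃ c, m + 2 ≤ c ∧ c ≤ 2 * m ∧ z = FoldY_e e ⟨0, c⟩ ∧
        sz (upF (univ : Finset P) wf) z = c + 1 := by
    intro z hz
    rw [Finset.mem_sdiff] at hz
    obtain ⟨hz1, hz2⟩ := hz
    rw [sz_of_mem_J hUJ hz1]
    have hz3 := hz1
    rw [FoldY_upF h, Finset.mem_insert] at hz3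
    rcases hz3 with rfl | hz3
    · left
      refine ⟨rfl, ?_⟩
      have h1 := h.sz_wf
      have h2 : 2 * (m + 4) ≤ (m + 1) * (m + 4) := Nat.mul_le_mul_right _ (by omega)
      omega
    · right
      obtain ⟨q, hq, rfl⟩ := Finset.mem_image.1 hz3
      have hqT := FoldY_W_sub m hq
      have hqY : q ∉ YY m := fun h3 => hz2 (Finset.mem_image_of_mem _ h3)
      rw [FoldY_mem_YY] at hqY
      have hqW := FoldY_mem_W.1 hq
      have hq0 : q.i = 0 := by omega
      have hqR : q ∈ Rs true m (2 * m + 1) := (mem_J.1 (FoldY_T_mem_J m)).1 hqT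
      refine ⟨q.c, by omega, by omega, ?_, ?_⟩
      · congr 1
        exact Cell.ext hq0 rfl
      · rw [FoldY_sz h.hT hqT, FoldY_sz0 hqR hq0]
  have hmain := AF_first' hD (m + 3) (by
    intro z hz
    rcases hout z hz with ⟨-, h1⟩ | ⟨c, h1, h2, h3, h4⟩
    · omega
    · rw [h4]; omega)
  have hT2 : (⟨0, m + 2⟩ : Cell) ∈ FoldY_T m := by
    rw [FoldY_mem_T]
    simp only
    omega
  have hW2 : (⟨0, m + 2⟩ : Cell) ∈ FoldY_W m := by
    rw [FoldY_mem_W]
    exact ⟨Nat.zero_le _, by simp only; omega, Or.inr rfl⟩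
  have hR2 : (⟨0, m + 2⟩ : Cell) ∈ Rs true m (2 * m + 1) := (mem_J.1 (FoldY_T_mem_J m)).1 hT2
  have hcard : ((upF (univ : Finset P) wf \ (YY m).image (FoldY_e e)).filter
      (fun z => sz (upF (univ : Finset P) wf) z = m + 3)) = {FoldY_e e ⟨0, m + 2⟩} := by
    ext z
    rw [Finset.mem_filter, Finset.mem_singleton]
    constructor
    · rintro ⟨hz, hz2⟩
      rcases hout z hz with ⟨-, h1⟩ | ⟨c, h1, h2, h3, h4⟩
      · omega
      · have hc : c = m + 2 := by omega
        rw [h3, hc]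
    · rintro rfl
      have hmem : FoldY_e e ⟨0, m + 2⟩ ∈ upF (univ : Finset P) wf :=
        mem_upF.2 ⟨Finset.mem_univ _, (FoldY_above h hT2).2 hW2⟩
      refine ⟨?_, ?_⟩
      · rw [Finset.mem_sdiff]
        refine ⟨hmem, ?_⟩
        intro h5
        obtain ⟨q, hq, hqe⟩ := Finset.mem_image.1 h5
        have h6 := iso_inj (FoldY_le h.hT) (hYT hq) hT2 hqe
        rw [h6, FoldY_mem_YY] at hq
        simp only at hq
        omega
      · rw [sz_of_mem_J hUJ hmem, FoldY_sz h.hT hT2, FoldY_sz0 hR2 rfl]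
  have hcard2 : ((upF (univ : Finset P) wf \ (YY m).image (FoldY_e e)).filter
      (fun z => sz (upF (univ : Finset P) wf) z = m + 3)).card = 1 := by
    rw [hcard, Finset.card_singleton]
  rw [hcard2, Nat.cast_one, one_mul, AF_image hle] at hmain
  exact hmain

end Pool.Agent.GaussRot
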