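import Pool.Agent.W_448rot_h96.FoldD
import Pool.Agent.W_448rot_h96.FoldY

/-!
# Fold rotation, second part: the lower half

`f` are the coordinates of the top part of the dual poset (so they describe the lower half of the
poset).  All elements `f i c` are elements of `Pᵒᵈ`.
-/

namespace Pool.Agent.GaussRot

set_option linter.unusedSectionVars false

open Finset Pool.Agent.GaussPoset OrderDual

universe u

variable {P : Type u} [Fintype P] [PartialOrder P] [DecidableEq P]
variable {m : ℕ} {e : ℕ → ℕ → P} {y : ℕ → P} {wf : P} {f : ℕ → ℕ → Pᵒᵈ}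

/-- the common cells are above the new element -/
theorem FoldCg_above (h : FData m e y wf) {p : Cell} (hp : p ∈ YY m) :
    wf ≤ epsD m e f p ∧ p ∈ CD m := by
  have hm := h.hm
  unfold YY at hp
  rw [mem_filter] at hp
  obtain ⟨hpR, hp2⟩ := hp
  have h1 := (mem_Rs.1 hpR).1
  rw [reg_true] at h1
  have hle : p.i + p.c ≤ 2 * m := by omega
  unfold epsD
  rw [if_pos hle]
  refine ⟨?_, ?_⟩
  · rcases hp2 with hc | ⟨hi, hc⟩
    · have h2 : wf < e m (jj true m - m) := (h.hw.2 m le_rfl).2 (by simp)
      have h3 : jj true m - m = m := by rw [jj_true]; omega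
      rw [h3] at h2
      refine h2.le.trans ?_
      rw [h.hT.le_iff m m p.i p.c (by rw [reg_true]) (by rw [jj_true]; omega)
        (by rw [reg_true]; exact h1) (by rw [jj_true]; exact hle)]
      omega
    · have h2 : wf < e 0 (jj true m - 0) := (h.hw.2 0 (Nat.zero_le _)).2 (by simp)
      have h3 : jj true m - 0 = 2 * m := by rw [jj_true]; omega
      rw [h3] at h2
      refine h2.le.trans ?_
      rw [h.hT.le_iff 0 (2 * m) p.i p.c (by rw [reg_true]; omega) (by rw [jj_true]; omega)
        (by rw [reg_true]; exact h1) (by rw [jj_true]; exact hle)]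
      omega
  · unfold CD
    rw [mem_filter]
    exact ⟨hpR, by omega⟩

/-- every upper set containing `wf` has `AF = AF (YY m)` modulo `X^(m+3)`: transfer to the cells by
`epsD`; the elements below `wf` have size `≥ (m+1)(m+4)/2 ≥ m + 4`; the elements above `wf`
include the images of `YY m` -/
theorem FData.AF_cg (h : FData m e y wf) (H : Gr P (4 * m)) (hf : Top true m f) {G : Finset P}
    (hG : G ∈ J (univ : Finset P)) (hw : wf ∈ G) : Cg (m + 3) (AF G) (AF (YY m)) := by
  classical
  have hm := h.hm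
  -- remove the elements below `wf`
  have hG'J : G.filter (fun z => ¬ z ≤ wf) ∈ J G := by
    rw [mem_J]
    refine ⟨filter_subset _ _, fun x hx z hz hxz => ?_⟩
    rw [mem_filter] at hx ⊢
    exact ⟨hz, fun h => hx.2 (hxz.trans h)⟩
  have h1 : Cg (m + 3) (AF G) (AF (G.filter (fun z => ¬ z ≤ wf))) := by
    refine AF_first hG'J (m + 3) fun z hz => ?_
    rw [mem_sdiff, mem_filter, not_and, not_not] at hz
    have hzw : z ≤ wf := hz.2 hz.1
    rw [sz_of_mem_J hG hz.1]
    have h2 : sz (univ : Finset P) wf ≤ sz (univ : Finset P) z := by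
      refine card_le_card fun u hu => ?_
      rw [mem_upF] at hu ⊢
      exact ⟨mem_univ _, hzw.trans hu.2⟩
    refine le_trans ?_ h2
    have h3 := h.sz_wf
    have h4 : 2 * (m + 3) ≤ (m + 1) * (m + 4) := by nlinarith
    omega
  -- transfer to the cells
  have hG2 : ((CD m).filter (fun p => epsD m e f p ∈ G)).image (epsD m e f) =
      G.filter (fun z => ¬ z ≤ wf) := by
    ext z
    rw [mem_image, mem_filter]
    constructor
    · rintro ⟨p, hp, rfl⟩
      rw [mem_filter] at hp
      have h2 : epsD m e f p ∈ (CD m).image (epsD m e f) := mem_image_of_mem _ hp.1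
      rw [h.image_CD H hf, mem_filter] at h2
      exact ⟨hp.2, h2.2⟩
    · rintro ⟨hz, hzw⟩
      have h2 : z ∈ (CD m).image (epsD m e f) := by
        rw [h.image_CD H hf, mem_filter]
        exact ⟨mem_univ _, hzw⟩
      obtain ⟨p, hp, rfl⟩ := mem_image.1 h2
      exact ⟨p, mem_filter.2 ⟨hp, hz⟩, rfl⟩
  have h2 : AF (G.filter (fun z => ¬ z ≤ wf)) =
      AF ((CD m).filter (fun p => epsD m e f p ∈ G)) := by
    rw [← hG2]
    exact AF_image fun p hp q hq =>
      h.epsD_le H hf p (mem_filter.1 hp).1 q (mem_filter.1 hq).1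
  have h3 : (CD m).filter (fun p => epsD m e f p ∈ G) ∈ J (Rs true m (2 * m + 1)) := by
    rw [mem_J]
    have hCD := mem_J.1 (CD_mem_J m)
    refine ⟨(filter_subset _ _).trans hCD.1, fun p hp q hq hpq => ?_⟩
    rw [mem_filter] at hp ⊢
    have hqC := hCD.2 p hp.1 q hq hpq
    refine ⟨hqC, ?_⟩
    exact (mem_J.1 hG).2 _ hp.2 _ (mem_univ _) ((h.epsD_le H hf p hp.1 q hqC).2 hpq)
  have h4 : YY m ⊆ (CD m).filter (fun p => epsD m e f p ∈ G) := by
    intro p hp
    obtain ⟨h5, h6⟩ := FoldCg_above (f := f) h hp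
    rw [mem_filter]
    exact ⟨h6, (mem_J.1 hG).2 wf hw _ (mem_univ _) h5⟩
  rw [h2] at h1
  exact h1.trans (refF_cg hm h3 h4)

end Pool.Agent.GaussRot
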