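import Pool.Agent.W_448rot_h96.Unimod

/-!
# Unimodality of the level sizes
-/

namespace Pool.Agent.GaussRot

set_option linter.unusedSectionVars false

open Finset Pool.Agent.GaussPoset

universe u

/-- symmetry of the level sizes: `card_lv_zero` and `lev + colev = r` -/
theorem lv_symm {P : Type u} [Fintype P] [PartialOrder P] [DecidableEq P] {r : ℕ} (H : Gr P r)
    {l : ℕ} (hl : l ≤ r) : (lv P (r - l)).card = (lv P l).card := by
  rw [← card_lv_zero H.gauss l]
  refine Finset.card_bij (fun x _ => OrderDual.toDual x) ?_ ?_ ?_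
  · intro x hx
    have h1 : lev x = r - l := mem_lv.1 hx
    have h2 : lev x + lev (OrderDual.toDual x) = r := H.hr x
    exact mem_lv.2 (by omega)
  · intro x _ y _ hxy
    exact OrderDual.toDual.injective hxy
  · intro y hy
    refine ⟨OrderDual.ofDual y, ?_, rfl⟩
    have h1 : lev y = l := mem_lv.1 hy
    have h2 : lev (OrderDual.ofDual y) + lev y = r := H.hr (OrderDual.ofDual y)
    exact mem_lv.2 (by omega)

/-- Unimodality: `b_l ≤ b_(l+1)` if `2l + 1 ≤ r`.  Apply `exps_dvd` with `d = r + 1 - l`,
`M = r - 1 - 2l`: the exponents are `≤ r + 1 < 2d`, so the left side is `b_(r-l) = b_l`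
(`lv_symm`); on the right `M + h` runs from `≥ 1` to `2r - 2l < 2d`, so it is a multiple of `d` only
for `h = l + 2`, i.e. level `l + 1`. -/
theorem unimod {P : Type u} [Fintype P] [PartialOrder P] [DecidableEq P] {r : ℕ} (H : Gr P r)
    {l : ℕ} (hl : 2 * l + 1 ≤ r) : (lv P l).card ≤ (lv P (l + 1)).card := by
  have h1 := exps_dvd H.gauss (r - 1 - 2 * l) (r + 1 - l) (by omega)
  have h2 : lv P (r - l) ⊆ (univ : Finset P).filter (fun x => r + 1 - l ∣ lev x + 1) := by
    intro x hx
    have h3 : lev x = r - l := mem_lv.1 hx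
    rw [Finset.mem_filter]
    refine ⟨Finset.mem_univ _, ⟨1, ?_⟩⟩
    omega
  have h4 : (univ : Finset P).filter (fun x => r + 1 - l ∣ (r - 1 - 2 * l) + (lev x + 1)) ⊆
      lv P (l + 1) := by
    intro x hx
    rw [Finset.mem_filter] at hx
    obtain ⟨c, hc⟩ := hx.2
    have h5 : lev x + colev x = r := H.hr x
    have h6 : c = 1 := by
      rcases Nat.lt_trichotomy c 1 with h | h | h
      · have h7 : c = 0 := by omega
        rw [h7, mul_zero] at hc
        omega
      · exact h
      · exfalso
        have h7 : (r + 1 - l) * 2 ≤ (r + 1 - l) * c := Nat.mul_le_mul_left _ h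
        omega
    rw [h6, mul_one] at hc
    exact mem_lv.2 (by omega)
  rw [← lv_symm H (l := l) (by omega)]
  exact (Finset.card_le_card h2).trans (h1.trans (Finset.card_le_card h4))

end Pool.Agent.GaussRot
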