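import Pool.Agent.W_448rot_h96.FoldSz
import Pool.Agent.W_448rot_h96.UnimodB

/-!
# Fold rotation, first part: the level sizes

`R = Rs true m (2m+1)`, the staircase with `2m + 1` columns.
-/

namespace Pool.Agent.GaussRot

set_option linter.unusedSectionVars false

open Finset Pool.Agent.GaussPoset

universe u

variable {P : Type u} [Fintype P] [PartialOrder P] [DecidableEq P]

variable {m : ℕ} {e : ℕ → ℕ → P} {y : ℕ → P} {wf : P}

/-- the cells of level `s` in the staircase -/
theorem FoldCnt_cells (m s a b : ℕ) (h : ∀ i, (i ≤ s - i ∧ i ≤ s ∧ s - i < 2 * m + 1) ↔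
    a ≤ i ∧ i ≤ b) :
    ((Rs true m (2 * m + 1)).filter (fun p => p.i + p.c + 1 = s + 1)).card = b + 1 - a := by
  have h1 : (Rs true m (2 * m + 1)).filter (fun p => p.i + p.c + 1 = s + 1) =
      (Finset.Icc a b).image (fun i => (⟨i, s - i⟩ : Cell)) := by
    ext p
    rw [mem_filter, mem_Rs, reg_true, mem_image]
    constructor
    · rintro ⟨⟨h2, h3⟩, h4⟩
      refine ⟨p.i, Finset.mem_Icc.2 ((h p.i).1 ⟨?_, ?_, ?_⟩), ?_⟩
      · omega
      · omega
      · omega
      · ext
        · rfl
        · change s - p.i = p.c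
          omega
    · rintro ⟨i, hi, rfl⟩
      obtain ⟨h2, h3, h4⟩ := (h i).2 (Finset.mem_Icc.1 hi)
      refine ⟨⟨h2, h4⟩, ?_⟩
      change i + (s - i) + 1 = s + 1
      omega
  rw [h1, Finset.card_image_of_injective _ (fun i j hij => congrArg Cell.i hij), Nat.card_Icc]

theorem FoldCnt_lv (l : ℕ) : (lv P l).card =
    ((univ : Finset P).filter (fun x => lev x + 1 = l + 1)).card := by
  congr 1
  ext x
  rw [mem_lv, mem_filter]
  constructor
  · intro h
    exact ⟨mem_univ _, by rw [h]⟩
  · rintro ⟨-, h⟩
    exact Nat.succ_injective h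

/-- There are exactly `m` elements of level `2m + 1` and none of type `{m}` or `{m-1}`: the cells of
level `2m + 1` in the reference poset are the `(i, 2m + 1 - i)`, `1 ≤ i ≤ m`; and the `m` elements
`y i` (`1 ≤ i ≤ m - 1`), `wf` are different. -/
theorem FData.count (h : FData m e y wf) :
    (lv P (2 * m + 1)).card = m ∧ (∀ w, ¬ Typ true m e w {m}) ∧ ∀ w, ¬ Typ true m e w {m - 1} := by
  have hm := h.hm
  have hcard : (lv P (2 * m + 1)).card = m := by
    rw [FoldCnt_lv, h.exps (2 * m + 1 + 1) (by omega), FoldCnt_cells m (2 * m + 1) 1 m]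
    · omega
    · intro i
      omega
  have key : ∀ a, 1 ≤ a → a ≤ m → ∀ w, ¬ Typ true m e w {a} := by
    intro a ha ham w hw
    have hyy : ∀ i j, 1 ≤ i → i + 1 ≤ m → 1 ≤ j → j + 1 ≤ m → y i = y j → i = j := by
      intro i j hi hi' hj hj' hij
      have h1 := h.hy i hi hi'
      have h2 := h.hy j hj hj'
      rw [← hij] at h2
      have h3 := h1.inter h2
      have h4 := (h3 i (by omega)).1 (by simp)
      have h5 := (h3 j (by omega)).2 (by simp)
      simp only [Finset.mem_insert, Finset.mem_singleton] at h4 h5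
      omega
    have hwf : ∀ i, 1 ≤ i → i + 1 ≤ m → y i ≠ wf := by
      intro i hi hi' hij
      have h1 := h.hy i hi hi'
      rw [hij] at h1
      have h3 := h1.inter h.hw
      have h4 := (h3 m le_rfl).2 (by simp)
      simp only [Finset.mem_insert, Finset.mem_singleton] at h4
      omega
    have hyw : ∀ i, 1 ≤ i → i + 1 ≤ m → y i ≠ w := by
      intro i hi hi' hij
      have h1 := h.hy i hi hi'
      rw [hij] at h1
      have h3 := h1.inter hw
      have h4 := (h3 i (by omega)).1 (by simp)
      have h5 := (h3 (i - 1) (by omega)).1 (by simp)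
      simp only [Finset.mem_singleton] at h4 h5
      omega
    have hww : wf ≠ w := by
      intro hij
      have h1 := h.hw
      rw [hij] at h1
      have h3 := h1.inter hw
      have h4 := (h3 0 (by omega)).1 (by simp)
      simp only [Finset.mem_singleton] at h4
      omega
    have hsub : insert w (insert wf ((Finset.Icc 1 (m - 1)).image y)) ⊆ lv P (2 * m + 1) := by
      intro x hx
      rw [mem_lv]
      rw [Finset.mem_insert, Finset.mem_insert, Finset.mem_image] at hx
      rcases hx with rfl | rfl | ⟨i, hi, rfl⟩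
      · exact hw.1
      · exact h.hw.1
      · rw [Finset.mem_Icc] at hi
        exact (h.hy i hi.1 (by omega)).1
    have hle := Finset.card_le_card hsub
    have himg : ((Finset.Icc 1 (m - 1)).image y).card = m - 1 := by
      rw [Finset.card_image_of_injOn, Nat.card_Icc]
      · omega
      · intro i hi j hj hij
        rw [Finset.mem_coe, Finset.mem_Icc] at hi hj
        exact hyy i j hi.1 (by omega) hj.1 (by omega) hij
    rw [Finset.card_insert_of_notMem, Finset.card_insert_of_notMem, himg, hcard] at hle
    · omega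
    · rw [Finset.mem_image]
      rintro ⟨i, hi, hij⟩
      rw [Finset.mem_Icc] at hi
      exact hwf i hi.1 (by omega) hij
    · rw [Finset.mem_insert, Finset.mem_image]
      rintro (hij | ⟨i, hi, hij⟩)
      · exact hww hij.symm
      · rw [Finset.mem_Icc] at hi
        exact hyw i hi.1 (by omega) hij
  exact ⟨hcard, key m (by omega) le_rfl, key (m - 1) (by omega) (by omega)⟩

/-- the level `2m` has `m + 1` elements -/
theorem FData.card_lv (h : FData m e y wf) : (lv P (2 * m)).card = m + 1 := by
  have hm := h.hm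
  rw [FoldCnt_lv, h.exps (2 * m + 1) (by omega), FoldCnt_cells m (2 * m) 0 m]
  · omega
  · intro i
    omega

/-- Hence `r = 4m` if `4m ≤ r`: otherwise `2 (2m) + 1 ≤ r` contradicts `unimod`. -/
theorem FData.r_eq (h : FData m e y wf) {r : ℕ} (H : Gr P r) (hr : 4 * m ≤ r) : r = 4 * m := by
  by_contra hne
  have h1 := unimod H (l := 2 * m) (by omega)
  have h2 := h.card_lv
  have h3 := h.count.1
  omega

end Pool.Agent.GaussRot
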