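import Pool.Agent.W_448rot_h96.FoldStr

/-!
# Fold rotation, second part: the lower half

`f` are the coordinates of the top part of the dual poset (so they describe the lower half of the
poset).  All elements `f i c` are elements of `Pᵒᵈ`.
-/

namespace Pool.Agent.GaussRot

set_option linter.unusedSectionVars false

open Finset Pool.Agent.GaussPoset OrderDual

universe u

variable {P : Type u} [Fintype P] [PartialOrder P] [DecidableEq P]
variable {m : ℕ} {e : ℕ → ℕ → P} {y : ℕ → P} {wf : P} {f : ℕ → ℕ → Pᵒᵈ}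

/-- the cells not below the lost cell `(m, m+1)` -/
def CD (m : ℕ) : Finset Cell :=
  (Rs true m (2 * m + 1)).filter (fun p => p.i + 1 ≤ m ∨ p.c ≤ m)

/-- coordinates: the upper half by `e`, the lower half by `f` (reflected) -/
def epsD (m : ℕ) (e : ℕ → ℕ → P) (f : ℕ → ℕ → Pᵒᵈ) (p : Cell) : P :=
  if p.i + p.c ≤ 2 * m then e p.i p.c else ofDual (f (m - 1 - p.i) (3 * m + 1 - p.c))

/-- `CD m` is relatively upper -/
theorem CD_mem_J (m : ℕ) : CD m ∈ J (Rs true m (2 * m + 1)) := by
  rw [mem_J]
  refine ⟨filter_subset _ _, fun p hp q hq hpq => ?_⟩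
  unfold CD at hp ⊢
  rw [mem_filter] at hp ⊢
  rw [cell_le] at hpq
  exact ⟨hq, by omega⟩

theorem FoldD_mem_CD {p : Cell} : p ∈ CD m ↔ (p.i ≤ p.c ∧ p.c < 2 * m + 1) ∧
    (p.i + 1 ≤ m ∨ p.c ≤ m) := by
  unfold CD
  rw [mem_filter, mem_Rs, reg_true]

/-- comparison of elements of the lower half -/
theorem FoldD_f_le (hf : Top true m f) {a b a' b' : ℕ} (h1 : a ≤ b) (h2 : a + b ≤ 2 * m)
    (h1' : a' ≤ b') (h2' : a' + b' ≤ 2 * m) :
    ofDual (f a b) ≤ ofDual (f a' b') ↔ a ≤ a' ∧ b ≤ b' := by
  rw [ofDual_le_ofDual]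
  exact hf.le_iff a' b' a b (by rw [reg_true]; exact h1') (by rw [jj_true]; exact h2')
    (by rw [reg_true]; exact h1) (by rw [jj_true]; exact h2)

theorem FoldD_lev_f (H : Gr P (4 * m)) (hf : Top true m f) {a b : ℕ} (h1 : a ≤ b)
    (h2 : a + b ≤ 2 * m) : lev (ofDual (f a b)) + (a + b) = 4 * m := by
  have h3 := hf.lev_e a b (by rw [reg_true]; exact h1) (by rw [jj_true]; exact h2)
  have h4 := lev_dual H (ofDual (f a b))
  rw [toDual_ofDual, h3] at h4
  omega

/-- the middle level in the two coordinate systems -/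
theorem FoldD_mid (h : FData m e y wf) (H : Gr P (4 * m)) (hf : Top true m f) {l : ℕ}
    (hl : l + 1 ≤ m) : e l (2 * m - l) = ofDual (f (m - 1 - l) (m + 1 + l)) := by
  have h1 := (h.fold_fold H hf).2 (m - 1 - l) (by omega)
  have h2 : m - 1 - (m - 1 - l) = l := by omega
  have h3 : 2 * m - (m - 1 - l) = m + 1 + l := by omega
  rw [h2, h3] at h1
  rw [h1, ofDual_toDual]

theorem FoldD_mid_m (h : FData m e y wf) (H : Gr P (4 * m)) (hf : Top true m f) :
    e m m = ofDual (f m m) := by
  rw [(h.fold_fold H hf).1, ofDual_toDual]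

/-- the new element in the coordinates of the lower half -/
theorem FoldD_wf (h : FData m e y wf) (H : Gr P (4 * m)) (hf : Top true m f) :
    wf = ofDual (f (m - 1) m) := by
  have hm := h.hm
  have hlev := FoldD_lev_f H hf (a := m - 1) (b := m) (by omega) (by omega)
  refine h.hF.uniq _ _ {0, m} h.hw ⟨by rw [jj_true]; omega, fun i hi => ?_⟩
  rw [jj_true]
  have hlev2 : lev (e i (2 * m - i)) = 2 * m := by
    rw [h.hT.lev_e i (2 * m - i) (by rw [reg_true]; omega) (by rw [jj_true]; omega)]
    omega
  have hiff : ofDual (f (m - 1) m) < e i (2 * m - i) ↔ ofDual (f (m - 1) m) ≤ e i (2 * m - i) := by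
    refine ⟨le_of_lt, fun h => lt_of_le_of_ne h fun he => ?_⟩
    rw [he] at hlev
    omega
  rw [hiff]
  rcases Nat.lt_or_ge i m with him | him
  · rw [FoldD_mid h H hf (by omega), FoldD_f_le hf (by omega) (by omega) (by omega) (by omega)]
    simp only [mem_insert, mem_singleton]
    omega
  · have him' : i = m := le_antisymm hi him
    subst him'
    have h2 : 2 * i - i = i := by omega
    rw [h2, FoldD_mid_m h H hf, FoldD_f_le hf (by omega) (by omega) (by omega) (by omega)]
    exact ⟨fun _ => by simp, fun _ => by omega⟩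

/-- `epsD` is an order isomorphism on `CD m`.  Upper half: `Top.le_iff` for `e`.  Lower half
(`i + c > 2m`, so `1 ≤ i ≤ m - 1`, `c ≤ 2m`; the dual coordinates `(m-1-i, 3m+1-c)` satisfy
`i' ≤ c'`, `i' + c' ≤ 2m - 1`): `Top.le_iff` for `f`.  Mixed: a lower cell `(i,c)` and an upper
cell `(i',c')`: the element is below `e i' c'` iff some `x_l` of the middle level is between
(`between`, `Top.le_e_iff`); by the second case of `FData.middle` and `Top.le_iff` for `f`,
`epsD (i,c) ≤ x_l` iff `l ≤ i` and `2m - l ≤ c` for `l ≤ m - 1`, and never for `l = m`; so the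
condition is `∃ l, i' ≤ l ≤ i, 2m - c ≤ l ≤ 2m - c'`, i.e. `i' ≤ i`, `c' ≤ c`.  An upper cell is
never below a lower cell (levels). -/
theorem FData.epsD_le (h : FData m e y wf) (H : Gr P (4 * m)) (hf : Top true m f) :
    ∀ p ∈ CD m, ∀ q ∈ CD m, (epsD m e f p ≤ epsD m e f q ↔ p ≤ q) := by
  intro p hp q hq
  rw [FoldD_mem_CD] at hp hq
  rw [cell_le]
  unfold epsD
  by_cases hp2 : p.i + p.c ≤ 2 * m <;> by_cases hq2 : q.i + q.c ≤ 2 * m
  · rw [if_pos hp2, if_pos hq2]
    exact h.hT.le_iff _ _ _ _ (by rw [reg_true]; exact hp.1.1) (by rw [jj_true]; exact hp2)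
      (by rw [reg_true]; exact hq.1.1) (by rw [jj_true]; exact hq2)
  · rw [if_pos hp2, if_neg hq2]
    refine ⟨fun hle => ?_, fun hle => by omega⟩
    exfalso
    have h1 := lev_strictAnti.antitone hle
    have h2 := FoldD_lev_f H hf (a := m - 1 - q.i) (b := 3 * m + 1 - q.c) (by omega) (by omega)
    have h3 := h.hT.lev_e p.i p.c (by rw [reg_true]; exact hp.1.1) (by rw [jj_true]; exact hp2)
    omega
  · rw [if_neg hp2, if_pos hq2]
    have h2 := FoldD_lev_f H hf (a := m - 1 - p.i) (b := 3 * m + 1 - p.c) (by omega) (by omega)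
    rw [h.hT.le_e_iff h.hG (by rw [jj_true]; omega) (by rw [reg_true]; exact hq.1.1)
      (by rw [jj_true]; exact hq2)]
    rw [jj_true]
    constructor
    · rintro ⟨l, hl, hl1, hl2, hl3⟩
      rcases Nat.lt_or_ge l m with hlm | hlm
      · rw [FoldD_mid h H hf (by omega),
          FoldD_f_le hf (by omega) (by omega) (by omega) (by omega)] at hl3
        omega
      · have hlm' : l = m := le_antisymm hl hlm
        subst hlm'
        have h3 : 2 * l - l = l := by omega
        rw [h3, FoldD_mid_m h H hf,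
          FoldD_f_le hf (by omega) (by omega) (by omega) (by omega)] at hl3
        omega
    · rintro ⟨h3, h4⟩
      refine ⟨max q.i (2 * m - p.c), by omega, by omega, by omega, ?_⟩
      rw [FoldD_mid h H hf (by omega), FoldD_f_le hf (by omega) (by omega) (by omega) (by omega)]
      omega
  · rw [if_neg hp2, if_neg hq2, FoldD_f_le hf (by omega) (by omega) (by omega) (by omega)]
    omega

open Classical in
/-- The image of `CD m` consists of the elements not below `wf`.  The elements of the upper half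
other than those of level `> 2m` are all in the image and not below `wf`.  In the lower half,
`wf` is the common lower cover of `x_0 = f (m-1) (m+1)` and `x_m = f m m`, i.e.
`toDual wf = f (m-1) m` (it is the only element of type `{0,m}`, `Fold.uniq`), so `z ≤ wf` iff the
dual coordinates of `z` are `(i', c')` with `i' ≤ m - 1`, `c' ≤ m`, and the image consists of those
with `c' ≥ m + 1` (`i' + c' ≤ 2m - 1` excludes `i' ≥ m`). -/
theorem FData.image_CD (h : FData m e y wf) (H : Gr P (4 * m)) (hf : Top true m f) :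
    (CD m).image (epsD m e f) = (univ : Finset P).filter (fun z => ¬ z ≤ wf) := by
  have hm := h.hm
  have hwf := FoldD_wf h H hf
  have hlw : lev wf = 2 * m + 1 := by
    have := h.hw.1
    rwa [jj_true] at this
  ext z
  rw [mem_image, mem_filter]
  constructor
  · rintro ⟨p, hp, rfl⟩
    refine ⟨mem_univ _, fun hle => ?_⟩
    rw [FoldD_mem_CD] at hp
    have h1 := lev_strictAnti.antitone hle
    unfold epsD at hle h1
    by_cases hp2 : p.i + p.c ≤ 2 * m
    · rw [if_pos hp2] at hle h1
      have h3 := h.hT.lev_e p.i p.c (by rw [reg_true]; exact hp.1.1) (by rw [jj_true]; exact hp2)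
      omega
    · rw [if_neg hp2, hwf, FoldD_f_le hf (by omega) (by omega) (by omega) (by omega)] at hle
      omega
  · rintro ⟨_, hz⟩
    by_cases hlz : lev z ≤ 2 * m
    · obtain ⟨i, c, hr, hic, rfl⟩ := h.hT.surj z (by rw [jj_true]; exact hlz)
      rw [reg_true] at hr
      rw [jj_true] at hic
      refine ⟨⟨i, c⟩, ?_, ?_⟩
      · rw [FoldD_mem_CD]
        dsimp only
        omega
      · unfold epsD
        dsimp only
        rw [if_pos hic]
    · have h1 := lev_dual H z
      obtain ⟨a, b, hr, hab, hz2⟩ := hf.surj (toDual z) (by rw [jj_true]; omega)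
      rw [reg_true] at hr
      rw [jj_true] at hab
      have hz3 : z = ofDual (f a b) := by rw [hz2, ofDual_toDual]
      have h2 := FoldD_lev_f H hf hr hab
      rw [← hz3] at h2
      rw [hz3, hwf, FoldD_f_le hf hr hab (by omega) (by omega)] at hz
      refine ⟨⟨m - 1 - a, 3 * m + 1 - b⟩, ?_, ?_⟩
      · rw [FoldD_mem_CD]
        dsimp only
        omega
      · unfold epsD
        dsimp only
        have h3 : ¬ (m - 1 - a + (3 * m + 1 - b) ≤ 2 * m) := by omega
        have h4 : m - 1 - (m - 1 - a) = a := by omega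
        have h5 : 3 * m + 1 - (3 * m + 1 - b) = b := by omega
        rw [if_neg h3, h4, h5, hz3]

end Pool.Agent.GaussRot
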