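import Pool.Agent.W_448rot_h96.Top
import Pool.Agent.W_448rot_h96.LayersC
import Pool.Agent.W_448rot_h96.Iso

/-!
# Fold rotation, first part: the level sizes

`R = Rs true m (2m+1)`, the staircase with `2m + 1` columns.
-/

namespace Pool.Agent.GaussRot

set_option linter.unusedSectionVars false

open Finset Pool.Agent.GaussPoset

universe u

variable {P : Type u} [Fintype P] [PartialOrder P] [DecidableEq P]

/-- common part: levels `≤ 2m` and the natural cells of level `2m + 1` in the rows `1..m-1` -/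
def CF (m : ℕ) : Finset Cell :=
  (Rs true m (2 * m + 1)).filter (fun p => p.i + p.c ≤ 2 * m ∨
    (p.i + p.c = 2 * m + 1 ∧ 1 ≤ p.i ∧ p.i + 1 ≤ m))

/-- coordinates of the common part -/
def epsF (m : ℕ) (e : ℕ → ℕ → P) (y : ℕ → P) (p : Cell) : P :=
  if p.i + p.c ≤ 2 * m then e p.i p.c else y p.i

/-- all data of a fold rotation -/
structure FData (m : ℕ) (e : ℕ → ℕ → P) (y : ℕ → P) (wf : P) : Prop where
  hG : IsGaussian P
  hm : 3 ≤ m
  hT : Top true m e
  hF : Fold m e
  hy : ∀ i, 1 ≤ i → i + 1 ≤ m → Typ true m e (y i) {i - 1, i}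
  hw : Typ true m e wf {0, m}

variable {m : ℕ} {e : ℕ → ℕ → P} {y : ℕ → P} {wf : P}

lemma FoldDefs_mem_CF {m : ℕ} {p : Cell} : p ∈ CF m ↔ (p.i ≤ p.c ∧ p.c < 2 * m + 1) ∧
    (p.i + p.c ≤ 2 * m ∨ (p.i + p.c = 2 * m + 1 ∧ 1 ≤ p.i ∧ p.i + 1 ≤ m)) := by
  unfold CF
  rw [mem_filter, mem_Rs, reg_true]

/-- the common part is relatively upper among the cells -/
theorem CF_mem_J (m : ℕ) : CF m ∈ J (Rs true m (2 * m + 1)) := by
  rw [mem_J]
  refine ⟨filter_subset _ _, ?_⟩
  intro x hx y hy hxy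
  rw [FoldDefs_mem_CF] at hx ⊢
  rw [mem_Rs, reg_true] at hy
  rw [cell_le] at hxy
  refine ⟨hy, ?_⟩
  omega

lemma FoldDefs_eq_of_lev {a b : P} (h : a ≤ b) (hl : lev a ≤ lev b) : a = b := by
  by_contra hne
  have := lev_strictAnti (lt_of_le_of_ne h hne)
  omega

lemma FoldDefs_lev_le {a b : P} (h : a ≤ b) : lev b ≤ lev a := by
  rcases eq_or_lt_of_le h with rfl | h1
  · exact le_rfl
  · exact (lev_strictAnti h1).le

/-- `epsF` is an order isomorphism onto its image (compare `Data.eps_le`) -/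
theorem FData.epsF_le (h : FData m e y wf) :
    ∀ p ∈ CF m, ∀ q ∈ CF m, (epsF m e y p ≤ epsF m e y q ↔ p ≤ q) := by
  intro p hp q hq
  rw [FoldDefs_mem_CF] at hp hq
  have hm := h.hm
  unfold epsF
  by_cases h1 : p.i + p.c ≤ 2 * m
  · rw [if_pos h1]
    have hlp : lev (e p.i p.c) = p.i + p.c :=
      h.hT.lev_e p.i p.c (reg_true.2 hp.1.1) (by rw [jj_true]; exact h1)
    by_cases h2 : q.i + q.c ≤ 2 * m
    · rw [if_pos h2]
      exact h.hT.le_iff p.i p.c q.i q.c (reg_true.2 hp.1.1) (by rw [jj_true]; exact h1)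
        (reg_true.2 hq.1.1) (by rw [jj_true]; exact h2)
    · rw [if_neg h2]
      have hq2 : q.i + q.c = 2 * m + 1 ∧ 1 ≤ q.i ∧ q.i + 1 ≤ m := by omega
      have hty := h.hy q.i hq2.2.1 hq2.2.2
      have hlq : lev (y q.i) = 2 * m + 1 := by rw [hty.1, jj_true]
      constructor
      · intro h3
        have := FoldDefs_lev_le h3
        omega
      · intro h3
        rw [cell_le] at h3
        omega
  · rw [if_neg h1]
    have hp2 : p.i + p.c = 2 * m + 1 ∧ 1 ≤ p.i ∧ p.i + 1 ≤ m := by omega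
    have htp := h.hy p.i hp2.2.1 hp2.2.2
    have hlp : lev (y p.i) = 2 * m + 1 := by rw [htp.1, jj_true]
    by_cases h2 : q.i + q.c ≤ 2 * m
    · rw [if_pos h2]
      rw [h.hT.le_e_iff h.hG (z := y p.i) (by rw [jj_true, hlp]; omega) (reg_true.2 hq.1.1)
        (by rw [jj_true]; exact h2), jj_true, cell_le]
      have hlt : ∀ l ≤ m, (y p.i ≤ e l (2 * m - l) ↔ (l = p.i - 1 ∨ l = p.i)) := by
        intro l hl
        have h4 := htp.2 l hl
        rw [jj_true] at h4
        have h5 : lev (e l (2 * m - l)) = l + (2 * m - l) :=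
          h.hT.lev_e l (2 * m - l) (reg_true.2 (by omega)) (by rw [jj_true]; omega)
        have h6 : y p.i ≤ e l (2 * m - l) ↔ y p.i < e l (2 * m - l) := by
          constructor
          · intro h7
            refine lt_of_le_of_ne h7 ?_
            intro h8
            rw [h8, h5] at hlp
            omega
          · exact le_of_lt
        rw [h6, h4]
        simp
      constructor
      · rintro ⟨l, hl, h5, h6, h7⟩
        have h8 := (hlt l hl).1 h7
        omega
      · rintro ⟨h5, h6⟩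
        by_cases h7 : q.i ≤ p.i - 1
        · exact ⟨p.i - 1, by omega, h7, by omega, (hlt _ (by omega)).2 (Or.inl rfl)⟩
        · exact ⟨p.i, by omega, h5, by omega, (hlt _ (by omega)).2 (Or.inr rfl)⟩
    · rw [if_neg h2]
      have hq2 : q.i + q.c = 2 * m + 1 ∧ 1 ≤ q.i ∧ q.i + 1 ≤ m := by omega
      have htq := h.hy q.i hq2.2.1 hq2.2.2
      have hlq : lev (y q.i) = 2 * m + 1 := by rw [htq.1, jj_true]
      rw [cell_le]
      constructor
      · intro h3
        have h4 : y p.i = y q.i := FoldDefs_eq_of_lev h3 (by omega)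
        rw [h4] at htp
        have h5 := (htp.inter htq p.i (by omega)).1 (by simp)
        have h6 := (htp.inter htq q.i (by omega)).2 (by simp)
        simp only [mem_insert, mem_singleton] at h5 h6
        omega
      · intro h3
        have h4 : p.i = q.i := by omega
        rw [h4]

/-- the image of the common part is an upper set -/
theorem FData.image_mem_J (h : FData m e y wf) :
    (CF m).image (epsF m e y) ∈ J (univ : Finset P) := by
  rw [mem_J]
  refine ⟨subset_univ _, ?_⟩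
  have hlow : ∀ z : P, lev z ≤ 2 * m → z ∈ (CF m).image (epsF m e y) := by
    intro z hz
    obtain ⟨i, c, hr, hic, rfl⟩ := h.hT.surj z (by rw [jj_true]; exact hz)
    rw [reg_true] at hr
    rw [jj_true] at hic
    refine mem_image.2 ⟨⟨i, c⟩, FoldDefs_mem_CF.2 ⟨⟨hr, by simp only; omega⟩, Or.inl hic⟩, ?_⟩
    unfold epsF
    simp only
    rw [if_pos hic]
  intro x hx z _ hxz
  rcases eq_or_lt_of_le hxz with rfl | hlt
  · exact hx
  · obtain ⟨p, hp, rfl⟩ := mem_image.1 hx
    rw [FoldDefs_mem_CF] at hp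
    have h1 := lev_strictAnti hlt
    apply hlow
    unfold epsF at h1
    by_cases h2 : p.i + p.c ≤ 2 * m
    · rw [if_pos h2, h.hT.lev_e p.i p.c (reg_true.2 hp.1.1) (by rw [jj_true]; exact h2)] at h1
      omega
    · rw [if_neg h2] at h1
      have hp2 : p.i + p.c = 2 * m + 1 ∧ 1 ≤ p.i ∧ p.i + 1 ≤ m := by omega
      rw [(h.hy p.i hp2.2.1 hp2.2.2).1, jj_true] at h1
      omega

end Pool.Agent.GaussRot
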