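import Pool.Agent.W_448rot_h96.FoldCnt

/-!
# Fold rotation, second part: the lower half

`f` are the coordinates of the top part of the dual poset (so they describe the lower half of the
poset).  All elements `f i c` are elements of `Pᵒᵈ`.
-/

namespace Pool.Agent.GaussRot

set_option linter.unusedSectionVars false

open Finset Pool.Agent.GaussPoset OrderDual

universe u

variable {P : Type u} [Fintype P] [PartialOrder P] [DecidableEq P]
variable {m : ℕ} {e : ℕ → ℕ → P} {y : ℕ → P} {wf : P} {f : ℕ → ℕ → Pᵒᵈ}

/-- Combinatorial lemma: an injective walk with steps `±1` through all of `{0, …, m}` is the identity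
or the reversal. -/
theorem walk {m : ℕ} {g : ℕ → ℕ} (h1 : ∀ i ≤ m, g i ≤ m)
    (h2 : ∀ i ≤ m, ∀ i' ≤ m, g i = g i' → i = i')
    (h3 : ∀ i, i + 1 ≤ m → g (i + 1) = g i + 1 ∨ g i = g (i + 1) + 1) :
    (∀ i ≤ m, g i = i) ∨ (∀ i ≤ m, g i = m - i) := by
  rcases Nat.eq_zero_or_pos m with hm | hm
  · subst hm
    left
    intro i hi
    have := h1 i hi
    omega
  · rcases h3 0 (by omega) with h4 | h4
    · have h5 : ∀ i, i + 1 ≤ m → g (i + 1) = g i + 1 := by
        intro i
        induction i with
        | zero => intro _; exact h4
        | succ i ih =>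
          intro hi
          have h6 := ih (by omega)
          rcases h3 (i + 1) hi with h7 | h7
          · exact h7
          · exfalso
            have h8 : g i = g (i + 1 + 1) := by omega
            have h9 := h2 i (by omega) (i + 1 + 1) hi h8
            omega
      have h6 : ∀ i, i ≤ m → g i = g 0 + i := by
        intro i
        induction i with
        | zero => intro _; rfl
        | succ i ih =>
          intro hi
          rw [h5 i hi, ih (by omega)]
          omega
      left
      intro i hi
      have h7 := h6 m le_rfl
      have h8 := h1 m le_rfl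
      rw [h6 i hi]
      omega
    · have h5 : ∀ i, i + 1 ≤ m → g i = g (i + 1) + 1 := by
        intro i
        induction i with
        | zero => intro _; exact h4
        | succ i ih =>
          intro hi
          have h6 := ih (by omega)
          rcases h3 (i + 1) hi with h7 | h7
          · exfalso
            have h8 : g i = g (i + 1 + 1) := by omega
            have h9 := h2 i (by omega) (i + 1 + 1) hi h8
            omega
          · exact h7
      have h6 : ∀ i, i ≤ m → g i + i = g 0 := by
        intro i
        induction i with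
        | zero => intro _; rfl
        | succ i ih =>
          intro hi
          have h7 := h5 i hi
          have h8 := ih (by omega)
          omega
      right
      intro i hi
      have h7 := h6 m le_rfl
      have h8 := h1 0 (by omega)
      have h9 := h6 i hi
      omega

/-- levels in the dual -/
theorem lev_dual {r : ℕ} (H : Gr P r) (z : P) : lev (toDual z) = r - lev z ∧ lev z ≤ r := by
  have h1 := H.hr z
  unfold colev at h1
  omega

/-- The element `f i (2m - i)` of the middle level is some `x_l = e l (2m - l)`; `f` gives a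
bijection `s` of `{0, …, m}`: `f i (2m - i) = x_(s i)`.  Consecutive elements
`f (i-1) (2m-i+1)`, `f i (2m-i)` lie (in the dual) below `f (i-1) (2m - i)`, which is an element
`w` of level `2m + 1` of `P` below `x_(s (i-1))` and `x_(s i)`; by `Fold.only` and `FData.count`
its type is `{l-1, l}` (`1 ≤ l ≤ m-1`) or `{0, m}`, so `{s (i-1), s i}` is one of these.  In terms
of the position on the path `x_m, x_0, x_1, …, x_(m-1)` (position `0` for `x_m`, `l + 1` for
`x_l`) the positions of `s (i-1)` and `s i` differ by one; apply `walk`. -/
theorem FData.middle (h : FData m e y wf) (H : Gr P (4 * m)) (hf : Top true m f) :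
    (f 0 (2 * m) = toDual (e m m) ∧ ∀ i, 1 ≤ i → i ≤ m →
        f i (2 * m - i) = toDual (e (i - 1) (2 * m - (i - 1)))) ∨
      (f m m = toDual (e m m) ∧ ∀ i, i + 1 ≤ m →
        f i (2 * m - i) = toDual (e (m - 1 - i) (2 * m - (m - 1 - i)))) := by
  have hm := h.hm
  have hs : ∀ i, i ≤ m → ∃ l, l ≤ m ∧ f i (2 * m - i) = toDual (e l (2 * m - l)) := by
    intro i hi
    have h1 := hf.lev_e i (2 * m - i) (by rw [reg_true]; omega) (by rw [jj_true]; omega)
    have h2 := lev_dual H (ofDual (f i (2 * m - i)))
    rw [toDual_ofDual] at h2
    obtain ⟨l, c, h3, h4, h5⟩ := h.hT.surj (ofDual (f i (2 * m - i))) (by rw [jj_true]; omega)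
    have h6 := h.hT.lev_e l c h3 h4
    rw [reg_true] at h3
    rw [jj_true] at h4
    rw [h5] at h6
    have h7 : c = 2 * m - l := by omega
    refine ⟨l, by omega, ?_⟩
    rw [← h7, h5, toDual_ofDual]
  choose! s hs1 hs2 using hs
  have hinj : ∀ i ≤ m, ∀ i' ≤ m, s i = s i' → i = i' := by
    intro i hi i' hi' h1
    have h2 : f i (2 * m - i) = f i' (2 * m - i') := by
      rw [hs2 i hi, hs2 i' hi', h1]
    have h3 := (hf.le_iff i (2 * m - i) i' (2 * m - i') (by rw [reg_true]; omega)
      (by rw [jj_true]; omega) (by rw [reg_true]; omega) (by rw [jj_true]; omega)).1 h2.le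
    have h4 := (hf.le_iff i' (2 * m - i') i (2 * m - i) (by rw [reg_true]; omega)
      (by rw [jj_true]; omega) (by rw [reg_true]; omega) (by rw [jj_true]; omega)).1 h2.ge
    omega
  have hstep : ∀ i, i + 1 ≤ m → (s i = 0 ∧ s (i + 1) = m) ∨ (s i = m ∧ s (i + 1) = 0) ∨
      (s i < m ∧ s (i + 1) < m ∧ (s (i + 1) = s i + 1 ∨ s i = s (i + 1) + 1)) := by
    intro i hi
    have hne : s i ≠ s (i + 1) := by
      intro h1
      have := hinj i (by omega) (i + 1) hi h1
      omega
    have k1 := (hf.le_iff i (2 * m - i) i (2 * m - i - 1) (by rw [reg_true]; omega)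
      (by rw [jj_true]; omega) (by rw [reg_true]; omega) (by rw [jj_true]; omega)).2
      ⟨le_rfl, by omega⟩
    have k2 := (hf.le_iff (i + 1) (2 * m - (i + 1)) i (2 * m - i - 1) (by rw [reg_true]; omega)
      (by rw [jj_true]; omega) (by rw [reg_true]; omega) (by rw [jj_true]; omega)).2
      ⟨by omega, by omega⟩
    have k3 := hf.lev_e i (2 * m - i - 1) (by rw [reg_true]; omega) (by rw [jj_true]; omega)
    rw [hs2 i (by omega)] at k1
    rw [hs2 (i + 1) hi] at k2
    have k4 := lev_dual H (ofDual (f i (2 * m - i - 1)))
    rw [toDual_ofDual] at k4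
    have k5 : lev (ofDual (f i (2 * m - i - 1))) = 2 * m + 1 := by omega
    have k1' : ofDual (f i (2 * m - i - 1)) ≤ e (s i) (2 * m - s i) := k1
    have k2' : ofDual (f i (2 * m - i - 1)) ≤ e (s (i + 1)) (2 * m - s (i + 1)) := k2
    generalize ofDual (f i (2 * m - i - 1)) = w at k1' k2' k5
    have hlt : ∀ l ≤ m, w ≤ e l (2 * m - l) → w < e l (jj true m - l) := by
      intro l hl hle
      rw [jj_true]
      refine lt_of_le_of_ne hle ?_
      intro heq
      have h7 := h.hT.lev_e l (2 * m - l) (by rw [reg_true]; omega) (by rw [jj_true]; omega)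
      rw [← heq] at h7
      omega
    have l1 := hlt (s i) (hs1 i (by omega)) k1'
    have l2 := hlt (s (i + 1)) (hs1 (i + 1) hi) k2'
    have b1 := hs1 i (by omega)
    have b2 := hs1 (i + 1) hi
    rcases h.hF.only w k5 with h8 | h8 | h8 | ⟨l, hl1, hl2, h8⟩
    · exact absurd h8 (h.count.2.1 w)
    · exact absurd h8 (h.count.2.2 w)
    · have c1 := (h8.2 (s i) b1).1 l1
      have c2 := (h8.2 (s (i + 1)) b2).1 l2
      rw [Finset.mem_insert, Finset.mem_singleton] at c1 c2
      omega
    · have c1 := (h8.2 (s i) b1).1 l1
      have c2 := (h8.2 (s (i + 1)) b2).1 l2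
      rw [Finset.mem_insert, Finset.mem_singleton] at c1 c2
      omega
  have hw := walk (m := m) (g := fun i => if s i = m then 0 else s i + 1) (by
      intro i hi
      have := hs1 i hi
      split_ifs <;> omega) (by
      intro i hi i' hi' h1
      apply hinj i hi i' hi'
      have b1 := hs1 i hi
      have b2 := hs1 i' hi'
      split_ifs at h1 <;> omega) (by
      intro i hi
      have b1 := hs1 i (by omega)
      have b2 := hs1 (i + 1) hi
      have b3 := hstep i hi
      split_ifs <;> omega)
  rcases hw with hw | hw
  · left
    refine ⟨?_, ?_⟩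
    · have h1 := hw 0 (by omega)
      have h2 : s 0 = m := by
        by_contra h3
        rw [if_neg h3] at h1
        omega
      have h3 := hs2 0 (by omega)
      rw [h2] at h3
      rw [Nat.sub_zero] at h3
      rw [h3]
      congr 2
      omega
    · intro i hi1 hi2
      have h1 := hw i hi2
      have h2 : s i = i - 1 := by
        split_ifs at h1 <;> omega
      have h3 := hs2 i hi2
      rw [h2] at h3
      exact h3
  · right
    refine ⟨?_, ?_⟩
    · have h1 := hw m le_rfl
      have h2 : s m = m := by
        by_contra h3
        rw [if_neg h3] at h1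
        omega
      have h3 := hs2 m le_rfl
      rw [h2, show 2 * m - m = m by omega] at h3
      exact h3
    · intro i hi
      have h1 := hw i (by omega)
      have h2 : s i = m - 1 - i := by
        split_ifs at h1 <;> omega
      have h3 := hs2 i (by omega)
      rw [h2] at h3
      exact h3

end Pool.Agent.GaussRot
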