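import Pool.Agent.W_448rot_h96.FoldMid
import Pool.Agent.W_448rot_h96.StraightFinal

/-!
# Fold rotation, second part: the lower half

`f` are the coordinates of the top part of the dual poset (so they describe the lower half of the
poset).  All elements `f i c` are elements of `Pᵒᵈ`.
-/

namespace Pool.Agent.GaussRot

set_option linter.unusedSectionVars false

open Finset Pool.Agent.GaussPoset OrderDual

universe u

variable {P : Type u} [Fintype P] [PartialOrder P] [DecidableEq P]
variable {m : ℕ} {e : ℕ → ℕ → P} {y : ℕ → P} {wf : P} {f : ℕ → ℕ → Pᵒᵈ}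

/-- an element of level `2m - 1` against the elements of the middle level -/
lemma FoldStr_lt (hT : Top true m e) {j l : ℕ} (hj : j + 1 ≤ m) (hl : l ≤ m) :
    (e l (2 * m - l) < e j (2 * m - 1 - j) ↔ j ≤ l ∧ l ≤ j + 1) := by
  have h1 : (e l (2 * m - l) ≤ e j (2 * m - 1 - j) ↔ j ≤ l ∧ 2 * m - 1 - j ≤ 2 * m - l) :=
    hT.le_iff l (2 * m - l) j (2 * m - 1 - j) (by rw [reg_true]; omega) (by rw [jj_true]; omega)
      (by rw [reg_true]; omega) (by rw [jj_true]; omega)
  have h2 : lev (e l (2 * m - l)) = l + (2 * m - l) :=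
    hT.lev_e l (2 * m - l) (by rw [reg_true]; omega) (by rw [jj_true]; omega)
  have h3 : lev (e j (2 * m - 1 - j)) = j + (2 * m - 1 - j) :=
    hT.lev_e j (2 * m - 1 - j) (by rw [reg_true]; omega) (by rw [jj_true]; omega)
  have hne : e l (2 * m - l) ≠ e j (2 * m - 1 - j) := by
    intro h
    rw [h, h3] at h2
    omega
  constructor
  · intro h
    have := h1.1 h.le
    omega
  · intro h
    exact lt_of_le_of_ne (h1.2 (by omega)) hne

/-- an element of level `2m + 1` of the dual poset -/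
lemma FoldStr_elt (h : FData m e y wf) (H : Gr P (4 * m)) {w : Pᵒᵈ} (hw : lev w = 2 * m + 1) :
    ∃ j, j + 1 ≤ m ∧ w = toDual (e j (2 * m - 1 - j)) := by
  have hm := h.hm
  obtain ⟨h1, h2⟩ := lev_dual H (ofDual w)
  rw [toDual_ofDual, hw] at h1
  obtain ⟨i, c, hr, hic, hz⟩ := h.hT.surj (ofDual w) (by rw [jj_true]; omega)
  have hl := h.hT.lev_e i c hr hic
  rw [hz] at hl
  rw [reg_true] at hr
  have hc : c = 2 * m - 1 - i := by omega
  refine ⟨i, by omega, ?_⟩
  rw [← hc, hz, toDual_ofDual]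

lemma FoldStr_lev (h : FData m e y wf) (H : Gr P (4 * m)) {j : ℕ} (hj : j + 1 ≤ m) :
    lev (toDual (e j (2 * m - 1 - j))) = 2 * m + 1 := by
  obtain ⟨h1, h2⟩ := lev_dual H (e j (2 * m - 1 - j))
  have h3 : lev (e j (2 * m - 1 - j)) = j + (2 * m - 1 - j) :=
    h.hT.lev_e j (2 * m - 1 - j) (by rw [reg_true]; omega) (by rw [jj_true]; omega)
  omega

/-- the elements above `toDual (e j (2m - 1 - j))` in the dual poset -/
lemma FoldStr_iff (h : FData m e y wf)
    (h0 : f 0 (2 * m) = toDual (e m m)) (h1 : ∀ i, 1 ≤ i → i ≤ m →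
      f i (2 * m - i) = toDual (e (i - 1) (2 * m - (i - 1)))) {j i : ℕ} (hj : j + 1 ≤ m)
    (hi : i ≤ m) : (toDual (e j (2 * m - 1 - j)) < f i (2 * m - i) ↔
      (i = 0 ∧ j + 1 = m) ∨ (1 ≤ i ∧ j + 1 ≤ i ∧ i ≤ j + 2)) := by
  rcases Nat.eq_zero_or_pos i with hi0 | hi0
  · subst hi0
    rw [Nat.sub_zero, h0, toDual_lt_toDual]
    have h2 := FoldStr_lt h.hT hj (le_refl m)
    have h3 : 2 * m - m = m := by omega
    rw [h3] at h2
    rw [h2]
    omega
  · rw [h1 i hi0 hi, toDual_lt_toDual, FoldStr_lt h.hT hj (by omega)]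
    omega

/-- the types of the elements of level `2m + 1` of the dual poset -/
lemma FoldStr_typ (h : FData m e y wf) (H : Gr P (4 * m))
    (h0 : f 0 (2 * m) = toDual (e m m)) (h1 : ∀ i, 1 ≤ i → i ≤ m →
      f i (2 * m - i) = toDual (e (i - 1) (2 * m - (i - 1)))) {j : ℕ} (hj : j + 2 ≤ m) :
    Typ true m f (toDual (e j (2 * m - 1 - j))) {j + 1, j + 2} := by
  refine ⟨?_, fun i hi => ?_⟩
  · rw [FoldStr_lev h H (by omega), jj_true]
  · rw [jj_true, FoldStr_iff h h0 h1 (by omega) hi, mem_insert, mem_singleton]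
    omega

lemma FoldStr_typ' (h : FData m e y wf) (H : Gr P (4 * m))
    (h0 : f 0 (2 * m) = toDual (e m m)) (h1 : ∀ i, 1 ≤ i → i ≤ m →
      f i (2 * m - i) = toDual (e (i - 1) (2 * m - (i - 1)))) {j : ℕ} (hj : j + 1 = m) :
    Typ true m f (toDual (e j (2 * m - 1 - j))) {0, m} := by
  refine ⟨?_, fun i hi => ?_⟩
  · rw [FoldStr_lev h H (by omega), jj_true]
  · rw [jj_true, FoldStr_iff h h0 h1 (by omega) hi, mem_insert, mem_singleton]
    omega

/-- In the first case the dual poset has a straight rotation.  The elements of `Pᵒᵈ` of level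
`2m + 1` are the `toDual (e i (2m - 1 - i))`, `0 ≤ i ≤ m - 1`, and in `P` such an element is above
exactly `x_i` and `x_(i+1)` in the middle level.  With `x_l = f (l+1) _` for `l ≤ m - 1` and
`x_m = f 0 _` it has in the dual the type `{i+1, i+2}` for `i ≤ m - 2` and `{m, 0}` for
`i = m - 1`.  So `nat` for `i' = i + 2 ∈ {2, …, m}`, `new` with `i = m - 1`; `only`, `uniq`
(there are no elements with a single upper cover). -/
theorem FData.dual_straight (h : FData m e y wf) (H : Gr P (4 * m)) (hf : Top true m f)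
    (h0 : f 0 (2 * m) = toDual (e m m)) (h1 : ∀ i, 1 ≤ i → i ≤ m →
      f i (2 * m - i) = toDual (e (i - 1) (2 * m - (i - 1)))) : Straight true m f := by
  have hm := h.hm
  refine ⟨fun i hi1 hi2 => ?_, ?_, fun w hw => ?_, fun w w' T hw hw' => ?_⟩
  · refine ⟨toDual (e (i - 2) (2 * m - 1 - (i - 2))), ?_⟩
    have h2 := FoldStr_typ h H h0 h1 (j := i - 2) (by omega)
    have e1 : i - 2 + 1 = i - 1 := by omega
    have e2 : i - 2 + 2 = i := by omega
    rwa [e1, e2] at h2
  · exact ⟨_, FoldStr_typ' h H h0 h1 (j := m - 1) (by omega)⟩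
  · rw [jj_true] at hw
    obtain ⟨j, hj, rfl⟩ := FoldStr_elt h H hw
    rcases Nat.lt_or_ge (j + 1) m with hj2 | hj2
    · right; right; right
      refine ⟨j + 2, by omega, by omega, ?_⟩
      have e1 : j + 2 - 1 = j + 1 := by omega
      rw [e1]
      exact FoldStr_typ h H h0 h1 (by omega)
    · right; right; left
      exact FoldStr_typ' h H h0 h1 (by omega)
  · have e1 := hw.1
    have e2 := hw'.1
    rw [jj_true] at e1 e2
    obtain ⟨j, hj, rfl⟩ := FoldStr_elt h H e1
    obtain ⟨j', hj', rfl⟩ := FoldStr_elt h H e2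
    have a1 := hw.2 (j + 1) hj
    have a2 := hw'.2 (j + 1) hj
    have b1 := hw.2 (j' + 1) hj'
    have b2 := hw'.2 (j' + 1) hj'
    rw [jj_true, FoldStr_iff h h0 h1 hj hj] at a1
    rw [jj_true, FoldStr_iff h h0 h1 hj' hj] at a2
    rw [jj_true, FoldStr_iff h h0 h1 hj hj'] at b1
    rw [jj_true, FoldStr_iff h h0 h1 hj' hj'] at b2
    have c1 := a2.2 (a1.1 (by omega))
    have c2 := b1.2 (b2.1 (by omega))
    have hjj : j = j' := by omega
    rw [hjj]

/-- the second case holds, by `no_straight` for the dual poset -/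
theorem FData.fold_fold (h : FData m e y wf) (H : Gr P (4 * m)) (hf : Top true m f) :
    f m m = toDual (e m m) ∧ ∀ i, i + 1 ≤ m →
      f i (2 * m - i) = toDual (e (m - 1 - i) (2 * m - (m - 1 - i))) := by
  rcases h.middle H hf with ⟨h0, h1⟩ | h2
  · exact absurd (no_straight (gauss_dual h.hG) h.hm hf (h.dual_straight H hf h0 h1)) id
  · exact h2

end Pool.Agent.GaussRot
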