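import Pool.Agent.W_448rot_h96.FoldDefs
import Pool.Agent.W_448rot_h96.RefSz
import Pool.Agent.W_448rot_h96.RefA
import Pool.Agent.W_448rot_h96.FirstOrderC
import Pool.Agent.W_448rot_h96.GaussProd

/-!
# Fold rotation, first part: the level sizes

`R = Rs true m (2m+1)`, the staircase with `2m + 1` columns.
-/

namespace Pool.Agent.GaussRot

set_option linter.unusedSectionVars false

open Finset Pool.Agent.GaussPoset

universe u

variable {P : Type u} [Fintype P] [PartialOrder P] [DecidableEq P]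

variable {m : ℕ} {e : ℕ → ℕ → P} {y : ℕ → P} {wf : P}

lemma FoldSz_mem {p : Cell} : p ∈ CF m ↔ (p.i ≤ p.c ∧ p.c < 2 * m + 1) ∧
    (p.i + p.c ≤ 2 * m ∨ (p.i + p.c = 2 * m + 1 ∧ 1 ≤ p.i ∧ p.i + 1 ≤ m)) := by
  unfold CF
  rw [mem_filter, mem_Rs, reg_true]

/-- cells outside the common part have size at least `2m + 3`: they have `i + c ≥ 2m + 1`,
`i ≥ 1`, `2 sz = (i+1)(2c+2-i)`, and `i = m`, `c = m + 1` or `i + c ≥ 2m + 2` -/
theorem refF_out (hm : 3 ≤ m) {p : Cell} (hp : p ∈ Rs true m (2 * m + 1)) (hn : p ∉ CF m) :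
    2 * m + 3 ≤ sz (Rs true m (2 * m + 1)) p := by
  have h1 := sz_stair m (2 * m + 1) hp
  rw [mem_Rs, reg_true] at hp
  rw [FoldSz_mem] at hn
  obtain ⟨hp1, hp2⟩ := hp
  obtain ⟨d, hd⟩ : ∃ d, p.c = p.i + d := ⟨p.c - p.i, by omega⟩
  have h2 : 2 * p.c + 2 - p.i = p.i + 2 * d + 2 := by omega
  rw [h2] at h1
  have key : 4 * m + 6 ≤ (p.i + 1) * (p.i + 2 * d + 2) := by
    by_cases h3 : p.i + p.c = 2 * m + 1
    · have h4 : p.i = m := by
        by_contra h5
        apply hn
        refine ⟨⟨hp1, hp2⟩, Or.inr ⟨h3, ?_, ?_⟩⟩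
        · omega
        · omega
      have h5 : d = 1 := by omega
      rw [h4, h5]
      nlinarith
    · have h4 : 2 * m + 2 ≤ 2 * p.i + d := by
        by_contra h5
        apply hn
        refine ⟨⟨hp1, hp2⟩, Or.inl ?_⟩
        omega
      have h6 : 2 ≤ p.i := by omega
      by_cases h7 : p.i ≤ m + 1
      · obtain ⟨b, hb⟩ : ∃ b, m + 1 = p.i + b := ⟨m + 1 - p.i, by omega⟩
        have h8 : 2 * b ≤ d := by omega
        have h9 : (p.i + 1) * (p.i + 4 * b + 2) ≤ (p.i + 1) * (p.i + 2 * d + 2) :=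
          Nat.mul_le_mul_left _ (by omega)
        have h10 : m = p.i + b - 1 := by omega
        have h11 : 4 * m + 6 = 4 * p.i + 4 * b + 2 := by omega
        rw [h11]
        refine le_trans ?_ h9
        nlinarith [Nat.zero_le (b * p.i)]
      · have h8 : m + 2 ≤ p.i := by omega
        have h9 : (m + 3) * (m + 4) ≤ (p.i + 1) * (p.i + 2 * d + 2) :=
          Nat.mul_le_mul (by omega) (by omega)
        refine le_trans ?_ h9
        nlinarith
  rw [← h1] at key
  omega

/-- sizes in the common part -/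
theorem FoldSz_eps (h : FData m e y wf) {p : Cell} (hp : p ∈ CF m) :
    sz (univ : Finset P) (epsF m e y p) = sz (Rs true m (2 * m + 1)) p := by
  rw [← sz_of_mem_J h.image_mem_J (mem_image_of_mem _ hp), sz_image h.epsF_le hp,
    sz_of_mem_J (CF_mem_J m) hp]

/-- size of `x_i = e i (2m - i)`: `2 sz = (i+1)(4m + 2 - 3i)` -/
theorem FData.sz_x (h : FData m e y wf) {i : ℕ} (hi : i ≤ m) :
    2 * sz (univ : Finset P) (e i (2 * m - i)) = (i + 1) * (4 * m + 2 - 3 * i) := by
  have hp : (⟨i, 2 * m - i⟩ : Cell) ∈ CF m := by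
    rw [FoldSz_mem]
    simp only
    omega
  have h1 := FoldSz_eps h hp
  have h2 : epsF m e y (⟨i, 2 * m - i⟩ : Cell) = e i (2 * m - i) := by
    unfold epsF
    rw [if_pos]
    simp only
    omega
  have h3 : (⟨i, 2 * m - i⟩ : Cell) ∈ Rs true m (2 * m + 1) := by
    rw [mem_Rs, reg_true]
    simp only
    omega
  rw [h2] at h1
  rw [h1, sz_stair m (2 * m + 1) h3]
  simp only
  congr 1
  omega

lemma FoldSz_lt {z x : P} (h : z < x) : sz (univ : Finset P) x + 1 ≤ sz (univ : Finset P) z := by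
  have h1 : insert z (upF (univ : Finset P) x) ⊆ upF (univ : Finset P) z := by
    intro a ha
    rw [mem_insert, mem_upF] at ha
    rw [mem_upF]
    rcases ha with rfl | ha
    · exact ⟨mem_univ _, le_rfl⟩
    · exact ⟨mem_univ _, h.le.trans ha.2⟩
  have h2 : z ∉ upF (univ : Finset P) x := by
    intro h3
    rw [mem_upF] at h3
    exact absurd h (not_lt_of_ge h3.2)
  have h3 := card_le_card h1
  rw [card_insert_of_notMem h2] at h3
  exact h3

/-- Elements outside the common part have size at least `2m + 3`: they are `≤` some `w` of level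
`2m + 1`, which is strictly below `x_i` for some `i ∈ {1, …, m}` or is `wf`; sizes
`sz x_i + 1 ≥ 2m + 3` for `1 ≤ i ≤ m` (`(i+1)(4m+2-3i) ≥ 4m + 4`, concave in `i`, `m ≥ 3`); every
type occurring in `Fold.only` contains some `i ≥ 1`. -/
theorem FData.sz_out (h : FData m e y wf) {z : P} (hz : z ∉ (CF m).image (epsF m e y)) :
    2 * m + 3 ≤ sz (univ : Finset P) z := by
  have hm := h.hm
  have hlev : 2 * m + 1 ≤ lev z := by
    by_contra hcon
    obtain ⟨i, c, hr, hic, rfl⟩ := h.hT.surj z (by rw [jj_true]; omega)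
    rw [reg_true] at hr
    rw [jj_true] at hic
    apply hz
    refine mem_image.2 ⟨⟨i, c⟩, ?_, ?_⟩
    · rw [FoldSz_mem]
      simp only
      omega
    · unfold epsF
      rw [if_pos]
      exact hic
  obtain ⟨i, hi, hzi⟩ := h.hT.exists_x h.hG (z := z) (by rw [jj_true]; omega)
  have hlx : lev (e i (jj true m - i)) = 2 * m := by
    have := reg_x (k := true) hi
    rw [h.hT.lev_e i _ this.1 this.2.le, this.2, jj_true]
  obtain ⟨v, hzv, -, hv⟩ := between h.hG hzi (l := 2 * m + 1) (by omega) hlev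
  have hex : ∃ i, 1 ≤ i ∧ i ≤ m ∧ v < e i (2 * m - i) := by
    rcases h.hF.only v hv with hT | hT | hT | ⟨j, hj1, hj2, hT⟩
    · refine ⟨m, by omega, le_rfl, ?_⟩
      have := (hT.2 m le_rfl).2 (mem_singleton_self m)
      rwa [jj_true] at this
    · refine ⟨m - 1, by omega, by omega, ?_⟩
      have := (hT.2 (m - 1) (by omega)).2 (mem_singleton_self _)
      rwa [jj_true] at this
    · refine ⟨m, by omega, le_rfl, ?_⟩
      have := (hT.2 m le_rfl).2 (by simp)
      rwa [jj_true] at this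
    · refine ⟨j, hj1, by omega, ?_⟩
      have := (hT.2 j (by omega)).2 (by simp)
      rwa [jj_true] at this
  obtain ⟨j, hj1, hj2, hvj⟩ := hex
  have h1 := FoldSz_lt (lt_of_le_of_lt hzv hvj)
  have h2 := h.sz_x hj2
  obtain ⟨b, hb⟩ : ∃ b, m = j + b := ⟨m - j, by omega⟩
  have h3 : 4 * m + 2 - 3 * j = j + 4 * b + 2 := by omega
  rw [h3] at h2
  have h4 : 4 * m + 4 ≤ (j + 1) * (j + 4 * b + 2) := by
    have h5 : 4 * m + 4 = 4 * j + 4 * b + 4 := by omega
    rw [h5]
    rcases Nat.lt_or_ge j 2 with h6 | h6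
    · have h7 : j = 1 := by omega
      subst h7
      omega
    · nlinarith [Nat.zero_le (b * j)]
  omega

/-- the exponents `< 2m + 3` agree with those of the cells: `AF_first` on both sides, `AF_image`,
`exps_unique`, `gauss_A`, `ref_A` -/
theorem FData.exps (h : FData m e y wf) : ∀ l < 2 * m + 3,
    ((univ : Finset P).filter (fun x => lev x + 1 = l)).card =
      ((Rs true m (2 * m + 1)).filter (fun p => p.i + p.c + 1 = l)).card := by
  refine exps_unique (univ : Finset P) (Rs true m (2 * m + 1)) (fun x => lev x + 1)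
    (fun p => p.i + p.c + 1) (fun _ _ => Nat.succ_pos _) (fun _ _ => Nat.succ_pos _) (2 * m + 3)
    (gauss_A h.hG) (ref_A true m (2 * m + 1)) ?_
  have h1 : Cg (2 * m + 3) (AF (univ : Finset P)) (AF ((CF m).image (epsF m e y))) := by
    refine AF_first h.image_mem_J (2 * m + 3) fun z hz => ?_
    exact h.sz_out (mem_sdiff.1 hz).2
  rw [AF_image h.epsF_le] at h1
  refine h1.trans (Cg.symm ?_)
  refine AF_first (CF_mem_J m) (2 * m + 3) fun p hp => ?_
  rw [mem_sdiff] at hp
  exact refF_out h.hm hp.1 hp.2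

end Pool.Agent.GaussRot
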