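import Pool.Agent.W_448rot_h96.LayersC

/-!
# Hanging part: elements hanging below one element `x`

`C` and `T` are disjoint, no element of `C` is below an element of `T`, every element of `T` is
below `x ∈ C`, the elements of `C` above an element of `T` are above `x`, and `x` is minimal in
`C`.
-/

namespace Pool.Agent.GaussRot

set_option linter.unusedSectionVars false

open Finset

variable {Q : Type*} [PartialOrder Q] [DecidableEq Q]

/-- the hypotheses -/
structure Hang (C T : Finset Q) (x : Q) : Prop where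
  disj : Disjoint C T
  hx : x ∈ C
  minx : ∀ y ∈ C, y ≤ x → y = x
  below : ∀ t ∈ T, t ≤ x
  nle : ∀ y ∈ C, ∀ t ∈ T, ¬ y ≤ t
  above : ∀ t ∈ T, ∀ y ∈ C, t ≤ y → x ≤ y

variable {C T : Finset Q} {x : Q}

/-- `C` is relatively upper in `C ∪ T` (`nle`). -/
theorem Hang.mem_J (h : Hang C T x) : C ∈ J (C ∪ T) := by
  rw [_root_.Pool.Agent.GaussRot.mem_J]
  refine ⟨subset_union_left, fun y hy z hz hyz => ?_⟩
  rcases mem_union.mp hz with hz | hz
  · exact hz
  · exact absurd hyz (h.nle y hy z hz)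

/-- `C.erase x` is relatively upper in `C` (`minx`). -/
theorem Hang.erase_mem_J (h : Hang C T x) : C.erase x ∈ J C := by
  rw [_root_.Pool.Agent.GaussRot.mem_J]
  refine ⟨erase_subset x C, fun y hy z hz hyz => ?_⟩
  obtain ⟨hyx, hyC⟩ := mem_erase.mp hy
  refine mem_erase.mpr ⟨?_, hz⟩
  rintro rfl
  exact hyx (h.minx y hyC hyz)

open Classical in
/-- The relatively upper subsets of `C ∪ T` not contained in `C` are exactly the sets `G ∪ H`
with `G ∈ J C`, `x ∈ G`, `H ∈ J T`, `H ≠ ∅`, and `(G, H)` is determined by `G ∪ H`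
(`G = (G ∪ H) ∩ C`, `H = (G ∪ H) ∩ T`).  So a sum over them is a double sum. -/
theorem Hang.sum_eq (h : Hang C T x) {M : Type*} [AddCommMonoid M] (f : Finset Q → M) :
    ∑ G ∈ (J (C ∪ T)).filter (fun G => ¬ G ⊆ C), f G =
      ∑ G ∈ (J C).filter (fun G => ¬ G ⊆ C.erase x), ∑ H ∈ (J T).filter (fun H => H ≠ ∅),
        f (G ∪ H) := by
  have hdisj : ∀ y, y ∈ C → y ∈ T → False := fun y hC hT =>
    Finset.disjoint_left.mp h.disj hC hT
  rw [← Finset.sum_product']
  refine Finset.sum_bij' (fun G _ => (G ∩ C, G ∩ T)) (fun p _ => p.1 ∪ p.2) ?_ ?_ ?_ ?_ ?_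
  · intro G hG
    obtain ⟨hGJ, hGC⟩ := mem_filter.mp hG
    obtain ⟨hsub, hup⟩ := _root_.Pool.Agent.GaussRot.mem_J.mp hGJ
    obtain ⟨t, htG, htC⟩ := Finset.not_subset.mp hGC
    have htT : t ∈ T := (mem_union.mp (hsub htG)).resolve_left htC
    have hxG : x ∈ G := hup t htG x (mem_union_left _ h.hx) (h.below t htT)
    rw [mem_product, mem_filter, mem_filter, _root_.Pool.Agent.GaussRot.mem_J,
      _root_.Pool.Agent.GaussRot.mem_J]
    refine ⟨⟨⟨inter_subset_right, ?_⟩, ?_⟩, ⟨inter_subset_right, ?_⟩, ?_⟩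
    · intro y hy z hz hyz
      exact mem_inter.mpr ⟨hup y (mem_inter.mp hy).1 z (mem_union_left _ hz) hyz, hz⟩
    · intro hcon
      exact (mem_erase.mp (hcon (mem_inter.mpr ⟨hxG, h.hx⟩))).1 rfl
    · intro y hy z hz hyz
      exact mem_inter.mpr ⟨hup y (mem_inter.mp hy).1 z (mem_union_right _ hz) hyz, hz⟩
    · exact Finset.ne_empty_of_mem (mem_inter.mpr ⟨htG, htT⟩)
  · rintro ⟨G, H⟩ hp
    rw [mem_product, mem_filter, mem_filter, _root_.Pool.Agent.GaussRot.mem_J,
      _root_.Pool.Agent.GaussRot.mem_J] at hp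
    obtain ⟨⟨⟨hGC, hGup⟩, hGx⟩, ⟨hHT, hHup⟩, hH⟩ := hp
    simp only at hGC hGup hGx hHT hHup hH
    have hxG : x ∈ G := by
      by_contra hx
      apply hGx
      intro y hy
      refine mem_erase.mpr ⟨?_, hGC hy⟩
      rintro rfl
      exact hx hy
    rw [mem_filter, _root_.Pool.Agent.GaussRot.mem_J]
    refine ⟨⟨union_subset_union hGC hHT, ?_⟩, ?_⟩
    · intro y hy z hz hyz
      rcases mem_union.mp hy with hy | hy
      · rcases mem_union.mp hz with hz | hz
        · exact mem_union_left _ (hGup y hy z hz hyz)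
        · exact absurd hyz (h.nle y (hGC hy) z hz)
      · rcases mem_union.mp hz with hz | hz
        · exact mem_union_left _ (hGup x hxG z hz (h.above y (hHT hy) z hz hyz))
        · exact mem_union_right _ (hHup y hy z hz hyz)
    · intro hcon
      obtain ⟨t, ht⟩ := Finset.nonempty_iff_ne_empty.mpr hH
      exact hdisj t (hcon (mem_union_right _ ht)) (hHT ht)
  · intro G hG
    obtain ⟨hsub, -⟩ := _root_.Pool.Agent.GaussRot.mem_J.mp (mem_filter.mp hG).1
    simp only
    rw [← inter_union_distrib_left]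
    exact inter_eq_left.mpr hsub
  · rintro ⟨G, H⟩ hp
    rw [mem_product, mem_filter, mem_filter, _root_.Pool.Agent.GaussRot.mem_J,
      _root_.Pool.Agent.GaussRot.mem_J] at hp
    obtain ⟨⟨⟨hGC, -⟩, -⟩, ⟨hHT, -⟩, -⟩ := hp
    simp only at hGC hHT ⊢
    refine Prod.ext ?_ ?_
    · ext y
      simp only [mem_inter, mem_union]
      constructor
      · rintro ⟨hy | hy, hyC⟩
        · exact hy
        · exact (hdisj y hyC (hHT hy)).elim
      · intro hy
        exact ⟨Or.inl hy, hGC hy⟩
    · ext y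
      simp only [mem_inter, mem_union]
      constructor
      · rintro ⟨hy | hy, hyT⟩
        · exact (hdisj y (hGC hy) hyT).elim
        · exact hy
      · intro hy
        exact ⟨Or.inr hy, hHT hy⟩
  · intro G hG
    obtain ⟨hsub, -⟩ := _root_.Pool.Agent.GaussRot.mem_J.mp (mem_filter.mp hG).1
    simp only
    rw [← inter_union_distrib_left, inter_eq_left.mpr hsub]

end Pool.Agent.GaussRot
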