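import Pool.Agent.W_448rot_h96.Defs

/-!
# Layer decomposition
-/

namespace Pool.Agent.GaussRot

set_option linter.unusedSectionVars false

open Finset

variable {Q : Type*} [PartialOrder Q] [DecidableEq Q]

open Classical in
/-- the monotone fillings of `F` with total `n` -/
noncomputable def layersS (F : Finset Q) (n : ℕ) : Finset (Q → ℕ) :=
  (F.piAntidiag n).filter (fun s : Q → ℕ => ∀ x ∈ F, ∀ y ∈ F, x ≤ y → s x ≤ s y)

open Classical in
lemma mem_layersS {F : Finset Q} {n : ℕ} {s : Q → ℕ} : s ∈ layersS F n ↔
    (F.sum s = n ∧ ∀ x, s x ≠ 0 → x ∈ F) ∧ ∀ x ∈ F, ∀ y ∈ F, x ≤ y → s x ≤ s y := by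
  unfold layersS
  simp only [Finset.mem_filter, Finset.mem_piAntidiag]

lemma layers_coeff (F : Finset Q) (n : ℕ) :
    PowerSeries.coeff n (AF F) = ((layersS F n).card : ℤ) := by
  unfold AF layersS
  rw [PowerSeries.coeff_mk]

lemma layers_sum_supp {F G : Finset Q} (hG : G ⊆ F) {s : Q → ℕ} (hs : ∀ x, s x ≠ 0 → x ∈ G) :
    F.sum s = G.sum s := by
  refine (Finset.sum_subset hG fun x _ hx => ?_).symm
  by_contra h
  exact hx (hs x h)

lemma layers_fiber {F G : Finset Q} (hG : G ∈ J F) (n : ℕ) :
    ((layersS F n).filter (fun s => F.filter (fun x => 1 ≤ s x) = G)).card =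
      if G.card ≤ n then (layersS G (n - G.card)).card else 0 := by
  rw [mem_J] at hG
  obtain ⟨hGF, hGu⟩ := hG
  have hsupp : ∀ s : Q → ℕ, (∀ x, s x ≠ 0 → x ∈ F) → F.filter (fun x => 1 ≤ s x) = G →
      ∀ x, x ∈ G ↔ s x ≠ 0 := by
    intro s hs hsG x
    rw [← hsG, Finset.mem_filter]
    constructor
    · rintro ⟨_, h⟩
      omega
    · intro h
      exact ⟨hs x h, Nat.one_le_iff_ne_zero.2 h⟩
  split_ifs with hn
  · refine Finset.card_bij' (fun s _ => fun x => s x - 1)
      (fun t _ => fun x => if x ∈ G then t x + 1 else 0) ?_ ?_ ?_ ?_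
    · intro s hs
      rw [Finset.mem_filter, mem_layersS] at hs
      obtain ⟨⟨⟨h1, h2⟩, h3⟩, h4⟩ := hs
      have h5 := hsupp s h2 h4
      rw [mem_layersS]
      refine ⟨⟨?_, ?_⟩, ?_⟩
      · have h6 : G.sum s = n := by
          rw [← layers_sum_supp hGF fun x hx => (h5 x).2 hx]
          exact h1
        have h7 : G.sum s = G.sum (fun x => s x - 1) + G.card := by
          rw [Finset.card_eq_sum_ones, ← Finset.sum_add_distrib]
          refine Finset.sum_congr rfl fun x hx => ?_
          have := (h5 x).1 hx
          omega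
        omega
      · intro x hx
        rw [h5 x]
        intro h
        rw [h] at hx
        exact hx rfl
      · intro x hx y hy hxy
        have := h3 x (hGF hx) y (hGF hy) hxy
        omega
    · intro t ht
      rw [mem_layersS] at ht
      obtain ⟨⟨h1, h2⟩, h3⟩ := ht
      have h4 : ∀ x, (if x ∈ G then t x + 1 else 0) ≠ 0 → x ∈ G := by
        intro x hx
        by_contra h
        rw [if_neg h] at hx
        exact hx rfl
      rw [Finset.mem_filter, mem_layersS]
      refine ⟨⟨⟨?_, fun x hx => hGF (h4 x hx)⟩, ?_⟩, ?_⟩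
      · rw [layers_sum_supp hGF h4]
        have h5 : G.sum (fun x => if x ∈ G then t x + 1 else 0) = G.sum t + G.card := by
          rw [Finset.card_eq_sum_ones, ← Finset.sum_add_distrib]
          refine Finset.sum_congr rfl fun x hx => ?_
          rw [if_pos hx]
        rw [h5, h1]
        omega
      · intro x hx y hy hxy
        by_cases hxG : x ∈ G
        · have hyG : y ∈ G := hGu x hxG y hy hxy
          rw [if_pos hxG, if_pos hyG]
          have := h3 x hxG y hyG hxy
          omega
        · rw [if_neg hxG]
          exact Nat.zero_le _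
      · ext x
        rw [Finset.mem_filter]
        constructor
        · rintro ⟨_, h⟩
          by_contra hx
          simp only [if_neg hx] at h
          omega
        · intro hx
          refine ⟨hGF hx, ?_⟩
          simp only [if_pos hx]
          omega
    · intro s hs
      rw [Finset.mem_filter, mem_layersS] at hs
      obtain ⟨⟨⟨h1, h2⟩, h3⟩, h4⟩ := hs
      have h5 := hsupp s h2 h4
      funext x
      by_cases hx : x ∈ G
      · simp only [if_pos hx]
        have := (h5 x).1 hx
        omega
      · simp only [if_neg hx]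
        by_contra h
        exact hx ((h5 x).2 fun h' => h h'.symm)
    · intro t ht
      rw [mem_layersS] at ht
      obtain ⟨⟨h1, h2⟩, h3⟩ := ht
      funext x
      by_cases hx : x ∈ G
      · simp only [if_pos hx]
        omega
      · simp only [if_neg hx]
        by_contra h
        exact hx (h2 x fun h' => h (by rw [h']))
  · rw [Finset.card_eq_zero, Finset.filter_eq_empty_iff]
    intro s hs hsG
    rw [mem_layersS] at hs
    obtain ⟨⟨h1, h2⟩, h3⟩ := hs
    have h5 := hsupp s h2 hsG
    apply hn
    rw [← h1, layers_sum_supp hGF fun x hx => (h5 x).2 hx, Finset.card_eq_sum_ones]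
    refine Finset.sum_le_sum fun x hx => ?_
    have := (h5 x).1 hx
    omega

/-- Layer decomposition.  A monotone filling `s` of `F` is the same as the relatively upper set
`G = {x ∈ F | 1 ≤ s x}` together with the monotone filling `x ↦ s x - 1` (on `G`, zero elsewhere)
of `G`; the total drops by `|G|`.  Compare coefficients (`PowerSeries.coeff_X_pow_mul'`): the
fillings of `F` with total `n` and `{1 ≤ s} = G` are in bijection with the fillings of `G` with
total `n - |G|` if `|G| ≤ n`, and there are none otherwise.  Monotonicity on `F` of the extension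
of a filling of `G` increased by one on `G`: for `x ≤ y` in `F`, if `x ∈ G` then `y ∈ G`. -/
theorem AF_layers (F : Finset Q) :
    AF F = ∑ G ∈ J F, PowerSeries.X ^ G.card * AF G := by
  ext n
  rw [map_sum, layers_coeff]
  have h1 : ∀ s ∈ layersS F n, F.filter (fun x => 1 ≤ s x) ∈ J F := by
    intro s hs
    rw [mem_layersS] at hs
    rw [mem_J]
    refine ⟨Finset.filter_subset _ _, fun x hx y hy hxy => ?_⟩
    rw [Finset.mem_filter] at hx ⊢
    exact ⟨hy, hx.2.trans (hs.2 x hx.1 y hy hxy)⟩
  rw [Finset.card_eq_sum_card_fiberwise h1]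
  push_cast
  refine Finset.sum_congr rfl fun G hG => ?_
  rw [PowerSeries.coeff_X_pow_mul', layers_coeff, layers_fiber hG n]
  push_cast
  rfl

end Pool.Agent.GaussRot
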