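import Pool.Agent.W_448rot_h96.Layers

/-!
# Consequences of the layer decomposition
-/

namespace Pool.Agent.GaussRot

set_option linter.unusedSectionVars false

open Finset

variable {Q : Type*} [PartialOrder Q] [DecidableEq Q]

lemma self_mem_J (F : Finset Q) : F ∈ J F := by
  rw [mem_J]; exact ⟨Finset.Subset.refl F, fun _ _ y hy _ => hy⟩

lemma empty_mem_J (F : Finset Q) : ∅ ∈ J F := by
  rw [mem_J]; exact ⟨Finset.empty_subset F, fun x hx => absurd hx (Finset.notMem_empty x)⟩

/-- the constant coefficient of `AF F` is `1` (only the zero filling has total `0`) -/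
theorem constantCoeff_AF (F : Finset Q) : PowerSeries.constantCoeff (AF F) = 1 := by
  classical
  rw [← PowerSeries.coeff_zero_eq_constantCoeff_apply, AF, PowerSeries.coeff_mk,
    Finset.piAntidiag_zero]
  rw [Finset.filter_true_of_mem]
  · simp
  · intro s hs
    rw [Finset.mem_singleton] at hs
    subst hs
    intro x _ y _ _
    exact le_rfl

/-- `AF F` minus the terms: `Phi` is the sum over the relatively upper subsets of their weights;
this is `AF_layers` and the definition of `U1`. -/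
theorem Phi_eq_sum (A' U' : PowerSeries ℤ) (F : Finset Q) :
    Phi A' U' F = ∑ G ∈ J F, PowerSeries.X ^ G.card * EE A' U' G := by
  unfold Phi U1 EE
  rw [AF_layers F, Finset.mul_sum, Finset.mul_sum, ← Finset.sum_sub_distrib]
  refine Finset.sum_congr rfl fun G _ => ?_
  ring

/-- For `D ∈ J F` the relatively upper subsets of `D` are those of `F` contained in `D`. -/
theorem J_of_mem {F D : Finset Q} (hD : D ∈ J F) : J D = (J F).filter (fun G => G ⊆ D) := by
  have h1 := mem_J.1 hD
  ext G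
  rw [Finset.mem_filter, mem_J, mem_J]
  constructor
  · rintro ⟨h2, h3⟩
    exact ⟨⟨h2.trans h1.1, fun x hx y hy hxy => h3 x hx y (h1.2 x (h2 hx) y hy hxy) hxy⟩, h2⟩
  · rintro ⟨⟨_, h3⟩, h4⟩
    exact ⟨h4, fun x hx y hy hxy => h3 x hx y (h1.1 hy) hxy⟩

lemma LayersB_sum {F D : Finset Q} (hD : D ∈ J F) (f : Finset Q → PowerSeries ℤ)
    [DecidablePred fun G : Finset Q => ¬ G ⊆ D] :
    ∑ G ∈ J F, f G - ∑ G ∈ J D, f G = ∑ G ∈ (J F).filter (fun G => ¬ G ⊆ D), f G := by
  rw [J_of_mem hD, sub_eq_iff_eq_add, add_comm, Finset.sum_filter_add_sum_filter_not]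

open Classical in
/-- difference of `AF` for a relatively upper subset, from `AF_layers` and `J_of_mem` -/
theorem AF_diff {F D : Finset Q} (hD : D ∈ J F) :
    AF F - AF D = ∑ G ∈ (J F).filter (fun G => ¬ G ⊆ D), PowerSeries.X ^ G.card * AF G := by
  rw [AF_layers F, AF_layers D]
  exact LayersB_sum hD _

open Classical in
/-- difference of `U1`, from `J_of_mem` -/
theorem U1_diff {F D : Finset Q} (hD : D ∈ J F) :
    U1 F - U1 D = ∑ G ∈ (J F).filter (fun G => ¬ G ⊆ D), PowerSeries.X ^ G.card :=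
  LayersB_sum hD _

open Classical in
/-- difference of `Phi`, from `Phi_eq_sum` and `J_of_mem` -/
theorem Phi_diff (A' U' : PowerSeries ℤ) {F D : Finset Q} (hD : D ∈ J F) :
    Phi A' U' F - Phi A' U' D =
      ∑ G ∈ (J F).filter (fun G => ¬ G ⊆ D), PowerSeries.X ^ G.card * EE A' U' G := by
  rw [Phi_eq_sum, Phi_eq_sum]
  exact LayersB_sum hD _

/-- A relatively upper set contains the up-set (in `F`) of each of its elements. -/
lemma upF_subset {F G : Finset Q} (hG : G ∈ J F) {y : Q} (hy : y ∈ G) : upF F y ⊆ G := by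
  intro z hz
  rw [mem_upF] at hz
  exact (mem_J.mp hG).2 y hy z hz.1 hz.2

lemma sz_le_card {F G : Finset Q} (hG : G ∈ J F) {y : Q} (hy : y ∈ G) : sz F y ≤ G.card :=
  Finset.card_le_card (upF_subset hG hy)

/-- up-sets are relatively upper -/
theorem upF_mem_J (F : Finset Q) (y : Q) : upF F y ∈ J F := by
  rw [mem_J]
  refine ⟨fun z hz => (mem_upF.1 hz).1, fun x hx z hz hxz => ?_⟩
  exact mem_upF.2 ⟨hz, (mem_upF.1 hx).2.trans hxz⟩

/-- In a relatively upper subset `G` of `F` the size of an element of `G` is the same as in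
`F`. -/
theorem sz_of_mem_J {F G : Finset Q} (hG : G ∈ J F) {y : Q} (hy : y ∈ G) : sz G y = sz F y := by
  unfold sz
  congr 1
  ext z
  rw [mem_upF, mem_upF]
  exact ⟨fun h => ⟨(mem_J.1 hG).1 h.1, h.2⟩, fun h => ⟨(mem_J.1 hG).2 y hy z h.1 h.2, h.2⟩⟩

end Pool.Agent.GaussRot
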