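import Pool.Agent.W_448rot_h96.Fillings

/-!
# Fillings of a rectangle
-/

namespace Pool.Agent.GaussRot

open Finset

/-- rows `1..a-1` of length `w`, and the first `b` cells of row `a` -/
noncomputable def SR (w a b : ℤ) : Finset (ℤ × ℤ) :=
  (Icc (1 : ℤ) a ×ˢ Icc (1 : ℤ) w).filter (fun p => p.1 < a ∨ p.2 ≤ b)

lemma mem_SR {w a b : ℤ} {p : ℤ × ℤ} :
    p ∈ SR w a b ↔ (1 ≤ p.1 ∧ p.1 ≤ a) ∧ (1 ≤ p.2 ∧ p.2 ≤ w) ∧ (p.1 < a ∨ p.2 ≤ b) := by
  unfold SR
  simp only [mem_filter, mem_product, mem_Icc]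
  tauto

/-- right end of the hooks of row `u` -/
def hiR (w a b u : ℤ) : ℤ := if u = a then b - a else w - u

/-- left end of the hooks of column `v` -/
def loR (a b v : ℤ) : ℤ := if v ≤ b then v - a else v - (a - 1)

/-- arrays on a finite set -/
def Arr (S : Finset (ℤ × ℤ)) : Type := {g : ℤ × ℤ → ℕ // ∀ p, p ∉ S → g p = 0}

/-- splitting off one cell -/
theorem arr_insert (S : Finset (ℤ × ℤ)) {c : ℤ × ℤ} (hc : c ∉ S) :
    ∃ θ : Arr (insert c S) ≃ Arr S × ℕ, ∀ g,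
      (θ g).2 = g.1 c ∧ ∀ p, p ≠ c → (θ g).1.1 p = g.1 p := by
  refine ⟨
    { toFun := fun g => (⟨fun p => if p = c then 0 else g.1 p, fun p hp => ?_⟩, g.1 c)
      invFun := fun x => ⟨fun p => if p = c then x.2 else x.1.1 p, fun p hp => ?_⟩
      left_inv := fun g => ?_
      right_inv := fun x => ?_ }, fun g => ⟨rfl, fun p hp => ?_⟩⟩
  · by_cases h : p = c
    · exact if_pos h
    · exact (if_neg h).trans (g.2 p fun h' => (Finset.mem_insert.1 h').elim h hp)
  · have h1 : p ≠ c := fun h => hp (h ▸ Finset.mem_insert_self c S)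
    exact (if_neg h1).trans (x.1.2 p fun h' => hp (Finset.mem_insert_of_mem h'))
  · apply Subtype.ext
    funext p
    by_cases h : p = c
    · simp [h]
    · simp [h]
  · obtain ⟨⟨g, hg⟩, n⟩ := x
    refine Prod.ext (Subtype.ext ?_) ?_
    · funext p
      by_cases h : p = c
      · simp only [h, if_true]
        exact (hg c hc).symm
      · simp [h]
    · simp
  · change (if p = c then 0 else g.1 p) = g.1 p
    rw [if_neg hp]

/-- `(a, b+1)` is an addable corner of `SR w a b`, and adding it gives `SR w a (b+1)`. -/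
theorem corner_SR {w a b : ℤ} {N : ℕ} (ha : 1 ≤ a) (haN : a ≤ N) (hb : 0 ≤ b) (hbw : b + 1 ≤ w) :
    Corner (↑(SR w a b) : Set (ℤ × ℤ)) N a (b + 1) ∧
      (↑(SR w a (b + 1)) : Set (ℤ × ℤ)) = insert (a, b + 1) (↑(SR w a b) : Set (ℤ × ℤ)) ∧
      SR w a (b + 1) = insert (a, b + 1) (SR w a b) ∧ (a, b + 1) ∉ SR w a b := by
  have h1 : SR w a (b + 1) = insert (a, b + 1) (SR w a b) := by
    ext ⟨x, y⟩
    rw [Finset.mem_insert, mem_SR, mem_SR, Prod.mk.injEq]
    simp only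
    omega
  have h2 : (a, b + 1) ∉ SR w a b := by
    rw [mem_SR]
    simp only
    omega
  refine ⟨⟨?_, ha, haN, by omega, ?_, ?_⟩, ?_, h1, h2⟩
  · rintro ⟨x, y⟩ hp
    rw [Finset.mem_coe, mem_SR] at hp
    simp only at hp ⊢
    omega
  · intro u hu1 hu2 hu3
    simp only [Finset.mem_coe, mem_SR]
    omega
  · intro u hu
    simp only [Finset.mem_coe, mem_SR]
    omega
  · rw [h1, Finset.coe_insert]

/-- The indicator identity behind the hook lengths: with `d0 = b + 1 - a` the hook interval of a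
cell `p` of `SR w a b` changes in such a way that for `d ≠ d0` membership of `d` is unchanged,
and at `d0` it is `[d0 - 1] + [d0 + 1] - [d0]` of the old interval (all comparisons of integers,
`omega` after unfolding and `split_ifs`).  The hook interval of the new cell is `{d0}`. -/
theorem hook_step_SR {w a b : ℤ} (ha : 1 ≤ a) (hb : 0 ≤ b) (hbw : b + 1 ≤ w) {p : ℤ × ℤ}
    (hp : p ∈ SR w a b) :
    (∀ d, d ≠ b + 1 - a → ((loR a (b + 1) p.2 ≤ d ∧ d ≤ hiR w a (b + 1) p.1) ↔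
      (loR a b p.2 ≤ d ∧ d ≤ hiR w a b p.1))) ∧
    (if loR a (b + 1) p.2 ≤ b + 1 - a ∧ b + 1 - a ≤ hiR w a (b + 1) p.1 then 1 else 0) +
      (if loR a b p.2 ≤ b + 1 - a ∧ b + 1 - a ≤ hiR w a b p.1 then 1 else 0) =
    (if loR a b p.2 ≤ b + 1 - a - 1 ∧ b + 1 - a - 1 ≤ hiR w a b p.1 then 1 else 0) +
      (if loR a b p.2 ≤ b + 1 - a + 1 ∧ b + 1 - a + 1 ≤ hiR w a b p.1 then (1 : ℕ) else 0) := by
  obtain ⟨x, y⟩ := p
  rw [mem_SR] at hp
  simp only at hp
  unfold loR hiR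
  simp only
  constructor
  · intro d hd
    split_ifs <;> omega
  · split_ifs <;> omega

end Pool.Agent.GaussRot
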