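import Pool.Agent.W_448rot_h96.Fillings

/-!
# The toggle step
-/

namespace Pool.Agent.GaussRot

open Finset

/-- the minimum of the two upper neighbours on the diagonal `d` -/
def Toggle_mn (d : ℤ) (f : ℤ × ℤ → ℕ) (u : ℤ) : ℕ := min (f (u + 1, u + d)) (f (u, u + d + 1))

/-- the maximum of the two lower neighbours on the diagonal `d` -/
def Toggle_mx (d : ℤ) (f : ℤ × ℤ → ℕ) (u : ℤ) : ℕ := max (f (u - 1, u + d)) (f (u, u + d - 1))

/-- the toggled function, with the value `s` in row `a` -/
def Toggle_tg (a d : ℤ) (f : ℤ × ℤ → ℕ) (s : ℕ) (p : ℤ × ℤ) : ℕ :=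
  if p.2 - p.1 = d then
    (if p.1 < a then Toggle_mn d f p.1 + Toggle_mx d f p.1 - f p else if p.1 = a then s else 0)
  else f p

/-- the common properties of fillings of `S` and of `insert (a,b) S` -/
structure Toggle_W (S : Set (ℤ × ℤ)) (a b : ℤ) (f : ℤ × ℤ → ℕ) : Prop where
  zero : ∀ p, p ∉ S → p ≠ (a, b) → f p = 0
  ineq : ∀ p, p ∈ S → f (p.1 - 1, p.2) ≤ f p ∧ f (p.1, p.2 - 1) ≤ f p

lemma Toggle_tg_off {a d : ℤ} {f : ℤ × ℤ → ℕ} {s : ℕ} {u v : ℤ} (h : v - u ≠ d) :
    Toggle_tg a d f s (u, v) = f (u, v) := by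
  unfold Toggle_tg
  exact if_neg h

lemma Toggle_tg_lt {a d : ℤ} {f : ℤ × ℤ → ℕ} {s : ℕ} {u v : ℤ} (h : v - u = d) (hu : u < a) :
    Toggle_tg a d f s (u, v) = Toggle_mn d f u + Toggle_mx d f u - f (u, v) := by
  unfold Toggle_tg
  rw [if_pos h, if_pos hu]

lemma Toggle_tg_eq {a d : ℤ} {f : ℤ × ℤ → ℕ} {s : ℕ} {u v : ℤ} (h : v - u = d) (hu : u = a) :
    Toggle_tg a d f s (u, v) = s := by
  unfold Toggle_tg
  have h1 : ¬ u < a := by omega
  rw [if_pos h, if_neg h1, if_pos hu]

lemma Toggle_tg_gt {a d : ℤ} {f : ℤ × ℤ → ℕ} {s : ℕ} {u v : ℤ} (h : v - u = d) (hu : a < u) :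
    Toggle_tg a d f s (u, v) = 0 := by
  unfold Toggle_tg
  have h1 : ¬ u < a := by omega
  have h2 : ¬ u = a := by omega
  rw [if_pos h, if_neg h1, if_neg h2]

lemma Toggle_mn_tg (a d : ℤ) (f : ℤ × ℤ → ℕ) (s : ℕ) (u : ℤ) :
    Toggle_mn d (Toggle_tg a d f s) u = Toggle_mn d f u := by
  unfold Toggle_mn
  rw [Toggle_tg_off (by omega), Toggle_tg_off (by omega)]

lemma Toggle_mx_tg (a d : ℤ) (f : ℤ × ℤ → ℕ) (s : ℕ) (u : ℤ) :
    Toggle_mx d (Toggle_tg a d f s) u = Toggle_mx d f u := by
  unfold Toggle_mx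
  rw [Toggle_tg_off (by omega), Toggle_tg_off (by omega)]

section Toggle

variable {S : Set (ℤ × ℤ)} {N : ℕ} {a b : ℤ}

lemma Toggle_notMem (h : Corner S N a b) : (a, b) ∉ S := by
  have h1 := (h.off a le_rfl).1
  rwa [show a + (b - a) = b by omega] at h1

/-- values of the diagonal are at most the minimum -/
lemma Toggle_W1 (h : Corner S N a b) {f : ℤ × ℤ → ℕ} (hf : Toggle_W S a b f) {u : ℤ}
    (hu : u < a) : f (u, u + (b - a)) ≤ Toggle_mn (b - a) f u := by
  by_cases h1 : 1 ≤ u ∧ 1 ≤ u + (b - a)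
  · obtain ⟨_, h3, h4⟩ := h.diag u h1.1 hu h1.2
    have h5 := (hf.ineq _ h3).1
    have h6 := (hf.ineq _ h4).2
    simp only [add_sub_cancel_right] at h5 h6
    unfold Toggle_mn
    exact le_min h5 h6
  · rw [hf.zero _ ?_ ?_]
    · exact Nat.zero_le _
    · intro h2
      exact h1 (h.pos _ h2)
    · intro h2
      have h3 := congrArg Prod.fst h2
      change u = a at h3
      omega

lemma Toggle_W3 (h : Corner S N a b) {f : ℤ × ℤ → ℕ} (hf : Toggle_W S a b f) {u : ℤ}
    (hu : u < a) (h1 : ¬ (1 ≤ u ∧ 1 ≤ u + (b - a))) : Toggle_mn (b - a) f u = 0 := by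
  unfold Toggle_mn
  by_cases h2 : 1 ≤ u
  · have h3 : ¬ 1 ≤ u + (b - a) := fun h4 => h1 ⟨h2, h4⟩
    rw [hf.zero (u + 1, u + (b - a))]
    · simp
    · intro h4
      exact h3 (h.pos _ h4).2
    · intro h4
      have h5 := congrArg Prod.snd h4
      change u + (b - a) = b at h5
      omega
  · rw [hf.zero (u, u + (b - a) + 1)]
    · simp
    · intro h4
      exact h2 (h.pos _ h4).1
    · intro h4
      have h5 := congrArg Prod.fst h4
      change u = a at h5
      omega

lemma Toggle_W2' (h : Corner S N a b) {f : ℤ × ℤ → ℕ} (hf : Toggle_W S a b f) {u : ℤ}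
    (hu : u < a) (h1 : ¬ (1 ≤ u ∧ 1 ≤ u + (b - a))) : Toggle_mx (b - a) f u = 0 := by
  unfold Toggle_mx
  rw [hf.zero (u - 1, u + (b - a)), hf.zero (u, u + (b - a) - 1)]
  · simp
  · intro h4
    have h5 := h.pos _ h4
    simp only at h5
    exact h1 ⟨h5.1, by omega⟩
  · intro h4
    have h5 := congrArg Prod.fst h4
    change u = a at h5
    omega
  · intro h4
    have h5 := h.pos _ h4
    simp only at h5
    exact h1 ⟨by omega, h5.2⟩
  · intro h4
    have h5 := congrArg Prod.fst h4
    change u - 1 = a at h5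
    omega

lemma Toggle_W2 (h : Corner S N a b) {f : ℤ × ℤ → ℕ} (hf : Toggle_W S a b f) {u : ℤ}
    (hu : u < a) : Toggle_mx (b - a) f u ≤ f (u, u + (b - a)) := by
  by_cases h1 : 1 ≤ u ∧ 1 ≤ u + (b - a)
  · obtain ⟨h2, _, _⟩ := h.diag u h1.1 hu h1.2
    have h5 := hf.ineq _ h2
    unfold Toggle_mx
    exact max_le h5.1 h5.2
  · rw [Toggle_W2' h hf hu h1]
    exact Nat.zero_le _

/-- the toggled function has the same properties -/
lemma Toggle_W_tg (h : Corner S N a b) {f : ℤ × ℤ → ℕ} (hf : Toggle_W S a b f) (s : ℕ) :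
    Toggle_W S a b (Toggle_tg a (b - a) f s) := by
  constructor
  · rintro ⟨u, v⟩ hp hne
    by_cases hd : v - u = b - a
    · have hv : v = u + (b - a) := by omega
      rcases lt_trichotomy u a with hu | hu | hu
      · rw [Toggle_tg_lt hd hu]
        have h1 : ¬ (1 ≤ u ∧ 1 ≤ u + (b - a)) := by
          intro h2
          refine hp ?_
          rw [hv]
          exact (h.diag u h2.1 hu h2.2).1
        rw [Toggle_W3 h hf hu h1, Toggle_W2' h hf hu h1]
        simp
      · exact absurd (Prod.ext hu (by change v = b; omega)) hne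
      · exact Toggle_tg_gt hd hu
    · rw [Toggle_tg_off hd]
      exact hf.zero _ hp hne
  · rintro ⟨u, v⟩ hp
    change Toggle_tg a (b - a) f s (u - 1, v) ≤ Toggle_tg a (b - a) f s (u, v) ∧
      Toggle_tg a (b - a) f s (u, v - 1) ≤ Toggle_tg a (b - a) f s (u, v)
    have hin := hf.ineq _ hp
    simp only at hin
    by_cases hd : v - u = b - a
    · have hv : v = u + (b - a) := by omega
      have hu : u < a := by
        by_contra hu
        refine (h.off u (by omega)).1 ?_
        rw [← hv]
        exact hp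
      rw [Toggle_tg_lt hd hu, Toggle_tg_off (by omega), Toggle_tg_off (by omega)]
      have h1 := Toggle_W1 h hf hu
      rw [← hv] at h1
      have h2 : f (u - 1, v) ≤ Toggle_mx (b - a) f u := by
        unfold Toggle_mx
        rw [← hv]
        exact le_max_left _ _
      have h3 : f (u, v - 1) ≤ Toggle_mx (b - a) f u := by
        unfold Toggle_mx
        rw [← hv]
        exact le_max_right _ _
      constructor <;> omega
    · rw [Toggle_tg_off hd]
      constructor
      · by_cases hd1 : v - (u - 1) = b - a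
        · have hv : v = (u - 1) + (b - a) := by omega
          rcases lt_trichotomy (u - 1) a with hu | hu | hu
          · rw [Toggle_tg_lt hd1 hu]
            have h1 := Toggle_W2 h hf hu
            rw [← hv] at h1
            have h2 : Toggle_mn (b - a) f (u - 1) ≤ f (u, v) := by
              unfold Toggle_mn
              rw [← hv, show u - 1 + 1 = u by omega]
              exact min_le_left _ _
            omega
          · exfalso
            refine (h.off (u - 1) (by omega)).2.2 ?_
            rw [← hv, show u - 1 + 1 = u by omega]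
            exact hp
          · rw [Toggle_tg_gt hd1 hu]
            exact Nat.zero_le _
        · rw [Toggle_tg_off hd1]
          exact hin.1
      · by_cases hd1 : v - 1 - u = b - a
        · have hv : v - 1 = u + (b - a) := by omega
          rcases lt_trichotomy u a with hu | hu | hu
          · rw [Toggle_tg_lt hd1 hu]
            have h1 := Toggle_W2 h hf hu
            rw [← hv] at h1
            have h2 : Toggle_mn (b - a) f u ≤ f (u, v) := by
              unfold Toggle_mn
              rw [← hv, show v - 1 + 1 = v by omega]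
              exact min_le_right _ _
            omega
          · exfalso
            refine (h.off u (by omega)).2.1 ?_
            rw [← hv, show v - 1 + 1 = v by omega]
            exact hp
          · rw [Toggle_tg_gt hd1 hu]
            exact Nat.zero_le _
        · rw [Toggle_tg_off hd1]
          exact hin.2

lemma Toggle_of_S {f : ℤ × ℤ → ℕ}
    (hf : (∀ p, p ∉ S → f p = 0) ∧ ∀ p, p ∈ S → f (p.1 - 1, p.2) ≤ f p ∧ f (p.1, p.2 - 1) ≤ f p) :
    Toggle_W S a b f :=
  ⟨fun p hp _ => hf.1 p hp, hf.2⟩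

lemma Toggle_to_S {f : ℤ × ℤ → ℕ} (hf : Toggle_W S a b f) (h0 : f (a, b) = 0) :
    (∀ p, p ∉ S → f p = 0) ∧ ∀ p, p ∈ S → f (p.1 - 1, p.2) ≤ f p ∧ f (p.1, p.2 - 1) ≤ f p := by
  refine ⟨fun p hp => ?_, hf.ineq⟩
  by_cases h : p = (a, b)
  · rw [h]
    exact h0
  · exact hf.zero p hp h

lemma Toggle_of_I {f : ℤ × ℤ → ℕ}
    (hf : (∀ p, p ∉ insert (a, b) S → f p = 0) ∧
      ∀ p, p ∈ insert (a, b) S → f (p.1 - 1, p.2) ≤ f p ∧ f (p.1, p.2 - 1) ≤ f p) :
    Toggle_W S a b f ∧ Toggle_mx (b - a) f a ≤ f (a, b) := by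
  refine ⟨⟨fun p hp hne => hf.1 p ?_, fun p hp => hf.2 p (Set.mem_insert_of_mem _ hp)⟩, ?_⟩
  · rintro (h | h)
    · exact hne h
    · exact hp h
  · have h1 := hf.2 (a, b) (Set.mem_insert _ _)
    unfold Toggle_mx
    rw [show a + (b - a) = b by omega]
    exact max_le h1.1 h1.2

lemma Toggle_to_I {f : ℤ × ℤ → ℕ} (hf : Toggle_W S a b f)
    (h0 : Toggle_mx (b - a) f a ≤ f (a, b)) :
    (∀ p, p ∉ insert (a, b) S → f p = 0) ∧
      ∀ p, p ∈ insert (a, b) S → f (p.1 - 1, p.2) ≤ f p ∧ f (p.1, p.2 - 1) ≤ f p := by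
  constructor
  · intro p hp
    refine hf.zero p (fun h => hp (Set.mem_insert_of_mem _ h)) (fun h => hp ?_)
    rw [h]
    exact Set.mem_insert _ _
  · rintro p (h | h)
    · rw [h]
      unfold Toggle_mx at h0
      rw [show a + (b - a) = b by omega] at h0
      exact ⟨(le_max_left _ _).trans h0, (le_max_right _ _).trans h0⟩
    · exact hf.ineq p h

/-- toggling twice -/
lemma Toggle_twice (h : Corner S N a b) {f : ℤ × ℤ → ℕ} (hf : Toggle_W S a b f) (s : ℕ) :
    Toggle_tg a (b - a) (Toggle_tg a (b - a) f s) (f (a, b)) = f := by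
  funext ⟨u, v⟩
  by_cases hd : v - u = b - a
  · have hv : v = u + (b - a) := by omega
    rcases lt_trichotomy u a with hu | hu | hu
    · rw [Toggle_tg_lt hd hu, Toggle_mn_tg, Toggle_mx_tg, Toggle_tg_lt hd hu]
      have h1 := Toggle_W1 h hf hu
      rw [← hv] at h1
      omega
    · rw [Toggle_tg_eq hd hu, hu, show v = b by omega]
    · rw [Toggle_tg_gt hd hu, hf.zero]
      · rw [hv]
        exact (h.off u hu.le).1
      · intro h2
        have h3 := congrArg Prod.fst h2
        change u = a at h3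
        omega
  · rw [Toggle_tg_off hd, Toggle_tg_off hd]

/-- the bijection -/
def Toggle_equiv (h : Corner S N a b) : Fil (insert (a, b) S) ≃ Fil S × ℕ where
  toFun f := (⟨Toggle_tg a (b - a) f.1 0, Toggle_to_S (Toggle_W_tg h (Toggle_of_I f.2).1 0)
      (Toggle_tg_eq rfl rfl)⟩, f.1 (a, b) - Toggle_mx (b - a) f.1 a)
  invFun q := ⟨Toggle_tg a (b - a) q.1.1 (q.2 + Toggle_mx (b - a) q.1.1 a),
    Toggle_to_I (Toggle_W_tg h (Toggle_of_S q.1.2) _) (by
      rw [Toggle_tg_eq rfl rfl, Toggle_mx_tg]
      exact Nat.le_add_left _ _)⟩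
  left_inv f := by
    refine Subtype.ext ?_
    change Toggle_tg a (b - a) (Toggle_tg a (b - a) f.1 0)
      (f.1 (a, b) - Toggle_mx (b - a) f.1 a + Toggle_mx (b - a) (Toggle_tg a (b - a) f.1 0) a) =
      f.1
    rw [Toggle_mx_tg, Nat.sub_add_cancel (Toggle_of_I f.2).2]
    exact Toggle_twice h (Toggle_of_I f.2).1 0
  right_inv q := by
    obtain ⟨g, t⟩ := q
    refine Prod.ext (Subtype.ext ?_) ?_
    · change Toggle_tg a (b - a) (Toggle_tg a (b - a) g.1 (t + Toggle_mx (b - a) g.1 a)) 0 = g.1
      have h1 := Toggle_twice h (Toggle_of_S (a := a) (b := b) g.2)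
        (t + Toggle_mx (b - a) g.1 a)
      rw [g.2.1 (a, b) (Toggle_notMem h)] at h1
      exact h1
    · change Toggle_tg a (b - a) g.1 (t + Toggle_mx (b - a) g.1 a) (a, b) -
        Toggle_mx (b - a) (Toggle_tg a (b - a) g.1 (t + Toggle_mx (b - a) g.1 a)) a = t
      rw [Toggle_tg_eq rfl rfl, Toggle_mx_tg]
      omega

lemma Toggle_tele (F : ℤ → ℤ) (N : ℕ) :
    ∑ u ∈ Finset.Icc (1 : ℤ) N, (F u - F (u + 1)) = F 1 - F (N + 1) := by
  induction N with
  | zero => simp
  | succ N ih =>
    have h1 : Finset.Icc (1 : ℤ) ((N + 1 : ℕ) : ℤ) = insert ((N : ℤ) + 1) (Finset.Icc (1 : ℤ) N) := by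
      ext u
      rw [Finset.mem_insert, Finset.mem_Icc, Finset.mem_Icc]
      push_cast
      omega
    rw [h1, Finset.sum_insert (by rw [Finset.mem_Icc]; omega), ih]
    push_cast
    ring

end Toggle

/-- Toggle step.  Put `d = b - a`.  For a filling `f` of `insert (a,b) S` let
`t = f (a,b) - max (f (a-1,b)) (f (a,b-1))` and let `f'` be `f` with the value `0` at `(a,b)` and,
for every cell `p = (u, u+d)`, `1 ≤ u < a`, the new value
`f' p = min (f (u+1, u+d)) (f (u, u+d+1)) + max (f (u-1, u+d)) (f (u, u+d-1)) - f p`.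
All these neighbours lie on the diagonals `d - 1` and `d + 1`, where `f' = f`.
If `u + d ≥ 1` then `p` and the two upper neighbours are in `S` (`diag`), so
`max (lower) ≤ f p ≤ min (upper)`, and `f' p` satisfies the same inequalities; if `u + d ≤ 0`, all
of `f p`, the `min` and the `max` are zero.  Hence `f ↦ (f', t)` is a bijection
`Fil (insert (a,b) S) → Fil S × ℕ` (the inverse toggles again and puts
`t + max (f (a-1,b)) (f (a,b-1))` at `(a,b)`; the cells `(a+1,b)`, `(a,b+1)` are not in `S` by
`off`).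
Diagonal sums: off the diagonal `d` nothing changes (`(a,b)` is on the diagonal `d`).  On it, for
`u < a`, `f p + f' p = min(u) + max(u)` and `f (a,b) = t + max(a)` where
`min(u) = min (f (u+1,u+d)) (f (u,u+d+1))`, `max(u) = max (f (u-1,u+d)) (f (u,u+d-1))`, and
`min(u) + max(u+1) = f (u+1,u+d) + f (u,u+d+1)`, `max(1) = f (1,d)` (row `0` is zero).  Summing:
`Dg d f + Dg d f' = t + f (1,d) + ∑_{1≤u<a} (f (u+1,u+d) + f (u,u+d+1)) = t + Dg (d-1) f +
Dg (d+1) f` (the remaining terms of the two sums vanish by `off`). -/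
theorem toggle_step {S : Set (ℤ × ℤ)} {N : ℕ} {a b : ℤ} (h : Corner S N a b) :
    ∃ φ : Fil (insert (a, b) S) ≃ Fil S × ℕ, ∀ f,
      (∀ d, d ≠ b - a → Dg N (φ f).1.1 d = Dg N f.1 d) ∧
      Dg N f.1 (b - a) + Dg N (φ f).1.1 (b - a) =
        (φ f).2 + Dg N f.1 (b - a - 1) + Dg N f.1 (b - a + 1) := by
  refine ⟨Toggle_equiv h, fun f => ⟨fun d hd => ?_, ?_⟩⟩
  · unfold Dg
    refine Finset.sum_congr rfl fun u _ => ?_
    change Toggle_tg a (b - a) f.1 0 (u, u + d) = _
    exact Toggle_tg_off (by omega)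
  · obtain ⟨hW, hmx⟩ := Toggle_of_I f.2
    set d : ℤ := b - a with hd
    set g := f.1 with hg
    change Dg N g d + Dg N (Toggle_tg a d g 0) d =
      (g (a, b) - Toggle_mx d g a) + Dg N g (d - 1) + Dg N g (d + 1)
    have hz : ∀ u v, (u, v) ∉ S → v - u ≠ d → g (u, v) = 0 := by
      intro u v h1 h2
      refine hW.zero _ h1 ?_
      intro h3
      have h4 := congrArg Prod.fst h3
      have h5 := congrArg Prod.snd h3
      change u = a at h4
      change v = b at h5
      omega
    -- the potential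
    set F : ℤ → ℤ := fun u => if u ≤ a then (Toggle_mx d g u : ℤ) - g (u, u + d - 1) else 0
      with hF
    have hF1 : F 1 = 0 := by
      rw [hF]
      simp only
      rw [if_pos h.ha]
      unfold Toggle_mx
      have h1 : g (1 - 1, 1 + d) = 0 := by
        refine hz _ _ ?_ (by omega)
        intro h2
        have := (h.pos _ h2).1
        simp at this
      rw [h1]
      simp
    have hFN : F (N + 1) = 0 := by
      rw [hF]
      simp only
      rw [if_neg]
      have := h.haN
      omega
    have hterm : ∀ u ∈ Finset.Icc (1 : ℤ) N,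
        (g (u, u + d) : ℤ) + (Toggle_tg a d g 0 (u, u + d) : ℕ) =
          (if u = a then ((g (a, b) - Toggle_mx d g a : ℕ) : ℤ) else 0) +
          ((g (u, u + (d - 1)) : ℤ) + g (u, u + (d + 1))) + (F u - F (u + 1)) := by
      intro u _
      have e1 : u + (d - 1) = u + d - 1 := by omega
      have e2 : u + (d + 1) = u + d + 1 := by omega
      rw [e1, e2]
      rcases lt_trichotomy u a with hu | hu | hu
      · have h1 : g (u, u + d) ≤ Toggle_mn d g u := Toggle_W1 h hW hu
        have h2 : F u = (Toggle_mx d g u : ℤ) - g (u, u + d - 1) := by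
          rw [hF]
          simp only
          rw [if_pos hu.le]
        have h3 : F (u + 1) = (Toggle_mx d g (u + 1) : ℤ) - g (u + 1, u + d) := by
          rw [hF]
          simp only
          rw [if_pos (by omega), show u + 1 + d - 1 = u + d by omega]
        have h4 : (Toggle_mn d g u : ℤ) + Toggle_mx d g (u + 1) =
            g (u + 1, u + d) + g (u, u + d + 1) := by
          unfold Toggle_mn Toggle_mx
          rw [show u + 1 - 1 = u by omega, show u + 1 + d = u + d + 1 by omega,
            show u + d + 1 - 1 = u + d by omega]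
          omega
        rw [Toggle_tg_lt (by omega) hu, if_neg (by omega), h2, h3]
        omega
      · rw [Toggle_tg_eq (by omega) hu, if_pos hu]
        have h2 : F u = (Toggle_mx d g u : ℤ) - g (u, u + d - 1) := by
          rw [hF]
          simp only
          rw [if_pos hu.le]
        have h3 : F (u + 1) = 0 := by
          rw [hF]
          simp only
          rw [if_neg (by omega)]
        have h4 : g (u, u + d + 1) = 0 :=
          hz _ _ (h.off u hu.ge).2.1 (by omega)
        rw [h2, h3, h4, hu, show a + d = b by omega]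
        omega
      · rw [Toggle_tg_gt (by omega) hu, if_neg (by omega)]
        have h2 : F u = 0 := by
          rw [hF]
          simp only
          rw [if_neg (by omega)]
        have h3 : F (u + 1) = 0 := by
          rw [hF]
          simp only
          rw [if_neg (by omega)]
        have h4 : g (u, u + d + 1) = 0 :=
          hz _ _ (h.off u hu.le).2.1 (by omega)
        have h5 : g (u, u + d - 1) = 0 := by
          have h6 := (h.off (u - 1) (by omega)).2.2
          rw [show u - 1 + 1 = u by omega] at h6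
          refine hz _ _ ?_ (by omega)
          rw [show u + d - 1 = u - 1 + (b - a) by omega]
          exact h6
        have h6 : g (u, u + d) = 0 := by
          refine hW.zero _ (h.off u hu.le).1 ?_
          intro h7
          have h8 := congrArg Prod.fst h7
          change u = a at h8
          omega
        rw [h2, h3, h4, h5, h6]
        simp
    have hsum := Finset.sum_congr (rfl : Finset.Icc (1 : ℤ) N = Finset.Icc (1 : ℤ) N) hterm
    rw [Finset.sum_add_distrib, Finset.sum_add_distrib, Finset.sum_add_distrib,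
      Finset.sum_add_distrib, Toggle_tele F N, hF1, hFN, Finset.sum_ite_eq' , if_pos] at hsum
    · unfold Dg
      have h9 : ((∑ u ∈ Finset.Icc (1 : ℤ) N, g (u, u + d) +
          ∑ u ∈ Finset.Icc (1 : ℤ) N, Toggle_tg a d g 0 (u, u + d) : ℕ) : ℤ) =
          ((g (a, b) - Toggle_mx d g a + ∑ u ∈ Finset.Icc (1 : ℤ) N, g (u, u + (d - 1)) +
            ∑ u ∈ Finset.Icc (1 : ℤ) N, g (u, u + (d + 1)) : ℕ) : ℤ) := by
        rw [Nat.cast_add, Nat.cast_add, Nat.cast_add, Nat.cast_sum, Nat.cast_sum, Nat.cast_sum,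
          Nat.cast_sum]
        linarith
      exact_mod_cast h9
    · rw [Finset.mem_Icc]
      exact ⟨h.ha, h.haN⟩

end Pool.Agent.GaussRot
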