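import Pool.Agent.W_448rot_h96.RectFill
import Pool.Agent.W_448rot_h96.Toggle

/-!
# Fillings of a rectangle
-/

namespace Pool.Agent.GaussRot

open Finset

/-- the common step of the rectangle and of the staircase -/
theorem RectFillB_gen {S : Finset (ℤ × ℤ)} {c : ℤ × ℤ} {N : ℕ} (hc : c ∉ S)
    (φ : Fil (insert c (↑S : Set (ℤ × ℤ))) ≃ Fil (↑S : Set (ℤ × ℤ)) × ℕ)
    (P : ℤ → Prop) (d0 e1 e2 : ℤ) (W W' : ℤ × ℤ → ℤ → ℕ) (hP0 : P d0) (hP1 : P e1) (hP2 : P e2)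
    (h1 : ∀ f d, P d → d ≠ d0 → Dg N (φ f).1.1 d = Dg N f.1 d)
    (h2 : ∀ f, Dg N f.1 d0 + Dg N (φ f).1.1 d0 =
      (φ f).2 + Dg N (φ f).1.1 e1 + Dg N (φ f).1.1 e2)
    (hW1 : ∀ p ∈ S, ∀ d, P d → d ≠ d0 → W' p d = W p d)
    (hW2 : ∀ p ∈ S, W' p d0 + W p d0 = W p e1 + W p e2)
    (hW3 : ∀ d, P d → W' c d = if d = d0 then 1 else 0)
    (ih : ∃ ψ : Fil (↑S : Set (ℤ × ℤ)) ≃ Arr S, ∀ f d, P d →
      Dg N f.1 d = ∑ p ∈ S, W p d * (ψ f).1 p) :
    ∃ ψ : Fil (insert c (↑S : Set (ℤ × ℤ))) ≃ Arr (insert c S), ∀ f d, P d →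
      Dg N f.1 d = ∑ p ∈ insert c S, W' p d * (ψ f).1 p := by
  classical
  obtain ⟨ψ, hψ⟩ := ih
  obtain ⟨θ, hθ⟩ := arr_insert S hc
  refine ⟨(φ.trans (ψ.prodCongr (Equiv.refl ℕ))).trans θ.symm, ?_⟩
  intro f d hd
  generalize hg : ((φ.trans (ψ.prodCongr (Equiv.refl ℕ))).trans θ.symm) f = g
  have hθg : θ g = (ψ (φ f).1, (φ f).2) := by
    rw [← hg]
    simp only [Equiv.trans_apply, Equiv.apply_symm_apply]
    rfl
  have k1 : g.1 c = (φ f).2 := by
    rw [← (hθ g).1, hθg]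
  have k2 : ∀ p ∈ S, g.1 p = (ψ (φ f).1).1 p := by
    intro p hp
    have hpc : p ≠ c := fun h => hc (h ▸ hp)
    rw [← (hθ g).2 p hpc, hθg]
  rw [Finset.sum_insert hc, hW3 d hd, k1]
  by_cases hdd : d = d0
  · subst hdd
    have a0 := hψ (φ f).1 d hP0
    have a1 := hψ (φ f).1 e1 hP1
    have a2 := hψ (φ f).1 e2 hP2
    have b := h2 f
    rw [a0, a1, a2] at b
    have s1 : ∑ p ∈ S, W' p d * g.1 p + ∑ p ∈ S, W p d * (ψ (φ f).1).1 p =
        ∑ p ∈ S, W p e1 * (ψ (φ f).1).1 p + ∑ p ∈ S, W p e2 * (ψ (φ f).1).1 p := by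
      rw [← Finset.sum_add_distrib, ← Finset.sum_add_distrib]
      refine Finset.sum_congr rfl fun p hp => ?_
      rw [k2 p hp, ← add_mul, ← add_mul, hW2 p hp]
    rw [if_pos rfl, one_mul]
    omega
  · rw [if_neg hdd, zero_mul, zero_add, ← h1 f d hd hdd, hψ _ d hd]
    refine Finset.sum_congr rfl fun p hp => ?_
    rw [k2 p hp, hW1 p hp d hd hdd]

/-- empty shape -/
theorem RectFillB_empty {S : Finset (ℤ × ℤ)} {N : ℕ} (hS : S = ∅) (W : ℤ × ℤ → ℤ → ℕ) :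
    ∃ ψ : Fil (↑S : Set (ℤ × ℤ)) ≃ Arr S, ∀ f d,
      Dg N f.1 d = ∑ p ∈ S, W p d * (ψ f).1 p := by
  subst hS
  refine ⟨{ toFun := fun _ => ⟨fun _ => 0, fun _ _ => rfl⟩
            invFun := fun _ => ⟨fun _ => 0, fun _ _ => rfl, fun _ _ => ⟨le_rfl, le_rfl⟩⟩
            left_inv := ?_
            right_inv := ?_ }, ?_⟩
  · intro f
    apply Subtype.ext
    funext p
    exact (f.2.1 p (by simp)).symm
  · intro f
    apply Subtype.ext
    funext p
    exact (f.2 p (by simp)).symm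
  · intro f d
    rw [Finset.sum_empty]
    unfold Dg
    exact Finset.sum_eq_zero fun u _ => f.2.1 _ (by simp)

/-- Induction step: if the fillings of `SR w a b` are parametrised by arrays with the diagonal sums
given by the hook intervals, the same holds for `SR w a (b+1)`: compose `toggle_step` (corner
`(a,b+1)`, `corner_SR`) with the bijection for `SR w a b` and `arr_insert`; the new array entry
is `t`.  Diagonal sums by `hook_step_SR` (the new cell has `lo = hi = b + 1 - a`). -/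
theorem rect_step {w a b : ℤ} {N : ℕ} (ha : 1 ≤ a) (haN : a ≤ N) (hb : 0 ≤ b) (hbw : b + 1 ≤ w)
    (ih : ∃ ψ : Fil (↑(SR w a b) : Set (ℤ × ℤ)) ≃ Arr (SR w a b), ∀ f d,
      Dg N f.1 d = ∑ p ∈ SR w a b, if loR a b p.2 ≤ d ∧ d ≤ hiR w a b p.1 then (ψ f).1 p else 0) :
    ∃ ψ : Fil (↑(SR w a (b + 1)) : Set (ℤ × ℤ)) ≃ Arr (SR w a (b + 1)), ∀ f d,
      Dg N f.1 d = ∑ p ∈ SR w a (b + 1),
        if loR a (b + 1) p.2 ≤ d ∧ d ≤ hiR w a (b + 1) p.1 then (ψ f).1 p else 0 := by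
  classical
  obtain ⟨hcor, -, hfin, hnot⟩ := corner_SR (N := N) ha haN hb hbw
  obtain ⟨φ, hφ⟩ := toggle_step hcor
  have hstep := fun (p : ℤ × ℤ) (hp : p ∈ SR w a b) => hook_step_SR (w := w) ha hb hbw hp
  have key := RectFillB_gen (N := N) hnot φ (fun _ => True) (b + 1 - a) (b + 1 - a - 1)
    (b + 1 - a + 1)
    (fun p d => if loR a b p.2 ≤ d ∧ d ≤ hiR w a b p.1 then 1 else 0)
    (fun p d => if loR a (b + 1) p.2 ≤ d ∧ d ≤ hiR w a (b + 1) p.1 then 1 else 0)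
    trivial trivial trivial (fun f d _ hd => (hφ f).1 d hd)
    (fun f => by
      have h := (hφ f).2
      rw [← (hφ f).1 (b + 1 - a - 1) (by omega), ← (hφ f).1 (b + 1 - a + 1) (by omega)] at h
      exact h)
    (fun p hp d _ hd => by
      exact if_congr ((hstep p hp).1 d hd) rfl rfl)
    (fun p hp => (hstep p hp).2)
    (fun d _ => by
      simp only [loR, hiR]
      refine if_congr ?_ rfl rfl
      simp only [le_refl, if_true]
      omega)
    (by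
      obtain ⟨ψ, hψ⟩ := ih
      refine ⟨ψ, fun f d _ => ?_⟩
      rw [hψ f d]
      refine Finset.sum_congr rfl fun p _ => ?_
      split_ifs <;> simp)
  rw [hfin, Finset.coe_insert]
  obtain ⟨ψ, hψ⟩ := key
  refine ⟨ψ, fun f d => ?_⟩
  rw [hψ f d trivial]
  refine Finset.sum_congr rfl fun p _ => ?_
  split_ifs <;> simp

/-- All shapes `SR w a b` with `1 ≤ a ≤ N`, `0 ≤ b ≤ w`: induction on `b` by `rect_step`, and from
`(a, w)` to `(a+1, 0)`: the same set, and the intervals agree on it; start with the empty shape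
`(1, 0)`. -/
theorem rect_fill {w a b : ℤ} {N : ℕ} (hw : 0 ≤ w) (ha : 1 ≤ a) (haN : a ≤ N) (hb : 0 ≤ b)
    (hbw : b ≤ w) :
    ∃ ψ : Fil (↑(SR w a b) : Set (ℤ × ℤ)) ≃ Arr (SR w a b), ∀ f d,
      Dg N f.1 d = ∑ p ∈ SR w a b,
        if loR a b p.2 ≤ d ∧ d ≤ hiR w a b p.1 then (ψ f).1 p else 0 := by
  have inner : ∀ a : ℤ, 1 ≤ a → a ≤ N →
      (∃ ψ : Fil (↑(SR w a 0) : Set (ℤ × ℤ)) ≃ Arr (SR w a 0), ∀ f d,
        Dg N f.1 d = ∑ p ∈ SR w a 0,
          if loR a 0 p.2 ≤ d ∧ d ≤ hiR w a 0 p.1 then (ψ f).1 p else 0) →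
      ∀ b : ℤ, 0 ≤ b → b ≤ w →
      ∃ ψ : Fil (↑(SR w a b) : Set (ℤ × ℤ)) ≃ Arr (SR w a b), ∀ f d,
        Dg N f.1 d = ∑ p ∈ SR w a b,
          if loR a b p.2 ≤ d ∧ d ≤ hiR w a b p.1 then (ψ f).1 p else 0 := by
    intro a ha haN h0 b hb
    induction b, hb using Int.leInduction with
    | base => intro _; exact h0
    | succ b hb ihb =>
      intro hbw
      exact rect_step ha haN hb hbw (ihb (by omega))
  have outer : ∀ a : ℤ, 1 ≤ a → a ≤ N →
      (∃ ψ : Fil (↑(SR w a 0) : Set (ℤ × ℤ)) ≃ Arr (SR w a 0), ∀ f d,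
        Dg N f.1 d = ∑ p ∈ SR w a 0,
          if loR a 0 p.2 ≤ d ∧ d ≤ hiR w a 0 p.1 then (ψ f).1 p else 0) := by
    intro a ha
    induction a, ha using Int.leInduction with
    | base =>
      intro _
      have hS : SR w 1 0 = ∅ := by
        ext ⟨x, y⟩
        rw [mem_SR]
        simp only [Finset.notMem_empty, iff_false]
        omega
      obtain ⟨ψ, hψ⟩ := RectFillB_empty (N := N) hS
        (fun p d => if loR 1 0 p.2 ≤ d ∧ d ≤ hiR w 1 0 p.1 then 1 else 0)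
      refine ⟨ψ, fun f d => ?_⟩
      rw [hψ f d]
      refine Finset.sum_congr rfl fun p _ => ?_
      split_ifs <;> simp
    | succ a ha iha =>
      intro haN
      obtain ⟨ψ, hψ⟩ := inner a ha (by omega) (iha (by omega)) w hw le_rfl
      have hS : SR w (a + 1) 0 = SR w a w := by
        ext ⟨x, y⟩
        rw [mem_SR, mem_SR]
        simp only
        omega
      rw [hS]
      refine ⟨ψ, fun f d => ?_⟩
      rw [hψ f d]
      refine Finset.sum_congr rfl fun p hp => ?_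
      rw [mem_SR] at hp
      refine if_congr ?_ rfl rfl
      unfold loR hiR
      split_ifs <;> omega
  exact inner a ha haN (outer a ha haN) b hb hbw

end Pool.Agent.GaussRot
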