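import Pool.Agent.W_448rot_h96.RefA

/-!
# The reference posets: last column, small coefficients, sizes
-/

namespace Pool.Agent.GaussRot

set_option linter.unusedSectionVars false

open Finset

lemma RefLast_quot {A A' P P' D : PowerSeries ℤ} (h1 : A * P = 1) (h2 : A' * P' = 1)
    (h3 : P' = P * D) : A = A' * D := by
  calc A = A * (A' * P') := by rw [h2, mul_one]
    _ = (A * P) * (A' * D) := by rw [h3]; ring
    _ = A' * D := by rw [h1, one_mul]

/-- quotient of `A` when the last column is removed (rectangle): from `ref_A` and `prod_rect` -/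
theorem A_last_rect (m L : ℕ) :
    AF (Rs false m L) = AF (Rs false m (L + 1)) *
      ∏ i ∈ range (m + 1), (1 - PowerSeries.X ^ (L + 1 + i)) := by
  refine RefLast_quot (ref_A_rect m L) (ref_A_rect m (L + 1)) ?_
  rw [prod_rect m L (fun i c => (1 : PowerSeries ℤ) - PowerSeries.X ^ (i + c + 1)),
    prod_rect m (L + 1) (fun i c => (1 : PowerSeries ℤ) - PowerSeries.X ^ (i + c + 1)),
    ← Finset.prod_mul_distrib]
  refine Finset.prod_congr rfl fun b _ => ?_
  rw [Finset.prod_range_succ]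
  congr 3
  omega

/-- quotient of `A` when the last column is removed (staircase): from `ref_A` and `prod_stair` -/
theorem A_last_stair (m L : ℕ) :
    AF (Rs true m L) = AF (Rs true m (L + 1)) *
      ∏ i ∈ range (L + 1), (1 - PowerSeries.X ^ (L + 1 + i)) := by
  refine RefLast_quot (ref_A_stair m L) (ref_A_stair m (L + 1)) ?_
  rw [prod_stair m L (fun i c => (1 : PowerSeries ℤ) - PowerSeries.X ^ (i + c + 1)),
    prod_stair m (L + 1) (fun i c => (1 : PowerSeries ℤ) - PowerSeries.X ^ (i + c + 1)),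
    Finset.prod_range_succ]
  congr 1
  refine Finset.prod_congr rfl fun b _ => ?_
  congr 2
  omega

lemma RefLast_cc {n : ℕ} (hn : n ≠ 0) :
    PowerSeries.constantCoeff (1 - (PowerSeries.X : PowerSeries ℤ) ^ n) = 1 := by
  simp [hn]

/-- quotient of `U1` when the last column is removed (rectangle): from `U1_rect` -/
theorem U_last_rect (m L : ℕ) :
    U1 (Rs false m L) * (1 - PowerSeries.X ^ (L + 1 + (m + 1))) =
      U1 (Rs false m (L + 1)) * (1 - PowerSeries.X ^ (L + 1)) := by
  have h1 := U1_rect m L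
  have h2 := U1_rect m (L + 1)
  obtain ⟨D, hD⟩ : ∃ D : PowerSeries ℤ, D = ∏ b ∈ range (m + 1), (1 - PowerSeries.X ^ (b + 1)) :=
    ⟨_, rfl⟩
  rw [← hD] at h1 h2
  have hD0 : D ≠ 0 := by
    intro h
    have h3 : PowerSeries.constantCoeff D = 1 := by
      rw [hD, map_prod]
      exact Finset.prod_eq_one fun b _ => RefLast_cc (Nat.succ_ne_zero b)
    rw [h, map_zero] at h3
    exact zero_ne_one h3
  refine mul_right_cancel₀ hD0 ?_
  have h4 : (∏ b ∈ range (m + 1), (1 - (PowerSeries.X : PowerSeries ℤ) ^ (L + b + 1))) *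
      (1 - PowerSeries.X ^ (L + 1 + (m + 1))) =
      (∏ b ∈ range (m + 1), (1 - PowerSeries.X ^ (L + 1 + b + 1))) *
        (1 - PowerSeries.X ^ (L + 1)) := by
    have h5 := Finset.prod_range_succ
      (fun b => (1 - (PowerSeries.X : PowerSeries ℤ) ^ (L + b + 1))) (m + 1)
    have h6 := Finset.prod_range_succ'
      (fun b => (1 - (PowerSeries.X : PowerSeries ℤ) ^ (L + b + 1))) (m + 1)
    have h7 : L + 1 + (m + 1) = L + (m + 1) + 1 := by omega
    rw [h7, ← h5, h6]
    congr 1
    refine Finset.prod_congr rfl fun b _ => ?_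
    congr 2
    omega
  calc U1 (Rs false m L) * (1 - PowerSeries.X ^ (L + 1 + (m + 1))) * D
      = (U1 (Rs false m L) * D) * (1 - PowerSeries.X ^ (L + 1 + (m + 1))) := by ring
    _ = (U1 (Rs false m (L + 1)) * D) * (1 - PowerSeries.X ^ (L + 1)) := by rw [h1, h2, h4]
    _ = U1 (Rs false m (L + 1)) * (1 - PowerSeries.X ^ (L + 1)) * D := by ring

/-- `∏_{i<n} (1 - X^(M+i))` multiplied by `1 - X` is `(1 - X) - X^M + X^(M+n)` modulo
`X^(2M+1)` (for `M ≥ 1`): modulo `X^(2M+1)` the product is `1 - ∑ X^(M+i)`, as the products of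
two different terms have exponent `≥ 2M+1` (induction on `n`); then the geometric sum. -/
theorem geom_cg (M n : ℕ) (hM : 1 ≤ M) :
    Cg (2 * M + 1) ((1 - PowerSeries.X) *
        ∏ i ∈ range n, (1 - (PowerSeries.X : PowerSeries ℤ) ^ (M + i)))
      ((1 - PowerSeries.X) - PowerSeries.X ^ M + PowerSeries.X ^ (M + n)) := by
  induction n with
  | zero =>
    apply Cg.of_eq
    rw [Finset.prod_range_zero, mul_one, add_zero]
    ring
  | succ n ih =>
    rw [Finset.prod_range_succ, ← mul_assoc]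
    refine (ih.mul (Cg.refl _ _)).trans ?_
    rcases Nat.eq_zero_or_pos n with rfl | hn
    · apply Cg.of_eq
      rw [add_zero, pow_add]
      ring
    · have h1 : (2 * M + 1) ≤ 2 * M + n := by omega
      have h2 : (2 * M + 1) ≤ 2 * M + 2 * n := by omega
      have h3 : Cg (2 * M + 1) (PowerSeries.X ^ (2 * M + n) * 1 -
          PowerSeries.X ^ (2 * M + 2 * n) * 1) (0 - 0) := (cg_X_pow h1 1).sub (cg_X_pow h2 1)
      have h4 := (Cg.refl (2 * M + 1) ((1 - PowerSeries.X) - PowerSeries.X ^ M +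
        PowerSeries.X ^ (M + (n + 1)))).add h3
      refine (Cg.of_eq ?_).trans (h4.trans (Cg.of_eq ?_))
      · ring
      · ring

lemma RefLast_aux {N M e : ℕ} {A' A'' U' U'' : PowerSeries ℤ}
    (hA : Cg N ((1 - PowerSeries.X) * A'') (A' * ((1 - PowerSeries.X) - PowerSeries.X ^ M +
      PowerSeries.X ^ e)))
    (hU : Cg N U'' (U' * (1 - PowerSeries.X ^ M + PowerSeries.X ^ e))) :
    Cg N (((1 - PowerSeries.X) * U' * A' - A' * U') -
      ((1 - PowerSeries.X) * U' * A'' - A' * U'')) 0 := by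
  have h1 := (Cg.refl N ((1 - PowerSeries.X) * U' * A' - A' * U')).sub
    (((Cg.refl N U').mul hA).sub ((Cg.refl N A').mul hU))
  refine (Cg.of_eq ?_).trans (h1.trans (Cg.of_eq ?_))
  · ring
  · ring

/-- Removing the last column changes `Phi` (with `A'`, `U'` those of the larger poset) only to
order `2L+1`, `L` the number of columns.  Write `Phi(R) - Phi(R') = -X A' U' - (1-X) U' A'' + A' U''`
with `A'' = AF R'`, `U'' = U1 R'`, `R' = Rs k m (L-1)`.
Rectangle: `A'' = A' ∏_{i ≤ m} (1 - X^(L+i))`, so `(1-X) A'' = A' ((1-X) - X^L + X^(L+m+1))`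
(`geom_cg`), and `U'' (1 - X^(L+m+1)) = U' (1 - X^L)`, so `U'' = U' (1 - X^L + X^(L+m+1))` modulo
`X^(2L+1)`.  Staircase: the same with `m + 1` replaced by `L` (`U'' (1 + X^L) = U'`).
The sum is zero modulo `X^(2L+1)`. -/
theorem ref_last (k : Bool) (m L : ℕ) (hL : 1 ≤ L) :
    Cg (2 * L + 1)
      (Phi (AF (Rs k m L)) (U1 (Rs k m L)) (Rs k m L) -
        Phi (AF (Rs k m L)) (U1 (Rs k m L)) (Rs k m (L - 1))) 0 := by
  obtain ⟨l, rfl⟩ : ∃ l, L = l + 1 := ⟨L - 1, by omega⟩
  rw [Nat.add_sub_cancel]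
  unfold Phi
  cases k
  · refine RefLast_aux (M := l + 1) (e := l + 1 + (m + 1)) ?_ ?_
    · rw [A_last_rect m l]
      refine (Cg.of_eq ?_).trans ((Cg.refl _ (AF (Rs false m (l + 1)))).mul
        (geom_cg (l + 1) (m + 1) hL))
      ring
    · refine Cg.cancel (u := 1 - PowerSeries.X ^ (l + 1 + (m + 1)))
        (RefLast_cc (by omega)) ?_
      have h1 : Cg (2 * (l + 1) + 1) (U1 (Rs false m (l + 1)) * (1 - PowerSeries.X ^ (l + 1)) +
          (PowerSeries.X ^ (2 * (l + 1) + m + 1) * U1 (Rs false m (l + 1)) -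
            PowerSeries.X ^ (2 * (l + 1) + 2 * (m + 1)) * U1 (Rs false m (l + 1))))
          (U1 (Rs false m (l + 1)) * (1 - PowerSeries.X ^ (l + 1)) + (0 - 0)) :=
        (Cg.refl _ _).add ((cg_X_pow (by omega) _).sub (cg_X_pow (by omega) _))
      refine Cg.symm ((Cg.of_eq ?_).trans (h1.trans (Cg.of_eq ?_)))
      · ring
      · rw [← U_last_rect]
        ring
  · refine RefLast_aux (M := l + 1) (e := l + 1 + (l + 1)) ?_ ?_
    · rw [A_last_stair m l]
      refine (Cg.of_eq ?_).trans ((Cg.refl _ (AF (Rs true m (l + 1)))).mul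
        (geom_cg (l + 1) (l + 1) hL))
      ring
    · rw [U1_stair_rec m l]
      have h1 : Cg (2 * (l + 1) + 1) (U1 (Rs true m l) +
          PowerSeries.X ^ (3 * (l + 1)) * U1 (Rs true m l)) (U1 (Rs true m l) + 0) :=
        (Cg.refl _ _).add (cg_X_pow (by omega) _)
      refine Cg.symm ((Cg.of_eq ?_).trans (h1.trans (Cg.of_eq ?_)))
      · ring
      · ring

end Pool.Agent.GaussRot
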