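import Pool.Agent.W_448rot_h96.RefUB
import Pool.Agent.W_448rot_h96.LayersC

/-!
# The reference posets: last column, small coefficients, sizes
-/

namespace Pool.Agent.GaussRot

set_option linter.unusedSectionVars false

open Finset

/-- a product of factors which are one modulo `X^n` -/
theorem RefSmall_prod_one {n : ℕ} (s : Finset ℕ) {f : ℕ → PowerSeries ℤ}
    (h : ∀ i ∈ s, Cg n (f i) 1) : Cg n (∏ i ∈ s, f i) 1 := by
  have := Cg.prod s h
  rwa [Finset.prod_const_one] at this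

theorem RefSmall_one_sub {n k : ℕ} (h : n ≤ k) : Cg n (1 - PowerSeries.X ^ k) 1 := by
  have h1 := cg_X_pow h (1 : PowerSeries ℤ)
  rw [mul_one] at h1
  have h2 := (Cg.refl n (1 : PowerSeries ℤ)).sub h1
  rwa [sub_zero] at h2

theorem RefSmall_one_add {n k : ℕ} (h : n ≤ k) : Cg n (1 + PowerSeries.X ^ k) 1 := by
  have h1 := cg_X_pow h (1 : PowerSeries ℤ)
  rw [mul_one] at h1
  have h2 := (Cg.refl n (1 : PowerSeries ℤ)).add h1
  rwa [add_zero] at h2

/-- `(1 - X) U1` modulo `X^4` for a rectangle with at least three rows and columns: from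
`U1_rect`: modulo `X^4` the right side is `1`, the left product is `(1-X)(1-X^2)(1-X^3)`. -/
theorem ref_small_false (m L : ℕ) (hm : 2 ≤ m) (hL : 3 ≤ L) :
    Cg 4 ((1 - PowerSeries.X) * U1 (Rs false m L))
      (1 + PowerSeries.X ^ 2 + PowerSeries.X ^ 3) := by
  have h1 := U1_rect m L
  have h2 : Cg 4 (∏ b ∈ range (m + 1), (1 - (PowerSeries.X : PowerSeries ℤ) ^ (L + b + 1))) 1 :=
    RefSmall_prod_one _ fun b _ => RefSmall_one_sub (by omega)
  obtain ⟨t, rfl⟩ : ∃ t, m = t + 2 := ⟨m - 2, by omega⟩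
  have h3 : Cg 4 (∏ b ∈ range (t + 2 + 1), (1 - (PowerSeries.X : PowerSeries ℤ) ^ (b + 1)))
      ((1 - PowerSeries.X) * ((1 - PowerSeries.X ^ 2) * (1 - PowerSeries.X ^ 3))) := by
    have h4 : ∏ b ∈ range (t + 2 + 1), (1 - (PowerSeries.X : PowerSeries ℤ) ^ (b + 1)) =
        ((1 - PowerSeries.X) * ((1 - PowerSeries.X ^ 2) * (1 - PowerSeries.X ^ 3))) *
          ∏ b ∈ range t, (1 - (PowerSeries.X : PowerSeries ℤ) ^ (3 + b + 1)) := by
      rw [show t + 2 + 1 = 3 + t by ring, Finset.prod_range_add]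
      congr 1
      rw [Finset.prod_range_succ, Finset.prod_range_succ, Finset.prod_range_succ,
        Finset.prod_range_zero]
      ring
    rw [h4]
    have h5 : Cg 4 (∏ b ∈ range t, (1 - (PowerSeries.X : PowerSeries ℤ) ^ (3 + b + 1))) 1 :=
      RefSmall_prod_one _ fun b _ => RefSmall_one_sub (by omega)
    have h6 := (Cg.refl 4 ((1 - PowerSeries.X) *
      ((1 - PowerSeries.X ^ 2) * (1 - PowerSeries.X ^ 3)) : PowerSeries ℤ)).mul h5
    rwa [mul_one] at h6
  have h7 : Cg 4 (U1 (Rs false (t + 2) L) *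
      ((1 - PowerSeries.X) * ((1 - PowerSeries.X ^ 2) * (1 - PowerSeries.X ^ 3)))) 1 :=
    (((Cg.refl 4 (U1 (Rs false (t + 2) L))).mul h3).symm.trans (Cg.of_eq h1)).trans h2
  have h8 : Cg 4 (((1 - PowerSeries.X ^ 2) * (1 - PowerSeries.X ^ 3)) *
      (1 + PowerSeries.X ^ 2 + PowerSeries.X ^ 3) : PowerSeries ℤ) 1 := by
    unfold Cg
    refine ⟨-1 - PowerSeries.X - PowerSeries.X ^ 2 + PowerSeries.X ^ 3 + PowerSeries.X ^ 4, ?_⟩
    ring
  refine Cg.cancel (u := (1 - PowerSeries.X ^ 2) * (1 - PowerSeries.X ^ 3)) (by simp) ?_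
  refine Cg.trans (Cg.of_eq ?_) (h7.trans h8.symm)
  ring

/-- `(1 - X) U1` modulo `X^4` for a staircase: `(1-X)(1+X)(1+X^2)(1+X^3) = 1 + X^3`. -/
theorem ref_small_true (m L : ℕ) (hL : 3 ≤ L) :
    Cg 4 ((1 - PowerSeries.X) * U1 (Rs true m L)) (1 + PowerSeries.X ^ 3) := by
  rw [U1_stair]
  obtain ⟨t, rfl⟩ : ∃ t, L = 3 + t := ⟨L - 3, by omega⟩
  rw [Finset.prod_range_add, Finset.prod_range_succ, Finset.prod_range_succ,
    Finset.prod_range_succ, Finset.prod_range_zero]
  have h1 : Cg 4 (∏ b ∈ range t, (1 + (PowerSeries.X : PowerSeries ℤ) ^ (3 + b + 1))) 1 :=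
    RefSmall_prod_one _ fun b _ => RefSmall_one_add (by omega)
  have h2 := (Cg.refl 4 ((1 - PowerSeries.X) * (1 * (1 + PowerSeries.X ^ (0 + 1)) *
    (1 + PowerSeries.X ^ (1 + 1)) * (1 + PowerSeries.X ^ (2 + 1))) : PowerSeries ℤ)).mul h1
  rw [mul_one] at h2
  refine Cg.trans (Cg.of_eq (by ring)) (h2.trans ?_)
  unfold Cg
  refine ⟨-1 - PowerSeries.X ^ 3, ?_⟩
  ring

/-- `A = 1 + X` modulo `X^2` for every finite poset with a greatest element `x`: the only
relatively upper subset with one element is `{x}`; use `AF_first` with `D = {x}` (all other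
elements have size `≥ 2`) and `AF {x} = 1 / (1 - X)`, or `AF_layers` directly. -/
theorem A_small {Q : Type*} [PartialOrder Q] [DecidableEq Q] (F : Finset Q) {x : Q} (hx : x ∈ F)
    (hg : ∀ y ∈ F, y ≤ x) : Cg 2 (AF F) (1 + PowerSeries.X) := by
  classical
  have h1 : ∀ y ∈ F \ ∅, 1 ≤ sz F y := by
    intro y hy
    rw [Finset.sdiff_empty] at hy
    exact Finset.card_pos.2 ⟨y, LayersC_self_mem hy⟩
  have h2 := AF_first' (empty_mem_J F) 1 h1
  have h3 : ((F \ ∅).filter (fun y => sz F y = 1)) = {x} := by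
    ext y
    rw [Finset.mem_filter, Finset.sdiff_empty, Finset.mem_singleton]
    constructor
    · rintro ⟨hy, hs⟩
      unfold sz at hs
      obtain ⟨z, hz⟩ := Finset.card_eq_one.1 hs
      have h4 : y ∈ upF F y := LayersC_self_mem hy
      have h5 : x ∈ upF F y := mem_upF.2 ⟨hx, hg y hy⟩
      rw [hz, Finset.mem_singleton] at h4 h5
      rw [h4, h5]
    · rintro rfl
      refine ⟨hx, ?_⟩
      unfold sz
      rw [Finset.card_eq_one]
      refine ⟨y, ?_⟩
      ext z
      rw [mem_upF, Finset.mem_singleton]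
      constructor
      · rintro ⟨h6, h7⟩
        exact le_antisymm (hg z h6) h7
      · rintro rfl
        exact ⟨hx, le_rfl⟩
  rw [h3, Finset.card_singleton, Nat.cast_one, one_mul, pow_one] at h2
  have h8 : Cg 2 (AF (∅ : Finset Q)) 1 := by
    rw [cg_iff_coeff]
    intro k hk
    have hk2 : k = 0 ∨ k = 1 := by omega
    rcases hk2 with rfl | rfl
    · rw [PowerSeries.coeff_zero_eq_constantCoeff, constantCoeff_AF, map_one]
    · unfold AF
      rw [PowerSeries.coeff_mk, Finset.piAntidiag_empty_of_ne_zero one_ne_zero,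
        Finset.filter_empty, Finset.card_empty, Nat.cast_zero, PowerSeries.coeff_one,
        if_neg one_ne_zero]
  exact h2.trans (h8.add (Cg.refl 2 _))

end Pool.Agent.GaussRot
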