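import Pool.Agent.W_448rot_h96.Fillings

/-!
# The toggle step
-/

namespace Pool.Agent.GaussRot

open Finset

/-- toggles on the main diagonal, value `c` at `(a,a)` -/
def ToggleD_T (a : ℤ) (c : ℕ) (f : ℤ × ℤ → ℕ) : ℤ × ℤ → ℕ := fun p =>
  if p.1 = p.2 ∧ 1 ≤ p.1 ∧ p.1 < a then f (p.1, p.1 + 1) + f (p.1 - 1, p.1) - f p
  else if p = (a, a) then c else f p

lemma ToggleD_diag {a : ℤ} {c : ℕ} {f : ℤ × ℤ → ℕ} {u : ℤ} (h1 : 1 ≤ u) (h2 : u < a) :
    ToggleD_T a c f (u, u) = f (u, u + 1) + f (u - 1, u) - f (u, u) := by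
  unfold ToggleD_T
  rw [if_pos ⟨rfl, h1, h2⟩]

lemma ToggleD_a {a : ℤ} {c : ℕ} {f : ℤ × ℤ → ℕ} : ToggleD_T a c f (a, a) = c := by
  unfold ToggleD_T
  rw [if_neg (fun h => lt_irrefl _ h.2.2), if_pos rfl]

lemma ToggleD_off {a : ℤ} {c : ℕ} {f : ℤ × ℤ → ℕ} {u v : ℤ} (h : u ≠ v) :
    ToggleD_T a c f (u, v) = f (u, v) := by
  unfold ToggleD_T
  rw [if_neg (fun h' => h h'.1), if_neg]
  intro h'
  rw [Prod.mk.injEq] at h'
  exact h (h'.1.trans h'.2.symm)

lemma ToggleD_gt {a : ℤ} {c : ℕ} {f : ℤ × ℤ → ℕ} {u : ℤ} (h : a < u) :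
    ToggleD_T a c f (u, u) = f (u, u) := by
  unfold ToggleD_T
  rw [if_neg (fun h' => absurd h'.2.2 (not_lt.2 h.le)), if_neg]
  intro h'
  rw [Prod.mk.injEq] at h'
  exact h.ne' h'.1

lemma ToggleD_zero {S : Set (ℤ × ℤ)} {N : ℕ} {a : ℤ} (h : DCorner S N a) (c : ℕ)
    (f : ℤ × ℤ → ℕ) (hz : ∀ p, p ≠ (a, a) → p ∉ S → f p = 0) :
    ∀ p, p ≠ (a, a) → p ∉ S → ToggleD_T a c f p = 0 := by
  rintro ⟨u, v⟩ hp hpS
  unfold ToggleD_T
  by_cases h1 : u = v ∧ 1 ≤ u ∧ u < a
  · obtain ⟨rfl, h2, h3⟩ := h1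
    exact absurd (h.diag u h2 h3).1 hpS
  · rw [if_neg h1, if_neg hp]
    exact hz _ hp hpS

lemma ToggleD_mono {S : Set (ℤ × ℤ)} {N : ℕ} {a : ℤ} (h : DCorner S N a) (c : ℕ)
    (f : ℤ × ℤ → ℕ) (hz : ∀ p, p ≠ (a, a) → p ∉ S → f p = 0)
    (hm : ∀ p, p ∈ S → f (p.1 - 1, p.2) ≤ f p ∧ f (p.1, p.2 - 1) ≤ f p) :
    ∀ p, p ∈ S → ToggleD_T a c f (p.1 - 1, p.2) ≤ ToggleD_T a c f p ∧
      ToggleD_T a c f (p.1, p.2 - 1) ≤ ToggleD_T a c f p := by
  rintro ⟨u, v⟩ hp
  obtain ⟨h1, h2⟩ := h.pos _ hp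
  simp only at h1 h2
  change ToggleD_T a c f (u - 1, v) ≤ ToggleD_T a c f (u, v) ∧
    ToggleD_T a c f (u, v - 1) ≤ ToggleD_T a c f (u, v)
  rw [ToggleD_off (show u - 1 ≠ v by omega)]
  rcases eq_or_lt_of_le h2 with rfl | h3
  · have hua : u < a := by
      by_contra hc
      exact (h.off u (not_lt.1 hc)).1 hp
    rw [ToggleD_off (show u ≠ u - 1 by omega), ToggleD_diag h1 hua]
    have h5 : f (u, u) ≤ f (u, u + 1) := by
      have := (hm _ (h.diag u h1 hua).2).2
      simpa using this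
    have h6 : f (u, u - 1) = 0 := by
      refine hz _ ?_ ?_
      · intro h'
        rw [Prod.mk.injEq] at h'
        omega
      · intro h'
        have := (h.pos _ h').2
        simp only at this
        omega
    rw [h6]
    omega
  · rw [ToggleD_off (show u ≠ v by omega)]
    refine ⟨(hm _ hp).1, ?_⟩
    rcases eq_or_lt_of_le (show u + 1 ≤ v by omega) with rfl | h4
    · have hua : u < a := by
        by_contra hc
        exact (h.off u (not_lt.1 hc)).2 hp
      rw [add_sub_cancel_right, ToggleD_diag h1 hua]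
      have h5 : f (u - 1, u) ≤ f (u, u) := (hm _ (h.diag u h1 hua).1).1
      omega
    · rw [ToggleD_off (show u ≠ v - 1 by omega)]
      exact (hm _ hp).2

lemma ToggleD_shift (F : ℤ → ℕ) (N : ℕ) (h0 : F 0 = 0) (hN : F N = 0) :
    ∑ u ∈ Finset.Icc (1 : ℤ) N, F (u - 1) = ∑ u ∈ Finset.Icc (1 : ℤ) N, F u := by
  have h1 : ∑ u ∈ Finset.Icc (1 : ℤ) N, F (u - 1) = ∑ u ∈ Finset.Icc (0 : ℤ) (N - 1), F u := by
    refine Finset.sum_nbij' (fun u => u - 1) (fun u => u + 1) ?_ ?_ ?_ ?_ ?_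
    · intro u hu
      rw [Finset.mem_Icc] at hu ⊢
      omega
    · intro u hu
      rw [Finset.mem_Icc] at hu ⊢
      omega
    · intro u _
      ring
    · intro u _
      ring
    · intro u _
      rfl
  have h2 : ∑ u ∈ Finset.Icc (0 : ℤ) (N - 1), F u = ∑ u ∈ Finset.Icc (0 : ℤ) N, F u := by
    refine Finset.sum_subset ?_ ?_
    · intro u hu
      rw [Finset.mem_Icc] at hu ⊢
      omega
    · intro u hu hu'
      rw [Finset.mem_Icc] at hu hu'
      have : u = N := by omega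
      rw [this, hN]
  have h3 : ∑ u ∈ Finset.Icc (1 : ℤ) N, F u = ∑ u ∈ Finset.Icc (0 : ℤ) N, F u := by
    refine Finset.sum_subset ?_ ?_
    · intro u hu
      rw [Finset.mem_Icc] at hu ⊢
      omega
    · intro u hu hu'
      rw [Finset.mem_Icc] at hu hu'
      have : u = 0 := by omega
      rw [this, h0]
  rw [h1, h2, h3]

lemma ToggleD_inv {a : ℤ} {c c' : ℕ} {f : ℤ × ℤ → ℕ} (hf : ∀ u, 1 ≤ u → u < a →
    f (u, u) ≤ f (u, u + 1)) (hc : f (a, a) = c') :
    ToggleD_T a c' (ToggleD_T a c f) = f := by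
  funext ⟨u, v⟩
  by_cases h : u = v
  · subst h
    rcases lt_trichotomy u a with h1 | h1 | h1
    · by_cases h2 : 1 ≤ u
      · rw [ToggleD_diag h2 h1, ToggleD_diag h2 h1, ToggleD_off (show u ≠ u + 1 by omega),
          ToggleD_off (show u - 1 ≠ u by omega)]
        have := hf u h2 h1
        omega
      · unfold ToggleD_T
        rw [if_neg (fun h' => h2 h'.2.1), if_neg, if_neg (fun h' => h2 h'.2.1), if_neg]
        · intro h'
          rw [Prod.mk.injEq] at h'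
          exact h1.ne h'.1
        · intro h'
          rw [Prod.mk.injEq] at h'
          exact h1.ne h'.1
    · subst h1
      rw [ToggleD_a, hc]
    · rw [ToggleD_gt h1, ToggleD_gt h1]
  · rw [ToggleD_off h, ToggleD_off h]

/-- Toggle step on the main diagonal of a shifted shape.  Here `t = f (a,a) - f (a-1,a)` and
`f' (u,u) = f (u,u+1) + f (u-1,u) - f (u,u)` for `1 ≤ u < a`, `f' (a,a) = 0`, `f' = f` elsewhere.
(The lower neighbour `(u,u-1)` is off the shape, value zero, and `(u+1,u)` is not in the shape.)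
Sum: `Dg 0 f + Dg 0 f' = t + ∑_{1≤u≤a} f (u-1,u) + ∑_{1≤u<a} f (u,u+1) = t + 2 Dg 1 f`, using
`f (0,1) = 0` and `off`. -/
theorem toggle_diag {S : Set (ℤ × ℤ)} {N : ℕ} {a : ℤ} (h : DCorner S N a) :
    ∃ φ : Fil (insert (a, a) S) ≃ Fil S × ℕ, ∀ f,
      (∀ d, d ≠ 0 → Dg N (φ f).1.1 d = Dg N f.1 d) ∧
      Dg N f.1 0 + Dg N (φ f).1.1 0 = (φ f).2 + 2 * Dg N f.1 1 := by
  have haS : (a, a) ∉ S := (h.off a le_rfl).1
  have hne : ∀ p : ℤ × ℤ, p ≠ (a, a) → p ∉ S → p ∉ insert (a, a) S := by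
    intro p hp hpS h'
    rcases Set.mem_insert_iff.1 h' with h' | h'
    · exact hp h'
    · exact hpS h'
  have hlow : (a, a - 1) ∉ S := by
    intro h'
    have := (h.pos _ h').2
    simp only at this
    omega
  have hone : a ≠ a - 1 := by omega
  have hone' : a - 1 ≠ a := by omega
  let fw : Fil (insert (a, a) S) → Fil S × ℕ := fun f =>
    (⟨ToggleD_T a 0 f.1, by
      have hz : ∀ p, p ≠ (a, a) → p ∉ S → f.1 p = 0 := fun p hp hpS => f.2.1 p (hne p hp hpS)
      refine ⟨?_, ToggleD_mono h 0 f.1 hz fun p hp => f.2.2 p (Set.mem_insert_of_mem _ hp)⟩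
      intro p hp
      by_cases hpa : p = (a, a)
      · rw [hpa, ToggleD_a]
      · exact ToggleD_zero h 0 f.1 hz p hpa hp⟩, f.1 (a, a) - f.1 (a - 1, a))
  let bw : Fil S × ℕ → Fil (insert (a, a) S) := fun x =>
    ⟨ToggleD_T a (x.2 + x.1.1 (a - 1, a)) x.1.1, by
      have hz : ∀ p, p ≠ (a, a) → p ∉ S → x.1.1 p = 0 := fun p _ hpS => x.1.2.1 p hpS
      constructor
      · intro p hp
        rw [Set.mem_insert_iff, not_or] at hp
        exact ToggleD_zero h _ x.1.1 hz p hp.1 hp.2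
      · intro p hp
        rcases Set.mem_insert_iff.1 hp with rfl | hp
        · simp only
          rw [ToggleD_a, ToggleD_off hone', ToggleD_off hone, x.1.2.1 _ hlow]
          omega
        · exact ToggleD_mono h _ x.1.1 hz (fun p hp => x.1.2.2 p hp) p hp⟩
  have hfb : ∀ f, bw (fw f) = f := by
    intro f
    apply Subtype.ext
    change ToggleD_T a (f.1 (a, a) - f.1 (a - 1, a) + ToggleD_T a 0 f.1 (a - 1, a))
      (ToggleD_T a 0 f.1) = f.1
    refine ToggleD_inv ?_ ?_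
    · intro u h1 h2
      have := (f.2.2 _ (Set.mem_insert_of_mem _ (h.diag u h1 h2).2)).2
      simpa using this
    · rw [ToggleD_off hone']
      have : f.1 (a - 1, a) ≤ f.1 (a, a) := (f.2.2 _ (Set.mem_insert _ _)).1
      omega
  have hbf : ∀ x, fw (bw x) = x := by
    intro x
    refine Prod.ext (Subtype.ext ?_) ?_
    · change ToggleD_T a 0 (ToggleD_T a (x.2 + x.1.1 (a - 1, a)) x.1.1) = x.1.1
      refine ToggleD_inv ?_ (x.1.2.1 _ haS)
      intro u h1 h2
      have := (x.1.2.2 _ (h.diag u h1 h2).2).2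
      simpa using this
    · change ToggleD_T a (x.2 + x.1.1 (a - 1, a)) x.1.1 (a, a) -
        ToggleD_T a (x.2 + x.1.1 (a - 1, a)) x.1.1 (a - 1, a) = x.2
      rw [ToggleD_a, ToggleD_off hone']
      omega
  refine ⟨⟨fw, bw, hfb, hbf⟩, ?_⟩
  intro f
  change (∀ d, d ≠ 0 → Dg N (ToggleD_T a 0 f.1) d = Dg N f.1 d) ∧
    Dg N f.1 0 + Dg N (ToggleD_T a 0 f.1) 0 = (f.1 (a, a) - f.1 (a - 1, a)) + 2 * Dg N f.1 1
  constructor
  · intro d hd
    unfold Dg
    refine Finset.sum_congr rfl fun u _ => ?_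
    exact ToggleD_off (by omega)
  · have hF : ∀ u, a ≤ u → f.1 (u, u + 1) = 0 := by
      intro u hu
      refine f.2.1 _ (hne _ ?_ (h.off u hu).2)
      intro h'
      rw [Prod.mk.injEq] at h'
      omega
    have hF0 : f.1 (0, 0 + 1) = 0 := by
      refine f.2.1 _ (hne _ ?_ ?_)
      · intro h'
        rw [Prod.mk.injEq] at h'
        omega
      · intro h'
        have := (h.pos _ h').1
        simp only at this
        omega
    have hpt : ∀ u ∈ Finset.Icc (1 : ℤ) N, f.1 (u, u + 0) + ToggleD_T a 0 f.1 (u, u + 0) =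
        (if u = a then f.1 (a, a) - f.1 (a - 1, a) else 0) +
          (f.1 (u, u + 1) + f.1 (u - 1, u - 1 + 1)) := by
      intro u hu
      rw [Finset.mem_Icc] at hu
      rw [add_zero, sub_add_cancel]
      rcases lt_trichotomy u a with h1 | h1 | h1
      · rw [ToggleD_diag hu.1 h1, if_neg h1.ne]
        have h2 : f.1 (u, u) ≤ f.1 (u, u + 1) := by
          have := (f.2.2 _ (Set.mem_insert_of_mem _ (h.diag u hu.1 h1).2)).2
          simpa using this
        omega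
      · subst h1
        rw [ToggleD_a, if_pos rfl, hF u le_rfl]
        have h2 : f.1 (u - 1, u) ≤ f.1 (u, u) := (f.2.2 _ (Set.mem_insert _ _)).1
        omega
      · rw [ToggleD_gt h1, if_neg h1.ne', hF u h1.le]
        have h2 : f.1 (u, u) = 0 := by
          refine f.2.1 _ (hne _ ?_ (h.off u h1.le).1)
          intro h'
          rw [Prod.mk.injEq] at h'
          omega
        have h3 : f.1 (u - 1, u) = 0 := by
          have := hF (u - 1) (by omega)
          rwa [sub_add_cancel] at this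
        rw [h2, h3]
    unfold Dg
    rw [← Finset.sum_add_distrib, Finset.sum_congr rfl hpt, Finset.sum_add_distrib,
      Finset.sum_add_distrib, Finset.sum_ite_eq', if_pos (Finset.mem_Icc.2 ⟨h.ha, h.haN⟩),
      ToggleD_shift (fun u => f.1 (u, u + 1)) N hF0 (hF N h.haN)]
    ring

end Pool.Agent.GaussRot
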