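import Pool.Agent.W_448rot_h96.StairFill
import Pool.Agent.W_448rot_h96.RectFillB
import Pool.Agent.W_448rot_h96.Toggle
import Pool.Agent.W_448rot_h96.ToggleD

/-!
# Fillings of a shifted staircase
-/

namespace Pool.Agent.GaussRot

open Finset

/-- the step off the main diagonal -/
theorem StairFillB_step {b a : ℤ} {N : ℕ} (hbN : b ≤ N) (ha : 0 ≤ a) (hab : a + 1 < b)
    (ih : ∃ ψ : Fil (↑(ST b a) : Set (ℤ × ℤ)) ≃ Arr (ST b a), ∀ f d, 0 ≤ d →
      Dg N f.1 d = ∑ p ∈ ST b a, wS b a p d * (ψ f).1 p) :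
    ∃ ψ : Fil (↑(ST b (a + 1)) : Set (ℤ × ℤ)) ≃ Arr (ST b (a + 1)), ∀ f d, 0 ≤ d →
      Dg N f.1 d = ∑ p ∈ ST b (a + 1), wS b (a + 1) p d * (ψ f).1 p := by
  classical
  obtain ⟨hcor, -, hfin, hnot⟩ := corner_ST (N := N) hbN ha hab
  obtain ⟨φ, hφ⟩ := toggle_step hcor
  have h11 : ((1 : ℤ), (1 : ℤ)) ∈ ST b a := by
    rw [mem_ST]; simp only; omega
  have key := RectFillB_gen (N := N) hnot φ (fun d => 0 ≤ d) (b - (a + 1)) (b - (a + 1) - 1)
    (b - (a + 1) + 1) (wS b a) (wS b (a + 1))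
    (by omega) (by omega) (by omega) (fun f d _ hd => (hφ f).1 d hd)
    (fun f => by
      have h := (hφ f).2
      rw [← (hφ f).1 (b - (a + 1) - 1) (by omega), ← (hφ f).1 (b - (a + 1) + 1) (by omega)] at h
      exact h)
    (fun p hp d hd hd' => (hook_step_ST ha hab hp).1 d hd hd')
    (fun p hp => (hook_step_ST ha hab hp).2.1)
    (fun d hd => (hook_step_ST ha hab h11).2.2 d hd)
    ih
  rw [hfin, Finset.coe_insert]
  exact key

/-- the step on the main diagonal -/
theorem StairFillB_diag {b : ℤ} {N : ℕ} (hb : 1 ≤ b) (hbN : b ≤ N)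
    (ih : ∃ ψ : Fil (↑(ST b (b - 1)) : Set (ℤ × ℤ)) ≃ Arr (ST b (b - 1)), ∀ f d, 0 ≤ d →
      Dg N f.1 d = ∑ p ∈ ST b (b - 1), wS b (b - 1) p d * (ψ f).1 p) :
    ∃ ψ : Fil (↑(ST b b) : Set (ℤ × ℤ)) ≃ Arr (ST b b), ∀ f d, 0 ≤ d →
      Dg N f.1 d = ∑ p ∈ ST b b, wS b b p d * (ψ f).1 p := by
  classical
  obtain ⟨hcor, -, hfin, hnot⟩ := dcorner_ST (N := N) hb hbN
  obtain ⟨φ, hφ⟩ := toggle_diag hcor
  have key := RectFillB_gen (N := N) hnot φ (fun d => 0 ≤ d) 0 1 1 (wS b (b - 1)) (wS b b)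
    le_rfl (by omega) (by omega) (fun f d _ hd => (hφ f).1 d hd)
    (fun f => by
      have h := (hφ f).2
      rw [← (hφ f).1 1 (by omega)] at h
      rw [h]; ring)
    (fun p hp d hd hd' => (hook_step_ST' hb hp).1 d (lt_of_le_of_ne hd (Ne.symm hd')))
    (fun p hp => by rw [(hook_step_ST' hb hp).2.1]; ring)
    (fun d hd => by
      unfold wS rS
      simp only [le_refl, if_true, ne_eq, not_true_eq_false, false_and, if_false, add_zero]
      refine if_congr ?_ rfl rfl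
      omega)
    ih
  rw [hfin, Finset.coe_insert]
  exact key

/-- All shapes: parametrisation of the fillings of `ST b a` by arrays with the diagonal sums
`Dg d = ∑ (multiplicity) * (entry)` for `d ≥ 0`.  Induction on the number of cells: from `(b, a)`
to `(b, a+1)` with `toggle_step` (`a + 1 < b`) or `toggle_diag` (`a + 1 = b`) and `arr_insert`;
from `(b, b)` to `(b+1, 0)`: the same set and the same multiplicities on it; start with `(1, 0)`,
the empty shape. -/
theorem stair_fill {b a : ℤ} {N : ℕ} (hb : 1 ≤ b) (hbN : b ≤ N) (ha : 0 ≤ a) (hab : a ≤ b) :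
    ∃ ψ : Fil (↑(ST b a) : Set (ℤ × ℤ)) ≃ Arr (ST b a), ∀ f d, 0 ≤ d →
      Dg N f.1 d = ∑ p ∈ ST b a, wS b a p d * (ψ f).1 p := by
  have inner : ∀ b : ℤ, 1 ≤ b → b ≤ N →
      (∃ ψ : Fil (↑(ST b 0) : Set (ℤ × ℤ)) ≃ Arr (ST b 0), ∀ f d, 0 ≤ d →
        Dg N f.1 d = ∑ p ∈ ST b 0, wS b 0 p d * (ψ f).1 p) →
      ∀ a : ℤ, 0 ≤ a → a ≤ b →
      ∃ ψ : Fil (↑(ST b a) : Set (ℤ × ℤ)) ≃ Arr (ST b a), ∀ f d, 0 ≤ d →
        Dg N f.1 d = ∑ p ∈ ST b a, wS b a p d * (ψ f).1 p := by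
    intro b hb hbN h0 a ha
    induction a, ha using Int.leInduction with
    | base => intro _; exact h0
    | succ a ha iha =>
      intro hab
      rcases lt_or_eq_of_le hab with h | h
      · exact StairFillB_step hbN ha h (iha (by omega))
      · have h' : a = b - 1 := by omega
        subst h'
        have := StairFillB_diag hb hbN (iha (by omega))
        rw [sub_add_cancel]
        exact this
  have outer : ∀ b : ℤ, 1 ≤ b → b ≤ N →
      (∃ ψ : Fil (↑(ST b 0) : Set (ℤ × ℤ)) ≃ Arr (ST b 0), ∀ f d, 0 ≤ d →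
        Dg N f.1 d = ∑ p ∈ ST b 0, wS b 0 p d * (ψ f).1 p) := by
    intro b hb
    induction b, hb using Int.leInduction with
    | base =>
      intro _
      have hS : ST 1 0 = ∅ := by
        ext ⟨x, y⟩
        rw [mem_ST]
        simp only [Finset.notMem_empty, iff_false]
        omega
      obtain ⟨ψ, hψ⟩ := RectFillB_empty (N := N) hS (wS 1 0)
      exact ⟨ψ, fun f d _ => hψ f d⟩
    | succ b hb ihb =>
      intro hbN
      obtain ⟨ψ, hψ⟩ := inner b hb (by omega) (ihb (by omega)) b (by omega) le_rfl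
      have hS : ST (b + 1) 0 = ST b b := by
        ext ⟨x, y⟩
        rw [mem_ST, mem_ST]
        simp only
        omega
      rw [hS]
      refine ⟨ψ, fun f d hd => ?_⟩
      rw [hψ f d hd]
      refine Finset.sum_congr rfl fun p hp => ?_
      rw [mem_ST] at hp
      have r1 : rS (b + 1) 0 p.1 = rS b b p.1 := by
        unfold rS
        split_ifs <;> omega
      have r2 : rS (b + 1) 0 p.2 = rS b b p.2 := by
        unfold rS
        split_ifs <;> omega
      unfold wS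
      rw [r1, r2]
  exact inner b hb hbN (outer b hb hbN) a ha hab

end Pool.Agent.GaussRot
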