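import Pool.Agent.W_448rot_h96.RectFillB
import Pool.Agent.W_448rot_h96.StairFillB

/-!
# `A` of the reference posets
-/

namespace Pool.Agent.GaussRot

open Finset

lemma RefTot_shift (g : ℤ → ℕ) (u lo hi A B : ℤ)
    (h : ∀ v, g v ≠ 0 → (A ≤ v ∧ v ≤ B) ∧ (u + lo ≤ v ∧ v ≤ u + hi)) :
    ∑ d ∈ Icc lo hi, g (u + d) = ∑ v ∈ Icc A B, g v := by
  have h1 : ∑ d ∈ Icc lo hi, g (u + d) = ∑ v ∈ Icc (u + lo) (u + hi), g v := by
    rw [← Finset.image_add_left_Icc]
    rw [Finset.sum_image]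
    intro x _ y _ hxy
    exact add_left_cancel hxy
  rw [h1]
  apply Finset.sum_congr_of_eq_on_inter
  · intro v _ hv
    by_contra hg
    exact hv (Finset.mem_Icc.2 (h v hg).1)
  · intro v _ hv
    by_contra hg
    exact hv (Finset.mem_Icc.2 (h v hg).2)
  · intro v _ _
    rfl

lemma RefTot_count (lo hi A B : ℤ) (c : ℕ) :
    ∑ d ∈ Icc A B, (if lo ≤ d ∧ d ≤ hi then c else 0) = (min B hi + 1 - max A lo).toNat * c := by
  rw [← Finset.sum_filter]
  have h1 : (Icc A B).filter (fun d => lo ≤ d ∧ d ≤ hi) = Icc (max A lo) (min B hi) := by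
    ext d
    simp only [mem_filter, mem_Icc]
    omega
  rw [h1, Finset.sum_const, smul_eq_mul, Int.card_Icc]

/-- total weight of a filling of the rectangle `SR w n w` (`n` rows, `w` columns): the sum of the
diagonal sums over `-N ≤ d ≤ N'` is the sum over the cells.  With `rect_fill` (`a = n`, `b = w`,
`hi(u) = w - u`, `lo(v) = v - n`) the total is `∑ (w - u + n - v + 1) * (entry)`. -/
theorem rect_total (n w : ℕ) (hn : 1 ≤ n) :
    ∃ ψ : Fil (↑(SR w n w) : Set (ℤ × ℤ)) ≃ Arr (SR w n w), ∀ f,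
      ∑ p ∈ SR w n w, f.1 p =
        ∑ p ∈ SR w n w, (((w : ℤ) - p.1) + ((n : ℤ) - p.2) + 1).toNat * (ψ f).1 p := by
  obtain ⟨ψ, hψ⟩ := rect_fill (w := (w : ℤ)) (a := (n : ℤ)) (b := (w : ℤ)) (N := n)
    (by omega) (by omega) le_rfl (by omega) le_rfl
  refine ⟨ψ, fun f => ?_⟩
  have hSR : SR (w : ℤ) n w = Icc (1 : ℤ) n ×ˢ Icc (1 : ℤ) w := by
    ext p
    rw [mem_SR]
    simp only [mem_product, mem_Icc]
    omega
  have h1 : ∑ p ∈ SR (w : ℤ) n w, f.1 p = ∑ d ∈ Icc (-(n : ℤ)) w, Dg n f.1 d := by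
    unfold Dg
    rw [Finset.sum_comm]
    have h0 : ∑ p ∈ SR (w : ℤ) n w, f.1 p = ∑ p ∈ Icc (1 : ℤ) n ×ˢ Icc (1 : ℤ) w, f.1 p :=
      Finset.sum_congr hSR fun _ _ => rfl
    rw [h0, Finset.sum_product]
    refine Finset.sum_congr rfl fun u hu => ?_
    rw [mem_Icc] at hu
    symm
    apply RefTot_shift (fun v => f.1 (u, v))
    intro v hv
    have h2 : ((u, v) : ℤ × ℤ) ∈ SR (w : ℤ) n w := by
      by_contra h3
      exact hv (f.2.1 (u, v) (fun h4 => h3 (by simpa using h4)))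
    rw [mem_SR] at h2
    simp only at h2
    omega
  rw [h1]
  simp only [hψ]
  rw [Finset.sum_comm]
  refine Finset.sum_congr rfl fun p hp => ?_
  rw [RefTot_count]
  rw [mem_SR] at hp
  have h3 : hiR (w : ℤ) n w p.1 = w - p.1 := by
    unfold hiR; split_ifs <;> omega
  have h4 : loR (n : ℤ) w p.2 = p.2 - n := by
    unfold loR; split_ifs <;> omega
  rw [h3, h4]
  congr 2
  omega

/-- total weight of a filling of the staircase `ST L L`: the sum of the diagonal sums over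
`0 ≤ d < L`.  With `stair_fill` (`a = b = L`, `rS = L - u`) the cell `(u,v)`, `u < v`, has total
multiplicity `(L - u + 1) + (L - v + 1)` and `(u,u)` has `L - u + 1`. -/
theorem stair_total (L : ℕ) (hL : 1 ≤ L) :
    ∃ ψ : Fil (↑(ST L L) : Set (ℤ × ℤ)) ≃ Arr (ST L L), ∀ f,
      ∑ p ∈ ST L L, f.1 p =
        ∑ p ∈ ST L L, (((L : ℤ) - p.1 + 1) + if p.1 = p.2 then 0 else (L : ℤ) - p.2 + 1).toNat *
          (ψ f).1 p := by
  obtain ⟨ψ, hψ⟩ := stair_fill (b := (L : ℤ)) (a := (L : ℤ)) (N := L)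
    (by omega) le_rfl (by omega) le_rfl
  refine ⟨ψ, fun f => ?_⟩
  have h1 : ∑ p ∈ ST (L : ℤ) L, f.1 p = ∑ d ∈ Icc (0 : ℤ) L, Dg L f.1 d := by
    have h0 : ∑ p ∈ ST (L : ℤ) L, f.1 p = ∑ p ∈ Icc (1 : ℤ) L ×ˢ Icc (1 : ℤ) L, f.1 p := by
      apply Finset.sum_subset
      · intro p hp
        rw [mem_ST] at hp
        simp only [mem_product, mem_Icc]
        omega
      · intro p _ hp
        exact f.2.1 p (fun h4 => hp (by simpa using h4))
    rw [h0]
    unfold Dg
    rw [Finset.sum_comm, Finset.sum_product]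
    refine Finset.sum_congr rfl fun u hu => ?_
    rw [mem_Icc] at hu
    symm
    apply RefTot_shift (fun v => f.1 (u, v))
    intro v hv
    have h2 : ((u, v) : ℤ × ℤ) ∈ ST (L : ℤ) L := by
      by_contra h3
      exact hv (f.2.1 (u, v) (fun h4 => h3 (by simpa using h4)))
    rw [mem_ST] at h2
    simp only at h2
    omega
  rw [h1, Finset.sum_congr rfl (fun d hd => hψ f d (Finset.mem_Icc.1 hd).1)]
  rw [Finset.sum_comm]
  refine Finset.sum_congr rfl fun p hp => ?_
  rw [mem_ST] at hp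
  rw [← Finset.sum_mul]
  congr 1
  have h3 : ∀ u : ℤ, u ≤ L → rS (L : ℤ) L u = L - u := by
    intro u hu
    unfold rS; rw [if_pos hu]
  unfold wS
  rw [Finset.sum_add_distrib, RefTot_count, h3 p.1 (by omega), h3 p.2 (by omega)]
  by_cases h4 : p.1 = p.2
  · simp only [h4, ne_eq, not_true_eq_false, false_and, if_false, Finset.sum_const_zero, if_true,
      mul_one, add_zero]
    congr 1
    omega
  · simp only [h4, ne_eq, not_false_eq_true, true_and, if_false]
    rw [RefTot_count, mul_one, mul_one, ← Int.toNat_add (by omega) (by omega)]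
    congr 1
    omega

end Pool.Agent.GaussRot
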