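import Pool.Agent.W_448rot_h96.LayersB
import Pool.Agent.W_448rot_h96.Iso
import Pool.Agent.W_448rot_h96.Cells

/-!
# `U_1` of the reference posets
-/

namespace Pool.Agent.GaussRot

set_option linter.unusedSectionVars false

open Finset

lemma RefU_reg (k : Bool) (m c : ℕ) : reg k m 0 c := by
  cases k
  · rw [reg_false]; exact Nat.zero_le m
  · rw [reg_true]; exact Nat.zero_le c

/-- removing the last column: the relatively upper sets of `Rs k m (L+1)` without the cell
`(0, L)` are those of `Rs k m L` (a relatively upper set containing a cell `(i, L)` contains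
`(0, L)`, as `reg k m 0 L`). -/
theorem J_last (k : Bool) (m L : ℕ) :
    J (Rs k m L) = (J (Rs k m (L + 1))).filter (fun G => (⟨0, L⟩ : Cell) ∉ G) := by
  ext G
  rw [mem_filter, mem_J, mem_J]
  constructor
  · rintro ⟨h1, h2⟩
    refine ⟨⟨fun x hx => ?_, fun x hx y hy hxy => ?_⟩, fun h => ?_⟩
    · have := mem_Rs.1 (h1 hx)
      exact mem_Rs.2 ⟨this.1, by omega⟩
    · have h3 := mem_Rs.1 (h1 hx)
      have h4 := mem_Rs.1 hy
      refine h2 x hx y (mem_Rs.2 ⟨h4.1, ?_⟩) hxy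
      exact lt_of_le_of_lt hxy.2 h3.2
    · have := (mem_Rs.1 (h1 h)).2
      exact lt_irrefl _ this
  · rintro ⟨⟨h1, h2⟩, h3⟩
    have key : ∀ x ∈ G, x ∈ Rs k m L := by
      intro x hx
      have h4 := mem_Rs.1 (h1 hx)
      refine mem_Rs.2 ⟨h4.1, ?_⟩
      by_contra h5
      have h6 : x.c = L := by omega
      refine h3 (h2 x hx ⟨0, L⟩ (mem_Rs.2 ⟨RefU_reg k m L, ?_⟩) ⟨Nat.zero_le _, ?_⟩)
      · exact Nat.lt_succ_self L
      · exact h6.ge
    refine ⟨fun x hx => key x hx, fun x hx y hy hxy => ?_⟩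
    have h4 := mem_Rs.1 hy
    exact h2 x hx y (mem_Rs.2 ⟨h4.1, by omega⟩) hxy

open Classical in
/-- the relatively upper sets containing a relatively upper part `R` -/
lemma RefU_split {F F' R : Finset Cell} {f : Cell → Cell} {z : Cell}
    (hF : ∀ x, x ∈ F ↔ x ∈ R ∨ ∃ y ∈ F', f y = x) (hdisj : ∀ y ∈ F', f y ∉ R)
    (hf : ∀ x y, f x ≤ f y ↔ x ≤ y) (hz : z ∈ R)
    (ha : ∀ G ∈ J F, z ∈ G → R ⊆ G) (hc : ∀ x ∈ R, ∀ y ∈ F, x ≤ y → y ∈ R) :
    ∑ G ∈ (J F).filter (fun G => z ∈ G), (PowerSeries.X : PowerSeries ℤ) ^ G.card =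
      PowerSeries.X ^ R.card * U1 F' := by
  have hinj : Function.Injective f := fun x y h =>
    le_antisymm ((hf x y).1 h.le) ((hf y x).1 h.ge)
  have hcard : ∀ G ∈ J F', (R ∪ G.image f).card = R.card + G.card := by
    intro G hG
    rw [card_union_of_disjoint, card_image_of_injective _ hinj]
    rw [disjoint_left]
    intro x hx hx'
    obtain ⟨y, hy, rfl⟩ := mem_image.1 hx'
    exact hdisj y ((mem_J.1 hG).1 hy) hx
  unfold U1
  rw [mul_sum]
  symm
  refine sum_bij' (fun G _ => R ∪ G.image f) (fun G _ => F'.filter (fun x => f x ∈ G)) ?_ ?_ ?_ ?_ ?_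
  · intro G hG
    rw [mem_filter, mem_J]
    refine ⟨⟨?_, ?_⟩, mem_union_left _ hz⟩
    · intro x hx
      rcases mem_union.1 hx with h | h
      · exact (hF x).2 (Or.inl h)
      · obtain ⟨y, hy, rfl⟩ := mem_image.1 h
        exact (hF _).2 (Or.inr ⟨y, (mem_J.1 hG).1 hy, rfl⟩)
    · intro x hx y hy hxy
      rcases mem_union.1 hx with h | h
      · exact mem_union_left _ (hc x h y hy hxy)
      · obtain ⟨x', hx', rfl⟩ := mem_image.1 h
        rcases (hF y).1 hy with h1 | ⟨y', hy', rfl⟩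
        · exact mem_union_left _ h1
        · exact mem_union_right _ (mem_image_of_mem f
            ((mem_J.1 hG).2 x' hx' y' hy' ((hf _ _).1 hxy)))
  · intro G hG
    rw [mem_filter, mem_J] at hG
    rw [mem_J]
    refine ⟨filter_subset _ _, fun x hx y hy hxy => ?_⟩
    rw [mem_filter] at hx ⊢
    exact ⟨hy, hG.1.2 (f x) hx.2 (f y) ((hF _).2 (Or.inr ⟨y, hy, rfl⟩)) ((hf _ _).2 hxy)⟩
  · intro G hG
    ext x
    rw [mem_filter, mem_union]
    constructor
    · rintro ⟨h1, h2 | h2⟩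
      · exact absurd h2 (hdisj x h1)
      · obtain ⟨y, hy, hyx⟩ := mem_image.1 h2
        rw [← hinj hyx]
        exact hy
    · intro h
      exact ⟨(mem_J.1 hG).1 h, Or.inr (mem_image_of_mem f h)⟩
  · intro G hG
    rw [mem_filter] at hG
    ext x
    rw [mem_union]
    constructor
    · rintro (h | h)
      · exact ha G hG.1 hG.2 h
      · obtain ⟨y, hy, rfl⟩ := mem_image.1 h
        exact (mem_filter.1 hy).2
    · intro h
      rcases (hF x).1 ((mem_J.1 hG.1).1 h) with h1 | ⟨y, hy, rfl⟩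
      · exact Or.inl h1
      · exact Or.inr (mem_image_of_mem f (mem_filter.2 ⟨hy, h⟩))
  · intro G hG
    rw [hcard G hG, pow_add]

/-- the row `0` -/
def RefU_row (L : ℕ) : Finset Cell := (range (L + 1)).image (fun c => (⟨0, c⟩ : Cell))

lemma RefU_mem_row {L : ℕ} {x : Cell} : x ∈ RefU_row L ↔ x.i = 0 ∧ x.c < L + 1 := by
  unfold RefU_row
  rw [mem_image]
  constructor
  · rintro ⟨c, hc, rfl⟩
    exact ⟨rfl, mem_range.1 hc⟩
  · rintro ⟨h1, h2⟩
    exact ⟨x.c, mem_range.2 h2, Cell.ext h1.symm rfl⟩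

lemma RefU_card_row (L : ℕ) : (RefU_row L).card = L + 1 := by
  unfold RefU_row
  rw [card_image_of_injective _ (fun c d h => congrArg Cell.c h), card_range]

open Classical in
lemma RefU_rec (k : Bool) (m L : ℕ) (F' : Finset Cell) (f : Cell → Cell)
    (hF : ∀ x, x ∈ Rs k m (L + 1) ↔ x ∈ RefU_row L ∨ ∃ y ∈ F', f y = x)
    (hdisj : ∀ y, (f y).i ≠ 0) (hf : ∀ x y, f x ≤ f y ↔ x ≤ y) :
    U1 (Rs k m (L + 1)) = U1 (Rs k m L) + PowerSeries.X ^ (L + 1) * U1 F' := by
  have h1 := RefU_split (z := ⟨0, L⟩) hF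
    (fun y _ h => hdisj y (RefU_mem_row.1 h).1) hf
    (RefU_mem_row.2 ⟨rfl, Nat.lt_succ_self L⟩)
    (by
      intro G hG hz x hx
      obtain ⟨h2, h3⟩ := RefU_mem_row.1 hx
      refine (mem_J.1 hG).2 ⟨0, L⟩ hz x (mem_Rs.2 ⟨?_, h3⟩) ⟨?_, ?_⟩
      · rw [h2]; exact RefU_reg k m _
      · exact h2.le
      · exact Nat.lt_succ_iff.1 h3)
    (by
      intro x hx y hy hxy
      obtain ⟨h2, h3⟩ := RefU_mem_row.1 hx
      refine RefU_mem_row.2 ⟨?_, (mem_Rs.1 hy).2⟩
      have := hxy.1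
      omega)
  rw [RefU_card_row] at h1
  rw [← h1]
  have h4 : U1 (Rs k m L) = ∑ G ∈ (J (Rs k m (L + 1))).filter (fun G => ¬ (⟨0, L⟩ : Cell) ∈ G),
      (PowerSeries.X : PowerSeries ℤ) ^ G.card := by
    unfold U1
    rw [J_last]
  have h5 : U1 (Rs k m (L + 1)) = _ :=
    (sum_filter_add_sum_filter_not (J (Rs k m (L + 1)))
    (fun G : Finset Cell => (⟨0, L⟩ : Cell) ∈ G)
    (fun G => (PowerSeries.X : PowerSeries ℤ) ^ G.card)).symm
  rw [h4, h5]
  exact add_comm _ _

/-- Rectangle recursion: a relatively upper set containing `(0, L)` contains the whole row `0`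
(`L + 1` cells); removing this row and shifting the rows by one gives a relatively upper subset
of the rectangle with one row less. -/
theorem U1_rect_rec (m L : ℕ) :
    U1 (Rs false (m + 1) (L + 1)) =
      U1 (Rs false (m + 1) L) + PowerSeries.X ^ (L + 1) * U1 (Rs false m (L + 1)) := by
  refine RefU_rec false (m + 1) L (Rs false m (L + 1)) (fun p => ⟨p.i + 1, p.c⟩) ?_ ?_ ?_
  · intro x
    rw [mem_Rs, RefU_mem_row, reg_false]
    constructor
    · rintro ⟨h1, h2⟩
      by_cases h3 : x.i = 0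
      · exact Or.inl ⟨h3, h2⟩
      · refine Or.inr ⟨⟨x.i - 1, x.c⟩, mem_Rs.2 ⟨reg_false.2 ?_, h2⟩, Cell.ext ?_ rfl⟩
        · change x.i - 1 ≤ m
          omega
        · change x.i - 1 + 1 = x.i
          omega
    · rintro (⟨h1, h2⟩ | ⟨y, hy, rfl⟩)
      · exact ⟨by omega, h2⟩
      · obtain ⟨h1, h2⟩ := mem_Rs.1 hy
        rw [reg_false] at h1
        exact ⟨Nat.succ_le_succ h1, h2⟩
  · intro y
    exact Nat.succ_ne_zero _
  · intro x y
    rw [cell_le, cell_le]
    constructor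
    · rintro ⟨h1, h2⟩
      exact ⟨Nat.le_of_succ_le_succ h1, h2⟩
    · rintro ⟨h1, h2⟩
      exact ⟨Nat.succ_le_succ h1, h2⟩

lemma RefU_empty : U1 (∅ : Finset Cell) = 1 := by
  unfold U1
  have h : J (∅ : Finset Cell) = {∅} := by
    ext G
    rw [mem_J, mem_singleton]
    constructor
    · rintro ⟨h1, -⟩
      exact subset_empty.1 h1
    · rintro rfl
      exact ⟨Subset.refl _, fun x hx => absurd hx (notMem_empty x)⟩
  rw [h, sum_singleton, card_empty, pow_zero]

/-- one row: the relatively upper sets are the initial segments -/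
theorem U1_row (L : ℕ) :
    U1 (Rs false 0 (L + 1)) = U1 (Rs false 0 L) + PowerSeries.X ^ (L + 1) := by
  have h := RefU_rec false 0 L ∅ (fun p => ⟨p.i + 1, p.c⟩) ?_ ?_ ?_
  · rw [RefU_empty, mul_one] at h
    exact h
  · intro x
    rw [mem_Rs, RefU_mem_row, reg_false]
    constructor
    · rintro ⟨h1, h2⟩
      exact Or.inl ⟨by omega, h2⟩
    · rintro (⟨h1, h2⟩ | ⟨y, hy, -⟩)
      · exact ⟨by omega, h2⟩
      · exact absurd hy (notMem_empty y)
  · intro y
    exact Nat.succ_ne_zero _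
  · intro x y
    rw [cell_le, cell_le]
    constructor
    · rintro ⟨h1, h2⟩
      exact ⟨Nat.le_of_succ_le_succ h1, h2⟩
    · rintro ⟨h1, h2⟩
      exact ⟨Nat.succ_le_succ h1, h2⟩

/-- no column: the set is empty -/
theorem U1_zero (k : Bool) (m : ℕ) : U1 (Rs k m 0) = 1 := by
  have h : Rs k m 0 = ∅ := by
    rw [eq_empty_iff_forall_notMem]
    intro x hx
    exact Nat.not_lt_zero _ (mem_Rs.1 hx).2
  rw [h, RefU_empty]

/-- Staircase recursion: a relatively upper set containing `(0, L)` contains the whole row `0`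
(`L + 1` cells); removing it and shifting rows and columns by one gives a relatively upper subset
of `Rs true m L`. -/
theorem U1_stair_rec (m L : ℕ) :
    U1 (Rs true m (L + 1)) = (1 + PowerSeries.X ^ (L + 1)) * U1 (Rs true m L) := by
  have h := RefU_rec true m L (Rs true m L) (fun p => ⟨p.i + 1, p.c + 1⟩) ?_ ?_ ?_
  · rw [h]
    ring
  · intro x
    rw [mem_Rs, RefU_mem_row, reg_true]
    constructor
    · rintro ⟨h1, h2⟩
      by_cases h3 : x.i = 0
      · exact Or.inl ⟨h3, h2⟩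
      · refine Or.inr ⟨⟨x.i - 1, x.c - 1⟩, mem_Rs.2 ⟨reg_true.2 ?_, ?_⟩, Cell.ext ?_ ?_⟩
        · change x.i - 1 ≤ x.c - 1
          omega
        · change x.c - 1 < L
          omega
        · change x.i - 1 + 1 = x.i
          omega
        · change x.c - 1 + 1 = x.c
          omega
    · rintro (⟨h1, h2⟩ | ⟨y, hy, rfl⟩)
      · exact ⟨by omega, h2⟩
      · obtain ⟨h1, h2⟩ := mem_Rs.1 hy
        rw [reg_true] at h1
        exact ⟨Nat.succ_le_succ h1, Nat.succ_lt_succ h2⟩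
  · intro y
    exact Nat.succ_ne_zero _
  · intro x y
    rw [cell_le, cell_le]
    constructor
    · rintro ⟨h1, h2⟩
      exact ⟨Nat.le_of_succ_le_succ h1, Nat.le_of_succ_le_succ h2⟩
    · rintro ⟨h1, h2⟩
      exact ⟨Nat.succ_le_succ h1, Nat.succ_le_succ h2⟩

end Pool.Agent.GaussRot
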