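import Pool.Agent.W_448rot_h96.RefSz
import Pool.Agent.W_448rot_h96.EmbB

/-!
# Sizes of the elements outside the common part
-/

namespace Pool.Agent.GaussRot

set_option linter.unusedSectionVars false

open Finset Pool.Agent.GaussPoset

universe u

variable {P : Type u} [Fintype P] [PartialOrder P] [DecidableEq P]
variable {k : Bool} {m L : ℕ} {e : ℕ → ℕ → P} {ch y : ℕ → P} {wf : P}

theorem SizesP_inj (hT : Top k m e) {i c i' c' : ℕ} (h1 : reg k m i c) (h2 : i + c ≤ jj k m)
    (h1' : reg k m i' c') (h2' : i' + c' ≤ jj k m) (h : e i c = e i' c') : i = i' ∧ c = c' := by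
  have h3 := (hT.le_iff i c i' c' h1 h2 h1' h2').1 h.le
  have h4 := (hT.le_iff i' c' i c h1' h2' h1 h2).1 h.ge
  exact ⟨le_antisymm h4.1 h3.1, le_antisymm h4.2 h3.2⟩

theorem SizesP_ne {w : P} (hT : Top k m e) {T : Finset ℕ} (hw : Typ k m e w T) {i c : ℕ}
    (h1 : reg k m i c) (h2 : i + c ≤ jj k m) : w ≠ e i c := by
  intro h
  have h3 := hT.lev_e i c h1 h2
  have h4 := hw.1
  rw [h, h3] at h4
  omega

/-- sizes in the common part agree with those of the cells: `sz_image`, `sz_of_mem_J` (the common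
part is an upper set on both sides) -/
theorem Data.sz_eps (h : Data k m e L ch y wf) {p : Cell} (hp : p ∈ CC k m L) :
    sz (univ : Finset P) (eps k m e ch y p) = sz (Rs k m L) p := by
  have h1 := sz_image h.eps_le hp
  have h2 := sz_of_mem_J (CC_mem_J (k := k) (m := m) (L := L)) hp
  rw [← h2, ← h1]
  unfold sz
  congr 1
  ext z
  rw [mem_upF, mem_upF]
  constructor
  · rintro ⟨-, hz⟩
    exact ⟨h.upper _ (mem_image_of_mem _ hp) z hz, hz⟩
  · rintro ⟨-, hz⟩
    exact ⟨mem_univ _, hz⟩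

/-- size is monotone: strictly below means at least one more -/
theorem sz_lt {z w : P} (h : z < w) : sz (univ : Finset P) w + 1 ≤ sz (univ : Finset P) z := by
  unfold sz
  apply Nat.succ_le_of_lt
  apply card_lt_card
  rw [Finset.ssubset_iff_of_subset]
  · refine ⟨z, mem_upF.2 ⟨mem_univ _, le_rfl⟩, fun h1 => ?_⟩
    exact absurd (mem_upF.1 h1).2 (not_le_of_gt h)
  · intro x hx
    exact mem_upF.2 ⟨mem_univ _, h.le.trans (mem_upF.1 hx).2⟩

/-- the new element of a rectangle rotation has exactly the `2m + 2` elements `wf`, `e 0 c`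
(`c ≤ m`), `e i 0` (`1 ≤ i ≤ m`) above it -/
theorem Data.up_wf_false (h : Data false m e L ch y wf) (z : P) :
    wf ≤ z ↔ z = wf ∨ (∃ c ≤ m, z = e 0 c) ∨ ∃ i ≤ m, z = e i 0 := by
  have h0m := (h.hw.2 0 (Nat.zero_le _)).2 (by simp)
  have hmm := (h.hw.2 m le_rfl).2 (by simp)
  rw [jj_false] at h0m hmm
  rw [Nat.sub_zero] at h0m
  rw [Nat.sub_self] at hmm
  constructor
  · intro hz
    by_cases hzw : z = wf
    · exact Or.inl hzw
    · have hlt : wf < z := lt_of_le_of_ne hz (Ne.symm hzw)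
      have hlev := lev_strictAnti hlt
      have hw1 := h.hw.1
      rw [jj_false] at hw1
      obtain ⟨i, c, hr, hic, rfl⟩ := h.hT.surj z (by rw [jj_false]; omega)
      obtain ⟨l, hl, hil, hcl, hle⟩ := (h.hT.le_e_iff h.hG (by rw [jj_false]; omega) hr hic).1 hz
      have hxl := reg_x (k := false) (m := m) hl
      have hlt' : wf < e l (jj false m - l) :=
        lt_of_le_of_ne hle (SizesP_ne h.hT h.hw hxl.1 hxl.2.le)
      have hmem := (h.hw.2 l hl).1 hlt'
      rw [mem_insert, mem_singleton] at hmem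
      rw [jj_false] at hcl
      rcases hmem with rfl | rfl
      · have hi : i = 0 := by omega
        subst hi
        exact Or.inr (Or.inl ⟨c, by omega, rfl⟩)
      · have hc : c = 0 := by omega
        subst hc
        exact Or.inr (Or.inr ⟨i, hil, rfl⟩)
  · rintro (rfl | ⟨c, hc, rfl⟩ | ⟨i, hi, rfl⟩)
    · exact le_rfl
    · refine h0m.le.trans ((h.hT.le_iff 0 m 0 c (by simp) (by simp) (by simp) ?_).2 ⟨le_rfl, hc⟩)
      rw [jj_false]
      omega
    · refine hmm.le.trans ((h.hT.le_iff m 0 i 0 (by simp) (by simp) ?_ ?_).2 ⟨hi, le_rfl⟩)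
      · rw [reg_false]
        exact hi
      · rw [jj_false]
        omega

theorem SizesP_upF (h : Data false m e L ch y wf) :
    upF (univ : Finset P) wf = insert wf ((range (m + 1)).image (fun c => e 0 c) ∪
      (Icc 1 m).image (fun i => e i 0)) := by
  ext z
  rw [mem_upF, mem_insert, mem_union, mem_image, mem_image, h.up_wf_false z]
  constructor
  · rintro ⟨-, h1 | ⟨c, hc, rfl⟩ | ⟨i, hi, rfl⟩⟩
    · exact Or.inl h1
    · exact Or.inr (Or.inl ⟨c, mem_range.2 (by omega), rfl⟩)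
    · rcases Nat.eq_zero_or_pos i with h0 | h0
      · exact Or.inr (Or.inl ⟨0, mem_range.2 (by omega), by rw [h0]⟩)
      · exact Or.inr (Or.inr ⟨i, mem_Icc.2 ⟨h0, hi⟩, rfl⟩)
  · rintro (h1 | ⟨c, hc, rfl⟩ | ⟨i, hi, rfl⟩)
    · exact ⟨mem_univ _, Or.inl h1⟩
    · exact ⟨mem_univ _, Or.inr (Or.inl ⟨c, by rw [mem_range] at hc; omega, rfl⟩)⟩
    · exact ⟨mem_univ _, Or.inr (Or.inr ⟨i, (mem_Icc.1 hi).2, rfl⟩)⟩

theorem Data.sz_wf_false (h : Data false m e L ch y wf) :
    sz (univ : Finset P) wf = 2 * m + 2 := by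
  have hT := h.hT
  unfold sz
  rw [SizesP_upF h, card_insert_of_notMem, card_union_of_disjoint, card_image_of_injOn,
    card_image_of_injOn, card_range, Nat.card_Icc]
  · omega
  · intro i hi i' hi' hii
    rw [coe_Icc, Set.mem_Icc] at hi hi'
    exact (SizesP_inj hT (by rw [reg_false]; exact hi.2) (by rw [jj_false]; omega)
      (by rw [reg_false]; exact hi'.2) (by rw [jj_false]; omega) hii).1
  · intro c hc c' hc' hcc
    rw [coe_range, Set.mem_Iio] at hc hc'
    exact (SizesP_inj hT (by rw [reg_false]; omega) (by rw [jj_false]; omega)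
      (by rw [reg_false]; omega) (by rw [jj_false]; omega) hcc).2
  · rw [Finset.disjoint_left]
    intro z hz hz'
    obtain ⟨c, hc, rfl⟩ := mem_image.1 hz
    obtain ⟨i, hi, hic⟩ := mem_image.1 hz'
    rw [mem_range] at hc
    rw [mem_Icc] at hi
    have h1 := (SizesP_inj hT (by rw [reg_false]; exact hi.2) (by rw [jj_false]; omega)
      (by rw [reg_false]; omega) (by rw [jj_false]; omega) hic).1
    omega
  · intro hmem
    rw [mem_union] at hmem
    rcases hmem with hmem | hmem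
    · obtain ⟨c, hc, hce⟩ := mem_image.1 hmem
      rw [mem_range] at hc
      exact SizesP_ne hT h.hw (by rw [reg_false]; omega) (by rw [jj_false]; omega) hce.symm
    · obtain ⟨i, hi, hie⟩ := mem_image.1 hmem
      rw [mem_Icc] at hi
      exact SizesP_ne hT h.hw (by rw [reg_false]; omega) (by rw [jj_false]; omega) hie.symm

/-- cells above the new element in the shifted case -/
def SizesP_S (m : ℕ) : Finset (ℕ × ℕ) :=
  (({0} : Finset ℕ) ×ˢ range (2 * m + 1) ∪ ({1} : Finset ℕ) ×ˢ Icc 1 m) ∪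
    (({2} : Finset ℕ) ×ˢ Icc 2 m ∪ ({3} : Finset ℕ) ×ˢ ({3} : Finset ℕ))

theorem SizesP_mem {m : ℕ} {q : ℕ × ℕ} : q ∈ SizesP_S m ↔
    (q.1 = 0 ∧ q.2 < 2 * m + 1) ∨ (q.1 = 1 ∧ 1 ≤ q.2 ∧ q.2 ≤ m) ∨
      (q.1 = 2 ∧ 2 ≤ q.2 ∧ q.2 ≤ m) ∨ (q.1 = 3 ∧ q.2 = 3) := by
  unfold SizesP_S
  simp only [mem_union, mem_product, mem_singleton, mem_range, mem_Icc]
  tauto

theorem SizesP_card {m : ℕ} (hm : 3 ≤ m) : (SizesP_S m).card = 4 * m + 1 := by
  unfold SizesP_S
  rw [card_union_of_disjoint, card_union_of_disjoint, card_union_of_disjoint, card_product,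
    card_product, card_product, card_product]
  · simp only [card_singleton, card_range, Nat.card_Icc]
    omega
  · rw [Finset.disjoint_left]
    rintro ⟨a, b⟩ h1 h2
    simp only [mem_product, mem_singleton] at h1 h2
    omega
  · rw [Finset.disjoint_left]
    rintro ⟨a, b⟩ h1 h2
    simp only [mem_product, mem_singleton] at h1 h2
    omega
  · rw [Finset.disjoint_left]
    rintro ⟨a, b⟩ h1 h2
    simp only [mem_product, mem_singleton, mem_union] at h1 h2
    omega

theorem SizesP_reg {m : ℕ} (hm : 3 ≤ m) {q : ℕ × ℕ} (hq : q ∈ SizesP_S m) :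
    reg true m q.1 q.2 ∧ q.1 + q.2 ≤ jj true m := by
  rw [SizesP_mem] at hq
  rw [reg_true, jj_true]
  omega

/-- shifted case: above `wf` there are `wf`, the `e 0 c` (`c ≤ 2m`) and the `e i c`
(`1 ≤ i ≤ c ≤ m`), together `1 + (2m + 1) + m (m + 1) / 2 ≥ 4m + 2` elements for `m ≥ 3` -/
theorem Data.sz_wf_true (h : Data true m e L ch y wf) :
    4 * m + 2 ≤ sz (univ : Finset P) wf := by
  have hm := h.hm
  have h0m := (h.hw.2 0 (Nat.zero_le _)).2 (by simp)
  have hmm := (h.hw.2 m le_rfl).2 (by simp)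
  rw [jj_true] at h0m hmm
  rw [Nat.sub_zero] at h0m
  have h2m : 2 * m - m = m := by omega
  rw [h2m] at hmm
  have hsub : insert wf ((SizesP_S m).image (fun q => e q.1 q.2)) ⊆ upF (univ : Finset P) wf := by
    intro z hz
    rw [mem_upF]
    refine ⟨mem_univ _, ?_⟩
    rw [mem_insert] at hz
    rcases hz with rfl | hz
    · exact le_rfl
    · obtain ⟨q, hq, rfl⟩ := mem_image.1 hz
      have hreg := SizesP_reg hm hq
      rw [SizesP_mem] at hq
      rcases hq with hq | hq
      · refine h0m.le.trans ((h.hT.le_iff 0 (2 * m) q.1 q.2 (by simp) (by simp) hreg.1 hreg.2).2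
          ⟨by omega, by omega⟩)
      · refine hmm.le.trans ((h.hT.le_iff m m q.1 q.2 (by simp) ?_ hreg.1 hreg.2).2
          ⟨by omega, by omega⟩)
        rw [jj_true]
        omega
  have hcard := card_le_card hsub
  rw [card_insert_of_notMem, card_image_of_injOn, SizesP_card hm] at hcard
  · unfold sz
    omega
  · intro q hq q' hq' hqq
    have h1 := SizesP_reg hm hq
    have h2 := SizesP_reg hm hq'
    have h3 := SizesP_inj h.hT h1.1 h1.2 h2.1 h2.2 hqq
    exact Prod.ext h3.1 h3.2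
  · intro hmem
    obtain ⟨q, hq, hqe⟩ := mem_image.1 hmem
    have h1 := SizesP_reg hm hq
    exact SizesP_ne h.hT h.hw h1.1 h1.2 hqe.symm

end Pool.Agent.GaussRot
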