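import Pool.Agent.W_448rot_h96.SizesP
import Pool.Agent.W_448rot_h96.EmbC

/-!
# Sizes of the elements outside the common part
-/

namespace Pool.Agent.GaussRot

set_option linter.unusedSectionVars false

open Finset Pool.Agent.GaussPoset

universe u

variable {P : Type u} [Fintype P] [PartialOrder P] [DecidableEq P]
variable {k : Bool} {m L : ℕ} {e : ℕ → ℕ → P} {ch y : ℕ → P} {wf : P}

theorem SizesPB_le {z w : P} (h : z ≤ w) : sz (univ : Finset P) w ≤ sz (univ : Finset P) z := by
  rcases h.eq_or_lt with rfl | h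
  · exact le_rfl
  · have := sz_lt h
    omega

theorem SizesPB_x1 (h : Data k m e L ch y wf) : (⟨1, jj k m - 1⟩ : Cell) ∈ CC k m L := by
  have hL := h.hC.hL
  have hm := h.hm
  rw [mem_CC]
  cases k
  · rw [reg_false]
    rw [jj_false] at hL ⊢
    refine ⟨⟨by simp only; omega, by simp only; omega⟩, Or.inl (by simp only; omega)⟩
  · rw [reg_true]
    rw [jj_true] at hL ⊢
    refine ⟨⟨by simp only; omega, by simp only; omega⟩, Or.inl (by simp only; omega)⟩

theorem SizesPB_y (h : Data k m e L ch y wf) {i : ℕ} (h2 : 2 ≤ i) (hi : i ≤ m) :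
    (⟨i, jj k m + 1 - i⟩ : Cell) ∈ CC k m L := by
  have hL := h.hC.hL
  have hm := h.hm
  rw [mem_CC]
  cases k
  · rw [reg_false]
    rw [jj_false] at hL ⊢
    exact ⟨⟨hi, by simp only; omega⟩, Or.inr (Or.inr ⟨by simp only; omega, h2⟩)⟩
  · rw [reg_true]
    rw [jj_true] at hL ⊢
    exact ⟨⟨by simp only; omega, by simp only; omega⟩,
      Or.inr (Or.inr ⟨by simp only; omega, h2⟩)⟩

/-- an element of type `{1}` has size at least `jj k m + 3`: it is strictly below
`x_1 = e 1 (jj - 1)` of size `2m` resp. `4m - 1` (`Data.sz_eps`, `sz_rect`, `sz_stair`) -/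
theorem Data.sz_one (h : Data k m e L ch y wf) {w : P} (hw : Typ k m e w {1}) :
    jj k m + 3 ≤ sz (univ : Finset P) w := by
  have hm := h.hm
  have hlt : w < e 1 (jj k m - 1) := (hw.2 1 (by omega)).2 (Finset.mem_singleton_self 1)
  have h1 := sz_lt hlt
  have h2 := h.sz_eps (SizesPB_x1 h)
  have hj : 1 + (jj k m - 1) ≤ jj k m := by
    cases k
    · rw [jj_false]; omega
    · rw [jj_true]; omega
  have h3 : eps k m e ch y ⟨1, jj k m - 1⟩ = e 1 (jj k m - 1) := by
    unfold eps
    rw [if_pos hj]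
  rw [h3] at h2
  have hR : (⟨1, jj k m - 1⟩ : Cell) ∈ Rs k m L := by
    have := SizesPB_x1 h
    rw [mem_CC] at this
    exact mem_Rs.2 this.1
  cases k
  · rw [sz_rect m L hR] at h2
    rw [jj_false] at *
    simp only at h2
    omega
  · have h4 := sz_stair m L hR
    rw [← h2] at h4
    rw [jj_true] at *
    simp only at h4
    omega

/-- a natural element of level `jj k m + 1` in row `i`, `2 ≤ i ≤ m`, has size at least `2m + 2`
resp. `4m + 2`: `(i+1)(m+2-i) ≥ 2m + 2`, resp. `(i+1)(4m+4-3i) ≥ 8m + 4` (concave in `i`,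
`m ≥ 3`) -/
theorem Data.sz_nat (h : Data k m e L ch y wf) {i : ℕ} (h2 : 2 ≤ i) (hi : i ≤ m) {w : P}
    (hw : Typ k m e w {i - 1, i}) :
    (k = false → 2 * m + 2 ≤ sz (univ : Finset P) w) ∧
      (k = true → 4 * m + 2 ≤ sz (univ : Finset P) w) := by
  have hm := h.hm
  have hwy : w = y i := h.hS.uniq w (y i) _ hw (h.hy i h2 hi)
  have h1 := h.sz_eps (SizesPB_y h h2 hi)
  have h3 : eps k m e ch y ⟨i, jj k m + 1 - i⟩ = y i := by
    unfold eps
    have hj : ¬ (i + (jj k m + 1 - i) ≤ jj k m) := by omega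
    simp only
    rw [if_neg hj, if_neg (by omega)]
  rw [h3, ← hwy] at h1
  have hR : (⟨i, jj k m + 1 - i⟩ : Cell) ∈ Rs k m L := by
    have := SizesPB_y h h2 hi
    rw [mem_CC] at this
    exact mem_Rs.2 this.1
  obtain ⟨a, rfl⟩ := Nat.exists_eq_add_of_le h2
  obtain ⟨b, rfl⟩ := Nat.exists_eq_add_of_le hi
  constructor
  · rintro rfl
    rw [h1, sz_rect _ L hR, jj_false]
    simp only
    have e1 : 2 + a + b + 1 - (2 + a) + 1 = b + 2 := by omega
    rw [e1]
    nlinarith [Nat.zero_le (a * b)]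
  · rintro rfl
    have h4 := sz_stair _ L hR
    rw [← h1, jj_true] at h4
    simp only at h4
    have e1 : 2 * (2 * (2 + a + b) + 1 - (2 + a)) + 2 - (2 + a) = a + 4 * b + 6 := by omega
    rw [e1] at h4
    have hab : 1 ≤ a + b := by omega
    have h5 : 8 * (2 + a + b) + 4 ≤ (2 + a + 1) * (a + 4 * b + 6) := by
      rcases Nat.eq_zero_or_pos a with ha | ha
      · subst ha
        omega
      · nlinarith [Nat.zero_le (a * b), Nat.mul_le_mul ha ha]
    omega

theorem SizesPB_wf (h : Data k m e L ch y wf) : jj k m + 3 ≤ sz (univ : Finset P) wf := by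
  have hm := h.hm
  cases k
  · rw [h.sz_wf_false, jj_false]
    omega
  · have := h.sz_wf_true
    rw [jj_true]
    omega

theorem SizesPB_nat (h : Data k m e L ch y wf) {i : ℕ} (h2 : 2 ≤ i) (hi : i ≤ m) {w : P}
    (hw : Typ k m e w {i - 1, i}) : jj k m + 3 ≤ sz (univ : Finset P) w := by
  have hm := h.hm
  have h1 := h.sz_nat h2 hi hw
  cases k
  · have := h1.1 rfl
    rw [jj_false]
    omega
  · have := h1.2 rfl
    rw [jj_true]
    omega

/-- all elements outside the common part have size at least `jj k m + 3`; for those of `TT`: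
they are strictly below `ch (L-1)` of size `L ≥ jj k m + 2`; the others by `Data.outside` -/
theorem Data.sz_out (h : Data k m e L ch y wf) {z : P}
    (hz : z ∉ (CC k m L).image (eps k m e ch y)) :
    jj k m + 3 ≤ sz (univ : Finset P) z := by
  by_cases hT : z ∈ TT k m e L
  · obtain ⟨h1, h2, h3, -⟩ := h.hang ⟨z, hT⟩
    have hJ : (CC k m L).image (eps k m e ch y) ∈ J (univ : Finset P) := by
      rw [mem_J]
      exact ⟨Finset.subset_univ _, fun x hx y _ hxy => h.upper x hx y hxy⟩
    have h4 := sz_of_mem_J hJ h1.hx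
    rw [mem_TT] at hT
    have h5 := sz_lt (h.hC.st_ge z hT.1 hT.2)
    omega
  · have hzU : z ∉ (CC k m L).image (eps k m e ch y) ∪ TT k m e L := by
      rw [Finset.mem_union]
      rintro (h1 | h1)
      · exact hz h1
      · exact hT h1
    obtain ⟨w, hzw, -, hc⟩ := h.outside hzU
    refine le_trans ?_ (SizesPB_le hzw)
    rcases hc with ⟨-, h1 | h1⟩ | ⟨-, h1 | h1 | ⟨i, h2, hi, h1⟩⟩
    · rw [h.hS.uniq w wf _ h1 h.hw]
      exact SizesPB_wf h
    · exact h.sz_one h1
    · rw [h.hS.uniq w wf _ h1 h.hw]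
      exact SizesPB_wf h
    · exact h.sz_one h1
    · exact SizesPB_nat h h2 hi h1

/-- If there is no element of type `{1}`, the elements outside the common part and `TT` are `wf`
or have size at least `2m + 3` (rectangle). -/
theorem Data.sz_out_false (h : Data false m e L ch y wf) (h1 : ∀ w, ¬ Typ false m e w {1}) {z : P}
    (hz : z ∉ (CC false m L).image (eps false m e ch y) ∪ TT false m e L) :
    z = wf ∨ 2 * m + 3 ≤ sz (univ : Finset P) z := by
  obtain ⟨w, -, -, hc⟩ := h.outside hz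
  rcases hc with ⟨hzw, h2 | h2⟩ | ⟨hzw, h2 | h2 | ⟨i, h3, hi, h2⟩⟩
  · left
    rw [hzw]
    exact h.hS.uniq w wf _ h2 h.hw
  · exact absurd h2 (h1 w)
  · right
    have h4 := sz_lt hzw
    rw [h.hS.uniq w wf _ h2 h.hw, h.sz_wf_false] at h4
    omega
  · exact absurd h2 (h1 w)
  · right
    have h4 := sz_lt hzw
    have h5 := (h.sz_nat h3 hi h2).1 rfl
    omega

/-- If there is no element of type `{1}`, the elements outside the common part and `TT` have size
at least `4m + 2` (shifted case). -/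
theorem Data.sz_out_true (h : Data true m e L ch y wf) (h1 : ∀ w, ¬ Typ true m e w {1}) {z : P}
    (hz : z ∉ (CC true m L).image (eps true m e ch y) ∪ TT true m e L) :
    4 * m + 2 ≤ sz (univ : Finset P) z := by
  obtain ⟨w, hzw', -, hc⟩ := h.outside hz
  refine le_trans ?_ (SizesPB_le hzw')
  rcases hc with ⟨-, h2 | h2⟩ | ⟨-, h2 | h2 | ⟨i, h3, hi, h2⟩⟩
  · rw [h.hS.uniq w wf _ h2 h.hw]
    exact h.sz_wf_true
  · exact absurd h2 (h1 w)
  · rw [h.hS.uniq w wf _ h2 h.hw]
    exact h.sz_wf_true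
  · exact absurd h2 (h1 w)
  · exact (h.sz_nat h3 hi h2).2 rfl

end Pool.Agent.GaussRot
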