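import Pool.Agent.W_448rot_h96.SizesR

/-!
# Sizes of the cells outside the common part
-/

namespace Pool.Agent.GaussRot

set_option linter.unusedSectionVars false

open Finset

variable {k : Bool} {m L : ℕ}

lemma SizesRB_card (G : Finset Cell) (L a b d c : ℕ) (h0 : ∀ x < L, (⟨0, x⟩ : Cell) ∈ G)
    (h1 : ∀ x < a, (⟨1, x + d⟩ : Cell) ∈ G) (h2 : ∀ x < b, (⟨x + 2, c⟩ : Cell) ∈ G) :
    L + a + b ≤ G.card := by
  set A : Finset Cell := (range L).image (fun x => ⟨0, x⟩) with hA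
  set B : Finset Cell := (range a).image (fun x => ⟨1, x + d⟩) with hB
  set C : Finset Cell := (range b).image (fun x => ⟨x + 2, c⟩) with hC
  have cA : A.card = L := by
    rw [hA, card_image_of_injective _ (fun x y h => (Cell.ext_iff.1 h).2), card_range]
  have cB : B.card = a := by
    rw [hB, card_image_of_injective _ (fun x y h => Nat.add_right_cancel (Cell.ext_iff.1 h).2),
      card_range]
  have cC : C.card = b := by
    rw [hC, card_image_of_injective _ (fun x y h => Nat.add_right_cancel (Cell.ext_iff.1 h).1),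
      card_range]
  have dAB : Disjoint A B := by
    rw [disjoint_left]
    intro p hp hq
    obtain ⟨x, _, rfl⟩ := mem_image.1 hp
    obtain ⟨y, _, hy⟩ := mem_image.1 hq
    have := (Cell.ext_iff.1 hy).1
    simp at this
  have dC : Disjoint (A ∪ B) C := by
    rw [disjoint_left]
    intro p hp hq
    obtain ⟨y, _, hy⟩ := mem_image.1 hq
    have h3 := (Cell.ext_iff.1 hy).1
    rcases mem_union.1 hp with h | h
    · obtain ⟨x, _, rfl⟩ := mem_image.1 h
      simp at h3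
    · obtain ⟨x, _, rfl⟩ := mem_image.1 h
      simp at h3
  have hsub : (A ∪ B) ∪ C ⊆ G := by
    intro p hp
    rcases mem_union.1 hp with h | h
    · rcases mem_union.1 h with h | h
      · obtain ⟨x, hx, rfl⟩ := mem_image.1 h
        exact h0 x (mem_range.1 hx)
      · obtain ⟨x, hx, rfl⟩ := mem_image.1 h
        exact h1 x (mem_range.1 hx)
    · obtain ⟨x, hx, rfl⟩ := mem_image.1 h
      exact h2 x (mem_range.1 hx)
  have := card_le_card hsub
  rw [card_union_of_disjoint dC, card_union_of_disjoint dAB, cA, cB, cC] at this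
  exact this

/-- A relatively upper set of cells which contains the last cell `(0, L-1)` of row `0` and a cell
outside the common part has at least `2 jj + 3` elements for the rectangle: row `0` (`L ≥ m + 2`
cells) and the cells `(i', c')`, `i' ≥ 1`, above the other cell (at least `m + 1`:
`i (c+1) ≥ i (m + 2 - i)`). -/
theorem ref_big_false (hm : 3 ≤ m) (hL : m + 2 ≤ L) {G : Finset Cell} (hG : G ∈ J (Rs false m L))
    (h0 : (⟨0, L - 1⟩ : Cell) ∈ G) (hn : ¬ G ⊆ CC false m L) : 2 * m + 3 ≤ G.card := by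
  obtain ⟨p, hp, hpn⟩ := not_subset.1 hn
  obtain ⟨hG1, hG2⟩ := mem_J.1 hG
  have hpR := hG1 hp
  rw [mem_CC] at hpn
  rw [mem_Rs] at hpR
  have h1 : ¬ (p.i + p.c ≤ jj false m ∨ p.i = 0 ∨
      (p.i + p.c = jj false m + 1 ∧ 2 ≤ p.i)) := fun h => hpn ⟨hpR, h⟩
  rw [jj_false] at h1
  rw [reg_false] at hpR
  obtain ⟨hi, hc⟩ := hpR
  have h2 : 1 ≤ p.i ∧ m + 1 ≤ p.i + p.c := by omega
  have h3 := SizesRB_card G L (p.c + 1) (p.i - 1) 0 p.c
    (fun x hx => hG2 _ h0 _ (mem_Rs.2 ⟨reg_false.2 (Nat.zero_le _), hx⟩)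
      (cell_le.2 ⟨le_rfl, by change x ≤ L - 1; omega⟩))
    (fun x hx => hG2 _ hp _ (mem_Rs.2 ⟨reg_false.2 (by change 1 ≤ m; omega),
      by change x + 0 < L; omega⟩) (cell_le.2 ⟨h2.1, by change x + 0 ≤ p.c; omega⟩))
    (fun x hx => hG2 _ hp _ (mem_Rs.2 ⟨reg_false.2 (by change x + 2 ≤ m; omega), hc⟩)
      (cell_le.2 ⟨by change x + 2 ≤ p.i; omega, le_rfl⟩))
  omega

/-- Staircase: at least `4m + 2` elements: row `0` (`L ≥ 2m + 2`) and the cells `(i',c')` with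
`1 ≤ i' ≤ c'` above the other cell `(i, c)`, at least `2m`: their number is
`∑_{1 ≤ i' ≤ i} (c + 1 - i')`, `i + c ≥ 2m + 1`, `i ≤ c`. -/
theorem ref_big_true (hm : 3 ≤ m) (hL : 2 * m + 2 ≤ L) {G : Finset Cell}
    (hG : G ∈ J (Rs true m L)) (h0 : (⟨0, L - 1⟩ : Cell) ∈ G) (hn : ¬ G ⊆ CC true m L) :
    4 * m + 2 ≤ G.card := by
  obtain ⟨p, hp, hpn⟩ := not_subset.1 hn
  obtain ⟨hG1, hG2⟩ := mem_J.1 hG
  have hpR := hG1 hp
  rw [mem_CC] at hpn
  rw [mem_Rs] at hpR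
  have h1 : ¬ (p.i + p.c ≤ jj true m ∨ p.i = 0 ∨
      (p.i + p.c = jj true m + 1 ∧ 2 ≤ p.i)) := fun h => hpn ⟨hpR, h⟩
  rw [jj_true] at h1
  rw [reg_true] at hpR
  obtain ⟨hi, hc⟩ := hpR
  have h2 : 1 ≤ p.i ∧ 2 * m + 1 ≤ p.i + p.c := by omega
  have h3 := SizesRB_card G L p.c (p.i - 1) 1 p.c
    (fun x hx => hG2 _ h0 _ (mem_Rs.2 ⟨reg_true.2 (Nat.zero_le _), hx⟩)
      (cell_le.2 ⟨le_rfl, by change x ≤ L - 1; omega⟩))
    (fun x hx => hG2 _ hp _ (mem_Rs.2 ⟨reg_true.2 (by change 1 ≤ x + 1; omega),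
      by change x + 1 < L; omega⟩) (cell_le.2 ⟨h2.1, by change x + 1 ≤ p.c; omega⟩))
    (fun x hx => hG2 _ hp _ (mem_Rs.2 ⟨reg_true.2 (by change x + 2 ≤ p.c; omega), hc⟩)
      (cell_le.2 ⟨by change x + 2 ≤ p.i; omega, le_rfl⟩))
  omega

end Pool.Agent.GaussRot
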