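import Pool.Agent.W_448rot_h96.RefSmall
import Pool.Agent.W_448rot_h96.RefSz
import Pool.Agent.W_448rot_h96.EmbDefs

/-!
# Low coefficients of the weights of the filters
-/

namespace Pool.Agent.GaussRot

set_option linter.unusedSectionVars false

open Finset Pool.Agent.GaussPoset

universe u

/-- `EE = ((1-X) U' - 1) AF G + (AF G - A')`; general form: if `(1-X) U' = 1 + g` and
`AF G + b = A'` modulo `X^s` then `EE = g AF G - b` modulo `X^s`. -/
theorem EE_cg {Q : Type*} [PartialOrder Q] [DecidableEq Q] {A' U' g b : PowerSeries ℤ} {s : ℕ}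
    {G : Finset Q} (h1 : Cg s ((1 - PowerSeries.X) * U') (1 + g)) (h2 : Cg s (AF G + b) A') :
    Cg s (EE A' U' G) (g * AF G - b) := by
  have h := (h1.mul (Cg.refl s (AF G))).sub h2.symm
  refine (Cg.of_eq ?_).trans (h.trans (Cg.of_eq ?_))
  · rfl
  · ring

section Cells

variable {m L : ℕ}

lemma SmallE_zero_mem {k : Bool} {m L : ℕ} (hL : 0 < L) {G : Finset Cell} (hG : G ∈ J (Rs k m L))
    (hne : G.Nonempty) : (⟨0, 0⟩ : Cell) ∈ G := by
  obtain ⟨p, hp⟩ := hne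
  refine (mem_J.1 hG).2 p hp ⟨0, 0⟩ (mem_Rs.2 ⟨?_, hL⟩) ⟨Nat.zero_le _, Nat.zero_le _⟩
  cases k
  · exact reg_false.2 (Nat.zero_le _)
  · exact reg_true.2 le_rfl

lemma SmallE_A {k : Bool} {m L : ℕ} (hL : 0 < L) {G : Finset Cell} (hG : G ∈ J (Rs k m L))
    (hne : G.Nonempty) : Cg 2 (AF G) (1 + PowerSeries.X) :=
  A_small G (SmallE_zero_mem hL hG hne) fun _ _ => ⟨Nat.zero_le _, Nat.zero_le _⟩

lemma SmallE_Rs_ne {k : Bool} {m L : ℕ} (hL : 0 < L) : (Rs k m L).Nonempty := by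
  refine ⟨⟨0, 0⟩, mem_Rs.2 ⟨?_, hL⟩⟩
  cases k
  · exact reg_false.2 (Nat.zero_le _)
  · exact reg_true.2 le_rfl

/-- Rectangle: weights of the relatively upper sets containing the origin are `O(X^2)`:
`A_small` for `G` and for the whole set, `ref_small_false`, `EE_cg` with `s = 2`. -/
theorem EE_false_two (hm : 3 ≤ m) (hL : m + 1 ≤ L) {G : Finset Cell} (hG : G ∈ J (Rs false m L))
    (hne : G.Nonempty) :
    Cg 2 (EE (AF (Rs false m L)) (U1 (Rs false m L)) G) 0 := by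
  have h0 : 0 < L := by omega
  have hA := SmallE_A h0 hG hne
  have hA' := SmallE_A h0 (self_mem_J (Rs false m L)) (SmallE_Rs_ne h0)
  have hU := (ref_small_false m L (by omega) (by omega)).mono (show 2 ≤ 4 by norm_num)
  have hX : Cg 2 (PowerSeries.X ^ 2 + PowerSeries.X ^ 3 : PowerSeries ℤ) 0 := by
    have h := cg_X_pow (le_refl 2) (1 + PowerSeries.X : PowerSeries ℤ)
    refine (Cg.of_eq ?_).trans h
    ring
  have h1 : Cg 2 ((1 - PowerSeries.X) * U1 (Rs false m L)) (1 + 0) := by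
    refine hU.trans ?_
    have h := (Cg.refl 2 (1 : PowerSeries ℤ)).add hX
    refine (Cg.of_eq ?_).trans h
    ring
  have h2 : Cg 2 (AF G + 0) (AF (Rs false m L)) := by
    rw [add_zero]; exact hA.trans hA'.symm
  refine (EE_cg h1 h2).trans (Cg.of_eq ?_)
  ring

/-- Rectangle: if `G` contains `(0,1)` and `(1,0)` all missing cells have size `≥ 3`
(`AF_first`), and `EE = X^2` modulo `X^3`. -/
theorem EE_false_three (hm : 3 ≤ m) (hL : m + 1 ≤ L) {G : Finset Cell}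
    (hG : G ∈ J (Rs false m L)) (h1 : (⟨0, 1⟩ : Cell) ∈ G) (h2 : (⟨1, 0⟩ : Cell) ∈ G) :
    Cg 3 (AF G) (AF (Rs false m L)) ∧
      Cg 3 (EE (AF (Rs false m L)) (U1 (Rs false m L)) G) (PowerSeries.X ^ 2) := by
  have h0 : 0 < L := by omega
  have hne : G.Nonempty := ⟨_, h1⟩
  have hA := SmallE_A h0 hG hne
  have h00 := SmallE_zero_mem h0 hG hne
  have hF : Cg 3 (AF (Rs false m L)) (AF G) := by
    refine AF_first hG 3 fun y hy => ?_
    rw [Finset.mem_sdiff] at hy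
    rw [sz_rect m L hy.1]
    have hy2 := hy.2
    obtain ⟨i, c⟩ := y
    simp only
    rcases i with _ | _ | i
    · rcases c with _ | _ | c
      · exact absurd h00 hy2
      · exact absurd h1 hy2
      · omega
    · rcases c with _ | c
      · exact absurd h2 hy2
      · omega
    · have h3 : 3 * 1 ≤ (i + 1 + 1 + 1) * (c + 1) := Nat.mul_le_mul (by omega) (by omega)
      omega
  refine ⟨hF.symm, ?_⟩
  have hU := (ref_small_false m L (by omega) (by omega)).mono (show 3 ≤ 4 by norm_num)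
  have hX : Cg 3 (PowerSeries.X ^ 3 : PowerSeries ℤ) 0 := by
    have h := cg_X_pow (le_refl 3) (1 : PowerSeries ℤ)
    rwa [mul_one] at h
  have h3 : Cg 3 ((1 - PowerSeries.X) * U1 (Rs false m L)) (1 + PowerSeries.X ^ 2) := by
    refine hU.trans ?_
    have h := (Cg.refl 3 (1 + PowerSeries.X ^ 2 : PowerSeries ℤ)).add hX
    rwa [add_zero] at h
  have h4 : Cg 3 (AF G + 0) (AF (Rs false m L)) := by
    rw [add_zero]; exact hF.symm
  refine (EE_cg h3 h4).trans ?_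
  have h5 := (Cg.X_mul (k := 2) hA).mono (show 3 ≤ 2 + 2 by norm_num)
  have h6 := (Cg.refl 3 (PowerSeries.X ^ 2 : PowerSeries ℤ)).add hX
  rw [add_zero] at h6
  refine (Cg.of_eq ?_).trans (h5.trans ((Cg.of_eq ?_).trans h6))
  · ring
  · ring

/-- Rectangle: the filter generated by the lost cell misses exactly one cell of size `3`, namely
`(2,0)` (`AF_first'` with `s = 3`): `EE = (X^2 + X^3)(1 + X) - X^3 = X^2 + X^3` modulo `X^4`. -/
theorem EE_false_lost (hm : 3 ≤ m) (hL : m + 1 ≤ L) :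
    Cg 4 (EE (AF (Rs false m L)) (U1 (Rs false m L)) (upF (Rs false m L) ⟨1, m⟩))
      (PowerSeries.X ^ 2 + PowerSeries.X ^ 3) := by
  have h0 : 0 < L := by omega
  have hcell : (⟨1, m⟩ : Cell) ∈ Rs false m L :=
    mem_Rs.2 ⟨reg_false.2 (by change 1 ≤ m; omega), by change m < L; omega⟩
  have hG := upF_mem_J (Rs false m L) ⟨1, m⟩
  have hne : (upF (Rs false m L) ⟨1, m⟩).Nonempty := ⟨_, LayersC_self_mem hcell⟩
  have hA := SmallE_A h0 hG hne
  have hsz : ∀ y ∈ Rs false m L \ upF (Rs false m L) ⟨1, m⟩,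
      y = ⟨2, 0⟩ ∨ 4 ≤ sz (Rs false m L) y := by
    intro y hy
    rw [Finset.mem_sdiff] at hy
    rw [sz_rect m L hy.1]
    have hy2 : ¬ (y.i ≤ 1 ∧ y.c ≤ m) := fun h => hy.2 (mem_upF.2 ⟨hy.1, h⟩)
    obtain ⟨i, c⟩ := y
    simp only at hy2 ⊢
    rcases Nat.lt_or_ge i 2 with hi | hi
    · right
      have h3 : 1 * 4 ≤ (i + 1) * (c + 1) := Nat.mul_le_mul (by omega) (by omega)
      omega
    · rcases Nat.eq_zero_or_pos c with hc | hc
      · subst hc
        rcases Nat.eq_or_lt_of_le hi with hi2 | hi2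
        · left
          rw [← hi2]
        · right
          omega
      · right
        have h3 : 3 * 2 ≤ (i + 1) * (c + 1) := Nat.mul_le_mul (by omega) (by omega)
        omega
  have h20 : (⟨2, 0⟩ : Cell) ∈ Rs false m L :=
    mem_Rs.2 ⟨reg_false.2 (by change 2 ≤ m; omega), h0⟩
  have hsz20 : sz (Rs false m L) ⟨2, 0⟩ = 3 := (sz_rect m L h20).trans (by norm_num)
  have hF := AF_first' hG 3 fun y hy => by
    rcases hsz y hy with h | h
    · rw [h, hsz20]
    · omega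
  have hcard : (((Rs false m L) \ upF (Rs false m L) ⟨1, m⟩).filter
      (fun y => sz (Rs false m L) y = 3)).card = 1 := by
    rw [Finset.card_eq_one]
    refine ⟨⟨2, 0⟩, ?_⟩
    ext y
    rw [Finset.mem_filter, Finset.mem_singleton]
    constructor
    · rintro ⟨h1, h2⟩
      rcases hsz y h1 with h | h
      · exact h
      · omega
    · rintro rfl
      refine ⟨Finset.mem_sdiff.2 ⟨h20, fun h => ?_⟩, hsz20⟩
      have h2 : (2 : ℕ) ≤ 1 := (mem_upF.1 h).2.1
      omega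
  rw [hcard, Nat.cast_one, one_mul] at hF
  have h1 : Cg 4 ((1 - PowerSeries.X) * U1 (Rs false m L))
      (1 + (PowerSeries.X ^ 2 + PowerSeries.X ^ 3)) := by
    refine (ref_small_false m L (by omega) (by omega)).trans (Cg.of_eq ?_)
    ring
  refine (EE_cg h1 hF.symm).trans ?_
  have h5 := Cg.X_mul (k := 2) ((Cg.refl 2 (1 + PowerSeries.X : PowerSeries ℤ)).mul hA)
  have hX : Cg 4 (PowerSeries.X ^ 4 : PowerSeries ℤ) 0 := by
    have h := cg_X_pow (le_refl 4) (1 : PowerSeries ℤ)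
    rwa [mul_one] at h
  have h6 := (Cg.refl 4 (PowerSeries.X ^ 2 + PowerSeries.X ^ 3 : PowerSeries ℤ)).add hX
  rw [add_zero] at h6
  refine (Cg.of_eq ?_).trans ((h5.sub (Cg.refl 4 (PowerSeries.X ^ 3))).trans
    ((Cg.of_eq ?_).trans h6))
  · ring
  · ring

/-- Rectangle: a relatively upper set of cells containing `(0,2)`, `(2,0)` misses no cell of size
`≤ 3`: `AF G = AF R` modulo `X^4`. -/
theorem AF_false_four (hm : 3 ≤ m) (hL : m + 1 ≤ L) {G : Finset Cell}
    (hG : G ∈ J (Rs false m L)) (h1 : (⟨0, 2⟩ : Cell) ∈ G) (h2 : (⟨2, 0⟩ : Cell) ∈ G) :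
    Cg 4 (AF G) (AF (Rs false m L)) := by
  have h0 : 0 < L := by omega
  have hup := (mem_J.1 hG).2
  refine (AF_first hG 4 fun y hy => ?_).symm
  rw [Finset.mem_sdiff] at hy
  rw [sz_rect m L hy.1]
  have hy2 : ¬ (y.i ≤ 0 ∧ y.c ≤ 2) := fun h => hy.2 (hup _ h1 y hy.1 h)
  have hy3 : ¬ (y.i ≤ 2 ∧ y.c ≤ 0) := fun h => hy.2 (hup _ h2 y hy.1 h)
  obtain ⟨i, c⟩ := y
  simp only at hy2 hy3 ⊢
  rcases Nat.eq_zero_or_pos i with hi | hi
  · subst hi
    omega
  · rcases Nat.eq_zero_or_pos c with hc | hc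
    · subst hc
      omega
    · have h3 : 2 * 2 ≤ (i + 1) * (c + 1) := Nat.mul_le_mul (by omega) (by omega)
      omega

/-- Staircase: if `G` contains `(0,1)` all missing cells have size `≥ 3`, and `EE = O(X^3)`. -/
theorem EE_true_three (hm : 3 ≤ m) (hL : 2 * m + 1 ≤ L) {G : Finset Cell}
    (hG : G ∈ J (Rs true m L)) (h1 : (⟨0, 1⟩ : Cell) ∈ G) :
    Cg 3 (AF G) (AF (Rs true m L)) ∧
      Cg 3 (EE (AF (Rs true m L)) (U1 (Rs true m L)) G) 0 := by
  have h0 : 0 < L := by omega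
  have hup := (mem_J.1 hG).2
  have hF : Cg 3 (AF (Rs true m L)) (AF G) := by
    refine AF_first hG 3 fun y hy => ?_
    rw [Finset.mem_sdiff] at hy
    have hs := sz_stair m L hy.1
    have hreg := reg_true.1 (mem_Rs.1 hy.1).1
    have hy2 : ¬ (y.i ≤ 0 ∧ y.c ≤ 1) := fun h => hy.2 (hup _ h1 y hy.1 h)
    obtain ⟨i, c⟩ := y
    simp only at hy2 hs hreg
    rcases Nat.eq_zero_or_pos i with hi | hi
    · subst hi
      omega
    · have h3 : 2 * 3 ≤ (i + 1) * (2 * c + 2 - i) := Nat.mul_le_mul (by omega) (by omega)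
      omega
  refine ⟨hF.symm, ?_⟩
  have hU := (ref_small_true m L (by omega)).mono (show 3 ≤ 4 by norm_num)
  have hX : Cg 3 (PowerSeries.X ^ 3 : PowerSeries ℤ) 0 := by
    have h := cg_X_pow (le_refl 3) (1 : PowerSeries ℤ)
    rwa [mul_one] at h
  have h3 : Cg 3 ((1 - PowerSeries.X) * U1 (Rs true m L)) (1 + 0) := by
    refine hU.trans ?_
    exact (Cg.refl 3 (1 : PowerSeries ℤ)).add hX
  have h4 : Cg 3 (AF G + 0) (AF (Rs true m L)) := by
    rw [add_zero]; exact hF.symm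
  refine (EE_cg h3 h4).trans (Cg.of_eq ?_)
  ring

/-- Staircase: the filter generated by the lost cell contains all cells of size `≤ 3` (`(0,2)` and
`(1,1)`), so `EE = X^3` modulo `X^4`. -/
theorem EE_true_lost (hm : 3 ≤ m) (hL : 2 * m + 1 ≤ L) :
    Cg 4 (EE (AF (Rs true m L)) (U1 (Rs true m L)) (upF (Rs true m L) ⟨1, 2 * m⟩))
      (PowerSeries.X ^ 3) := by
  have h0 : 0 < L := by omega
  have hcell : (⟨1, 2 * m⟩ : Cell) ∈ Rs true m L :=
    mem_Rs.2 ⟨reg_true.2 (by change 1 ≤ 2 * m; omega), by change 2 * m < L; omega⟩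
  have hG := upF_mem_J (Rs true m L) ⟨1, 2 * m⟩
  have hne : (upF (Rs true m L) ⟨1, 2 * m⟩).Nonempty := ⟨_, LayersC_self_mem hcell⟩
  have hA := SmallE_A h0 hG hne
  have hF : Cg 4 (AF (Rs true m L)) (AF (upF (Rs true m L) ⟨1, 2 * m⟩)) := by
    refine AF_first hG 4 fun y hy => ?_
    rw [Finset.mem_sdiff] at hy
    have hs := sz_stair m L hy.1
    have hreg := reg_true.1 (mem_Rs.1 hy.1).1
    have hy2 : ¬ (y.i ≤ 1 ∧ y.c ≤ 2 * m) := fun h => hy.2 (mem_upF.2 ⟨hy.1, h⟩)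
    obtain ⟨i, c⟩ := y
    simp only at hy2 hs hreg
    rcases Nat.lt_or_ge i 2 with hi | hi
    · have h3 : 1 * 8 ≤ (i + 1) * (2 * c + 2 - i) := Nat.mul_le_mul (by omega) (by omega)
      omega
    · have h3 : 3 * 4 ≤ (i + 1) * (2 * c + 2 - i) := Nat.mul_le_mul (by omega) (by omega)
      omega
  have h1 : Cg 4 ((1 - PowerSeries.X) * U1 (Rs true m L)) (1 + PowerSeries.X ^ 3) :=
    ref_small_true m L (by omega)
  have h2 : Cg 4 (AF (upF (Rs true m L) ⟨1, 2 * m⟩) + 0) (AF (Rs true m L)) := by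
    rw [add_zero]; exact hF.symm
  refine (EE_cg h1 h2).trans ?_
  have h5 := (Cg.X_mul (k := 3) hA).mono (show 4 ≤ 3 + 2 by norm_num)
  have hX : Cg 4 (PowerSeries.X ^ 4 : PowerSeries ℤ) 0 := by
    have h := cg_X_pow (le_refl 4) (1 : PowerSeries ℤ)
    rwa [mul_one] at h
  have h6 := (Cg.refl 4 (PowerSeries.X ^ 3 : PowerSeries ℤ)).add hX
  rw [add_zero] at h6
  refine (Cg.of_eq ?_).trans (h5.trans ((Cg.of_eq ?_).trans h6))
  · ring
  · ring

end Cells

variable {P : Type u} [Fintype P] [PartialOrder P] [DecidableEq P]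
variable {k : Bool} {m L : ℕ} {e : ℕ → ℕ → P} {ch y : ℕ → P} {wf : P}

end Pool.Agent.GaussRot
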