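import Pool.Agent.W_448rot_h96.SmallE
import Pool.Agent.W_448rot_h96.SizesPB

/-!
# Low coefficients of the weights of the filters
-/

namespace Pool.Agent.GaussRot

set_option linter.unusedSectionVars false

open Finset Pool.Agent.GaussPoset

universe u

variable {P : Type u} [Fintype P] [PartialOrder P] [DecidableEq P]
variable {k : Bool} {m L : ℕ} {e : ℕ → ℕ → P} {ch y : ℕ → P} {wf : P}

open Classical in
/-- Transfer of an upper set to the cells: the cells of the common part whose image is in `G` form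
a relatively upper set, and `AF G` agrees with its series modulo `X^(jj+3)`: the elements of
`G` outside the common part have size `≥ jj + 3` (`Data.sz_out`, `sz_of_mem_J`), and the part of
`G` in the common part is the image of these cells (`AF_image`). -/
theorem Data.transfer (h : Data k m e L ch y wf) {G : Finset P} (hG : G ∈ J (univ : Finset P)) :
    (CC k m L).filter (fun p => eps k m e ch y p ∈ G) ∈ J (Rs k m L) ∧
      Cg (jj k m + 3) (AF G) (AF ((CC k m L).filter (fun p => eps k m e ch y p ∈ G))) := by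
  have hup := (mem_J.1 hG).2
  have hCC := mem_J.1 (CC_mem_J (k := k) (m := m) (L := L))
  refine ⟨?_, ?_⟩
  · rw [mem_J]
    refine ⟨(filter_subset _ _).trans hCC.1, fun p hp q hq hpq => ?_⟩
    rw [mem_filter] at hp ⊢
    have hq' := hCC.2 p hp.1 q hq hpq
    exact ⟨hq', hup _ hp.2 _ (mem_univ _) ((h.eps_le p hp.1 q hq').2 hpq)⟩
  · have hD : ((CC k m L).filter (fun p => eps k m e ch y p ∈ G)).image (eps k m e ch y) ∈
        J G := by
      rw [mem_J]
      refine ⟨fun z hz => ?_, fun z hz z' hz' hzz' => ?_⟩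
      · obtain ⟨p, hp, rfl⟩ := mem_image.1 hz
        exact (mem_filter.1 hp).2
      · obtain ⟨p, hp, rfl⟩ := mem_image.1 hz
        rw [mem_filter] at hp
        obtain ⟨q, hq, rfl⟩ := mem_image.1
          (h.upper _ (mem_image_of_mem _ hp.1) z' hzz')
        exact mem_image_of_mem _ (mem_filter.2 ⟨hq, hz'⟩)
    have h1 := AF_first hD (jj k m + 3) (fun z hz => by
      rw [mem_sdiff] at hz
      rw [sz_of_mem_J hG hz.1]
      refine h.sz_out fun hz' => hz.2 ?_
      obtain ⟨p, hp, rfl⟩ := mem_image.1 hz'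
      exact mem_image_of_mem _ (mem_filter.2 ⟨hp, hz.1⟩))
    have h2 : AF (((CC k m L).filter (fun p => eps k m e ch y p ∈ G)).image (eps k m e ch y)) =
        AF ((CC k m L).filter (fun p => eps k m e ch y p ∈ G)) :=
      AF_image fun p hp q hq => h.eps_le p (mem_filter.1 hp).1 q (mem_filter.1 hq).1
    rw [← h2]
    exact h1

/-- Every upper set not contained in the common part and `TT` contains `e 0 1` and, in the rectangle
case, `e 1 0`: it contains an element `z` as in `Data.outside`, below a `w` of type `{0,m}`, `{1}`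
or `{i-1,i}`, hence below some `x_l` with `l ≥ 1` (and `x_l ≤ e 0 1`, `e 1 0`; `m ≥ 3`; for
`l = m` in the rectangle case `x_m = e m 0` is not below `e 0 1`, but `w` is also below
`x_0` or `x_(m-1)`). -/
theorem Data.contains (h : Data k m e L ch y wf) {G : Finset P} (hG : G ∈ J (univ : Finset P))
    (hn : ¬ G ⊆ (CC k m L).image (eps k m e ch y) ∪ TT k m e L) :
    e 0 1 ∈ G ∧ (k = false → e 1 0 ∈ G) := by
  have hup := (mem_J.1 hG).2
  have hm := h.hm
  have hj : m ≤ jj k m := by
    cases k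
    · rw [jj_false]
    · rw [jj_true]; omega
  obtain ⟨z, hzG, hz⟩ := not_subset.1 hn
  obtain ⟨w, hzw, -, hw⟩ := h.outside hz
  have hwG : w ∈ G := hup z hzG w (mem_univ _) hzw
  have key : ∀ l, l ≤ m → w < e l (jj k m - l) → ∀ i c, reg k m i c → i ≤ l →
      c ≤ jj k m - l → e i c ∈ G := by
    intro l hl hwl i c hr hi hc
    obtain ⟨h1, h2⟩ := reg_x (k := k) hl
    exact hup w hwG _ (mem_univ _) (hwl.le.trans
      ((h.hT.le_iff l (jj k m - l) i c h1 h2.le hr (by omega)).2 ⟨hi, hc⟩))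
  have hr01 : reg k m 0 1 := reg_zero 1
  have hr10 : k = false → reg k m 1 0 := fun hk => by
    rw [hk, reg_false]; omega
  have hty : Typ k m e w {0, m} ∨ Typ k m e w {1} ∨ ∃ i, 2 ≤ i ∧ i ≤ m ∧
      Typ k m e w {i - 1, i} := by
    rcases hw with ⟨-, h1 | h1⟩ | ⟨-, h1 | h1 | h1⟩
    · exact Or.inl h1
    · exact Or.inr (Or.inl h1)
    · exact Or.inl h1
    · exact Or.inr (Or.inl h1)
    · exact Or.inr (Or.inr h1)
  rcases hty with h1 | h1 | ⟨i, hi2, him, h1⟩
  · have h0 := (h1.2 0 (Nat.zero_le _)).2 (by simp)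
    have hmm := (h1.2 m le_rfl).2 (by simp)
    exact ⟨key 0 (Nat.zero_le _) h0 0 1 hr01 le_rfl (by omega), fun hk =>
      key m le_rfl hmm 1 0 (hr10 hk) (by omega) (Nat.zero_le _)⟩
  · have h0 := (h1.2 1 (by omega)).2 (by simp)
    exact ⟨key 1 (by omega) h0 0 1 hr01 (by omega) (by omega), fun hk =>
      key 1 (by omega) h0 1 0 (hr10 hk) le_rfl (Nat.zero_le _)⟩
  · have h0 := (h1.2 (i - 1) (by omega)).2 (by simp)
    exact ⟨key (i - 1) (by omega) h0 0 1 hr01 (by omega) (by omega), fun hk =>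
      key (i - 1) (by omega) h0 1 0 (hr10 hk) (by omega) (Nat.zero_le _)⟩

lemma SmallP_EE {Q Q' : Type*} [PartialOrder Q] [DecidableEq Q] [PartialOrder Q'] [DecidableEq Q']
    {A' U' : PowerSeries ℤ} {s : ℕ} {G : Finset Q} {G' : Finset Q'} (h : Cg s (AF G) (AF G')) :
    Cg s (EE A' U' G) (EE A' U' G') := by
  unfold EE
  exact ((Cg.refl s _).mul h).sub (Cg.refl s _)

lemma SmallP_mem (h : Data k m e L ch y wf) {i c : ℕ} (hr : reg k m i c) (hic : i + c ≤ jj k m)
    {G : Finset P} (hG : e i c ∈ G) [DecidablePred fun p => eps k m e ch y p ∈ G] :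
    (⟨i, c⟩ : Cell) ∈ (CC k m L).filter (fun p => eps k m e ch y p ∈ G) := by
  have hL := h.hC.hL
  rw [mem_filter, mem_CC]
  refine ⟨⟨⟨hr, ?_⟩, Or.inl hic⟩, ?_⟩
  · change c < L
    omega
  · unfold eps
    rw [if_pos (show (⟨i, c⟩ : Cell).i + (⟨i, c⟩ : Cell).c ≤ jj k m from hic)]
    exact hG

/-- Rectangle case: for an upper set `G` not contained in the common part and `TT`,
`EE = X^2` modulo `X^3` (`Data.transfer`, `Data.contains`, `EE_false_three`, `EE_cg`). -/
theorem Data.EE_false (h : Data false m e L ch y wf) {G : Finset P}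
    (hG : G ∈ J (univ : Finset P))
    (hn : ¬ G ⊆ (CC false m L).image (eps false m e ch y) ∪ TT false m e L) :
    Cg 3 (EE (AF (Rs false m L)) (U1 (Rs false m L)) G) (PowerSeries.X ^ 2) := by
  classical
  have hm := h.hm
  have hL := h.hC.hL
  rw [jj_false] at hL
  obtain ⟨h1, h2⟩ := h.transfer hG
  obtain ⟨h3, h4⟩ := h.contains hG hn
  have h5 := SmallP_mem h (reg_zero 1) (by rw [jj_false]; omega) h3
  have h6 := SmallP_mem h (i := 1) (c := 0) (reg_false.2 (by omega)) (by rw [jj_false]; omega)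
    (h4 rfl)
  exact (SmallP_EE (h2.mono (by omega))).trans (EE_false_three hm hL h1 h5 h6).2

/-- Rectangle case: the filter generated by the new element contains `e 0 2` and `e 2 0`, so that
`EE = (X^2 + X^3)(1 + X) = X^2 + 2 X^3` modulo `X^4` (`Data.transfer`, `AF_false_four`,
`Data.up_wf_false`). -/
theorem Data.EE_wf (h : Data false m e L ch y wf) :
    Cg 4 (EE (AF (Rs false m L)) (U1 (Rs false m L)) (upF (univ : Finset P) wf))
      (PowerSeries.X ^ 2 + 2 * PowerSeries.X ^ 3) := by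
  classical
  have hm := h.hm
  have hL := h.hC.hL
  rw [jj_false] at hL
  obtain ⟨h1, h2⟩ := h.transfer (upF_mem_J (univ : Finset P) wf)
  rw [jj_false] at h2
  have h3 : e 0 2 ∈ upF (univ : Finset P) wf := mem_upF.2 ⟨mem_univ _,
    (h.up_wf_false _).2 (Or.inr (Or.inl ⟨2, by omega, rfl⟩))⟩
  have h4 : e 2 0 ∈ upF (univ : Finset P) wf := mem_upF.2 ⟨mem_univ _,
    (h.up_wf_false _).2 (Or.inr (Or.inr ⟨2, by omega, rfl⟩))⟩
  have h5 := SmallP_mem h (reg_zero 2) (by rw [jj_false]; omega) h3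
  have h6 := SmallP_mem h (i := 2) (c := 0) (reg_false.2 (by omega)) (by rw [jj_false]; omega) h4
  have h7 := AF_false_four hm hL h1 h5 h6
  have h8 := SmallE_A (show 0 < L by omega) h1 ⟨_, h5⟩
  have h9 : Cg 4 (AF (upF (univ : Finset P) wf) + 0) (AF (Rs false m L)) := by
    rw [add_zero]
    exact (h2.mono (by omega)).trans h7
  have h10 := EE_cg (g := PowerSeries.X ^ 2 + PowerSeries.X ^ 3) (b := 0)
    ((ref_small_false m L (by omega) (by omega)).trans (Cg.of_eq (by ring))) h9
  refine h10.trans ?_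
  have h11 : Cg 2 (AF (upF (univ : Finset P) wf)) (1 + PowerSeries.X) :=
    (h2.mono (by omega)).trans h8
  have h12 := Cg.X_mul (k := 2) ((Cg.refl 2 (1 + PowerSeries.X : PowerSeries ℤ)).mul h11)
  have h13 : Cg 4 (PowerSeries.X ^ 4 * 1 : PowerSeries ℤ) 0 := cg_X_pow le_rfl 1
  refine (Cg.of_eq ?_).trans (h12.trans ((Cg.of_eq ?_).trans
    (((Cg.refl 4 (PowerSeries.X ^ 2 + 2 * PowerSeries.X ^ 3)).add h13).trans (Cg.of_eq ?_))))
  · ring
  · ring
  · ring

/-- Shifted case: for an upper set `G` not contained in the common part and `TT`, `EE = O(X^3)`. -/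
theorem Data.EE_true (h : Data true m e L ch y wf) {G : Finset P} (hG : G ∈ J (univ : Finset P))
    (hn : ¬ G ⊆ (CC true m L).image (eps true m e ch y) ∪ TT true m e L) :
    Cg 3 (EE (AF (Rs true m L)) (U1 (Rs true m L)) G) 0 := by
  classical
  have hm := h.hm
  have hL := h.hC.hL
  rw [jj_true] at hL
  obtain ⟨h1, h2⟩ := h.transfer hG
  obtain ⟨h3, -⟩ := h.contains hG hn
  have h5 := SmallP_mem h (reg_zero 1) (by rw [jj_true]; omega) h3
  exact (SmallP_EE (h2.mono (by omega))).trans (EE_true_three hm hL h1 h5).2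

end Pool.Agent.GaussRot
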