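import Pool.Agent.W_448rot_h96.RectFill

/-!
# Fillings of a shifted staircase
-/

namespace Pool.Agent.GaussRot

open Finset

/-- columns `1..b-1` of the staircase `u ≤ v`, and the first `a` cells of column `b` -/
noncomputable def ST (b a : ℤ) : Finset (ℤ × ℤ) :=
  (Icc (1 : ℤ) b ×ˢ Icc (1 : ℤ) b).filter (fun p => p.1 ≤ p.2 ∧ (p.2 < b ∨ p.1 ≤ a))

lemma mem_ST {b a : ℤ} {p : ℤ × ℤ} :
    p ∈ ST b a ↔ (1 ≤ p.1 ∧ p.1 ≤ p.2 ∧ p.2 ≤ b) ∧ (p.2 < b ∨ p.1 ≤ a) := by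
  unfold ST
  simp only [mem_filter, mem_product, mem_Icc]
  constructor
  · rintro ⟨⟨⟨h1, h2⟩, h3, h4⟩, h5, h6⟩; exact ⟨⟨h1, h5, h4⟩, h6⟩
  · rintro ⟨⟨h1, h2, h3⟩, h4⟩; exact ⟨⟨⟨h1, by omega⟩, by omega, h3⟩, h2, h4⟩

/-- right end of the hooks of row `u` of the symmetric doubled shape -/
def rS (b a u : ℤ) : ℤ := if u ≤ a then b - u else if u < b then b - 1 - u else a - b

/-- multiplicity with which the diagonal `d` is met by the cell `p`: the hook interval of `p` and,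
for `p` off the main diagonal, also that of the transposed cell -/
def wS (b a : ℤ) (p : ℤ × ℤ) (d : ℤ) : ℕ :=
  (if -rS b a p.2 ≤ d ∧ d ≤ rS b a p.1 then 1 else 0) +
    (if p.1 ≠ p.2 ∧ -rS b a p.1 ≤ d ∧ d ≤ rS b a p.2 then 1 else 0)

lemma StairFill_rS (b a u : ℤ) : (u ≤ a ∧ rS b a u = b - u) ∨
    (a < u ∧ u < b ∧ rS b a u = b - 1 - u) ∨ (a < u ∧ b ≤ u ∧ rS b a u = a - b) := by
  unfold rS
  split_ifs <;> omega

/-- adding the cell `(a+1, b)`, `a + 1 < b` (off the main diagonal) -/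
theorem corner_ST {b a : ℤ} {N : ℕ} (hbN : b ≤ N) (ha : 0 ≤ a) (hab : a + 1 < b) :
    Corner (↑(ST b a) : Set (ℤ × ℤ)) N (a + 1) b ∧
      (↑(ST b (a + 1)) : Set (ℤ × ℤ)) = insert (a + 1, b) (↑(ST b a) : Set (ℤ × ℤ)) ∧
      ST b (a + 1) = insert (a + 1, b) (ST b a) ∧ (a + 1, b) ∉ ST b a := by
  have h1 : ST b (a + 1) = insert (a + 1, b) (ST b a) := by
    ext ⟨u, v⟩
    rw [mem_insert, mem_ST, mem_ST, Prod.mk.injEq]
    simp only
    omega
  refine ⟨⟨?_, ?_, ?_, ?_, ?_, ?_⟩, ?_, h1, ?_⟩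
  · rintro ⟨u, v⟩ hp
    rw [mem_coe, mem_ST] at hp
    simp only at hp ⊢
    omega
  · omega
  · omega
  · omega
  · intro u hu1 hu2 hu3
    simp only [mem_coe, mem_ST]
    omega
  · intro u hu1
    simp only [mem_coe, mem_ST]
    omega
  · rw [h1, coe_insert]
  · rw [mem_ST]
    simp only
    omega

/-- adding the cell `(b, b)` -/
theorem dcorner_ST {b : ℤ} {N : ℕ} (hb : 1 ≤ b) (hbN : b ≤ N) :
    DCorner (↑(ST b (b - 1)) : Set (ℤ × ℤ)) N b ∧
      (↑(ST b b) : Set (ℤ × ℤ)) = insert (b, b) (↑(ST b (b - 1)) : Set (ℤ × ℤ)) ∧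
      ST b b = insert (b, b) (ST b (b - 1)) ∧ (b, b) ∉ ST b (b - 1) := by
  have h1 : ST b b = insert (b, b) (ST b (b - 1)) := by
    ext ⟨u, v⟩
    rw [mem_insert, mem_ST, mem_ST, Prod.mk.injEq]
    simp only
    omega
  refine ⟨⟨?_, ?_, ?_, ?_, ?_⟩, ?_, h1, ?_⟩
  · rintro ⟨u, v⟩ hp
    rw [mem_coe, mem_ST] at hp
    simp only at hp ⊢
    omega
  · omega
  · omega
  · intro u hu1 hu2
    simp only [mem_coe, mem_ST]
    omega
  · intro u hu1
    simp only [mem_coe, mem_ST]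
    omega
  · rw [h1, coe_insert]
  · rw [mem_ST]
    simp only
    omega

/-- indicator identities for an off diagonal cell, `d0 = b - (a+1) ≥ 1`, `d ≥ 0` (unfold, split,
`omega`); the new cell has multiplicity `[d = d0]` -/
theorem hook_step_ST {b a : ℤ} (ha : 0 ≤ a) (hab : a + 1 < b) {p : ℤ × ℤ} (hp : p ∈ ST b a) :
    (∀ d, 0 ≤ d → d ≠ b - (a + 1) → wS b (a + 1) p d = wS b a p d) ∧
      wS b (a + 1) p (b - (a + 1)) + wS b a p (b - (a + 1)) =
        wS b a p (b - (a + 1) - 1) + wS b a p (b - (a + 1) + 1) ∧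
      ∀ d, 0 ≤ d → wS b (a + 1) (a + 1, b) d = if d = b - (a + 1) then 1 else 0 := by
  obtain ⟨u, v⟩ := p
  rw [mem_ST] at hp
  simp only at hp
  have h1 := StairFill_rS b a u
  have h2 := StairFill_rS b a v
  have h3 := StairFill_rS b (a + 1) u
  have h4 := StairFill_rS b (a + 1) v
  refine ⟨?_, ?_, ?_⟩
  · intro d hd hd'
    unfold wS
    simp only
    split_ifs <;> omega
  · unfold wS
    simp only
    split_ifs <;> omega
  · intro d hd
    clear h1 h2 h3 h4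
    have h5 := StairFill_rS b (a + 1) (a + 1)
    have h6 := StairFill_rS b (a + 1) b
    unfold wS
    simp only
    split_ifs <;> omega

/-- indicator identities for the cell `(b,b)` -/
theorem hook_step_ST' {b : ℤ} (hb : 1 ≤ b) {p : ℤ × ℤ} (hp : p ∈ ST b (b - 1)) :
    (∀ d, 0 < d → wS b b p d = wS b (b - 1) p d) ∧
      wS b b p 0 + wS b (b - 1) p 0 = 2 * wS b (b - 1) p 1 ∧
      ∀ d, 0 ≤ d → wS b b (b, b) d = if d = 0 then 1 else 0 := by
  obtain ⟨u, v⟩ := p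
  rw [mem_ST] at hp
  simp only at hp
  have h1 := StairFill_rS b (b - 1) u
  have h2 := StairFill_rS b (b - 1) v
  have h3 := StairFill_rS b b u
  have h4 := StairFill_rS b b v
  refine ⟨?_, ?_, ?_⟩
  · intro d hd
    unfold wS
    simp only
    split_ifs <;> omega
  · unfold wS
    simp only
    split_ifs <;> omega
  · intro d _
    clear h1 h2 h3 h4
    have h5 := StairFill_rS b b b
    unfold wS
    simp only
    split_ifs <;> omega

end Pool.Agent.GaussRot
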