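import Pool.Agent.W_448rot_h96.RefLast
import Pool.Agent.W_448rot_h96.SizesRB
import Pool.Agent.W_448rot_h96.SmallE

/-!
# The straight elements beyond the chain do not contribute
-/

namespace Pool.Agent.GaussRot

set_option linter.unusedSectionVars false

open Finset Pool.Agent.GaussPoset

universe u

section TPartA

variable {k : Bool} {m L : ℕ}

lemma TPartA_last_mem (hL : 1 ≤ L) : (⟨0, L - 1⟩ : Cell) ∈ Rs k m L := by
  rw [mem_Rs]
  exact ⟨reg_zero _, by change L - 1 < L; omega⟩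

/-- the cells without the last column form a relatively upper set -/
lemma TPartA_last_J : Rs k m (L - 1) ∈ J (Rs k m L) := by
  rw [mem_J]
  constructor
  · intro p hp
    rw [mem_Rs] at hp ⊢
    exact ⟨hp.1, by omega⟩
  · intro p hp q hq hpq
    rw [mem_Rs] at hp hq ⊢
    rw [cell_le] at hpq
    exact ⟨hq.1, by omega⟩

/-- a relatively upper set is contained in the part without the last column iff it does not
contain the last cell of row `0` -/
lemma TPartA_iff (hL : 1 ≤ L) {G : Finset Cell} (hG : G ∈ J (Rs k m L)) :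
    ¬ G ⊆ Rs k m (L - 1) ↔ (⟨0, L - 1⟩ : Cell) ∈ G := by
  rw [mem_J] at hG
  constructor
  · intro h
    rw [Finset.not_subset] at h
    obtain ⟨p, hp, hp'⟩ := h
    have h1 := hG.1 hp
    rw [mem_Rs] at h1 hp'
    have h2 : ¬ p.c < L - 1 := fun h3 => hp' ⟨h1.1, h3⟩
    refine hG.2 p hp _ (TPartA_last_mem hL) ?_
    rw [cell_le]
    exact ⟨Nat.zero_le _, by change L - 1 ≤ p.c; omega⟩
  · intro h h1
    have h2 := h1 h
    rw [mem_Rs] at h2
    have h3 : L - 1 < L - 1 := h2.2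
    omega

/-- the last cell of row `0` is minimal in the common part -/
lemma TPartA_min (hL : jj k m + 2 ≤ L) {p : Cell} (hp : p ∈ CC k m L)
    (h : p ≤ (⟨0, L - 1⟩ : Cell)) : p = ⟨0, L - 1⟩ := by
  rw [mem_CC] at hp
  rw [cell_le] at h
  have h1 : L - 1 ≤ p.c := h.2
  have h2 := hp.1.2
  rcases hp.2 with h3 | h3 | h3
  · omega
  · refine Cell.ext h3 ?_
    change p.c = L - 1
    omega
  · omega

lemma TPartA_erase (hL : jj k m + 2 ≤ L) :
    (CC k m L).erase ⟨0, L - 1⟩ ∈ J (CC k m L) := by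
  rw [mem_J]
  refine ⟨Finset.erase_subset _ _, fun p hp q hq hpq => ?_⟩
  rw [Finset.mem_erase] at hp ⊢
  refine ⟨?_, hq⟩
  rintro rfl
  exact hp.1 (TPartA_min hL hp.2 hpq)

/-- weights of the sets outside the common part -/
lemma TPartA_term (hm : 3 ≤ m) (hL : jj k m + 2 ≤ L) {G : Finset Cell}
    (hG : G ∈ J (Rs k m L)) (h0 : (⟨0, L - 1⟩ : Cell) ∈ G) (hn : ¬ G ⊆ CC k m L) :
    Cg (2 * jj k m + 5)
      (PowerSeries.X ^ G.card * EE (AF (Rs k m L)) (U1 (Rs k m L)) G) 0 := by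
  cases k with
  | false =>
    rw [jj_false] at hL ⊢
    have h1 := ref_big_false hm hL hG h0 hn
    have h2 := EE_false_two hm (by omega) hG ⟨_, h0⟩
    have h3 := Cg.X_mul (k := G.card) h2
    rw [mul_zero] at h3
    exact h3.mono (by omega)
  | true =>
    rw [jj_true] at hL ⊢
    have h1 := ref_big_true hm hL hG h0 hn
    have h01 : (⟨0, 1⟩ : Cell) ∈ G := by
      refine (mem_J.1 hG).2 _ h0 _ ?_ ?_
      · rw [mem_Rs]
        exact ⟨reg_zero _, by change 1 < L; omega⟩
      · rw [cell_le]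
        exact ⟨le_rfl, by change 1 ≤ L - 1; omega⟩
    have h2 := (EE_true_three hm (by omega) hG h01).2
    have h3 := Cg.X_mul (k := G.card) h2
    rw [mul_zero] at h3
    exact h3.mono (by omega)

end TPartA

/-- Cells only: with `x' = (0, L-1)` the difference `Phi (CC) - Phi (CC.erase x')` vanishes modulo
`X^(2 jj + 5)`.  By `Phi_diff` it is the sum of `X^|G| EE G` over the `G ∈ J CC` with `x' ∈ G`,
i.e. over the `G ∈ J (Rs k m L)`, `x' ∈ G`, `G ⊆ CC`.  The sum over all `G ∈ J (Rs k m L)` with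
`x' ∈ G` is `Phi (Rs k m L) - Phi (Rs k m (L-1))` (`Phi_diff`, `J_last`: a relatively upper set
is contained in `Rs k m (L-1)` iff it does not contain `x'`), which vanishes modulo `X^(2L+1)`
(`ref_last`), `2L + 1 ≥ 2 jj + 5`.  The `G` not contained in `CC` have `|G| ≥ 2m + 3` and
`EE G = O(X^2)` (rectangle; `ref_big_false`, `EE_false_two`), resp. `|G| ≥ 4m + 2` and
`EE G = O(X^3)` (`ref_big_true`, `EE_true_three`: `G` contains row `0`). -/
theorem ref_T (k : Bool) (m L : ℕ) (hm : 3 ≤ m) (hL : jj k m + 2 ≤ L) :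
    Cg (2 * jj k m + 5)
      (Phi (AF (Rs k m L)) (U1 (Rs k m L)) (CC k m L) -
        Phi (AF (Rs k m L)) (U1 (Rs k m L)) ((CC k m L).erase ⟨0, L - 1⟩)) 0 := by
  classical
  have hL1 : 1 ≤ L := by omega
  have h1 := ref_last k m L hL1
  rw [Phi_diff _ _ TPartA_last_J] at h1
  rw [Phi_diff _ _ (TPartA_erase hL)]
  -- both sums in terms of the sets containing the last cell
  have h2 : (J (Rs k m L)).filter (fun G => ¬ G ⊆ Rs k m (L - 1)) =
      (J (Rs k m L)).filter (fun G => (⟨0, L - 1⟩ : Cell) ∈ G) :=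
    Finset.filter_congr fun G hG => TPartA_iff hL1 hG
  have h3 : (J (CC k m L)).filter (fun G => ¬ G ⊆ (CC k m L).erase ⟨0, L - 1⟩) =
      ((J (Rs k m L)).filter (fun G => (⟨0, L - 1⟩ : Cell) ∈ G)).filter
        (fun G => G ⊆ CC k m L) := by
    rw [J_of_mem CC_mem_J]
    ext G
    rw [Finset.mem_filter, Finset.mem_filter, Finset.mem_filter, Finset.mem_filter]
    constructor
    · rintro ⟨⟨h4, h5⟩, h6⟩
      refine ⟨⟨h4, ?_⟩, h5⟩
      by_contra h7
      refine h6 fun p hp => Finset.mem_erase.2 ⟨?_, h5 hp⟩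
      rintro rfl
      exact h7 hp
    · rintro ⟨⟨h4, h7⟩, h5⟩
      refine ⟨⟨h4, h5⟩, fun h6 => ?_⟩
      exact (Finset.mem_erase.1 (h6 h7)).1 rfl
  rw [h2] at h1
  rw [h3]
  have h8 := Finset.sum_filter_add_sum_filter_not
    ((J (Rs k m L)).filter (fun G => (⟨0, L - 1⟩ : Cell) ∈ G)) (fun G => G ⊆ CC k m L)
    (fun G => PowerSeries.X ^ G.card * EE (AF (Rs k m L)) (U1 (Rs k m L)) G)
  have h9 : Cg (2 * jj k m + 5)
      (∑ G ∈ ((J (Rs k m L)).filter (fun G => (⟨0, L - 1⟩ : Cell) ∈ G)).filter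
        (fun G => ¬ G ⊆ CC k m L),
        PowerSeries.X ^ G.card * EE (AF (Rs k m L)) (U1 (Rs k m L)) G) 0 := by
    have h10 := Cg.sum (n := 2 * jj k m + 5)
      (((J (Rs k m L)).filter (fun G => (⟨0, L - 1⟩ : Cell) ∈ G)).filter
        (fun G => ¬ G ⊆ CC k m L))
      (f := fun G => PowerSeries.X ^ G.card * EE (AF (Rs k m L)) (U1 (Rs k m L)) G)
      (g := fun _ => 0) (fun G hG => by
        rw [Finset.mem_filter, Finset.mem_filter] at hG
        exact TPartA_term hm hL hG.1.1 hG.1.2 hG.2)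
    rw [Finset.sum_const_zero] at h10
    exact h10
  have h11 := (h1.mono (m := 2 * jj k m + 5) (by omega)).sub h9
  rw [sub_zero] at h11
  refine (Cg.of_eq ?_).trans h11
  rw [eq_sub_iff_add_eq]
  exact h8

variable {P : Type u} [Fintype P] [PartialOrder P] [DecidableEq P]
variable {k : Bool} {m L : ℕ} {e : ℕ → ℕ → P} {ch y : ℕ → P} {wf : P}

end Pool.Agent.GaussRot
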