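import Pool.Agent.W_448rot_h96.TopDefs

/-!
# The top part of the poset, and the three types of rotations
-/

namespace Pool.Agent.GaussRot

set_option linter.unusedSectionVars false

open Finset Pool.Agent.GaussPoset

universe u

variable {P : Type u} [Fintype P] [PartialOrder P] [DecidableEq P]

variable {k : Bool} {m : ℕ} {e : ℕ → ℕ → P}

/-- In a Gaussian poset, between an element `w` and an element `y ≥ w` there are elements of all
intermediate levels: induction on `lev w - lev y`; if `w < y` choose `z` with `w ⋖ z ≤ y`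
(`exists_covBy_le` type lemma for finite orders), `lev w = lev z + 1` by `lev_covBy`. -/
theorem between (hG : IsGaussian P) {w y : P} (h : w ≤ y) {l : ℕ} (h1 : lev y ≤ l)
    (h2 : l ≤ lev w) : ∃ v, w ≤ v ∧ v ≤ y ∧ lev v = l := by
  have key : ∀ n : ℕ, ∀ w : P, lev w = l + n → w ≤ y → ∃ v, w ≤ v ∧ v ≤ y ∧ lev v = l := by
    intro n
    induction n with
    | zero => exact fun w hw hwy => ⟨w, le_rfl, hwy, hw⟩
    | succ n ih =>
      intro w hw hwy
      have hlt : w < y := lt_of_le_of_ne hwy (by rintro rfl; omega)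
      obtain ⟨z, hz, hzy⟩ := exists_covBy_le_of_lt hlt
      have h3 := lev_covBy hG hz
      obtain ⟨v, hv1, hv2, hv3⟩ := ih z (by omega) hzy
      exact ⟨v, hz.le.trans hv1, hv2, hv3⟩
  exact key (lev w - l) w (by omega) h

/-- every element of level `≥ jj k m` is below some `x_i`, `i ≤ m` -/
theorem Top.exists_x (hG : IsGaussian P) (hT : Top k m e) {z : P} (hz : jj k m ≤ lev z) :
    ∃ i ≤ m, z ≤ e i (jj k m - i) := by
  have key : ∀ n : ℕ, ∀ w : P, lev w = jj k m + n → ∃ v, w ≤ v ∧ lev v = jj k m := by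
    intro n
    induction n with
    | zero => exact fun w hw => ⟨w, le_rfl, hw⟩
    | succ n ih =>
      intro w hw
      obtain ⟨z, hz, hz2⟩ := exists_lev_succ (k := jj k m + n) hw
      obtain ⟨v, hv1, hv2⟩ := ih z hz2
      exact ⟨v, hz.le.trans hv1, hv2⟩
  obtain ⟨v, hzv, hv⟩ := key (lev z - jj k m) z (by omega)
  obtain ⟨i, c, hr, hic, rfl⟩ := hT.surj v hv.le
  have h1 := hT.lev_e i c hr hic
  have hc : c = jj k m - i := by omega
  exact ⟨i, reg_le hr hic, hc ▸ hzv⟩

/-- an element of level `> jj k m` is strictly below an element `e i c` of the top part if and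
only if it is below some `x_l` with `i ≤ l`, `c ≤ jj k m - l` -/
theorem Top.le_e_iff (hG : IsGaussian P) (hT : Top k m e) {z : P} (hz : jj k m ≤ lev z) {i c : ℕ}
    (hr : reg k m i c) (hic : i + c ≤ jj k m) :
    z ≤ e i c ↔ ∃ l ≤ m, i ≤ l ∧ c ≤ jj k m - l ∧ z ≤ e l (jj k m - l) := by
  constructor
  · intro h
    have h1 := hT.lev_e i c hr hic
    obtain ⟨v, hv1, hv2, hv3⟩ := between hG h (l := jj k m) (by omega) hz
    obtain ⟨l, c', hr', hlc, rfl⟩ := hT.surj v hv3.le
    have h2 := hT.lev_e l c' hr' hlc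
    have hc : c' = jj k m - l := by omega
    obtain ⟨h3, h4⟩ := (hT.le_iff l c' i c hr' hlc hr hic).1 hv2
    exact ⟨l, reg_le hr' hlc, h3, hc ▸ h4, hc ▸ hv1⟩
  · rintro ⟨l, hl, hil, hcl, hzl⟩
    obtain ⟨h1, h2⟩ := reg_x (k := k) hl
    exact hzl.trans ((hT.le_iff l (jj k m - l) i c h1 h2.le hr hic).2 ⟨hil, hcl⟩)

/-- the elements of level `jj k m + 1` which are straight are those of type `{0}` -/
theorem st_iff_typ (hG : IsGaussian P) (hT : Top k m e) {w : P} (hw : lev w = jj k m + 1) :
    St k m e w ↔ Typ k m e w {0} := by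
  have hlt : ∀ i ≤ m, (w < e i (jj k m - i) ↔ w ≤ e i (jj k m - i)) := by
    intro i hi
    obtain ⟨h1, h2⟩ := reg_x (k := k) hi
    have h3 := hT.lev_e i (jj k m - i) h1 h2.le
    constructor
    · exact le_of_lt
    · intro h
      refine lt_of_le_of_ne h ?_
      intro he
      rw [← he, hw] at h3
      omega
  constructor
  · intro h
    refine ⟨hw, fun i hi => ?_⟩
    rw [hlt i hi, Finset.mem_singleton]
    constructor
    · intro h1
      by_contra h0
      exact h.2 i (by omega) hi h1
    · rintro rfl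
      obtain ⟨l, hl, hzl⟩ := hT.exists_x hG h.1
      rcases Nat.eq_zero_or_pos l with h0 | h0
      · rw [h0] at hzl
        exact hzl
      · exact absurd hzl (h.2 l h0 hl)
  · intro h
    refine ⟨by omega, fun i h1 h2 h3 => ?_⟩
    have h4 := (h.2 i h2).1 ((hlt i h2).2 h3)
    rw [Finset.mem_singleton] at h4
    omega

/-- the elements above a straight element in the top part are the `e 0 c` -/
theorem St.above (hG : IsGaussian P) (hT : Top k m e) {z : P} (h : St k m e z) {i c : ℕ}
    (hr : reg k m i c) (hic : i + c ≤ jj k m) : z ≤ e i c ↔ i = 0 := by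
  constructor
  · intro h1
    obtain ⟨l, hl, hil, -, hzl⟩ := (hT.le_e_iff hG h.1 hr hic).1 h1
    rcases Nat.eq_zero_or_pos l with h0 | h0
    · omega
    · exact absurd hzl (h.2 l h0 hl)
  · rintro rfl
    obtain ⟨l, hl, hzl⟩ := hT.exists_x hG h.1
    rcases Nat.eq_zero_or_pos l with h0 | h0
    · subst h0
      rw [hT.le_e_iff hG h.1 hr hic]
      exact ⟨0, hl, le_rfl, by omega, hzl⟩
    · exact absurd hzl (h.2 l h0 hl)

end Pool.Agent.GaussRot
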