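import Pool.Agent.W_MP_448cb3_h96.Struct

/-!
# Unimodality of the level sizes
-/

namespace Pool.Agent.GaussRot

set_option linter.unusedSectionVars false

open Finset Pool.Agent.GaussPoset

universe u

lemma Unimod_ne {n : ℕ} (hn : 0 < n) : (1 - (Polynomial.X : Polynomial ℂ) ^ n) ≠ 0 := by
  intro h
  have h1 := Polynomial.X_pow_sub_C_ne_zero hn (1 : ℂ)
  apply h1
  rw [map_one, ← neg_sub, h, neg_zero]

lemma Unimod_factor {n : ℕ} (hn : 0 < n) {d : ℕ} {z : ℂ} (hz : IsPrimitiveRoot z d) :
    Polynomial.rootMultiplicity z (1 - (Polynomial.X : Polynomial ℂ) ^ n) =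
      if d ∣ n then 1 else 0 := by
  have h0 := Unimod_ne hn
  split_ifs with h
  · apply le_antisymm
    · apply Polynomial.rootMultiplicity_le_one_of_separable
      rw [← neg_sub]
      have h1 : ((Polynomial.X : Polynomial ℂ) ^ n - 1).Separable := by
        have h2 : ((n : ℕ) : ℂ) ≠ 0 := by
          exact_mod_cast hn.ne'
        exact Polynomial.X_pow_sub_one_separable_iff.2 h2
      have h3 := Polynomial.Separable.unit_mul (isUnit_one.neg : IsUnit (-1 : Polynomial ℂ)) h1
      rw [neg_one_mul] at h3
      exact h3
    · have h4 : 0 < Polynomial.rootMultiplicity z (1 - (Polynomial.X : Polynomial ℂ) ^ n) := by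
        rw [Polynomial.rootMultiplicity_pos h0, Polynomial.IsRoot.def]
        simp [(hz.pow_eq_one_iff_dvd n).2 h]
      omega
  · apply Polynomial.rootMultiplicity_eq_zero
    rw [Polynomial.IsRoot.def]
    intro h5
    apply h
    rw [← hz.pow_eq_one_iff_dvd]
    simp only [Polynomial.eval_sub, Polynomial.eval_one, Polynomial.eval_pow,
      Polynomial.eval_X] at h5
    exact (sub_eq_zero.1 h5).symm

/-- multiplicity of a primitive `d`-th root of unity as a root of `∏ (1 - X^(n i))`: the number of
`i` with `d ∣ n i` (`1 - X^n` has simple roots, the `n`-th roots of unity) -/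
theorem root_mult {ι : Type*} [DecidableEq ι] (s : Finset ι) (n : ι → ℕ) (hn : ∀ i ∈ s, 0 < n i) {d : ℕ}
    (hd : 0 < d) {z : ℂ} (hz : IsPrimitiveRoot z d) :
    Polynomial.rootMultiplicity z (∏ i ∈ s, (1 - (Polynomial.X : Polynomial ℂ) ^ (n i))) =
      (s.filter (fun i => d ∣ n i)).card := by
  induction s using Finset.induction_on with
  | empty => simp
  | insert a s ha ih =>
    have ih' := ih fun i hi => hn i (Finset.mem_insert_of_mem hi)
    have hne : ∏ i ∈ insert a s, (1 - (Polynomial.X : Polynomial ℂ) ^ (n i)) ≠ 0 := by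
      rw [Finset.prod_ne_zero_iff]
      intro i hi
      exact Unimod_ne (hn i hi)
    rw [Finset.prod_insert ha] at hne ⊢
    rw [Polynomial.rootMultiplicity_mul hne, ih', Unimod_factor (hn a (Finset.mem_insert_self a s)) hz,
      Finset.filter_insert]
    split_ifs with h
    · rw [Finset.card_insert_of_notMem, add_comm]
      intro h1
      exact ha (Finset.mem_filter.1 h1).1
    · rw [zero_add]

lemma Unimod_fiber {ι : Type*} [DecidableEq ι] (s : Finset ι) (g : ι → ℕ) (N : ℕ)
    (hN : ∀ i ∈ s, g i < N) (p : ℕ → Prop) [DecidablePred p] :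
    (s.filter (fun i => p (g i))).card =
      ∑ j ∈ Finset.range N, if p j then (s.filter (fun i => g i = j)).card else 0 := by
  rw [Finset.card_eq_sum_card_fiberwise (f := g) (t := Finset.range N)]
  · refine Finset.sum_congr rfl fun j _ => ?_
    split_ifs with h
    · congr 1
      ext i
      simp only [Finset.mem_filter]
      constructor
      · rintro ⟨⟨a, _⟩, c⟩
        exact ⟨a, c⟩
      · rintro ⟨a, c⟩
        exact ⟨⟨a, by rw [c]; exact h⟩, c⟩
    · rw [Finset.card_eq_zero, Finset.filter_eq_empty_iff]
      intro i hi hij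
      rw [Finset.mem_filter] at hi
      rw [hij] at hi
      exact h hi.2
  · intro i hi
    rw [Finset.mem_coe, Finset.mem_filter] at hi
    exact Finset.mem_coe.2 (Finset.mem_range.2 (hN i hi.1))

lemma Unimod_transfer {P : Type u} [Fintype P] [PartialOrder P] [DecidableEq P]
    {h : Fin (Fintype.card P) → ℕ} (hpos : ∀ i, 0 < h i)
    (hc : ∀ j, ((univ : Finset (Fin (Fintype.card P))).filter (fun i => h i - 1 = j)).card =
      (lv P j).card) (p : ℕ → Prop) [DecidablePred p] :
    ((univ : Finset (Fin (Fintype.card P))).filter (fun i => p (h i))).card =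
      ((univ : Finset P).filter (fun x => p (lev x + 1))).card := by
  obtain ⟨N1, hN1⟩ : ∃ N, ∀ i ∈ (univ : Finset (Fin (Fintype.card P))), h i < N :=
    ⟨∑ i, h i + 1, fun i hi => Nat.lt_succ_of_le (Finset.single_le_sum (f := h)
      (fun _ _ => Nat.zero_le _) hi)⟩
  obtain ⟨N2, hN2⟩ : ∃ N, ∀ x ∈ (univ : Finset P), lev x + 1 < N :=
    ⟨∑ x : P, (lev x + 1) + 1, fun x hx => Nat.lt_succ_of_le (Finset.single_le_sum
      (f := fun x : P => lev x + 1) (fun _ _ => Nat.zero_le _) hx)⟩
  rw [Unimod_fiber univ h (N1 + N2) (fun i hi => (hN1 i hi).trans_le (Nat.le_add_right _ _)) p,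
    Unimod_fiber univ (fun x : P => lev x + 1) (N1 + N2)
      (fun i hi => (hN2 i hi).trans_le (Nat.le_add_left _ _)) p]
  refine Finset.sum_congr rfl fun j _ => ?_
  split_ifs with hp
  · rcases j with _ | j
    · have e1 : (univ : Finset (Fin (Fintype.card P))).filter (fun i => h i = 0) = ∅ := by
        rw [Finset.filter_eq_empty_iff]
        intro i _ hi
        have := hpos i
        omega
      have e2 : (univ : Finset P).filter (fun x => lev x + 1 = 0) = ∅ := by
        rw [Finset.filter_eq_empty_iff]
        intro i _ hi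
        omega
      rw [e1, e2, Finset.card_empty, Finset.card_empty]
    · have e1 : (univ : Finset (Fin (Fintype.card P))).filter (fun i => h i = j + 1) =
          univ.filter (fun i => h i - 1 = j) := by
        refine Finset.filter_congr fun i _ => ?_
        have := hpos i
        omega
      have e2 : (univ : Finset P).filter (fun x => lev x + 1 = j + 1) = lv P j := by
        unfold lv
        refine Finset.filter_congr fun i _ => ?_
        omega
      rw [e1, e2, hc]
  · rfl

/-- Comparison of exponents for a Gaussian poset: for every `M` and `d ≥ 1` the number of exponents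
divisible by `d` is at most the number of exponents `h` with `d ∣ M + h`; here the exponents are
the `lev x + 1`.  From `U_M ∏ (1 - X^h) = ∏ (1 - X^(M+h))` over `ℂ`, `root_mult` and
`Polynomial.rootMultiplicity_mul`.  (The multiset of the `h i` is that of the `lev x + 1`:
`window_main`.) -/
theorem exps_dvd {P : Type u} [Fintype P] [PartialOrder P] [DecidableEq P] (hG : IsGaussian P)
    (M d : ℕ) (hd : 0 < d) :
    ((univ : Finset P).filter (fun x => d ∣ lev x + 1)).card ≤
      ((univ : Finset P).filter (fun x => d ∣ M + (lev x + 1))).card := by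
  obtain ⟨h, hpos, hU⟩ := hG
  have hc : ∀ j, ((univ : Finset (Fin (Fintype.card P))).filter (fun i => h i - 1 = j)).card =
      (lv P j).card := by
    intro j
    have h1 := (window_main (P := P) j hpos hU).2.1
    convert h1
  have hz : IsPrimitiveRoot (Complex.exp (2 * Real.pi * Complex.I / d)) d :=
    Complex.isPrimitiveRoot_exp d hd.ne'
  have h2 := congrArg (Polynomial.map (Int.castRingHom ℂ)) (hU M)
  simp only [Polynomial.map_mul, Polynomial.map_prod, Polynomial.map_sub, Polynomial.map_one,
    Polynomial.map_pow, Polynomial.map_X] at h2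
  have hne : ∏ i : Fin (Fintype.card P), (1 - (Polynomial.X : Polynomial ℂ) ^ (M + h i)) ≠ 0 := by
    rw [Finset.prod_ne_zero_iff]
    intro i _
    have := hpos i
    exact Unimod_ne (by omega)
  have h3 := congrArg (Polynomial.rootMultiplicity (Complex.exp (2 * Real.pi * Complex.I / d))) h2
  rw [Polynomial.rootMultiplicity_mul (by rw [h2]; exact hne),
    root_mult univ h (fun i _ => hpos i) hd hz,
    root_mult univ (fun i => M + h i) (fun i _ => by have := hpos i; omega) hd hz,
    Unimod_transfer hpos hc (fun n => d ∣ n), Unimod_transfer hpos hc (fun n => d ∣ M + n)] at h3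
  omega

end Pool.Agent.GaussRot
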